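import Mathlib

/-!
# Sides of Newton polygons, initial forms and residual polynomials

For `r ≥ 0`, `s > 0` and `P = ∑ c_i T^i ∈ ℤ[T]` the weight of `c_i T^i` is `s v_p(c_i) + r i`.
-/

set_option autoImplicit false

open Polynomial

namespace Pool.Agent.Y218.NP

/-- The least weight `s v_p(c_i) + r i` of a nonzero coefficient `c_i` of `P`. -/
noncomputable def wt (p r s : ℕ) (P : ℤ[X]) : ℕ :=
  sInf {w | ∃ i, P.coeff i ≠ 0 ∧ w = s * padicValInt p (P.coeff i) + r * i}

/-- The initial form of `P` on the side of slope `r / s`: the sum of `(c_i / p^v(c_i)) T^i` modulo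
`p` over the `i` for which the weight `s v(c_i) + r i` is the least one. -/
noncomputable def side (p r s : ℕ) (P : ℤ[X]) : (ZMod p)[X] :=
  ∑ i ∈ P.support, if s * padicValInt p (P.coeff i) + r * i = wt p r s P then
    C (((P.coeff i / (p : ℤ) ^ padicValInt p (P.coeff i) : ℤ)) : ZMod p) * X ^ i else 0

/-- The length of the side of slope `r / s` of the Newton polygon, which is the number of `p`-adic
roots of `P` of valuation `r / s`. -/
noncomputable def len (p r s : ℕ) (P : ℤ[X]) : ℕ :=
  (side p r s P).natDegree - (side p r s P).natTrailingDegree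

/-- the slopes `r / s < a` in lowest terms, `s ≤ b` -/
def slopes (a b : ℕ) : Finset (ℕ × ℕ) :=
  ((Finset.range (a * b)) ×ˢ (Finset.Icc 1 b)).filter
    (fun x => Nat.Coprime x.1 x.2 ∧ x.1 < a * x.2)

/-- The sum over the slopes `r / s < a` in lowest terms, `s ≤ deg P`, of the length of the side of
slope `r / s` divided by `s`. -/
noncomputable def sides (p a : ℕ) (P : ℤ[X]) : ℕ :=
  ∑ x ∈ slopes a P.natDegree, len p x.1 x.2 P / x.2

/-- `R` is the residual polynomial of `P` of slope `r / s`: the initial form is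
`T^i R(T^s)` with `R(0) ≠ 0`. -/
def IsResidual (p r s : ℕ) (P : ℤ[X]) (R : (ZMod p)[X]) : Prop :=
  R.coeff 0 ≠ 0 ∧ ∃ i, side p r s P = X ^ i * expand (ZMod p) s R

/-- The residual polynomials of the slopes `r / s < b` have no nonzero roots of multiplicity more
than `m`. -/
def ResMult (p b : ℕ) [Fact p.Prime] (P : ℤ[X]) (m : ℕ) : Prop :=
  ∀ r s, Nat.Coprime r s → 0 < s → r < b * s → ∀ R, IsResidual p r s P R →
    ∀ ρ : AlgebraicClosure (ZMod p), ρ ≠ 0 →
      rootMultiplicity ρ (R.map (algebraMap (ZMod p) (AlgebraicClosure (ZMod p)))) ≤ m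

end Pool.Agent.Y218.NP
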