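import Mathlib
import Pool.Agent.Y218.NPDefs

/-!
# Sides of Newton polygons and their initial forms

For `r ≥ 0`, `s > 0` and `P = ∑ c_i T^i ∈ ℤ[T]` give `c_i T^i` the weight `s v_p(c_i) + r i`.
-/

set_option autoImplicit false

open Polynomial

namespace Pool.Agent.Y218.NP

/-- all weights are at least `w` -/
def HasWt (p r s w : ℕ) (P : ℤ[X]) : Prop :=
  ∀ i v, s * v + r * i < w → (p : ℤ) ^ (v + 1) ∣ P.coeff i

/-- `A` is the form of weight `w` of `P` -/
structure IsIni (p r s w : ℕ) (P : ℤ[X]) (A : (ZMod p)[X]) : Prop where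
  has : HasWt p r s w P
  eq : ∀ i v, s * v + r * i = w → ∃ m : ℤ, P.coeff i = (p : ℤ) ^ v * m ∧ A.coeff i = (m : ZMod p)
  zero : ∀ i, (∀ v, s * v + r * i ≠ w) → A.coeff i = 0

theorem exists_exp {p r s w : ℕ} (hs : 0 < s) {P : ℤ[X]} (h : HasWt p r s w P) (i : ℕ) :
    ∃ u, w ≤ s * u + r * i ∧ (p : ℤ) ^ u ∣ P.coeff i ∧ ∀ v, s * v + r * i = w → u = v := by
  classical
  have hex : ∃ u, w ≤ s * u + r * i := ⟨w, by nlinarith⟩
  refine ⟨Nat.find hex, Nat.find_spec hex, ?_, ?_⟩
  · rcases Nat.eq_zero_or_pos (Nat.find hex) with h0 | h0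
    · rw [h0, pow_zero]; exact one_dvd _
    · have h1 := Nat.find_min hex (m := Nat.find hex - 1) (by omega)
      push Not at h1
      have h2 := h i _ h1
      rwa [Nat.sub_add_cancel h0] at h2
  · intro v hv
    have h1 : Nat.find hex ≤ v := Nat.find_min' hex hv.ge
    have h2 := Nat.find_spec hex
    have h3 : s * v ≤ s * Nat.find hex := by omega
    exact le_antisymm h1 (Nat.le_of_mul_le_mul_left h3 hs)

theorem IsIni.mul {p r s w w' : ℕ} (hs : 0 < s) {P Q : ℤ[X]} {A B : (ZMod p)[X]}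
    (hA : IsIni p r s w P A) (hB : IsIni p r s w' Q B) :
    IsIni p r s (w + w') (P * Q) (A * B) := by
  classical
  have hterm : ∀ i j v, s * v + r * (i + j) = w + w' →
      ∃ m : ℤ, P.coeff i * Q.coeff j = (p : ℤ) ^ v * m ∧ A.coeff i * B.coeff j = (m : ZMod p) := by
    intro i j v hv
    obtain ⟨u, hu1, hu2, hu3⟩ := exists_exp hs hA.has i
    obtain ⟨u', hu1', hu2', hu3'⟩ := exists_exp hs hB.has j
    rw [mul_add] at hv
    have hge : s * v ≤ s * (u + u') := by rw [mul_add]; omega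
    have hge' : v ≤ u + u' := Nat.le_of_mul_le_mul_left hge hs
    by_cases h1 : s * u + r * i = w
    · by_cases h2 : s * u' + r * j = w'
      · obtain ⟨m, hm, hm'⟩ := hA.eq i u h1
        obtain ⟨n, hn, hn'⟩ := hB.eq j u' h2
        refine ⟨m * n, ?_, ?_⟩
        · have : v = u + u' := by
            apply Nat.eq_of_mul_eq_mul_left hs
            rw [mul_add]; omega
          rw [hm, hn, this, pow_add]; ring
        · rw [hm', hn']; push_cast; ring
      · have h3 : B.coeff j = 0 := by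
          apply hB.zero
          intro v' hv'
          apply h2
          rw [hu3' v' hv']; exact hv'
        have h4 : v + 1 ≤ u + u' := by
          have : s * v < s * (u + u') := by rw [mul_add]; omega
          exact Nat.lt_of_mul_lt_mul_left this
        have h5 : (p : ℤ) ^ (v + 1) ∣ P.coeff i * Q.coeff j :=
          (pow_dvd_pow _ h4).trans (by rw [pow_add]; exact mul_dvd_mul hu2 hu2')
        obtain ⟨m, hm⟩ := h5
        refine ⟨p * m, by rw [hm, pow_succ]; ring, ?_⟩
        rw [h3, mul_zero]; push_cast; simp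
    · have h3 : A.coeff i = 0 := by
        apply hA.zero
        intro v' hv'
        apply h1
        rw [hu3 v' hv']; exact hv'
      have h4 : v + 1 ≤ u + u' := by
        have : s * v < s * (u + u') := by rw [mul_add]; omega
        exact Nat.lt_of_mul_lt_mul_left this
      have h5 : (p : ℤ) ^ (v + 1) ∣ P.coeff i * Q.coeff j :=
        (pow_dvd_pow _ h4).trans (by rw [pow_add]; exact mul_dvd_mul hu2 hu2')
      obtain ⟨m, hm⟩ := h5
      refine ⟨p * m, by rw [hm, pow_succ]; ring, ?_⟩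
      rw [h3, zero_mul]; push_cast; simp
  refine ⟨?_, ?_, ?_⟩
  · intro k v hv
    rw [coeff_mul]
    apply Finset.dvd_sum
    rintro ⟨i, j⟩ hij
    rw [Finset.HasAntidiagonal.mem_antidiagonal] at hij
    obtain ⟨u, hu1, hu2, hu3⟩ := exists_exp hs hA.has i
    obtain ⟨u', hu1', hu2', hu3'⟩ := exists_exp hs hB.has j
    have h4 : v + 1 ≤ u + u' := by
      have : s * v < s * (u + u') := by
        have h6 : r * k = r * i + r * j := by rw [← hij, mul_add]
        rw [mul_add]; omega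
      exact Nat.lt_of_mul_lt_mul_left this
    exact (pow_dvd_pow _ h4).trans (by rw [pow_add]; exact mul_dvd_mul hu2 hu2')
  · intro k v hv
    have h1 : ∀ x ∈ Finset.HasAntidiagonal.antidiagonal k, ∃ m : ℤ, P.coeff x.1 * Q.coeff x.2 = (p : ℤ) ^ v * m ∧
        A.coeff x.1 * B.coeff x.2 = (m : ZMod p) := by
      rintro ⟨i, j⟩ hij
      rw [Finset.HasAntidiagonal.mem_antidiagonal] at hij
      exact hterm i j v (by rw [hij]; exact hv)
    choose! m hm hm' using h1
    refine ⟨∑ x ∈ Finset.HasAntidiagonal.antidiagonal k, m x, ?_, ?_⟩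
    · rw [coeff_mul, Finset.mul_sum]
      exact Finset.sum_congr rfl hm
    · rw [coeff_mul]
      push_cast
      exact Finset.sum_congr rfl hm'
  · intro k hk
    rw [coeff_mul]
    apply Finset.sum_eq_zero
    rintro ⟨i, j⟩ hij
    rw [Finset.HasAntidiagonal.mem_antidiagonal] at hij
    dsimp only at hij ⊢
    by_cases h1 : ∃ v, s * v + r * i = w
    · by_cases h2 : ∃ v, s * v + r * j = w'
      · obtain ⟨v, hv⟩ := h1
        obtain ⟨v', hv'⟩ := h2
        exfalso
        apply hk (v + v')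
        rw [← hij, mul_add, mul_add, ← hv, ← hv']; ring
      · push Not at h2
        rw [hB.zero j h2, mul_zero]
    · push Not at h1
      rw [hA.zero i h1, zero_mul]

theorem side_coeff (p r s : ℕ) (P : ℤ[X]) (i : ℕ) : (side p r s P).coeff i =
    if P.coeff i ≠ 0 ∧ s * padicValInt p (P.coeff i) + r * i = wt p r s P then
      (((P.coeff i / (p : ℤ) ^ padicValInt p (P.coeff i) : ℤ)) : ZMod p) else 0 := by
  classical
  unfold side
  rw [finsetSum_coeff]
  have h1 : ∀ b ∈ P.support, (if s * padicValInt p (P.coeff b) + r * b = wt p r s P then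
      C (((P.coeff b / (p : ℤ) ^ padicValInt p (P.coeff b) : ℤ)) : ZMod p) * X ^ b
        else (0 : (ZMod p)[X])).coeff i =
      if b = i then (if s * padicValInt p (P.coeff i) + r * i = wt p r s P then
      (((P.coeff i / (p : ℤ) ^ padicValInt p (P.coeff i) : ℤ)) : ZMod p) else 0) else 0 := by
    intro b _
    by_cases hb : b = i
    · subst hb
      rw [if_pos (rfl : b = b)]
      split_ifs with h
      · rw [coeff_C_mul, coeff_X_pow_self, mul_one]
      · simp
    · rw [if_neg hb]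
      split_ifs with h
      · rw [coeff_C_mul, coeff_X_pow, if_neg (fun h => hb h.symm), mul_zero]
      · simp
  rw [Finset.sum_congr rfl h1, Finset.sum_ite_eq']
  by_cases hi : P.coeff i = 0
  · rw [if_neg (by rw [mem_support_iff]; exact fun h => h hi), if_neg (fun h => h.1 hi)]
  · rw [if_pos (by rw [mem_support_iff]; exact hi)]
    by_cases h2 : s * padicValInt p (P.coeff i) + r * i = wt p r s P
    · rw [if_pos h2, if_pos ⟨hi, h2⟩]
    · rw [if_neg h2, if_neg (fun h => h2 h.2)]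

theorem val_spec {p : ℕ} (hp : p.Prime) {c : ℤ} (hc : c ≠ 0) :
    ∃ m : ℤ, c = (p : ℤ) ^ padicValInt p c * m ∧ ¬ (p : ℤ) ∣ m := by
  have : Fact p.Prime := ⟨hp⟩
  obtain ⟨m, hm⟩ : (p : ℤ) ^ padicValInt p c ∣ c := padicValInt_dvd c
  refine ⟨m, hm, ?_⟩
  intro h
  have h1 : (p : ℤ) ^ (padicValInt p c + 1) ∣ c := by
    conv_rhs => rw [hm]
    rw [pow_succ]
    exact mul_dvd_mul dvd_rfl h
  rw [padicValInt_dvd_iff] at h1
  rcases h1 with h1 | h1
  · exact hc h1
  · omega

theorem dvd_iff_le {p : ℕ} (hp : p.Prime) {c : ℤ} (hc : c ≠ 0) (n : ℕ) :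
    (p : ℤ) ^ n ∣ c ↔ n ≤ padicValInt p c := by
  have : Fact p.Prime := ⟨hp⟩
  rw [padicValInt_dvd_iff]
  exact ⟨fun h => h.resolve_left hc, Or.inr⟩

theorem wt_le {p r s : ℕ} {P : ℤ[X]} {i : ℕ} (hi : P.coeff i ≠ 0) :
    wt p r s P ≤ s * padicValInt p (P.coeff i) + r * i :=
  Nat.sInf_le ⟨i, hi, rfl⟩

theorem wt_mem {p r s : ℕ} {P : ℤ[X]} (hP : P ≠ 0) :
    ∃ i, P.coeff i ≠ 0 ∧ wt p r s P = s * padicValInt p (P.coeff i) + r * i := by
  have h1 : {w | ∃ i, P.coeff i ≠ 0 ∧ w = s * padicValInt p (P.coeff i) + r * i}.Nonempty := by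
    refine ⟨_, P.natDegree, ?_, rfl⟩
    exact mt leadingCoeff_eq_zero.1 hP
  exact Nat.sInf_mem h1

theorem div_cast {p : ℕ} (hp : p.Prime) {c m : ℤ} {v : ℕ} (hm : c = (p : ℤ) ^ v * m) :
    c / (p : ℤ) ^ v = m := by
  rw [hm, Int.mul_ediv_cancel_left]
  exact pow_ne_zero _ (by exact_mod_cast hp.ne_zero)

theorem isIni_side {p r s : ℕ} (hp : p.Prime) (hs : 0 < s) {P : ℤ[X]} (hP : P ≠ 0) :
    IsIni p r s (wt p r s P) P (side p r s P) ∧ side p r s P ≠ 0 := by
  refine ⟨⟨?_, ?_, ?_⟩, ?_⟩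
  · intro i v hv
    by_cases hi : P.coeff i = 0
    · rw [hi]; exact dvd_zero _
    rw [dvd_iff_le hp hi]
    have h1 := wt_le (p := p) (r := r) (s := s) hi
    have : s * v < s * padicValInt p (P.coeff i) := by omega
    exact Nat.lt_of_mul_lt_mul_left this
  · intro i v hv
    rw [side_coeff]
    by_cases hi : P.coeff i = 0
    · rw [if_neg (fun h => h.1 hi)]
      exact ⟨0, by rw [hi, mul_zero], by simp⟩
    · obtain ⟨m, hm, hm'⟩ := val_spec hp hi
      have h1 := wt_le (p := p) (r := r) (s := s) hi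
      have hle : v ≤ padicValInt p (P.coeff i) := by
        have : s * v ≤ s * padicValInt p (P.coeff i) := by omega
        exact Nat.le_of_mul_le_mul_left this hs
      by_cases h2 : s * padicValInt p (P.coeff i) + r * i = wt p r s P
      · rw [if_pos ⟨hi, h2⟩]
        have : v = padicValInt p (P.coeff i) := by
          apply Nat.eq_of_mul_eq_mul_left hs; omega
        rw [div_cast hp hm]
        exact ⟨m, by rw [this]; exact hm, rfl⟩
      · rw [if_neg (fun h => h2 h.2)]
        have : v + 1 ≤ padicValInt p (P.coeff i) := by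
          have : s * v < s * padicValInt p (P.coeff i) := by omega
          exact Nat.lt_of_mul_lt_mul_left this
        obtain ⟨n, hn⟩ := (dvd_iff_le hp hi (v + 1)).2 this
        refine ⟨p * n, by rw [hn, pow_succ]; ring, ?_⟩
        push_cast; simp
  · intro i hi
    rw [side_coeff]
    by_cases h0 : P.coeff i = 0
    · rw [if_neg (fun h => h.1 h0)]
    · rw [if_neg (fun h => hi _ h.2)]
  · obtain ⟨i, hi, hi'⟩ := wt_mem (p := p) (r := r) (s := s) hP
    intro h0
    have h1 := congrArg (fun f => f.coeff i) h0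
    simp only [coeff_zero] at h1
    rw [side_coeff, if_pos ⟨hi, hi'.symm⟩] at h1
    obtain ⟨m, hm, hm'⟩ := val_spec hp hi
    rw [div_cast hp hm] at h1
    exact hm' ((ZMod.intCast_zmod_eq_zero_iff_dvd _ _).1 h1)

theorem IsIni.unique {p r s w w' : ℕ} (hp : p.Prime) {P : ℤ[X]} {A B : (ZMod p)[X]}
    (hA : IsIni p r s w P A) (hB : IsIni p r s w' P B) (hA0 : A ≠ 0) (hB0 : B ≠ 0) :
    w = w' ∧ A = B := by
  have key : ∀ {w w' : ℕ} {A B : (ZMod p)[X]}, IsIni p r s w P A → IsIni p r s w' P B → A ≠ 0 →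
      ¬ w < w' := by
    intro w w' A B hA hB hA0 hlt
    apply hA0
    ext i
    rw [coeff_zero]
    by_cases h1 : ∃ v, s * v + r * i = w
    · obtain ⟨v, hv⟩ := h1
      obtain ⟨m, hm, hm'⟩ := hA.eq i v hv
      rw [hm']
      have h2 := hB.has i v (by omega)
      rw [hm, pow_succ] at h2
      have h3 : (p : ℤ) ∣ m := by
        have hpz : (p : ℤ) ^ v ≠ 0 := pow_ne_zero _ (by exact_mod_cast hp.ne_zero)
        exact (mul_dvd_mul_iff_left hpz).1 h2
      exact (ZMod.intCast_zmod_eq_zero_iff_dvd _ _).2 h3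
    · push Not at h1
      exact hA.zero i h1
  have hw : w = w' := le_antisymm (not_lt.1 (key hB hA hB0)) (not_lt.1 (key hA hB hA0))
  subst hw
  refine ⟨rfl, ?_⟩
  ext i
  by_cases h1 : ∃ v, s * v + r * i = w
  · obtain ⟨v, hv⟩ := h1
    obtain ⟨m, hm, hm'⟩ := hA.eq i v hv
    obtain ⟨n, hn, hn'⟩ := hB.eq i v hv
    have hpz : (p : ℤ) ^ v ≠ 0 := pow_ne_zero _ (by exact_mod_cast hp.ne_zero)
    have : m = n := mul_left_cancel₀ hpz (hm.symm.trans hn)
    rw [hm', hn', this]
  · push Not at h1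
    rw [hA.zero i h1, hB.zero i h1]

theorem side_mul {p r s : ℕ} (hp : p.Prime) (hs : 0 < s) {P Q : ℤ[X]} (hP : P ≠ 0) (hQ : Q ≠ 0) :
    side p r s (P * Q) = side p r s P * side p r s Q := by
  have : Fact p.Prime := ⟨hp⟩
  obtain ⟨h1, h2⟩ := isIni_side (r := r) hp hs hP
  obtain ⟨h3, h4⟩ := isIni_side (r := r) hp hs hQ
  obtain ⟨h5, h6⟩ := isIni_side (r := r) hp hs (mul_ne_zero hP hQ)
  exact (h5.unique hp (h1.mul hs h3) h6 (mul_ne_zero h2 h4)).2

theorem side_one {p r s : ℕ} (hp : p.Prime) (hs : 0 < s) : side p r s 1 = 1 := by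
  have : Fact p.Prime := ⟨hp⟩
  obtain ⟨h1, h2⟩ := isIni_side (r := r) (P := 1) hp hs one_ne_zero
  have h3 := side_mul (r := r) hp hs (P := 1) (Q := 1) one_ne_zero one_ne_zero
  rw [mul_one] at h3
  have h4 : side p r s 1 * 1 = side p r s 1 * side p r s 1 := by rw [mul_one]; exact h3
  exact (mul_left_cancel₀ h2 h4).symm

theorem side_pow {p r s : ℕ} (hp : p.Prime) (hs : 0 < s) {P : ℤ[X]} (hP : P ≠ 0) (k : ℕ) :
    side p r s (P ^ k) = side p r s P ^ k := by
  induction k with
  | zero => rw [pow_zero, pow_zero, side_one hp hs]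
  | succ k ih => rw [pow_succ, side_mul hp hs (pow_ne_zero _ hP) hP, ih, pow_succ]

/-- the initial form is `X^i R(X^s)` -/
theorem exists_resid {p r s : ℕ} (hp : p.Prime) (hs : 0 < s) (hrs : Nat.Coprime r s) {P : ℤ[X]}
    (hP : P ≠ 0) : ∃ R : (ZMod p)[X], R.coeff 0 ≠ 0 ∧
      side p r s P = X ^ (side p r s P).natTrailingDegree * expand (ZMod p) s R := by
  classical
  have : Fact p.Prime := ⟨hp⟩
  obtain ⟨h1, h2⟩ := isIni_side (r := r) hp hs hP
  set A := side p r s P with hA
  set i0 := A.natTrailingDegree with hi0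
  have hsup : ∀ i, A.coeff i ≠ 0 → ∃ v, s * v + r * i = wt p r s P := by
    intro i hi
    by_contra hcon
    push Not at hcon
    exact hi (h1.zero i hcon)
  have hA0 : A.coeff i0 ≠ 0 := mt trailingCoeff_eq_zero.1 h2
  have hdiv : ∀ i, A.coeff i ≠ 0 → s * ((i - i0) / s) = i - i0 := by
    intro i hi
    obtain ⟨v, hv⟩ := hsup i hi
    obtain ⟨v0, hv0⟩ := hsup i0 hA0
    have hle : i0 ≤ i := natTrailingDegree_le_of_ne_zero hi
    apply Nat.mul_div_cancel'
    apply (Nat.Coprime.symm hrs).dvd_of_dvd_mul_left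
    obtain ⟨d, hd⟩ := Nat.exists_eq_add_of_le hle
    rw [hd, Nat.add_sub_cancel_left]
    rw [hd, mul_add] at hv
    have h3 : s * v + r * d = s * v0 := by omega
    have h4 : s ∣ s * v + r * d := by rw [h3]; exact dvd_mul_right _ _
    exact (Nat.dvd_add_right (dvd_mul_right _ _)).1 h4
  set R : (ZMod p)[X] := ∑ i ∈ A.support, C (A.coeff i) * X ^ ((i - i0) / s) with hR
  have heq : A = X ^ i0 * expand (ZMod p) s R := by
    rw [hR, map_sum, Finset.mul_sum]
    conv_lhs => rw [A.as_sum_support_C_mul_X_pow]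
    apply Finset.sum_congr rfl
    intro i hi
    rw [mem_support_iff] at hi
    have hle : i0 ≤ i := natTrailingDegree_le_of_ne_zero hi
    rw [map_mul, expand_C, map_pow, expand_X, ← pow_mul, hdiv i hi]
    rw [mul_left_comm, ← pow_add, Nat.add_sub_cancel' hle]
  refine ⟨R, ?_, heq⟩
  intro hR0
  have h3 : A.coeff i0 = R.coeff 0 := by
    conv_lhs => rw [heq]
    have := coeff_X_pow_mul (expand (ZMod p) s R) i0 0
    rw [zero_add] at this
    rw [this]
    have h4 := coeff_expand_mul hs R 0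
    rw [zero_mul] at h4
    exact h4
  exact hA0 (h3.trans hR0)

end Pool.Agent.Y218.NP
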