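import Mathlib
import Pool.Agent.Y218.NPa
import Pool.Agent.W534.FS1

set_option autoImplicit false

open Polynomial Module W534.FS

namespace Pool.Agent.Y218.NP

theorem len_mul {p r s : ℕ} (hp : p.Prime) (hs : 0 < s) {P Q : ℤ[X]} (hP : P ≠ 0) (hQ : Q ≠ 0) :
    len p r s (P * Q) = len p r s P + len p r s Q := by
  have : Fact p.Prime := ⟨hp⟩
  obtain ⟨-, h2⟩ := isIni_side (r := r) hp hs hP
  obtain ⟨-, h4⟩ := isIni_side (r := r) hp hs hQ
  unfold len
  rw [side_mul hp hs hP hQ, natDegree_mul h2 h4, natTrailingDegree_mul h2 h4]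
  have h5 := natTrailingDegree_le_natDegree (side p r s P)
  have h6 := natTrailingDegree_le_natDegree (side p r s Q)
  omega

theorem len_one {p r s : ℕ} (hp : p.Prime) (hs : 0 < s) : len p r s 1 = 0 := by
  have h := len_mul (r := r) hp hs (P := 1) (Q := 1) one_ne_zero one_ne_zero
  rw [mul_one] at h
  omega

theorem len_pow {p r s : ℕ} (hp : p.Prime) (hs : 0 < s) {P : ℤ[X]} (hP : P ≠ 0) (k : ℕ) :
    len p r s (P ^ k) = k * len p r s P := by
  induction k with
  | zero => rw [pow_zero, len_one hp hs, zero_mul]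
  | succ k ih => rw [pow_succ, len_mul hp hs (pow_ne_zero _ hP) hP, ih]; ring

theorem side_coeff_ne {p r s : ℕ} (hp : p.Prime) {P : ℤ[X]} {i : ℕ} (hi : P.coeff i ≠ 0)
    (h : s * padicValInt p (P.coeff i) + r * i = wt p r s P) : (side p r s P).coeff i ≠ 0 := by
  have : Fact p.Prime := ⟨hp⟩
  rw [side_coeff, if_pos ⟨hi, h⟩]
  obtain ⟨m, hm, hm'⟩ := val_spec hp hi
  rw [div_cast hp hm]
  intro h0
  exact hm' ((ZMod.intCast_zmod_eq_zero_iff_dvd _ _).1 h0)

theorem len_le {p r s : ℕ} {P : ℤ[X]} : len p r s P ≤ P.natDegree := by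
  have h1 : (side p r s P).natDegree ≤ P.natDegree := by
    rw [natDegree_le_iff_coeff_eq_zero]
    intro N hN
    rw [side_coeff, if_neg]
    rintro ⟨h, -⟩
    exact h (coeff_eq_zero_of_natDegree_lt hN)
  unfold len
  omega

/-- the first side of the Newton polygon -/
theorem exists_side {p a : ℕ} (hp : p.Prime) {E : ℤ[X]} (hE : E.Monic)
    (h : ∃ i, ¬ (p : ℤ) ^ (a * (E.natDegree - i)) ∣ E.coeff i) :
    ∃ r s, Nat.Coprime r s ∧ 0 < s ∧ s ≤ E.natDegree ∧ r < a * s ∧ s ≤ len p r s E := by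
  classical
  set n := E.natDegree with hn
  obtain ⟨i1, hi1⟩ := h
  have hi1n : i1 < n := by
    by_contra hcon
    push Not at hcon
    apply hi1
    rw [Nat.sub_eq_zero_of_le hcon, mul_zero, pow_zero]
    exact one_dvd _
  have hi10 : E.coeff i1 ≠ 0 := by
    intro h0; apply hi1; rw [h0]; exact dvd_zero _
  set I : Finset ℕ := (Finset.range n).filter (fun i => E.coeff i ≠ 0) with hI
  have hi1I : i1 ∈ I := by rw [hI, Finset.mem_filter, Finset.mem_range]; exact ⟨hi1n, hi10⟩
  obtain ⟨j, hjI, hj⟩ := Finset.exists_min_image I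
    (fun i => (padicValInt p (E.coeff i) : ℚ) / ((n - i : ℕ) : ℚ)) ⟨i1, hi1I⟩
  rw [hI, Finset.mem_filter, Finset.mem_range] at hjI
  obtain ⟨hjn, hj0⟩ := hjI
  set v := padicValInt p (E.coeff j) with hv
  have hcross : ∀ i ∈ I, v * (n - i) ≤ padicValInt p (E.coeff i) * (n - j) := by
    intro i hi
    have h1 := hj i hi
    rw [hI, Finset.mem_filter, Finset.mem_range] at hi
    have h2 : (0 : ℚ) < ((n - i : ℕ) : ℚ) := by
      have : 0 < n - i := by omega
      exact_mod_cast this
    have h3 : (0 : ℚ) < ((n - j : ℕ) : ℚ) := by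
      have : 0 < n - j := by omega
      exact_mod_cast this
    rw [div_le_div_iff₀ h3 h2] at h1
    exact_mod_cast h1
  have hm0 : 0 < n - j := by omega
  set g := Nat.gcd v (n - j) with hg
  have hg0 : 0 < g := Nat.gcd_pos_of_pos_right _ hm0
  obtain ⟨r, hr⟩ : g ∣ v := Nat.gcd_dvd_left _ _
  obtain ⟨s, hs⟩ : g ∣ n - j := Nat.gcd_dvd_right _ _
  have hcop : Nat.Coprime r s := by
    have h1 := Nat.coprime_div_gcd_div_gcd (m := v) (n := n - j) hg0
    have h2 : v / g = r := by rw [hr]; exact Nat.mul_div_cancel_left _ hg0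
    have h3 : (n - j) / g = s := by rw [hs]; exact Nat.mul_div_cancel_left _ hg0
    rw [← hg, h2, h3] at h1
    exact h1
  have hs0 : 0 < s := by
    rcases Nat.eq_zero_or_pos s with h0 | h0
    · rw [h0, mul_zero] at hs; omega
    · exact h0
  have hcr : ∀ i ∈ I, r * (n - i) ≤ padicValInt p (E.coeff i) * s := by
    intro i hi
    have h1 := hcross i hi
    rw [hr, hs] at h1
    have h2 : g * (r * (n - i)) ≤ g * (padicValInt p (E.coeff i) * s) := by
      calc g * (r * (n - i)) = g * r * (n - i) := by ring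
        _ ≤ padicValInt p (E.coeff i) * (g * s) := h1
        _ = _ := by ring
    exact Nat.le_of_mul_le_mul_left h2 hg0
  have hras : r < a * s := by
    have h1 := hcr i1 hi1I
    have h2 : padicValInt p (E.coeff i1) < a * (n - i1) := by
      by_contra hcon
      push Not at hcon
      exact hi1 ((dvd_iff_le hp hi10 _).2 hcon)
    have h3 : 0 < n - i1 := by omega
    have h4 : padicValInt p (E.coeff i1) * s < a * (n - i1) * s := Nat.mul_lt_mul_of_pos_right h2 hs0
    have h5 : r * (n - i1) < (a * s) * (n - i1) := by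
      calc r * (n - i1) ≤ _ := h1
        _ < a * (n - i1) * s := h4
        _ = _ := by ring
    exact Nat.lt_of_mul_lt_mul_right h5
  have hEn : E.coeff n = 1 := hE.coeff_natDegree
  have hone : padicValInt p (E.coeff n) = 0 := by rw [hEn]; simp
  have hwt : wt p r s E = r * n := by
    apply le_antisymm
    · have h1 := wt_le (p := p) (r := r) (s := s) (P := E) (i := n) (by rw [hEn]; exact one_ne_zero)
      rw [hone, mul_zero, zero_add] at h1
      exact h1
    · obtain ⟨i, hi, hi'⟩ := wt_mem (p := p) (r := r) (s := s) hE.ne_zero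
      rw [hi']
      have hin : i ≤ n := le_natDegree_of_ne_zero hi
      rcases Nat.lt_or_ge i n with h1 | h1
      · have h2 := hcr i (by rw [hI, Finset.mem_filter, Finset.mem_range]; exact ⟨h1, hi⟩)
        obtain ⟨d, hd⟩ := Nat.exists_eq_add_of_le hin
        rw [hd, Nat.add_sub_cancel_left] at h2
        rw [hd, mul_add, mul_comm s]
        omega
      · have : i = n := le_antisymm hin h1
        rw [this, hone, mul_zero, zero_add]
  have h1 : (side p r s E).coeff n ≠ 0 := by
    apply side_coeff_ne hp (by rw [hEn]; exact one_ne_zero)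
    rw [hone, mul_zero, zero_add, hwt]
  have h2 : (side p r s E).coeff j ≠ 0 := by
    apply side_coeff_ne hp hj0
    rw [hwt, ← hv, hr]
    obtain ⟨d, hd⟩ := Nat.exists_eq_add_of_le hjn.le
    rw [hd, Nat.add_sub_cancel_left] at hs
    rw [hd, mul_add, hs]; ring
  have h3 : n ≤ (side p r s E).natDegree := le_natDegree_of_ne_zero h1
  have h4 : (side p r s E).natTrailingDegree ≤ j := natTrailingDegree_le_of_ne_zero h2
  have h5 : s ≤ n - j := by rw [hs]; exact Nat.le_mul_of_pos_left _ hg0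
  refine ⟨r, s, hcop, hs0, by omega, hras, ?_⟩
  unfold len
  omega

theorem exists_not_dvd {p a : ℕ} (hp : p.Prime) {K : Type*} [Field K] [CharZero K] {E : ℤ[X]}
    (hE : E.Monic) {z : K} (hz : aeval z E = 0) (hni : ¬ IsIntegral ℤ (z / (p : K) ^ a)) :
    ∃ i, ¬ (p : ℤ) ^ (a * (E.natDegree - i)) ∣ E.coeff i := by
  by_contra hcon
  push Not at hcon
  apply hni
  apply integral_of_content hp hE hz
  rw [dvd_content_iff_C_dvd, C_dvd_iff_dvd_coeff]
  intro i
  rw [sc_coeff]
  by_cases hi : E.natDegree < i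
  · rw [coeff_eq_zero_of_natDegree_lt hi, zero_mul]; exact dvd_zero _
  push Not at hi
  have h3 : E.natDegree = (E.natDegree - i) + i := by omega
  rw [h3, pow_add]
  apply mul_dvd_mul _ dvd_rfl
  rw [← pow_mul]
  exact hcon i

/-- the number of roots of the residual polynomial -/
theorem len_eq {p r s : ℕ} (hp : p.Prime) (hs : 0 < s) {P : ℤ[X]} {R : (ZMod p)[X]}
    (hR : R.coeff 0 ≠ 0)
    (h : side p r s P = X ^ (side p r s P).natTrailingDegree * expand (ZMod p) s R) :
    len p r s P = R.natDegree * s := by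
  have : Fact p.Prime := ⟨hp⟩
  have hR0 : R ≠ 0 := fun h0 => hR (by rw [h0, coeff_zero])
  have h1 : (side p r s P).natDegree = (side p r s P).natTrailingDegree + R.natDegree * s := by
    conv_lhs => rw [h]
    rw [natDegree_mul (pow_ne_zero _ X_ne_zero) ((expand_ne_zero hs).2 hR0), natDegree_X_pow,
      natDegree_expand]
  unfold len
  omega

/-- the residual polynomial of a product -/
theorem resid_unique {p s : ℕ} (hp : p.Prime) (hs : 0 < s) {A R S : (ZMod p)[X]} {i j : ℕ}
    (hR : R.coeff 0 ≠ 0) (hS : S.coeff 0 ≠ 0) (h1 : A = X ^ i * expand (ZMod p) s R)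
    (h2 : A = X ^ j * expand (ZMod p) s S) : R = S := by
  have : Fact p.Prime := ⟨hp⟩
  have hexp : ∀ {R : (ZMod p)[X]}, R.coeff 0 ≠ 0 → (expand (ZMod p) s R).natTrailingDegree = 0 := by
    intro R hR
    apply Nat.le_zero.1
    apply natTrailingDegree_le_of_ne_zero
    have h4 := coeff_expand_mul hs R 0
    rw [zero_mul] at h4
    rw [h4]; exact hR
  have hne : ∀ {R : (ZMod p)[X]}, R.coeff 0 ≠ 0 → expand (ZMod p) s R ≠ 0 := by
    intro R hR
    exact (expand_ne_zero hs).2 (fun h0 => hR (by rw [h0, coeff_zero]))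
  have hi : A.natTrailingDegree = i := by
    rw [h1, natTrailingDegree_mul (pow_ne_zero _ X_ne_zero) (hne hR), hexp hR]
    simp
  have hj : A.natTrailingDegree = j := by
    rw [h2, natTrailingDegree_mul (pow_ne_zero _ X_ne_zero) (hne hS), hexp hS]
    simp
  have hij : i = j := hi.symm.trans hj
  subst hij
  have h3 : expand (ZMod p) s R = expand (ZMod p) s S :=
    mul_left_cancel₀ (pow_ne_zero i X_ne_zero) (h1.symm.trans h2)
  exact expand_injective hs h3

/-- The multiplicity of a root `z` of `P`, `z / q` not integral, is at most the multiplicity of a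
nonzero root of a residual polynomial of slope less than `a`. -/
theorem mult_resid {p a : ℕ} [Fact p.Prime] {K : Type*} [Field K] [CharZero K] {P : ℤ[X]}
    (hP : P.Monic) {z : K} (hz : aeval z P = 0) (hni : ¬ IsIntegral ℤ (z / (p : K) ^ a)) :
    ∃ r s, Nat.Coprime r s ∧ 0 < s ∧ r < a * s ∧ ∃ R : (ZMod p)[X], R.coeff 0 ≠ 0 ∧
      side p r s P = X ^ (side p r s P).natTrailingDegree * expand (ZMod p) s R ∧
      ∃ ρ : AlgebraicClosure (ZMod p), ρ ≠ 0 ∧
        mu P z ≤ rootMultiplicity ρ (R.map (algebraMap (ZMod p) (AlgebraicClosure (ZMod p)))) := by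
  have hp : p.Prime := Fact.out
  obtain ⟨k, G, hGm, hEm, hPG, hk0, hd, hk⟩ := factor hP hz
  obtain ⟨r, s, hrs, hs, hsn, hra, hlen⟩ := exists_side (a := a) hp hEm
    (exists_not_dvd hp hEm (minpoly.aeval ℤ z) hni)
  obtain ⟨RE, hRE, hRE'⟩ := exists_resid hp hs hrs hEm.ne_zero
  obtain ⟨RG, hRG, hRG'⟩ := exists_resid hp hs hrs hGm.ne_zero
  obtain ⟨RP, hRP, hRP'⟩ := exists_resid hp hs hrs hP.ne_zero
  have hmul : side p r s P = X ^ (k * (side p r s (minpoly ℤ z)).natTrailingDegree +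
      (side p r s G).natTrailingDegree) * expand (ZMod p) s (RE ^ k * RG) := by
    conv_lhs => rw [hPG, side_mul hp hs (pow_ne_zero _ hEm.ne_zero) hGm.ne_zero,
      side_pow hp hs hEm.ne_zero, hRE', hRG']
    rw [map_mul, map_pow, mul_pow, pow_add, ← pow_mul, mul_comm k]
    ring
  have hc0 : (RE ^ k * RG).coeff 0 ≠ 0 := by
    rw [mul_coeff_zero, coeff_zero_eq_eval_zero, eval_pow, ← coeff_zero_eq_eval_zero]
    exact mul_ne_zero (pow_ne_zero _ hRE) hRG
  have heq : RP = RE ^ k * RG := resid_unique hp hs hRP hc0 hRP' hmul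
  have hdeg : RE.natDegree ≠ 0 := by
    intro h0
    have := len_eq hp hs hRE hRE'
    rw [h0, zero_mul] at this
    omega
  set k' := AlgebraicClosure (ZMod p)
  have hmap0 : RE.map (algebraMap (ZMod p) k') ≠ 0 :=
    (Polynomial.map_ne_zero_iff (algebraMap (ZMod p) k').injective).2
      (fun h0 => hRE (by rw [h0, coeff_zero]))
  obtain ⟨ρ, hρ⟩ : ∃ ρ : k', (RE.map (algebraMap (ZMod p) k')).IsRoot ρ := by
    apply IsAlgClosed.exists_root
    rw [degree_eq_natDegree hmap0, natDegree_map]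
    exact_mod_cast hdeg
  refine ⟨r, s, hrs, hs, hra, RP, hRP, hRP', ρ, ?_, ?_⟩
  · rintro rfl
    rw [IsRoot, ← coeff_zero_eq_eval_zero, coeff_map] at hρ
    exact hRE ((algebraMap (ZMod p) k').injective (hρ.trans (map_zero _).symm))
  · have hmu : mu P z = k := hk
    have hRP0 : RP.map (algebraMap (ZMod p) k') ≠ 0 :=
      (Polynomial.map_ne_zero_iff (algebraMap (ZMod p) k').injective).2
        (fun h0 => hRP (by rw [h0, coeff_zero]))
    rw [hmu, le_rootMultiplicity_iff hRP0, heq, Polynomial.map_mul, Polynomial.map_pow]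
    exact Dvd.dvd.mul_right (pow_dvd_pow_of_dvd (dvd_iff_isRoot.2 hρ) _) _

theorem mem_slopes {a b r s : ℕ} (h1 : Nat.Coprime r s) (h2 : 0 < s) (h3 : s ≤ b)
    (h4 : r < a * s) : (r, s) ∈ slopes a b := by
  unfold slopes
  rw [Finset.mem_filter, Finset.mem_product, Finset.mem_range, Finset.mem_Icc]
  exact ⟨⟨lt_of_lt_of_le h4 (Nat.mul_le_mul_left _ h3), h2, h3⟩, h1, h4⟩

theorem pos_of_mem {a b : ℕ} {x : ℕ × ℕ} (h : x ∈ slopes a b) : 0 < x.2 := by
  unfold slopes at h
  rw [Finset.mem_filter, Finset.mem_product, Finset.mem_Icc] at h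
  exact h.1.2.1

/-- the multiplicities of non-conjugate roots `z`, `z / q` not integral, add up to at most
`sides p a P` -/
theorem sum_le_sides {p a : ℕ} (hp : p.Prime) {K : Type*} [Field K] [CharZero K] {P : ℤ[X]}
    (hP : P.Monic) (Z : Finset K) (hZ : ∀ z ∈ Z, aeval z P = 0)
    (hd : ∀ z ∈ Z, ∀ z' ∈ Z, minpoly ℤ z = minpoly ℤ z' → z = z')
    (hni : ∀ z ∈ Z, ¬ IsIntegral ℤ (z / (p : K) ^ a)) :
    ∑ z ∈ Z, mu P z ≤ sides p a P := by
  classical
  obtain ⟨G, hGm, hG⟩ := factor_set hP Z hZ hd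
  have hmonE : ∀ z ∈ Z, (minpoly ℤ z).Monic := fun z hz =>
    minpoly.monic (integral_of_root hP (hZ z hz))
  have hlen : ∀ x : ℕ × ℕ, 0 < x.2 → ∑ z ∈ Z, mu P z * len p x.1 x.2 (minpoly ℤ z) ≤
      len p x.1 x.2 P := by
    intro x hx
    have key : ∀ S ⊆ Z, (∏ w ∈ S, (minpoly ℤ w) ^ (mu P w)).Monic ∧
        len p x.1 x.2 (∏ w ∈ S, (minpoly ℤ w) ^ (mu P w)) =
        ∑ z ∈ S, mu P z * len p x.1 x.2 (minpoly ℤ z) := by
      intro S
      induction S using Finset.induction_on with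
      | empty => intro _; simp [len_one hp hx]
      | insert w S hw ih =>
        intro hS
        obtain ⟨h1, h2⟩ := ih (fun x hx => hS (Finset.mem_insert_of_mem hx))
        have hwZ : w ∈ Z := hS (Finset.mem_insert_self _ _)
        have hm : ((minpoly ℤ w) ^ (mu P w)).Monic := (hmonE w hwZ).pow _
        rw [Finset.prod_insert hw, Finset.sum_insert hw]
        refine ⟨hm.mul h1, ?_⟩
        rw [len_mul hp hx hm.ne_zero h1.ne_zero, len_pow hp hx (hmonE w hwZ).ne_zero, h2]
    obtain ⟨h1, h2⟩ := key Z subset_rfl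
    rw [← h2]
    conv_rhs => rw [hG]
    rw [len_mul hp hx h1.ne_zero hGm.ne_zero]
    exact Nat.le_add_right _ _
  have hfl : ∀ x ∈ slopes a P.natDegree,
      ∑ z ∈ Z, mu P z * (len p x.1 x.2 (minpoly ℤ z) / x.2) ≤ len p x.1 x.2 P / x.2 := by
    intro x hx
    have hx2 := pos_of_mem hx
    rw [Nat.le_div_iff_mul_le hx2, Finset.sum_mul]
    refine le_trans (Finset.sum_le_sum fun z _ => ?_) (hlen x hx2)
    rw [mul_assoc]
    exact Nat.mul_le_mul_left _ (Nat.div_mul_le_self _ _)
  unfold sides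
  refine le_trans ?_ (Finset.sum_le_sum hfl)
  rw [Finset.sum_comm]
  apply Finset.sum_le_sum
  intro z hz
  rw [← Finset.mul_sum]
  have hEP : minpoly ℤ z ∣ P :=
    minpoly.isIntegrallyClosed_dvd (integral_of_root hP (hZ z hz)) (hZ z hz)
  obtain ⟨r, s, hrs, hs, hsn, hra, hl⟩ := exists_side (a := a) hp (hmonE z hz)
    (exists_not_dvd hp (hmonE z hz) (minpoly.aeval ℤ z) (hni z hz))
  have hmem : (r, s) ∈ slopes a P.natDegree :=
    mem_slopes hrs hs (hsn.trans (natDegree_le_of_dvd hEP hP.ne_zero)) hra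
  have h1 : 1 ≤ ∑ x ∈ slopes a P.natDegree, len p x.1 x.2 (minpoly ℤ z) / x.2 := by
    refine le_trans ?_ (Finset.single_le_sum (f := fun x : ℕ × ℕ =>
      len p x.1 x.2 (minpoly ℤ z) / x.2) (fun _ _ => Nat.zero_le _) hmem)
    exact (Nat.one_le_div_iff hs).2 hl
  calc mu P z = mu P z * 1 := (mul_one _).symm
    _ ≤ _ := Nat.mul_le_mul_left _ h1

end Pool.Agent.Y218.NP
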