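import Mathlib
import Pool.Agent.Y218.NPb
import Pool.Agent.Y146.HW.EndL

set_option autoImplicit false

open Polynomial Module W534.FS

namespace Pool.Agent.Y218.NP

theorem ini_tate {p a m : ℕ} (hm : 0 < m) :
    IsIni p a 1 (a * m) (X ^ m - C (((p : ℤ) ^ a) ^ m)) (X ^ m - C 1) := by
  have hc : ∀ i, (X ^ m - C (((p : ℤ) ^ a) ^ m) : ℤ[X]).coeff i =
      (if i = m then 1 else 0) - (if i = 0 then ((p : ℤ) ^ a) ^ m else 0) := by
    intro i
    rw [coeff_sub, coeff_X_pow, coeff_C]
  have hc' : ∀ i, (X ^ m - C 1 : (ZMod p)[X]).coeff i =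
      (if i = m then 1 else 0) - (if i = 0 then 1 else 0) := by
    intro i
    rw [coeff_sub, coeff_X_pow, coeff_C]
  refine ⟨?_, ?_, ?_⟩
  · intro i v hv
    rw [hc]
    by_cases h1 : i = m
    · subst h1
      rw [one_mul] at hv
      omega
    · rw [if_neg h1, zero_sub]
      by_cases h2 : i = 0
      · subst h2
        rw [if_pos rfl, dvd_neg, ← pow_mul]
        apply pow_dvd_pow
        rw [one_mul, mul_zero, add_zero] at hv
        exact hv
      · rw [if_neg h2, neg_zero]; exact dvd_zero _
  · intro i v hv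
    rw [hc, hc']
    by_cases h1 : i = m
    · subst h1
      have hv0 : v = 0 := by rw [one_mul] at hv; omega
      rw [if_pos rfl, if_neg hm.ne', sub_zero, if_pos rfl, if_neg hm.ne', sub_zero, hv0]
      exact ⟨1, by simp, by simp⟩
    · rw [if_neg h1, zero_sub, if_neg h1, zero_sub]
      by_cases h2 : i = 0
      · subst h2
        rw [if_pos rfl, if_pos rfl]
        refine ⟨-1, ?_, by simp⟩
        rw [one_mul, mul_zero, add_zero] at hv
        rw [← pow_mul, hv]; ring
      · rw [if_neg h2, if_neg h2]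
        exact ⟨0, by simp, by simp⟩
  · intro i hi
    rw [hc']
    have h1 : i ≠ m := by
      rintro rfl
      apply hi 0
      ring
    have h2 : i ≠ 0 := by
      rintro rfl
      apply hi (a * m)
      ring
    rw [if_neg h1, if_neg h2, sub_zero]

theorem len_tate {p a m : ℕ} (hp : p.Prime) (hm : 0 < m) :
    len p a 1 (X ^ m - C (((p : ℤ) ^ a) ^ m)) = m := by
  have : Fact p.Prime := ⟨hp⟩
  have hne : (X ^ m - C (((p : ℤ) ^ a) ^ m) : ℤ[X]) ≠ 0 := X_pow_sub_C_ne_zero hm _
  have hne' : (X ^ m - C 1 : (ZMod p)[X]) ≠ 0 := X_pow_sub_C_ne_zero hm _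
  obtain ⟨h1, h2⟩ := isIni_side (r := a) hp one_pos hne
  have h3 := (h1.unique hp (ini_tate hm) h2 hne').2
  unfold len
  rw [h3, natDegree_X_pow_sub_C]
  have h4 : (X ^ m - C 1 : (ZMod p)[X]).natTrailingDegree = 0 := by
    apply Nat.le_zero.1
    apply natTrailingDegree_le_of_ne_zero
    rw [coeff_sub, coeff_X_pow, if_neg hm.ne, coeff_C_zero, zero_sub]
    exact neg_ne_zero.2 one_ne_zero
  rw [h4, Nat.sub_zero]

/-- all roots of the minimal polynomial of `q ζ` have slope one -/
theorem len_minpoly {p a m : ℕ} (hp : p.Prime) (hm : 0 < m) {K : Type*} [Field K] [CharZero K]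
    {z : K} (hz : z ^ m = ((p : K) ^ a) ^ m) :
    len p a 1 (minpoly ℤ z) = (minpoly ℤ z).natDegree := by
  have hT : aeval z (X ^ m - C (((p : ℤ) ^ a) ^ m)) = 0 := by
    rw [map_sub, map_pow, aeval_X, aeval_C, hz, eq_intCast]
    push_cast
    exact sub_self _
  have hmon : (X ^ m - C (((p : ℤ) ^ a) ^ m)).Monic := monic_X_pow_sub_C _ hm.ne'
  have hzi := integral_of_root hmon hT
  obtain ⟨G, hG⟩ := minpoly.isIntegrallyClosed_dvd hzi hT
  have hEm := minpoly.monic hzi
  have hGm : G.Monic := by
    rw [hG] at hmon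
    exact hEm.of_mul_monic_left hmon
  have h1 := len_tate (a := a) hp hm
  have h2 : (X ^ m - C (((p : ℤ) ^ a) ^ m)).natDegree = m := natDegree_X_pow_sub_C
  rw [hG] at h1 h2
  rw [len_mul hp one_pos hEm.ne_zero hGm.ne_zero] at h1
  rw [hEm.natDegree_mul hGm] at h2
  have h3 := len_le (p := p) (r := a) (s := 1) (P := minpoly ℤ z)
  have h4 := len_le (p := p) (r := a) (s := 1) (P := G)
  omega

open scoped Classical in
/-- the number of roots `z` with `z^m = q^m` is at most the number of roots of slope one -/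
theorem card_tate {p a m : ℕ} (hp : p.Prime) (hm : 0 < m) {K : Type*} [Field K] [CharZero K]
    (n : ℕ) :
    ∀ P : ℤ[X], P.Monic → P.natDegree ≤ n →
      ((P.map (Int.castRingHom K)).roots.filter (fun z => z ^ m = ((p : K) ^ a) ^ m)).card ≤
        len p a 1 P := by
  induction n with
  | zero =>
    intro P hP hd
    have : P = 1 := hP.natDegree_eq_zero.1 (Nat.le_zero.1 hd)
    rw [this]; simp
  | succ n ih =>
    intro P hP hd
    by_cases h0 : ((P.map (Int.castRingHom K)).roots.filter
        (fun z => z ^ m = ((p : K) ^ a) ^ m)) = 0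
    · rw [h0]; simp
    obtain ⟨z, hz⟩ := Multiset.exists_mem_of_ne_zero h0
    rw [Multiset.mem_filter] at hz
    obtain ⟨hz1, hz2⟩ := hz
    have hroot : aeval z P = 0 := by
      have := (mem_roots (hP.map _).ne_zero).1 hz1
      rw [IsRoot, eval_map] at this
      rw [aeval_def]; exact this
    have hzi := integral_of_root hP hroot
    have hEm := minpoly.monic hzi
    obtain ⟨G, hG⟩ := minpoly.isIntegrallyClosed_dvd hzi hroot
    have hGm : G.Monic := by
      rw [hG] at hP
      exact hEm.of_mul_monic_left hP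
    have hEd : 0 < (minpoly ℤ z).natDegree := minpoly.natDegree_pos hzi
    have hdeg : P.natDegree = (minpoly ℤ z).natDegree + G.natDegree := by
      conv_lhs => rw [hG]
      rw [hEm.natDegree_mul hGm]
    have h1 := ih G hGm (by omega)
    have h2 : (P.map (Int.castRingHom K)).roots =
        ((minpoly ℤ z).map (Int.castRingHom K)).roots + (G.map (Int.castRingHom K)).roots := by
      conv_lhs => rw [hG, Polynomial.map_mul]
      rw [roots_mul (mul_ne_zero (hEm.map _).ne_zero (hGm.map _).ne_zero)]
    have h3 : len p a 1 P = (minpoly ℤ z).natDegree + len p a 1 G := by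
      conv_lhs => rw [hG]
      rw [len_mul hp one_pos hEm.ne_zero hGm.ne_zero, len_minpoly hp hm hz2]
    rw [h2, Multiset.filter_add, Multiset.card_add, h3]
    have h4 : (((minpoly ℤ z).map (Int.castRingHom K)).roots.filter
        (fun z => z ^ m = ((p : K) ^ a) ^ m)).card ≤ (minpoly ℤ z).natDegree := by
      refine (Multiset.card_le_card (Multiset.filter_le _ _)).trans ?_
      refine (card_roots' _).trans ?_
      exact natDegree_map_le
    omega

/-- The Tate eigenvalues are among the roots of slope one. -/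
theorem finrank_tate {p a : ℕ} (hp : p.Prime) {K V : Type*} [Field K] [CharZero K] [IsAlgClosed K]
    [AddCommGroup V] [Module K V] [Module.Finite K V] (F : Module.End K V) {P : ℤ[X]}
    (hF : F.charpoly = P.map (Int.castRingHom K)) (hP : P.Monic) {m : ℕ} (hm : 0 < m) :
    finrank K ((F ^ m).maxGenEigenspace (((p : K) ^ a) ^ m)) ≤ len p a 1 P := by
  classical
  set f := P.map (Int.castRingHom K) with hf
  have h1 : (f.roots.filter (fun z => z ^ m = ((p : K) ^ a) ^ m)).card ≤ len p a 1 P :=
    card_tate (a := a) hp hm (K := K) P.natDegree P hP le_rfl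
  set S : Finset K := f.roots.toFinset.filter (fun z => ¬ z ^ m = ((p : K) ^ a) ^ m) with hS
  have h2 := Y146.HW.dim_count F (((p : K) ^ a) ^ m) m S (by
    intro z hz
    rw [hS, Finset.mem_filter] at hz
    exact hz.2)
  have h3 : ∀ z, finrank K (F.maxGenEigenspace z) = f.roots.count z := by
    intro z
    rw [LinearMap.finrank_maxGenEigenspace_eq, hF, count_roots]
  have h4 : ∑ z ∈ S, finrank K (F.maxGenEigenspace z) =
      (f.roots.filter (fun z => ¬ z ^ m = ((p : K) ^ a) ^ m)).card := by
    rw [← Multiset.toFinset_sum_count_eq, Multiset.toFinset_filter, ← hS]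
    apply Finset.sum_congr rfl
    intro z hz
    rw [h3, Multiset.count_filter_of_pos]
    rw [hS, Finset.mem_filter] at hz
    exact hz.2
  have h5 : finrank K V = f.roots.card := by
    rw [← LinearMap.charpoly_natDegree F, hF]
    exact (splits_iff_card_roots.1 (IsAlgClosed.splits f)).symm
  have h6 := congrArg Multiset.card
    (Multiset.filter_add_not (fun z => z ^ m = ((p : K) ^ a) ^ m) f.roots)
  rw [Multiset.card_add] at h6
  rw [h4] at h2
  omega

/-- coefficients of a product of linear factors with small roots -/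
theorem coeff_small {L : Type*} [NormedField L] [IsUltrametricDist L] {c : ℝ} (hc : 0 ≤ c)
    (s : Multiset L) (hs : ∀ x ∈ s, ‖x‖ ≤ c) :
    (s.map (fun x => (X : L[X]) - C x)).prod.natDegree = s.card ∧
    ∀ i ≤ s.card, ‖(s.map (fun x => (X : L[X]) - C x)).prod.coeff i‖ ≤ c ^ (s.card - i) := by
  induction s using Multiset.induction_on with
  | empty =>
    refine ⟨by simp, ?_⟩
    intro i hi
    rw [Multiset.card_zero, Nat.le_zero] at hi
    subst hi
    simp
  | cons x s ih =>
    obtain ⟨h1, h2⟩ := ih (fun y hy => hs y (Multiset.mem_cons_of_mem hy))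
    have hx := hs x (Multiset.mem_cons_self _ _)
    have hm : (s.map (fun x => (X : L[X]) - C x)).prod.Monic :=
      monic_multisetProd_X_sub_C s
    rw [Multiset.map_cons, Multiset.prod_cons, Multiset.card_cons]
    refine ⟨by rw [(monic_X_sub_C x).natDegree_mul hm, natDegree_X_sub_C, h1, add_comm], ?_⟩
    intro i hi
    set Q := (s.map (fun x => (X : L[X]) - C x)).prod with hQ
    have hQx : ∀ j, ‖Q.coeff j * x‖ ≤ c ^ (s.card + 1 - j) := by
      intro j
      rcases Nat.lt_or_ge s.card j with hj | hj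
      · rw [coeff_eq_zero_of_natDegree_lt (by rw [h1]; exact hj), zero_mul, norm_zero]
        exact pow_nonneg hc _
      · rw [norm_mul]
        have : s.card + 1 - j = (s.card - j) + 1 := by omega
        rw [this, pow_succ]
        exact mul_le_mul (h2 j hj) hx (norm_nonneg _) (pow_nonneg hc _)
    rw [mul_comm]
    cases i with
    | zero =>
      rw [mul_sub, coeff_sub, coeff_mul_C, mul_coeff_zero, coeff_X_zero, mul_zero, zero_sub,
        norm_neg]
      exact hQx 0
    | succ i =>
      rw [coeff_mul_X_sub_C]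
      rw [sub_eq_add_neg]
      refine (IsUltrametricDist.norm_add_le_max _ _).trans (max_le ?_ (by
        rw [norm_neg]; exact hQx _))
      have := h2 i (by omega)
      rwa [show s.card + 1 - (i + 1) = s.card - i by omega]

/-- conjugate roots have the same multiplicity -/
theorem mu_conj {K L : Type*} [Field K] [CharZero K] [Field L] [CharZero L] {P : ℤ[X]}
    (hP : P.Monic) {z : K} (hz : aeval z P = 0) {β : L}
    (hβ : eval₂ (Int.castRingHom L) β (minpoly ℤ z) = 0) : mu P z = mu P β := by
  obtain ⟨k, G, hGm, hEm, hPG, hk0, hd, hk⟩ := factor hP hz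
  have hEirr : Irreducible (minpoly ℤ z) := minpoly.irreducible (integral_of_root hP hz)
  have hβE : aeval β (minpoly ℤ z) = 0 := hβ
  have hβP : aeval β P = 0 := by
    rw [hPG, map_mul, map_pow, hβE, zero_pow hk0.ne', zero_mul]
  have hβi := integral_of_root hP hβP
  have hEβ : minpoly ℤ β = minpoly ℤ z := by
    have h1 : minpoly ℤ β ∣ minpoly ℤ z := minpoly.isIntegrallyClosed_dvd hβi hβE
    have h3 : ¬ IsUnit (minpoly ℤ β) := (minpoly.irreducible hβi).not_isUnit
    have h4 : Associated (minpoly ℤ β) (minpoly ℤ z) :=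
      ((hEirr.dvd_iff.1 h1).resolve_left h3).symm
    exact eq_of_monic_of_associated (minpoly.monic hβi) hEm h4
  obtain ⟨k', G', hG'm, -, hPG', -, -, hk'⟩ := factor hP hβP
  rw [hEβ] at hPG'
  have e1 : mu P z = k := hk
  have e2 : mu P β = k' := hk'
  have e3 : k ≤ mu P β := by
    unfold mu
    rw [le_rootMultiplicity_iff (hP.map _).ne_zero, hPG, Polynomial.map_mul, Polynomial.map_pow]
    apply Dvd.dvd.mul_right
    apply pow_dvd_pow_of_dvd
    rw [dvd_iff_isRoot, IsRoot, eval_map]
    exact hβ
  have e4 : k' ≤ mu P z := by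
    have hzE : aeval z (minpoly ℤ z) = 0 := minpoly.aeval ℤ z
    unfold mu
    rw [le_rootMultiplicity_iff (hP.map _).ne_zero]
    have h5 : P = minpoly ℤ z ^ k' * G' := hPG'
    have h6 : P.map (Int.castRingHom K) =
        (minpoly ℤ z).map (Int.castRingHom K) ^ k' * G'.map (Int.castRingHom K) := by
      conv_lhs => rw [h5]
      rw [Polynomial.map_mul, Polynomial.map_pow]
    rw [h6]
    apply Dvd.dvd.mul_right
    apply pow_dvd_pow_of_dvd
    rw [dvd_iff_isRoot, IsRoot, eval_map]
    rw [aeval_def] at hzE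
    exact hzE
  omega

/-- The multiplicity of a root `z` of `P`, `z / q` not integral, is the multiplicity of a `p`-adic
root of `P` which is not divisible by `q`. -/
theorem exists_padic {p a : ℕ} [Fact p.Prime] {K : Type*} [Field K] [CharZero K] {P : ℤ[X]}
    (hP : P.Monic) {z : K} (hz : aeval z P = 0) (hni : ¬ IsIntegral ℤ (z / (p : K) ^ a)) :
    ∃ β : PadicAlgCl p, ((p : ℝ) ^ a)⁻¹ < ‖β‖ ∧ mu P z = mu P β := by
  have hp : p.Prime := Fact.out
  obtain ⟨k, G, hGm, hEm, hPG, hk0, hd, hk⟩ := factor hP hz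
  set E := minpoly ℤ z with hE
  obtain ⟨i, hi⟩ := exists_not_dvd hp hEm (minpoly.aeval ℤ z) hni
  set f := E.map (Int.castRingHom (PadicAlgCl p)) with hf
  have hfm : f.Monic := hEm.map _
  have hfd : f.natDegree = E.natDegree := hEm.natDegree_map _
  obtain ⟨β, hβ, hβ'⟩ : ∃ β ∈ f.roots, ((p : ℝ) ^ a)⁻¹ < ‖β‖ := by
    by_contra hcon
    push Not at hcon
    have hc : (0 : ℝ) ≤ ((p : ℝ) ^ a)⁻¹ := by positivity
    obtain ⟨-, h2⟩ := coeff_small hc f.roots hcon
    have hspl := IsAlgClosed.splits f
    have hcard : f.roots.card = E.natDegree := by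
      rw [← hfd]; exact splits_iff_card_roots.1 hspl
    have hprod : (f.roots.map (fun x => X - C x)).prod = f :=
      (hspl.eq_prod_roots_of_monic hfm).symm
    have hin : i ≤ E.natDegree := by
      by_contra hlt
      push Not at hlt
      apply hi
      rw [coeff_eq_zero_of_natDegree_lt hlt]
      exact dvd_zero _
    have h3 := h2 i (by rw [hcard]; exact hin)
    rw [hprod, hcard, hf, coeff_map, eq_intCast] at h3
    apply hi
    have h4 : ‖((E.coeff i : ℤ) : ℚ_[p])‖ ≤ (p : ℝ) ^ (-((a * (E.natDegree - i) : ℕ) : ℤ)) := by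
      have h5 : ((E.coeff i : ℤ) : PadicAlgCl p) =
          algebraMap ℚ_[p] (PadicAlgCl p) ((E.coeff i : ℤ) : ℚ_[p]) := by
        rw [map_intCast]
      rw [h5] at h3
      have h6 := PadicAlgCl.norm_extends p ((E.coeff i : ℤ) : ℚ_[p])
      rw [← h6]
      refine h3.trans (le_of_eq ?_)
      rw [zpow_neg, zpow_natCast, pow_mul, inv_pow]
    have h7 := (Padic.norm_int_le_pow_iff_dvd (p := p) (E.coeff i) (a * (E.natDegree - i))).1 h4
    exact_mod_cast h7
  refine ⟨β, hβ', mu_conj hP hz ?_⟩
  have := (mem_roots hfm.ne_zero).1 hβ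
  rw [IsRoot, hf, eval_map] at this
  exact this

end Pool.Agent.Y218.NP
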