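import Mathlib
import Pool.Agent.Y218.NPc

set_option autoImplicit false

open Polynomial Module W534.FS

namespace Pool.Agent.Y218.NP

/-- The multiplicity of the root `q ζ` of `P`, `ζ ^ m = 1`, is at most the multiplicity of a root `ρ`,
`ρ ^ m = 1`, of the initial form of slope one. -/
theorem mult_tate {p a m : ℕ} [Fact p.Prime] (hm : 0 < m) {K : Type*} [Field K] [CharZero K]
    {P : ℤ[X]} (hP : P.Monic) {z : K} (hz : aeval z P = 0) (hzm : z ^ m = ((p : K) ^ a) ^ m) :
    ∃ ρ : AlgebraicClosure (ZMod p), ρ ^ m = 1 ∧ mu P z ≤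
      rootMultiplicity ρ ((side p a 1 P).map (algebraMap (ZMod p) (AlgebraicClosure (ZMod p)))) := by
  have hp : p.Prime := Fact.out
  obtain ⟨k, G, hGm, hEm, hPG, hk0, hd, hk⟩ := factor hP hz
  have hlen := len_minpoly (a := a) hp hm hzm
  set k' := AlgebraicClosure (ZMod p)
  obtain ⟨h1, h2⟩ := isIni_side (r := a) hp one_pos hEm.ne_zero
  obtain ⟨h3, h4⟩ := isIni_side (r := a) hp one_pos hP.ne_zero
  have hdeg : (side p a 1 (minpoly ℤ z)).natDegree ≠ 0 := by
    unfold len at hlen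
    omega
  have hmap0 : (side p a 1 (minpoly ℤ z)).map (algebraMap (ZMod p) k') ≠ 0 :=
    (Polynomial.map_ne_zero_iff (algebraMap (ZMod p) k').injective).2 h2
  obtain ⟨ρ, hρ⟩ : ∃ ρ : k', ((side p a 1 (minpoly ℤ z)).map (algebraMap (ZMod p) k')).IsRoot ρ := by
    apply IsAlgClosed.exists_root
    rw [degree_eq_natDegree hmap0, natDegree_map]
    exact_mod_cast hdeg
  refine ⟨ρ, ?_, ?_⟩
  · have hT : aeval z (X ^ m - C (((p : ℤ) ^ a) ^ m)) = 0 := by
      rw [map_sub, map_pow, aeval_X, aeval_C, hzm, eq_intCast]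
      push_cast
      exact sub_self _
    have hmon : (X ^ m - C (((p : ℤ) ^ a) ^ m)).Monic := monic_X_pow_sub_C _ hm.ne'
    obtain ⟨H, hH⟩ := minpoly.isIntegrallyClosed_dvd (integral_of_root hmon hT) hT
    have hHm : H.Monic := by
      rw [hH] at hmon
      exact hEm.of_mul_monic_left hmon
    have hne : (X ^ m - C (((p : ℤ) ^ a) ^ m) : ℤ[X]) ≠ 0 := X_pow_sub_C_ne_zero hm _
    have hne' : (X ^ m - C 1 : (ZMod p)[X]) ≠ 0 := X_pow_sub_C_ne_zero hm _
    obtain ⟨h5, h6⟩ := isIni_side (r := a) hp one_pos hne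
    have h7 := (h5.unique hp (ini_tate hm) h6 hne').2
    have h8 : side p a 1 (minpoly ℤ z) ∣ X ^ m - C 1 := by
      rw [← h7, hH, side_mul hp one_pos hEm.ne_zero hHm.ne_zero]
      exact dvd_mul_right _ _
    have h9 := Polynomial.map_dvd (algebraMap (ZMod p) k') h8
    have h10 := hρ.dvd h9
    rw [IsRoot, Polynomial.map_sub, Polynomial.map_pow, map_X, map_C, map_one, eval_sub, eval_pow,
      eval_X, eval_C, sub_eq_zero] at h10
    exact h10
  · have hmu : mu P z = k := hk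
    have hP0 : (side p a 1 P).map (algebraMap (ZMod p) k') ≠ 0 :=
      (Polynomial.map_ne_zero_iff (algebraMap (ZMod p) k').injective).2 h4
    rw [hmu, le_rootMultiplicity_iff hP0, hPG, side_mul hp one_pos (pow_ne_zero _ hEm.ne_zero)
      hGm.ne_zero, side_pow hp one_pos hEm.ne_zero, Polynomial.map_mul, Polynomial.map_pow]
    exact Dvd.dvd.mul_right (pow_dvd_pow_of_dvd (dvd_iff_isRoot.2 hρ) _) _

theorem mult_le_of_resMult {p a m : ℕ} [Fact p.Prime] {K : Type*} [Field K] [CharZero K] {P : ℤ[X]}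
    (hP : P.Monic) (h : ResMult p a P m) {z : K} (hz : aeval z P = 0)
    (hni : ¬ IsIntegral ℤ (z / (p : K) ^ a)) : mu P z ≤ m := by
  obtain ⟨r, s, hrs, hs, hra, R, hR, hR', ρ, hρ, hle⟩ := mult_resid hP hz hni
  exact hle.trans (h r s hrs hs hra R ⟨hR, _, hR'⟩ ρ hρ)

/-- sides of length at most `m s` -/
theorem resMult_of_len {p a m : ℕ} [Fact p.Prime] {P : ℤ[X]}
    (h : ∀ r s, Nat.Coprime r s → 0 < s → r < a * s → len p r s P ≤ m * s) :
    ResMult p a P m := by
  have hp : p.Prime := Fact.out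
  intro r s hrs hs hra R hR ρ hρ
  obtain ⟨hR0, i, hi⟩ := hR
  have hRne : R ≠ 0 := fun h0 => hR0 (by rw [h0, coeff_zero])
  have hexp : (expand (ZMod p) s R).natTrailingDegree = 0 := by
    apply Nat.le_zero.1
    apply natTrailingDegree_le_of_ne_zero
    have h4 := coeff_expand_mul hs R 0
    rw [zero_mul] at h4
    rw [h4]; exact hR0
  have hne : expand (ZMod p) s R ≠ 0 := (expand_ne_zero hs).2 hRne
  have hi' : (side p r s P).natTrailingDegree = i := by
    rw [hi, natTrailingDegree_mul (pow_ne_zero _ X_ne_zero) hne, hexp]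
    simp
  have h1 := len_eq hp hs hR0 (P := P) (by rw [hi']; exact hi)
  have h2 := h r s hrs hs hra
  rw [h1] at h2
  have h3 : R.natDegree ≤ m := Nat.le_of_mul_le_mul_right h2 hs
  refine le_trans ?_ h3
  classical
  have h5 := (R.map (algebraMap (ZMod p) (AlgebraicClosure (ZMod p)))).card_roots'
  rw [natDegree_map] at h5
  refine le_trans ?_ h5
  rw [← count_roots]
  exact Multiset.count_le_card _ _

theorem norm_le_one_of_int {L : Type*} [NormedField L] [IsUltrametricDist L] {x : L}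
    (hx : IsIntegral ℤ x) : ‖x‖ ≤ 1 := by
  obtain ⟨Q, hQ, hQx⟩ := hx
  by_contra hcon
  push Not at hcon
  rcases Nat.eq_zero_or_pos Q.natDegree with h0 | h0
  · have : Q = 1 := hQ.natDegree_eq_zero.1 h0
    rw [this] at hQx
    simp at hQx
  rw [eval₂_eq_sum_range, Finset.sum_range_succ, hQ.coeff_natDegree, map_one, one_mul] at hQx
  have h1 : x ^ Q.natDegree = -∑ i ∈ Finset.range Q.natDegree, (algebraMap ℤ L) (Q.coeff i) * x ^ i :=
    eq_neg_of_add_eq_zero_right hQx
  have h2 : ‖∑ i ∈ Finset.range Q.natDegree, (algebraMap ℤ L) (Q.coeff i) * x ^ i‖ ≤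
      ‖x‖ ^ (Q.natDegree - 1) := by
    apply IsUltrametricDist.norm_sum_le_of_forall_le_of_nonneg (by positivity)
    intro i hi
    rw [Finset.mem_range] at hi
    rw [norm_mul, norm_pow]
    calc _ ≤ 1 * ‖x‖ ^ i := by
          apply mul_le_mul_of_nonneg_right _ (by positivity)
          rw [eq_intCast]
          exact IsUltrametricDist.norm_intCast_le_one L _
      _ = ‖x‖ ^ i := one_mul _
      _ ≤ ‖x‖ ^ (Q.natDegree - 1) := pow_le_pow_right₀ hcon.le (by omega)
  have h3 : ‖x‖ ^ Q.natDegree ≤ ‖x‖ ^ (Q.natDegree - 1) := by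
    rw [← norm_pow, h1, norm_neg]
    exact h2
  have h4 : ‖x‖ ^ (Q.natDegree - 1) < ‖x‖ ^ Q.natDegree :=
    pow_lt_pow_right₀ hcon (by omega)
  exact absurd h3 (not_le.2 h4)

theorem norm_p {p : ℕ} [Fact p.Prime] : ‖(p : PadicAlgCl p)‖ = (p : ℝ)⁻¹ := by
  have h1 : (p : PadicAlgCl p) = algebraMap ℚ_[p] (PadicAlgCl p) (p : ℚ_[p]) := by
    rw [map_natCast]
  rw [h1]
  have h2 := PadicAlgCl.norm_extends p (p : ℚ_[p])
  exact h2.trans Padic.norm_p

/-- the `p`-adic roots of `P` not divisible by `q` satisfy the hypothesis on integrality -/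
theorem not_int_of_norm {p a : ℕ} [Fact p.Prime] {L : Type*} [NormedField L] [IsUltrametricDist L]
    (hL : ‖(p : L)‖ = (p : ℝ)⁻¹) {β : L} (hβ : ((p : ℝ) ^ a)⁻¹ < ‖β‖) :
    ¬ IsIntegral ℤ (β / (p : L) ^ a) := by
  intro h
  have hp : (0 : ℝ) < p := by exact_mod_cast (Fact.out : p.Prime).pos
  have h1 := norm_le_one_of_int h
  rw [norm_div, norm_pow, hL, inv_pow, div_inv_eq_mul] at h1
  have h2 : (0 : ℝ) < (p : ℝ) ^ a := pow_pos hp a
  have h3 : ((p : ℝ) ^ a)⁻¹ * (p : ℝ) ^ a < ‖β‖ * (p : ℝ) ^ a := mul_lt_mul_of_pos_right hβ h2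
  rw [inv_mul_cancel₀ h2.ne'] at h3
  linarith

/-- a root not divisible by `q` in a field with a norm has a conjugate which is not `q` times a
root of unity -/
theorem exists_nonTate {p a : ℕ} [Fact p.Prime] {L : Type*} [NormedField L] [CharZero L]
    (hL : ‖(p : L)‖ = (p : ℝ)⁻¹) {K : Type*} [Field K] [CharZero K] [IsAlgClosed K] {P : ℤ[X]}
    (hP : P.Monic) {β : L} (hβ : ((p : ℝ) ^ a)⁻¹ < ‖β‖) (hβP : aeval β P = 0) :
    ∃ α : K, aeval α P = 0 ∧ mu P β = mu P α ∧ ∀ m, 0 < m → α ^ m ≠ ((p : K) ^ a) ^ m := by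
  have hβi := integral_of_root hP hβP
  have hEm := minpoly.monic hβi
  have hEd : 0 < (minpoly ℤ β).natDegree := minpoly.natDegree_pos hβi
  obtain ⟨α, hα⟩ : ∃ α : K, ((minpoly ℤ β).map (Int.castRingHom K)).IsRoot α := by
    apply IsAlgClosed.exists_root
    rw [degree_eq_natDegree (hEm.map _).ne_zero, hEm.natDegree_map]
    exact_mod_cast hEd.ne'
  have hα' : eval₂ (Int.castRingHom K) α (minpoly ℤ β) = 0 := by
    rw [IsRoot, eval_map] at hα
    exact hα
  have hαE : aeval α (minpoly ℤ β) = 0 := hα'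
  refine ⟨α, ?_, mu_conj hP hβP hα', ?_⟩
  · obtain ⟨G, hG⟩ := minpoly.isIntegrallyClosed_dvd hβi hβP
    rw [hG, map_mul, hαE, zero_mul]
  · intro m hm h
    have hT : aeval α (X ^ m - C (((p : ℤ) ^ a) ^ m)) = 0 := by
      rw [map_sub, map_pow, aeval_X, aeval_C, h, eq_intCast]
      push_cast
      exact sub_self _
    have hmon : (X ^ m - C (((p : ℤ) ^ a) ^ m)).Monic := monic_X_pow_sub_C _ hm.ne'
    have hαi := integral_of_root hmon hT
    have hEβ : minpoly ℤ α = minpoly ℤ β := by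
      have h1 : minpoly ℤ α ∣ minpoly ℤ β := minpoly.isIntegrallyClosed_dvd hαi hαE
      have h3 : ¬ IsUnit (minpoly ℤ α) := (minpoly.irreducible hαi).not_isUnit
      have h4 : Associated (minpoly ℤ α) (minpoly ℤ β) :=
        (((minpoly.irreducible hβi).dvd_iff.1 h1).resolve_left h3).symm
      exact eq_of_monic_of_associated (minpoly.monic hαi) hEm h4
    obtain ⟨G, hG⟩ := minpoly.isIntegrallyClosed_dvd hαi hT
    have h5 : aeval β (X ^ m - C (((p : ℤ) ^ a) ^ m)) = 0 := by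
      rw [hG, hEβ, map_mul, minpoly.aeval, zero_mul]
    rw [map_sub, map_pow, aeval_X, aeval_C, eq_intCast, sub_eq_zero] at h5
    push_cast at h5
    have h6 := congrArg norm h5
    rw [norm_pow, norm_pow, norm_pow, hL] at h6
    have h7 : ‖β‖ = ((p : ℝ)⁻¹) ^ a := by
      have hp : (0 : ℝ) < p := by exact_mod_cast (Fact.out : p.Prime).pos
      exact (pow_left_inj₀ (norm_nonneg _) (by positivity) hm.ne').1 h6
    rw [h7, inv_pow] at hβ
    exact lt_irrefl _ hβ

end Pool.Agent.Y218.NP
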