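import Mathlib

set_option autoImplicit false

open Module

namespace Pool.Agent.Y218.QM

/-- The indices of the structure constants of a symmetric bilinear map: `(i, {j, k})`. -/
abbrev Idx (n : ℕ) := Fin n × Sym2 (Fin n)

variable {K : Type*} [Field K] {n : ℕ}

/-- The symmetric bilinear map with the structure constants `T`: the `i`-th coordinate of the
product of `x` and `y` is `∑ T (i, {j, k}) x_j y_k`. -/
noncomputable def bil (T : Idx n → K) :
    (Fin n → K) →ₗ[K] (Fin n → K) →ₗ[K] (Fin n → K) :=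
  LinearMap.mk₂ K (fun x y i => ∑ j, ∑ k, T (i, s(j, k)) * x j * y k)
    (by
      intro x x' y; ext i
      simp only [Pi.add_apply, ← Finset.sum_add_distrib]
      exact Finset.sum_congr rfl fun j _ => Finset.sum_congr rfl fun k _ => by ring)
    (by
      intro c x y; ext i
      simp only [Pi.smul_apply, smul_eq_mul, Finset.mul_sum]
      exact Finset.sum_congr rfl fun j _ => Finset.sum_congr rfl fun k _ => by ring)
    (by
      intro x y y'; ext i
      simp only [Pi.add_apply, ← Finset.sum_add_distrib]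
      exact Finset.sum_congr rfl fun j _ => Finset.sum_congr rfl fun k _ => by ring)
    (by
      intro c x y; ext i
      simp only [Pi.smul_apply, smul_eq_mul, Finset.mul_sum]
      exact Finset.sum_congr rfl fun j _ => Finset.sum_congr rfl fun k _ => by ring)

theorem bil_apply (T : Idx n → K) (x y : Fin n → K) (i : Fin n) :
    bil T x y i = ∑ j, ∑ k, T (i, s(j, k)) * x j * y k := rfl

/-- the basis vector -/
def e (j : Fin n) : Fin n → K := Pi.single j 1

theorem bil_e (T : Idx n → K) (j k i : Fin n) : bil T (e j) (e k) i = T (i, s(j, k)) := by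
  rw [bil_apply, Finset.sum_eq_single j, Finset.sum_eq_single k]
  · simp [e]
  · intro b _ hb; simp [e, hb]
  · intro h; exact absurd (Finset.mem_univ _) h
  · intro b _ hb; simp [e, hb]
  · intro h; exact absurd (Finset.mem_univ _) h

theorem bil_symm (T : Idx n → K) (x y : Fin n → K) : bil T x y = bil T y x := by
  ext i
  rw [bil_apply, bil_apply, Finset.sum_comm]
  refine Finset.sum_congr rfl fun j _ => Finset.sum_congr rfl fun k _ => ?_
  rw [Sym2.eq_swap]; ring

theorem bil_inj {T T' : Idx n → K} (h : ∀ j k, bil T (e j) (e k) = bil T' (e j) (e k)) :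
    T = T' := by
  ext ⟨i, z⟩
  induction z using Sym2.inductionOn with
  | hf j k => rw [← bil_e T j k i, ← bil_e T' j k i, h]

theorem lin_ext {W : Type*} [AddCommGroup W] [Module K W] {f g : (Fin n → K) →ₗ[K] W}
    (h : ∀ j, f (e j) = g (e j)) : f = g := by
  apply (Pi.basisFun K (Fin n)).ext
  intro j
  have : (Pi.basisFun K (Fin n)) j = e j := by
    rw [Pi.basisFun_apply]; rfl
  rw [this]
  exact h j

/-- The product `bil T x y`, written out. -/
def mul (T : Idx n → K) (x y : Fin n → K) : Fin n → K :=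
  fun i => ∑ j, ∑ k, T (i, s(j, k)) * x j * y k

/-- `g x` -/
def app (g : (Fin n → K) ≃ₗ[K] (Fin n → K)) (x : Fin n → K) : Fin n → K := g x

/-- `g⁻¹ x` -/
def appInv (g : (Fin n → K) ≃ₗ[K] (Fin n → K)) (x : Fin n → K) : Fin n → K := g.symm x

/-- The structure constants of the product `x, y ↦ g (mul T (g⁻¹ x) (g⁻¹ y))`, that is, of the
conjugate of the quadratic map `x ↦ mul T x x` by `g`. -/
def act (g : (Fin n → K) ≃ₗ[K] (Fin n → K)) (T : Idx n → K) : Idx n → K :=
  fun p => Sym2.lift ⟨fun j k => app g (mul T (appInv g (e j)) (appInv g (e k))) p.1, by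
    intro j k
    change g (bil T (g.symm (e j)) (g.symm (e k))) p.1 =
      g (bil T (g.symm (e k)) (g.symm (e j))) p.1
    rw [bil_symm]⟩ p.2

theorem bil_act (g : (Fin n → K) ≃ₗ[K] (Fin n → K)) (T : Idx n → K) (x y : Fin n → K) :
    bil (act g T) x y = g (bil T (g.symm x) (g.symm y)) := by
  have h1 : bil (act g T) = ((bil T).compl₁₂ (g.symm : (Fin n → K) →ₗ[K] (Fin n → K))
      (g.symm : (Fin n → K) →ₗ[K] (Fin n → K))).compr₂ (g : (Fin n → K) →ₗ[K] (Fin n → K)) := by
    apply lin_ext
    intro j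
    apply lin_ext
    intro k
    ext i
    rw [bil_e]
    rfl
  rw [h1]
  rfl

theorem act_act (g h : (Fin n → K) ≃ₗ[K] (Fin n → K)) (T : Idx n → K) :
    act g (act h T) = act (h.trans g) T := by
  apply bil_inj
  intro j k
  rw [bil_act, bil_act, bil_act]
  rfl

theorem act_refl (T : Idx n → K) : act (LinearEquiv.refl K _) T = T := by
  apply bil_inj
  intro j k
  rw [bil_act]
  rfl

/-- the linear form `x ↦ tr (y ↦ bil T x y)` (half of the divergence) -/
noncomputable def D (T : Idx n → K) : (Fin n → K) →ₗ[K] K :=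
  (LinearMap.trace K (Fin n → K)) ∘ₗ (bil T)

theorem D_act (g : (Fin n → K) ≃ₗ[K] (Fin n → K)) (T : Idx n → K) (x : Fin n → K) :
    D (act g T) x = D T (g.symm x) := by
  unfold D
  rw [LinearMap.comp_apply, LinearMap.comp_apply]
  have h1 : bil (act g T) x = g.conj (bil T (g.symm x)) := by
    apply LinearMap.ext
    intro z
    rw [LinearEquiv.conj_apply_apply, bil_act]
  rw [h1]
  exact LinearMap.trace_conj' _ _

theorem D_e (T : Idx n → K) (k : Fin n) : D T (e k) = ∑ j, T (j, s(k, j)) := by
  unfold D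
  rw [LinearMap.comp_apply, LinearMap.trace_eq_matrix_trace K (Pi.basisFun K (Fin n))]
  unfold Matrix.trace
  apply Finset.sum_congr rfl
  intro j _
  rw [Matrix.diag_apply, LinearMap.toMatrix_apply, Pi.basisFun_apply, Pi.basisFun_repr]
  exact bil_e T k j j

/-- the bilinear form `D (bil T x y)` -/
noncomputable def Q (T : Idx n → K) (x y : Fin n → K) : K := D T (bil T x y)

theorem Q_act (g : (Fin n → K) ≃ₗ[K] (Fin n → K)) (T : Idx n → K) (x y : Fin n → K) :
    Q (act g T) x y = Q T (g.symm x) (g.symm y) := by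
  unfold Q
  rw [D_act, bil_act, LinearEquiv.symm_apply_apply]

theorem Q_symm (T : Idx n → K) (x y : Fin n → K) : Q T x y = Q T y x := by
  unfold Q
  rw [bil_symm]

/-- the matrix of the form -/
noncomputable def qmat (T : Idx n → K) : Matrix (Fin n) (Fin n) K :=
  Matrix.of fun j k => Q T (e j) (e k)

theorem sum_e (x : Fin n → K) : ∑ j, x j • (e j : Fin n → K) = x := by
  ext i
  rw [Finset.sum_apply, Finset.sum_eq_single i]
  · simp [e]
  · intro b _ hb; simp [e, hb.symm]
  · intro h; exact absurd (Finset.mem_univ _) h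

theorem qmat_mulVec (T : Idx n → K) (x : Fin n → K) (j : Fin n) :
    (qmat T).mulVec x j = Q T x (e j) := by
  rw [Q_symm]
  conv_rhs => rw [← sum_e x]
  unfold Matrix.mulVec dotProduct Q
  rw [map_sum, map_sum]
  apply Finset.sum_congr rfl
  intro k _
  rw [map_smul, map_smul, smul_eq_mul]
  change Q T (e j) (e k) * x k = x k * Q T (e j) (e k)
  exact mul_comm _ _

theorem Q_ext (T : Idx n → K) {x : Fin n → K} {f : (Fin n → K) →ₗ[K] K}
    (h : ∀ j, Q T x (e j) = f (e j)) (y : Fin n → K) : Q T x y = f y := by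
  have : (D T) ∘ₗ (bil T x) = f := lin_ext h
  rw [← this]
  rfl

theorem det_ne_iff (T : Idx n → K) :
    (qmat T).det ≠ 0 ↔ ∀ x, (∀ y, Q T x y = 0) → x = 0 := by
  rw [Ne, ← Matrix.exists_mulVec_eq_zero_iff]
  push Not
  constructor
  · intro h x hx
    by_contra h0
    apply h x h0
    ext j
    rw [qmat_mulVec]
    exact hx _
  · intro h x h0 hx
    apply h0
    apply h
    apply Q_ext T (f := 0)
    intro j
    rw [← qmat_mulVec, hx]
    rfl

/-- the vector `v` with `Q T v y = D T y` -/
noncomputable def v0 (T : Idx n → K) : Fin n → K := (qmat T)⁻¹.mulVec (fun k => D T (e k))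

theorem v0_spec {T : Idx n → K} (h : (qmat T).det ≠ 0) (y : Fin n → K) :
    Q T (v0 T) y = D T y := by
  apply Q_ext
  intro j
  rw [← qmat_mulVec]
  unfold v0
  rw [Matrix.mulVec_mulVec, Matrix.mul_nonsing_inv _ (Ne.isUnit h), Matrix.one_mulVec]

theorem v0_unique {T : Idx n → K} (h : (qmat T).det ≠ 0) {x : Fin n → K}
    (hx : ∀ y, Q T x y = D T y) : x = v0 T := by
  have h1 := (det_ne_iff T).1 h (x - v0 T) (by
    intro y
    have h2 : Q T (x - v0 T) y = Q T x y - Q T (v0 T) y := by
      unfold Q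
      rw [map_sub, LinearMap.sub_apply, map_sub]
    rw [h2, hx, v0_spec h, sub_self])
  exact sub_eq_zero.1 h1

theorem det_act {T : Idx n → K} (h : (qmat T).det ≠ 0) (g : (Fin n → K) ≃ₗ[K] (Fin n → K)) :
    (qmat (act g T)).det ≠ 0 := by
  rw [det_ne_iff] at h ⊢
  intro x hx
  have h1 := h (g.symm x) (by
    intro y
    have h2 := hx (g y)
    rwa [Q_act, LinearEquiv.symm_apply_apply] at h2)
  exact (LinearEquiv.map_eq_zero_iff _).1 h1

theorem v0_act {T : Idx n → K} (h : (qmat T).det ≠ 0) (g : (Fin n → K) ≃ₗ[K] (Fin n → K)) :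
    v0 (act g T) = g (v0 T) := by
  symm
  apply v0_unique (det_act h g)
  intro y
  rw [Q_act, LinearEquiv.symm_apply_apply, v0_spec h, D_act]

/-- the frame: `u T k` is the `k`-th iterate of `bil T (v0 T)` on `v0 T` -/
noncomputable def u (T : Idx n → K) : ℕ → (Fin n → K)
  | 0 => v0 T
  | k + 1 => bil T (v0 T) (u T k)

theorem u_act {T : Idx n → K} (h : (qmat T).det ≠ 0) (g : (Fin n → K) ≃ₗ[K] (Fin n → K)) (k : ℕ) :
    u (act g T) k = g (u T k) := by
  induction k with
  | zero => exact v0_act h g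
  | succ k ih =>
    change bil (act g T) (v0 (act g T)) (u (act g T) k) = g (bil T (v0 T) (u T k))
    rw [bil_act, ih, v0_act h g, LinearEquiv.symm_apply_apply, LinearEquiv.symm_apply_apply]

/-- the matrix whose columns are the vectors of the frame -/
noncomputable def fmat (T : Idx n → K) : Matrix (Fin n) (Fin n) K :=
  Matrix.of fun i k => u T k i

/-- The normal form of `T`: the structure constants in the frame. -/
noncomputable def nf (T : Idx n → K) : Idx n → K :=
  fun p => Sym2.lift ⟨fun (j k : Fin n) => (fmat T)⁻¹.mulVec (bil T (u T j) (u T k)) p.1, by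
    intro j k
    dsimp only
    rw [bil_symm]⟩ p.2

theorem fmat_mulVec (T : Idx n → K) (x : Fin n → K) :
    (fmat T).mulVec x = ∑ k, x k • u T k := by
  ext i
  rw [Finset.sum_apply]
  unfold Matrix.mulVec dotProduct fmat
  apply Finset.sum_congr rfl
  intro k _
  change u T k i * x k = x k * u T k i
  exact mul_comm _ _

/-- the frame as an automorphism -/
noncomputable def frame {T : Idx n → K} (h : (fmat T).det ≠ 0) :
    (Fin n → K) ≃ₗ[K] (Fin n → K) :=
  LinearEquiv.ofLinearMap (Matrix.mulVecLin (fmat T)) (Matrix.mulVecLin (fmat T)⁻¹)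
    (by
      rw [← Matrix.mulVecLin_mul, Matrix.mul_nonsing_inv _ (Ne.isUnit h), Matrix.mulVecLin_one])
    (by
      rw [← Matrix.mulVecLin_mul, Matrix.nonsing_inv_mul _ (Ne.isUnit h), Matrix.mulVecLin_one])

theorem frame_e {T : Idx n → K} (h : (fmat T).det ≠ 0) (k : Fin n) : frame h (e k) = u T k := by
  change (fmat T).mulVec (e k) = u T k
  rw [fmat_mulVec, Finset.sum_eq_single k]
  · simp [e]
  · intro b _ hb; simp [e, hb]
  · intro h; exact absurd (Finset.mem_univ _) h

theorem nf_eq {T : Idx n → K} (h : (fmat T).det ≠ 0) : nf T = act (frame h).symm T := by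
  ext ⟨i, z⟩
  induction z using Sym2.inductionOn with
  | hf j k =>
    change (fmat T)⁻¹.mulVec (bil T (u T j) (u T k)) i =
      (frame h).symm (bil T ((frame h).symm.symm (e j)) ((frame h).symm.symm (e k))) i
    rw [LinearEquiv.symm_symm, frame_e, frame_e]
    rfl

theorem fmat_act {T : Idx n → K} (h : (qmat T).det ≠ 0) (hf : (fmat T).det ≠ 0)
    (g : (Fin n → K) ≃ₗ[K] (Fin n → K)) : (fmat (act g T)).det ≠ 0 := by
  rw [Ne, ← Matrix.exists_mulVec_eq_zero_iff] at hf ⊢
  rintro ⟨x, hx0, hx⟩
  apply hf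
  refine ⟨x, hx0, ?_⟩
  rw [fmat_mulVec] at hx ⊢
  have h1 : ∑ k, x k • u (act g T) k = g (∑ k, x k • u T k) := by
    rw [map_sum]
    apply Finset.sum_congr rfl
    intro k _
    rw [map_smul, u_act h g]
  rw [h1] at hx
  exact (LinearEquiv.map_eq_zero_iff _).1 hx

/-- the normal form is invariant -/
theorem nf_act {T : Idx n → K} (h : (qmat T).det ≠ 0) (hf : (fmat T).det ≠ 0)
    (g : (Fin n → K) ≃ₗ[K] (Fin n → K)) : nf (act g T) = nf T := by
  rw [nf_eq (fmat_act h hf g), nf_eq hf, act_act]
  congr 1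
  apply LinearEquiv.toLinearMap_injective
  have h1 : (frame (fmat_act h hf g) : (Fin n → K) →ₗ[K] (Fin n → K)) =
      (g : (Fin n → K) →ₗ[K] (Fin n → K)) ∘ₗ (frame hf : (Fin n → K) →ₗ[K] (Fin n → K)) := by
    apply lin_ext
    intro k
    change frame (fmat_act h hf g) (e k) = g (frame hf (e k))
    rw [frame_e, frame_e, u_act h g]
  apply LinearMap.ext
  intro x
  change (frame (fmat_act h hf g)).symm (g x) = (frame hf).symm x
  rw [LinearEquiv.symm_apply_eq]
  have h2 := LinearMap.congr_fun h1 ((frame hf).symm x)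
  change frame (fmat_act h hf g) ((frame hf).symm x) = g (frame hf ((frame hf).symm x)) at h2
  rw [h2, LinearEquiv.apply_symm_apply]

end Pool.Agent.Y218.QM
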