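import Mathlib
import Pool.Agent.Y218.QMa

set_option autoImplicit false

open Module

namespace Pool.Agent.Y218.QM

variable {K : Type*} [Field K] {N : ℕ}

/-- The linear equations of the slice. -/
structure InSlice (T : Idx (N + 1) → K) : Prop where
  /-- the product of `e_0` and `e_k` is `e_(k+1)` for `k < N` -/
  next : ∀ (k : Fin N) (i : Fin (N + 1)), T (i, s(0, k.castSucc)) = if i = k.succ then 1 else 0
  /-- the sum of the coordinates of the product of `e_0` and `e_N` is `1` -/
  sum : ∑ i, T (i, s(0, Fin.last N)) = 1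
  /-- the traces of the multiplications by the `e_k` are equal -/
  tr : ∀ k : Fin (N + 1), k ≠ 0 → ∑ j, T (j, s(k, j)) = T (Fin.last N, s(0, Fin.last N))

/-- The slice as an affine subspace. -/
def slice (K : Type*) [Field K] (N : ℕ) : AffineSubspace K (Idx (N + 1) → K) where
  carrier := {T | InSlice T}
  smul_vsub_vadd_mem' := by
    intro c T1 T2 T3 h1 h2 h3
    refine ⟨?_, ?_, ?_⟩
    · intro k i
      simp only [vsub_eq_sub, vadd_eq_add, Pi.add_apply, Pi.smul_apply, Pi.sub_apply, smul_eq_mul]
      rw [h1.next, h2.next, h3.next]; ring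
    · simp only [vsub_eq_sub, vadd_eq_add, Pi.add_apply, Pi.smul_apply, Pi.sub_apply, smul_eq_mul]
      rw [Finset.sum_add_distrib, ← Finset.mul_sum, Finset.sum_sub_distrib, h1.sum, h2.sum, h3.sum]
      ring
    · intro k hk
      simp only [vsub_eq_sub, vadd_eq_add, Pi.add_apply, Pi.smul_apply, Pi.sub_apply, smul_eq_mul]
      rw [Finset.sum_add_distrib, ← Finset.mul_sum, Finset.sum_sub_distrib, h1.tr k hk,
        h2.tr k hk, h3.tr k hk]

theorem mem_slice {T : Idx (N + 1) → K} : T ∈ slice K N ↔ InSlice T := Iff.rfl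

theorem bil_next {T : Idx (N + 1) → K} (h : InSlice T) (k : Fin N) :
    bil T (e 0) (e k.castSucc) = e k.succ := by
  ext i
  rw [bil_e, h.next]
  unfold e
  rw [Pi.single_apply]

theorem D_sum {T : Idx (N + 1) → K} {δ : K} (h : ∀ k, D T (e k) = δ) (x : Fin (N + 1) → K) :
    D T x = δ * ∑ i, x i := by
  conv_lhs => rw [← sum_e x]
  rw [map_sum, Finset.mul_sum]
  apply Finset.sum_congr rfl
  intro i _
  rw [map_smul, h, smul_eq_mul, mul_comm]

theorem bil_last (T : Idx (N + 1) → K) (k : Fin (N + 1)) :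
    ∑ i, bil T (e 0) (e k) i = ∑ i, T (i, s(0, k)) :=
  Finset.sum_congr rfl fun i _ => bil_e T 0 k i

theorem D_zero {T : Idx (N + 1) → K}
    (h : ∀ (k : Fin N) (i : Fin (N + 1)), T (i, s(0, k.castSucc)) = if i = k.succ then 1 else 0) :
    D T (e 0) = T (Fin.last N, s(0, Fin.last N)) := by
  rw [D_e, Fin.sum_univ_castSucc, Finset.sum_eq_zero, zero_add]
  intro j _
  rw [h, if_neg]
  intro h1
  have := congrArg Fin.val h1
  simp at this

theorem D_slice {T : Idx (N + 1) → K} (h : InSlice T) (k : Fin (N + 1)) :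
    D T (e k) = T (Fin.last N, s(0, Fin.last N)) := by
  by_cases hk : k = 0
  · rw [hk]; exact D_zero h.next
  · rw [D_e]; exact h.tr k hk

theorem v0_slice {T : Idx (N + 1) → K} (h : InSlice T) (hd : (qmat T).det ≠ 0) : v0 T = e 0 := by
  symm
  apply v0_unique hd
  apply Q_ext
  intro k
  unfold Q
  rw [D_slice h]
  refine Fin.lastCases ?_ ?_ k
  · rw [D_sum (D_slice h), bil_last, h.sum, mul_one]
  · intro k'
    rw [bil_next h, D_slice h]

theorem u_slice {T : Idx (N + 1) → K} (h : InSlice T) (hd : (qmat T).det ≠ 0) (k : ℕ)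
    (hk : k < N + 1) : u T k = e ⟨k, hk⟩ := by
  induction k with
  | zero => exact v0_slice h hd
  | succ k ih =>
    change bil T (v0 T) (u T k) = _
    rw [ih (by omega), v0_slice h hd]
    exact bil_next h ⟨k, by omega⟩

theorem fmat_slice {T : Idx (N + 1) → K} (h : InSlice T) (hd : (qmat T).det ≠ 0) :
    fmat T = 1 := by
  ext i k
  change u T k i = _
  rw [u_slice h hd k k.2]
  unfold e
  rw [Pi.single_apply, Matrix.one_apply]

theorem nf_slice {T : Idx (N + 1) → K} (h : InSlice T) (hd : (qmat T).det ≠ 0) : nf T = T := by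
  ext ⟨i, z⟩
  induction z using Sym2.inductionOn with
  | hf j k =>
    change (fmat T)⁻¹.mulVec (bil T (u T j) (u T k)) i = T (i, s(j, k))
    rw [fmat_slice h hd, inv_one, Matrix.one_mulVec, u_slice h hd j j.2, u_slice h hd k k.2]
    exact bil_e T j k i

theorem nf_mem {T : Idx (N + 1) → K} (hd : (qmat T).det ≠ 0) (hf : (fmat T).det ≠ 0) :
    InSlice (nf T) := by
  set P := frame hf with hP
  have hnf : nf T = act P.symm T := nf_eq hf
  set T' := nf T with hT'
  have hbil : ∀ x y, bil T' x y = P.symm (bil T (P x) (P y)) := by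
    intro x y
    rw [hnf, bil_act, LinearEquiv.symm_symm]
  have hPe : ∀ k : Fin (N + 1), P (e k) = u T k := frame_e hf
  have hd' : (qmat T').det ≠ 0 := by rw [hnf]; exact det_act hd _
  have hv0 : v0 T' = e 0 := by
    rw [hnf, v0_act hd, LinearEquiv.symm_apply_eq, hPe]
    rfl
  have hnext : ∀ k : Fin N, bil T' (e 0) (e k.castSucc) = e k.succ := by
    intro k
    rw [hbil, LinearEquiv.symm_apply_eq, hPe, hPe, hPe]
    rfl
  have hDL : ∀ y, D T' (bil T' (e 0) y) = D T' y := by
    intro y
    have := v0_spec hd' y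
    rw [hv0] at this
    exact this
  have hD : ∀ k : Fin (N + 1), D T' (e k) = D T' (e 0) := by
    intro k
    obtain ⟨k, hk⟩ := k
    induction k with
    | zero => rfl
    | succ k ih =>
      have h1 := hDL (e (Fin.castSucc ⟨k, by omega⟩))
      rw [hnext] at h1
      rw [← ih (by omega)]
      exact h1
  have h1 : ∀ (k : Fin N) (i : Fin (N + 1)),
      T' (i, s(0, k.castSucc)) = if i = k.succ then 1 else 0 := by
    intro k i
    rw [← bil_e T' 0 k.castSucc i, hnext]
    unfold e
    rw [Pi.single_apply]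
  have hδ : D T' (e 0) ≠ 0 := by
    intro h0
    have h2 := (det_ne_iff T').1 hd' (e 0) (by
      intro y
      unfold Q
      rw [D_sum (δ := 0) (fun k => by rw [hD, h0]), zero_mul])
    have h3 := congrFun h2 0
    simp [e] at h3
  refine ⟨h1, ?_, ?_⟩
  · have h2 := hDL (e (Fin.last N))
    rw [D_sum hD, bil_last, hD] at h2
    exact mul_left_cancel₀ hδ (by rw [h2, mul_one, hD])
  · intro k _
    rw [← D_e, hD, D_zero h1]

/-- an example in the slice -/
def ex (K : Type*) [Field K] (N : ℕ) : Idx (N + 1) → K :=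
  fun p => Sym2.lift ⟨fun j k =>
    if j = 0 then (if k = Fin.last N then (if p.1 = Fin.last N then 1 else 0) else
        (if p.1.val = k.val + 1 then 1 else 0))
    else if k = 0 then (if j = Fin.last N then (if p.1 = Fin.last N then 1 else 0) else
        (if p.1.val = j.val + 1 then 1 else 0))
    else if j = k then (if p.1 = k then 1 else 0) + (if p.1 = 0 then (N : K) else 0) else 0, by
    intro j k
    dsimp only
    by_cases hj : j = 0
    · by_cases hk : k = 0
      · rw [hj, hk]
      · rw [if_pos hj, if_neg hk, if_pos hj]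
    · by_cases hk : k = 0
      · rw [if_neg hj, if_pos hk, if_pos hk]
      · rw [if_neg hj, if_neg hk, if_neg hk, if_neg hj]
        by_cases hjk : j = k
        · rw [hjk]
        · rw [if_neg hjk, if_neg (fun h => hjk h.symm)]⟩ p.2

theorem ex_zero (i k : Fin (N + 1)) : ex K N (i, s(0, k)) =
    if k = Fin.last N then (if i = Fin.last N then 1 else 0) else
      (if i.val = k.val + 1 then 1 else 0) := by
  simp only [ex, Sym2.lift_mk]
  rw [if_pos trivial]

theorem ex_ne (i j k : Fin (N + 1)) (hj : j ≠ 0) (hk : k ≠ 0) : ex K N (i, s(j, k)) =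
    if j = k then (if i = k then 1 else 0) + (if i = 0 then (N : K) else 0) else 0 := by
  simp only [ex, Sym2.lift_mk]
  rw [if_neg hj, if_neg hk]

theorem ex_slice (hN : 1 ≤ N) : InSlice (ex K N) := by
  have hlast : Fin.last N ≠ 0 := by
    intro h
    have := congrArg Fin.val h
    simp at this
    omega
  refine ⟨?_, ?_, ?_⟩
  · intro k i
    rw [ex_zero, if_neg (Fin.castSucc_ne_last k)]
    by_cases h : i = k.succ
    · rw [if_pos h, if_pos (by rw [h]; rfl)]
    · rw [if_neg h, if_neg]
      intro h1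
      apply h
      ext
      rw [h1]; rfl
  · rw [Finset.sum_eq_single (Fin.last N)]
    · rw [ex_zero, if_pos rfl, if_pos rfl]
    · intro b _ hb
      rw [ex_zero, if_pos rfl, if_neg hb]
    · intro h; exact absurd (Finset.mem_univ _) h
  · intro k hk
    rw [ex_zero, if_pos rfl, if_pos rfl, Finset.sum_eq_single k]
    · rw [ex_ne _ _ _ hk hk, if_pos rfl, if_pos rfl, if_neg hk, add_zero]
    · intro b _ hb
      by_cases hb0 : b = 0
      · rw [hb0, Sym2.eq_swap, ex_zero]
        by_cases hkl : k = Fin.last N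
        · rw [if_pos hkl, if_neg hlast.symm]
        · rw [if_neg hkl, if_neg]
          simp
      · rw [ex_ne _ _ _ hk hb0, if_neg hb.symm]
    · intro h; exact absurd (Finset.mem_univ _) h

theorem ex_det [CharZero K] (hN : 1 ≤ N) : (qmat (ex K N)).det ≠ 0 := by
  have hs := ex_slice (K := K) hN
  have hδ : ∀ k, D (ex K N) (e k) = 1 := by
    intro k
    rw [D_slice hs, ex_zero, if_pos rfl, if_pos rfl]
  have hQ0 : ∀ k, Q (ex K N) (e 0) (e k) = 1 := by
    intro k
    unfold Q
    rw [D_sum hδ, bil_last, one_mul]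
    refine Fin.lastCases ?_ ?_ k
    · exact hs.sum
    · intro k'
      rw [Finset.sum_eq_single k'.succ]
      · rw [hs.next, if_pos rfl]
      · intro b _ hb
        rw [hs.next, if_neg hb]
      · intro h; exact absurd (Finset.mem_univ _) h
  have hQ1 : ∀ j k : Fin (N + 1), j ≠ 0 → k ≠ 0 →
      Q (ex K N) (e j) (e k) = if j = k then (N : K) + 1 else 0 := by
    intro j k hj hk
    unfold Q
    rw [D_sum hδ, one_mul]
    have h1 : ∀ i, bil (ex K N) (e j) (e k) i =
        if j = k then (if i = k then 1 else 0) + (if i = 0 then (N : K) else 0) else 0 :=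
      fun i => (bil_e _ j k i).trans (ex_ne i j k hj hk)
    rw [Finset.sum_congr rfl fun i _ => h1 i]
    by_cases hjk : j = k
    · simp only [if_pos hjk]
      rw [Finset.sum_add_distrib, Finset.sum_ite_eq', Finset.sum_ite_eq',
        if_pos (Finset.mem_univ _), if_pos (Finset.mem_univ _), add_comm]
    · simp only [if_neg hjk, Finset.sum_const_zero]
  rw [det_ne_iff]
  intro x hx
  -- the equations
  have hlin : ∀ k, Q (ex K N) x (e k) = ∑ j, x j * Q (ex K N) (e j) (e k) := by
    intro k
    have h1 : Q (ex K N) x (e k) = Q (ex K N) (e k) x := Q_symm _ _ _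
    rw [h1]
    conv_lhs => rw [← sum_e x]
    unfold Q
    rw [map_sum, map_sum]
    apply Finset.sum_congr rfl
    intro j _
    rw [map_smul, map_smul, smul_eq_mul, bil_symm]
  have hk : ∀ k : Fin N, x k.succ * ((N : K) + 1) = - x 0 := by
    intro k
    have h1 := hx (e k.succ)
    rw [hlin, Fin.sum_univ_succ, hQ0, mul_one, Finset.sum_eq_single k] at h1
    · rw [hQ1 _ _ (Fin.succ_ne_zero k) (Fin.succ_ne_zero k), if_pos rfl] at h1
      linear_combination h1
    · intro b _ hb
      rw [hQ1 _ _ (Fin.succ_ne_zero b) (Fin.succ_ne_zero k), if_neg, mul_zero]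
      exact fun h => hb (Fin.succ_injective _ h)
    · intro h; exact absurd (Finset.mem_univ _) h
  have h0 : x 0 + ∑ k : Fin N, x k.succ = 0 := by
    have h1 := hx (e 0)
    rw [hlin, Fin.sum_univ_succ, hQ0, mul_one] at h1
    rw [← h1]
    congr 1
    apply Finset.sum_congr rfl
    intro k _
    rw [Q_symm, hQ0, mul_one]
  have hN1 : (N : K) + 1 ≠ 0 := by exact_mod_cast Nat.succ_ne_zero N
  have h2 : x 0 = 0 := by
    have h3 : (∑ k : Fin N, x k.succ) * ((N : K) + 1) = - (N * x 0) := by
      rw [Finset.sum_mul, Finset.sum_congr rfl fun k _ => hk k, Finset.sum_const,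
        Finset.card_univ, Fintype.card_fin, nsmul_eq_mul]
      ring
    have h4 : x 0 * ((N : K) + 1) + (∑ k : Fin N, x k.succ) * ((N : K) + 1) = 0 := by
      rw [← add_mul, h0, zero_mul]
    rw [h3] at h4
    linear_combination h4
  ext i
  refine Fin.cases ?_ ?_ i
  · exact h2
  · intro k
    have h3 := hk k
    rw [h2, neg_zero] at h3
    exact (mul_eq_zero.1 h3).resolve_right hN1

end Pool.Agent.Y218.QM
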