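import Mathlib
import Pool.Agent.Y218.QMb

set_option autoImplicit false

open Module MvPolynomial

namespace Pool.Agent.Y218.QM

/-- the functions which are polynomials divided by powers of `Δ` where `Δ` does not vanish -/
def Reg {K : Type*} [Field K] {ι : Type*} (Δ : MvPolynomial ι K) :
    Subalgebra K ((ι → K) → K) where
  carrier := {ψ | ∃ (A : MvPolynomial ι K) (k : ℕ), ∀ T, eval T Δ ≠ 0 →
    ψ T * eval T Δ ^ k = eval T A}
  mul_mem' := by
    rintro ψ χ ⟨A, k, h⟩ ⟨B, l, h'⟩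
    refine ⟨A * B, k + l, fun T hT => ?_⟩
    rw [Pi.mul_apply, map_mul, ← h T hT, ← h' T hT, pow_add]; ring
  add_mem' := by
    rintro ψ χ ⟨A, k, h⟩ ⟨B, l, h'⟩
    refine ⟨A * Δ ^ l + B * Δ ^ k, k + l, fun T hT => ?_⟩
    rw [Pi.add_apply, map_add, map_mul, map_mul, map_pow, map_pow, ← h T hT, ← h' T hT, pow_add]
    ring
  algebraMap_mem' := by
    intro c
    refine ⟨C c, 0, fun T _ => ?_⟩
    rw [Pi.algebraMap_apply, Algebra.algebraMap_self_apply, pow_zero, mul_one, eval_C]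

variable {K : Type*} [Field K] {ι : Type*} {Δ : MvPolynomial ι K}

theorem mem_Reg {ψ : (ι → K) → K} : ψ ∈ Reg Δ ↔
    ∃ (A : MvPolynomial ι K) (k : ℕ), ∀ T, eval T Δ ≠ 0 → ψ T * eval T Δ ^ k = eval T A := Iff.rfl

theorem Reg_coord (i : ι) : (fun T : ι → K => T i) ∈ Reg Δ :=
  ⟨X i, 0, fun T _ => by rw [pow_zero, mul_one, eval_X]⟩

theorem Reg_sum {α : Type*} (s : Finset α) {f : α → (ι → K) → K} (h : ∀ a ∈ s, f a ∈ Reg Δ) :
    (fun T => ∑ a ∈ s, f a T) ∈ Reg Δ := by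
  have h1 : (fun T => ∑ a ∈ s, f a T) = ∑ a ∈ s, f a := by
    ext T; rw [Finset.sum_apply]
  rw [h1]
  exact Subalgebra.sum_mem _ h

theorem Reg_mul {f g : (ι → K) → K} (hf : f ∈ Reg Δ) (hg : g ∈ Reg Δ) :
    (fun T => f T * g T) ∈ Reg Δ := (Reg Δ).mul_mem hf hg

theorem Reg_const (c : K) : (fun _ : ι → K => c) ∈ Reg Δ := (Reg Δ).algebraMap_mem c

theorem Reg_mono {A : MvPolynomial ι K} : Reg Δ ≤ Reg (Δ * A) := by
  rintro ψ ⟨B, k, h⟩
  refine ⟨B * A ^ k, k, fun T hT => ?_⟩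
  rw [map_mul] at hT
  have h1 : eval T Δ ≠ 0 := left_ne_zero_of_mul hT
  rw [map_mul, map_mul, map_pow, ← h T h1]; ring

theorem Reg_det {m : ℕ} {M : (ι → K) → Matrix (Fin m) (Fin m) K}
    (h : ∀ i j, (fun T => M T i j) ∈ Reg Δ) : (fun T => (M T).det) ∈ Reg Δ := by
  have h1 : (fun T => (M T).det) =
      (fun T => ∑ σ : Equiv.Perm (Fin m), ((Equiv.Perm.sign σ : ℤ) : K) * ∏ i, M T (σ i) i) := by
    ext T
    rw [Matrix.det_apply']
  rw [h1]
  apply Reg_sum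
  intro σ _
  apply Reg_mul (Reg_const _)
  have h2 : (fun T => ∏ i, M T (σ i) i) = ∏ i, fun T => M T (σ i) i := by
    ext T; rw [Finset.prod_apply]
  rw [h2]
  exact Subalgebra.prod_mem _ fun i _ => h _ _

theorem Reg_inv {m : ℕ} {M : (ι → K) → Matrix (Fin m) (Fin m) K}
    (h : ∀ i j, (fun T => M T i j) ∈ Reg Δ) (hd : (fun T => ((M T).det)⁻¹) ∈ Reg Δ) (i j : Fin m) :
    (fun T => (M T)⁻¹ i j) ∈ Reg Δ := by
  have h1 : (fun T => (M T)⁻¹ i j) = fun T => ((M T).det)⁻¹ * (M T).adjugate i j := by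
    ext T
    rw [Matrix.inv_def, Ring.inverse_eq_inv', Matrix.smul_apply, smul_eq_mul]
  rw [h1]
  apply Reg_mul hd
  have h2 : (fun T => (M T).adjugate i j) =
      fun T => ((M T).updateRow j (Pi.single i 1)).det := by
    ext T; rw [Matrix.adjugate_apply]
  rw [h2]
  apply Reg_det
  intro a b
  by_cases ha : a = j
  · subst ha
    simp only [Matrix.updateRow_self]
    exact Reg_const _
  · simp only [Matrix.updateRow_ne ha]
    exact h a b

theorem Reg_bil {n : ℕ} {Δ : MvPolynomial (Idx n) K} {x y : (Idx n → K) → (Fin n → K)}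
    (hx : ∀ j, (fun T => x T j) ∈ Reg Δ) (hy : ∀ j, (fun T => y T j) ∈ Reg Δ) (i : Fin n) :
    (fun T => bil T (x T) (y T) i) ∈ Reg Δ := by
  have h1 : (fun T => bil T (x T) (y T) i) =
      fun T => ∑ j, ∑ k, T (i, s(j, k)) * x T j * y T k := by
    ext T; rw [bil_apply]
  rw [h1]
  apply Reg_sum
  intro j _
  apply Reg_sum
  intro k _
  exact Reg_mul (Reg_mul (Reg_coord _) (hx j)) (hy k)

theorem Reg_D {n : ℕ} {Δ : MvPolynomial (Idx n) K} (k : Fin n) :
    (fun T : Idx n → K => D T (e k)) ∈ Reg Δ := by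
  have h1 : (fun T : Idx n → K => D T (e k)) = fun T => ∑ j, T (j, s(k, j)) := by
    ext T; rw [D_e]
  rw [h1]
  exact Reg_sum _ fun j _ => Reg_coord _

theorem Reg_qmat {n : ℕ} {Δ : MvPolynomial (Idx n) K} (j k : Fin n) :
    (fun T : Idx n → K => qmat T j k) ∈ Reg Δ := by
  have h1 : (fun T : Idx n → K => qmat T j k) =
      fun T => ∑ i, T (i, s(j, k)) * D T (e i) := by
    ext T
    change D T (bil T (e j) (e k)) = _
    conv_lhs => rw [← sum_e (bil T (e j) (e k))]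
    rw [map_sum]
    apply Finset.sum_congr rfl
    intro i _
    rw [map_smul, smul_eq_mul, bil_e]
  rw [h1]
  exact Reg_sum _ fun i _ => Reg_mul (Reg_coord _) (Reg_D i)

/-- There is a polynomial `Δ` which vanishes exactly where the normal form is not defined, and the
normal form is given by polynomials divided by powers of `Δ`. -/
theorem exists_Delta (K : Type*) [Field K] (n : ℕ) : ∃ Δ : MvPolynomial (Idx n) K,
    (∀ T, eval T Δ ≠ 0 ↔ (qmat T).det ≠ 0 ∧ (fmat T).det ≠ 0) ∧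
    ∀ p, (fun T => nf T p) ∈ Reg Δ := by
  -- the determinant of the form
  obtain ⟨Δ1, k1, h1⟩ := mem_Reg.1 (Reg_det (Δ := (1 : MvPolynomial (Idx n) K))
    (M := fun T => qmat T) (fun i j => Reg_qmat i j))
  have hΔ1 : ∀ T, eval T Δ1 = (qmat T).det := by
    intro T
    have h2 := h1 T (by rw [map_one]; exact one_ne_zero)
    rw [map_one, one_pow, mul_one] at h2
    exact h2.symm
  have hinv1 : (fun T => ((qmat T).det)⁻¹) ∈ Reg Δ1 := by
    refine ⟨1, 1, fun T hT => ?_⟩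
    rw [hΔ1] at hT
    rw [hΔ1, pow_one, inv_mul_cancel₀ hT, map_one]
  have hv0 : ∀ i, (fun T => v0 T i) ∈ Reg Δ1 := by
    intro i
    have h2 : (fun T : Idx n → K => v0 T i) = fun T => ∑ j, (qmat T)⁻¹ i j * D T (e j) := rfl
    rw [h2]
    exact Reg_sum _ fun j _ => Reg_mul (Reg_inv (fun i j => Reg_qmat i j) hinv1 i j) (Reg_D j)
  have hu : ∀ (k : ℕ) (i : Fin n), (fun T => u T k i) ∈ Reg Δ1 := by
    intro k
    induction k with
    | zero => exact hv0
    | succ k ih => exact fun i => Reg_bil hv0 ih i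
  obtain ⟨A, k, hA⟩ := mem_Reg.1 (Reg_det (Δ := Δ1) (M := fun T => fmat T) (fun i j => hu j i))
  have hiff : ∀ T, eval T (Δ1 * A) ≠ 0 ↔ (qmat T).det ≠ 0 ∧ (fmat T).det ≠ 0 := by
    intro T
    rw [map_mul, mul_ne_zero_iff, hΔ1]
    constructor
    · rintro ⟨h2, h3⟩
      refine ⟨h2, ?_⟩
      intro h0
      apply h3
      rw [← hA T (by rw [hΔ1]; exact h2), h0, zero_mul]
    · rintro ⟨h2, h3⟩
      refine ⟨h2, ?_⟩
      rw [← hA T (by rw [hΔ1]; exact h2), hΔ1]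
      exact mul_ne_zero h3 (pow_ne_zero _ h2)
  refine ⟨Δ1 * A, hiff, ?_⟩
  have hinv2 : (fun T => ((fmat T).det)⁻¹) ∈ Reg (Δ1 * A) := by
    refine ⟨Δ1 ^ (k + 1), 1, fun T hT => ?_⟩
    obtain ⟨h2, h3⟩ := (hiff T).1 hT
    have h4 := hA T (by rw [hΔ1]; exact h2)
    rw [pow_one, map_mul, map_pow, ← h4, pow_succ]
    field_simp
  rintro ⟨i, z⟩
  induction z using Sym2.inductionOn with
  | hf j l =>
    have h2 : (fun T : Idx n → K => nf T (i, s(j, l))) =
        fun T => ∑ b, (fmat T)⁻¹ i b * bil T (u T j) (u T l) b := rfl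
    rw [h2]
    refine Reg_sum _ fun b _ => Reg_mul
      (Reg_inv (fun a b => Reg_mono (hu b a)) hinv2 i b) ?_
    exact Reg_mono (Reg_bil (hu j) (hu l) b)

end Pool.Agent.Y218.QM
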