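import Mathlib
import Pool.Agent.Y218.QMc

set_option autoImplicit false

open Module MvPolynomial

namespace Pool.Agent.Y218.QM

section action

variable {K : Type*} [Field K] {n : ℕ}

theorem bil_add (T T' : Idx n → K) (x y : Fin n → K) :
    bil (T + T') x y = bil T x y + bil T' x y := by
  ext i
  rw [Pi.add_apply, bil_apply, bil_apply, bil_apply, ← Finset.sum_add_distrib]
  refine Finset.sum_congr rfl fun j _ => ?_
  rw [← Finset.sum_add_distrib]
  refine Finset.sum_congr rfl fun k _ => ?_
  rw [Pi.add_apply]; ring

theorem bil_smul (c : K) (T : Idx n → K) (x y : Fin n → K) :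
    bil (c • T) x y = c • bil T x y := by
  ext i
  rw [Pi.smul_apply, bil_apply, bil_apply, smul_eq_mul, Finset.mul_sum]
  refine Finset.sum_congr rfl fun j _ => ?_
  rw [Finset.mul_sum]
  refine Finset.sum_congr rfl fun k _ => ?_
  rw [Pi.smul_apply, smul_eq_mul]; ring

/-- conjugation by `g` as a linear map -/
noncomputable def actL (g : (Fin n → K) ≃ₗ[K] (Fin n → K)) : (Idx n → K) →ₗ[K] (Idx n → K) where
  toFun := act g
  map_add' T T' := by
    apply bil_inj
    intro j k
    rw [bil_act, bil_add, map_add, bil_add, bil_act, bil_act]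
  map_smul' c T := by
    apply bil_inj
    intro j k
    rw [bil_act, bil_smul, map_smul, RingHom.id_apply, bil_smul, bil_act]

/-- The substitution `P ↦ P(act g T)` in the ring of polynomials in the coefficients. -/
noncomputable def sub (g : (Fin n → K) ≃ₗ[K] (Fin n → K)) :
    MvPolynomial (Idx n) K →ₐ[K] MvPolynomial (Idx n) K :=
  aeval fun p => ∑ q, C (act g (Pi.single q 1) p) * X q

theorem eval_sub (g : (Fin n → K) ≃ₗ[K] (Fin n → K)) (P : MvPolynomial (Idx n) K)
    (T : Idx n → K) : eval T (sub g P) = eval (act g T) P := by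
  have hlin : ∀ p, eval T (∑ q, C (act g (Pi.single q 1) p) * X q) = act g T p := by
    intro p
    rw [map_sum]
    have h1 : act g T = ∑ q, T q • act g (Pi.single q 1) := by
      have h2 : T = ∑ q, T q • (Pi.single q 1 : Idx n → K) := by
        ext p
        rw [Finset.sum_apply, Finset.sum_eq_single p]
        · simp
        · intro b _ hb; simp [hb.symm]
        · intro h; exact absurd (Finset.mem_univ _) h
      conv_lhs => rw [h2]
      change actL g _ = _
      rw [map_sum]
      apply Finset.sum_congr rfl
      intro q _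
      rw [map_smul]
      rfl
    rw [h1, Finset.sum_apply]
    apply Finset.sum_congr rfl
    intro q _
    rw [map_mul, eval_C, eval_X, Pi.smul_apply, smul_eq_mul, mul_comm]
  induction P using MvPolynomial.induction_on with
  | C a => rw [sub, aeval_C, MvPolynomial.algebraMap_eq, eval_C, eval_C]
  | add P P' h h' => rw [map_add, map_add, map_add, h, h']
  | mul_X P p h =>
    rw [map_mul, map_mul, map_mul, h, eval_X]
    congr 1
    rw [sub, aeval_X]
    exact hlin p

theorem sub_injective [Infinite K] (g : (Fin n → K) ≃ₗ[K] (Fin n → K)) :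
    Function.Injective (sub g) := by
  rw [injective_iff_map_eq_zero]
  intro P hP
  apply MvPolynomial.funext
  intro T
  rw [map_zero]
  have h1 := eval_sub g P (act g.symm T)
  rw [hP, map_zero, act_act] at h1
  have h2 : g.symm.trans g = LinearEquiv.refl K _ := LinearEquiv.symm_trans_self g
  rw [h2, act_refl] at h1
  exact h1.symm

/-- The extension of an injective endomorphism of a domain to its field of fractions. -/
noncomputable def extF {K R : Type*} [Field K] [CommRing R] [IsDomain R] [Algebra K R]
    (f : R →ₐ[K] R) (hf : Function.Injective f) : FractionRing R →ₐ[K] FractionRing R :=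
  IsFractionRing.liftAlgHom (g := (Algebra.algHom K R (FractionRing R)).comp f)
    ((IsFractionRing.injective R (FractionRing R)).comp hf)

/-- The action `F ↦ F(act g T)` on the field of rational functions in the coefficients. -/
noncomputable def subF [Infinite K] (g : (Fin n → K) ≃ₗ[K] (Fin n → K)) :
    FractionRing (MvPolynomial (Idx n) K) →ₐ[K] FractionRing (MvPolynomial (Idx n) K) :=
  extF (sub g) (sub_injective g)

theorem subF_algebraMap [Infinite K] (g : (Fin n → K) ≃ₗ[K] (Fin n → K))
    (P : MvPolynomial (Idx n) K) :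
    subF g (algebraMap _ _ P) = algebraMap _ _ (sub g P) :=
  IsFractionRing.lift_algebraMap (g := ((Algebra.algHom K (MvPolynomial (Idx n) K)
    (FractionRing (MvPolynomial (Idx n) K))).comp (sub g)).toRingHom)
    ((IsFractionRing.injective (MvPolynomial (Idx n) K)
    (FractionRing (MvPolynomial (Idx n) K))).comp (sub_injective g)) P

/-- The elements fixed by all members of a family of endomorphisms of a field. -/
def fixedBy {K L G : Type*} [Field K] [Field L] [Algebra K L] (f : G → L →ₐ[K] L) :
    IntermediateField K L where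
  carrier := {F | ∀ g, f g F = F}
  mul_mem' := by intro a b ha hb g; rw [map_mul, ha, hb]
  add_mem' := by intro a b ha hb g; rw [map_add, ha, hb]
  algebraMap_mem' := by intro c g; rw [AlgHom.commutes]
  inv_mem' := by intro a ha g; rw [map_inv₀, ha]

/-- The field of rational functions in the coefficients of a quadratic map which are invariant
under all changes of coordinates. -/
noncomputable def invField (K : Type*) [Field K] [Infinite K] (n : ℕ) :
    IntermediateField K (FractionRing (MvPolynomial (Idx n) K)) :=
  fixedBy (fun g : (Fin n → K) ≃ₗ[K] (Fin n → K) => subF g)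

/-- An intermediate field `F` of `L / K` is rational: it is isomorphic over `K` to a field
`K(x_1, …, x_m)` of rational functions. -/
def IsRational {K L : Type*} [Field K] [Field L] [Algebra K L] (F : IntermediateField K L) : Prop :=
  ∃ m : ℕ, Nonempty (F ≃ₐ[K] FractionRing (MvPolynomial (Fin m) K))

theorem mem_invField [Infinite K] {F : FractionRing (MvPolynomial (Idx n) K)} :
    F ∈ invField K n ↔ ∀ g : (Fin n → K) ≃ₗ[K] (Fin n → K), subF g F = F := Iff.rfl

end action

section pairs

variable {K : Type*} [Field K] {ι : Type*}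

/-- rational functions together with their values where `Δ` does not vanish -/
def Pr (Δ : MvPolynomial ι K) :
    Subalgebra K (FractionRing (MvPolynomial ι K) × ((ι → K) → K)) where
  carrier := {x | ∃ (A : MvPolynomial ι K) (k : ℕ),
    x.1 * algebraMap _ _ (Δ ^ k) = algebraMap _ _ A ∧
    ∀ T, eval T Δ ≠ 0 → x.2 T * eval T Δ ^ k = eval T A}
  mul_mem' := by
    rintro x y ⟨A, k, h1, h2⟩ ⟨B, l, h3, h4⟩
    refine ⟨A * B, k + l, ?_, fun T hT => ?_⟩
    · rw [pow_add, map_mul, map_mul, ← h1, ← h3, Prod.fst_mul]; ring
    · rw [Prod.snd_mul, Pi.mul_apply, map_mul, ← h2 T hT, ← h4 T hT, pow_add]; ring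
  add_mem' := by
    rintro x y ⟨A, k, h1, h2⟩ ⟨B, l, h3, h4⟩
    refine ⟨A * Δ ^ l + B * Δ ^ k, k + l, ?_, fun T hT => ?_⟩
    · rw [pow_add, map_mul, map_add, map_mul, map_mul, ← h1, ← h3, Prod.fst_add]; ring
    · rw [Prod.snd_add, Pi.add_apply, map_add, map_mul, map_mul, map_pow, map_pow, ← h2 T hT,
        ← h4 T hT, pow_add]
      ring
  algebraMap_mem' := by
    intro c
    refine ⟨C c, 0, ?_, fun T _ => ?_⟩
    · rw [pow_zero, map_one, mul_one]
      change algebraMap K _ c = _
      rw [IsScalarTower.algebraMap_apply K (MvPolynomial ι K), MvPolynomial.algebraMap_eq]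
    · rw [pow_zero, mul_one, eval_C]
      rfl

theorem Pr_poly (Δ P : MvPolynomial ι K) :
    ((algebraMap _ _ P : FractionRing (MvPolynomial ι K)), fun T => eval T P) ∈ Pr Δ := by
  refine ⟨P, 0, ?_, fun T _ => ?_⟩
  · rw [pow_zero, map_one, mul_one]
  · rw [pow_zero, mul_one]

theorem Pr_exists {Δ : MvPolynomial ι K} (hΔ : Δ ≠ 0) {ψ : (ι → K) → K} (h : ψ ∈ Reg Δ) :
    ∃ x, ((x, ψ) : FractionRing (MvPolynomial ι K) × ((ι → K) → K)) ∈ Pr Δ := by
  obtain ⟨A, k, hA⟩ := mem_Reg.1 h
  have hne : (algebraMap (MvPolynomial ι K) (FractionRing (MvPolynomial ι K))) (Δ ^ k) ≠ 0 := by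
    rw [Ne, IsFractionRing.to_map_eq_zero_iff]
    exact pow_ne_zero _ hΔ
  refine ⟨algebraMap _ _ A / algebraMap _ _ (Δ ^ k), A, k, ?_, hA⟩
  exact div_mul_cancel₀ _ hne

/-- a rational function is zero if its values are -/
theorem Pr_zero [Infinite K] {Δ : MvPolynomial ι K} (hΔ : Δ ≠ 0)
    {x : FractionRing (MvPolynomial ι K)} {ψ : (ι → K) → K} (h : (x, ψ) ∈ Pr Δ) :
    x = 0 ↔ ∀ T, eval T Δ ≠ 0 → ψ T = 0 := by
  obtain ⟨A, k, h1, h2⟩ := h
  have hne : (algebraMap (MvPolynomial ι K) (FractionRing (MvPolynomial ι K))) (Δ ^ k) ≠ 0 := by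
    rw [Ne, IsFractionRing.to_map_eq_zero_iff]
    exact pow_ne_zero _ hΔ
  constructor
  · rintro rfl T hT
    dsimp only at h1 h2
    rw [zero_mul] at h1
    have hA : A = 0 := (IsFractionRing.to_map_eq_zero_iff (K := FractionRing (MvPolynomial ι K))).1
      h1.symm
    have h3 := h2 T hT
    rw [hA, map_zero] at h3
    exact (mul_eq_zero.1 h3).resolve_right (pow_ne_zero _ hT)
  · intro h0
    dsimp only at h1 h2
    have hA : A * Δ = 0 := by
      apply MvPolynomial.funext
      intro T
      rw [map_mul, map_zero]
      by_cases hT : eval T Δ = 0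
      · rw [hT, mul_zero]
      · rw [← h2 T hT, h0 T hT, zero_mul, zero_mul]
    have hA' : A = 0 := (mul_eq_zero.1 hA).resolve_right hΔ
    rw [hA', map_zero] at h1
    exact (mul_eq_zero.1 h1).resolve_right hne

theorem Pr_aeval {Δ : MvPolynomial ι K} {κ : Type*} {φ : κ → FractionRing (MvPolynomial ι K)}
    {f : κ → (ι → K) → K} (h : ∀ i, (φ i, f i) ∈ Pr Δ) (H : MvPolynomial κ K) :
    (aeval φ H, fun T => eval (fun i => f i T) H) ∈ Pr Δ := by
  induction H using MvPolynomial.induction_on with
  | C a =>
    have h1 := (Pr Δ).algebraMap_mem a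
    have h2 : ((aeval φ (C a : MvPolynomial κ K), fun T => eval (fun i => f i T) (C a)) :
        FractionRing (MvPolynomial ι K) × ((ι → K) → K)) = algebraMap K _ a := by
      apply Prod.ext
      · exact aeval_C _ _
      · funext T
        exact eval_C _
    rw [h2]
    exact h1
  | add P P' h1 h2 =>
    have h3 := (Pr Δ).add_mem h1 h2
    have h4 : ((aeval φ (P + P'), fun T => eval (fun i => f i T) (P + P')) :
        FractionRing (MvPolynomial ι K) × ((ι → K) → K)) =
        (aeval φ P, fun T => eval (fun i => f i T) P) +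
          (aeval φ P', fun T => eval (fun i => f i T) P') := by
      apply Prod.ext
      · exact map_add _ _ _
      · funext T
        exact map_add _ _ _
    rw [h4]
    exact h3
  | mul_X P i h1 =>
    have h3 := (Pr Δ).mul_mem h1 (h i)
    have h4 : ((aeval φ (P * X i), fun T => eval (fun i => f i T) (P * X i)) :
        FractionRing (MvPolynomial ι K) × ((ι → K) → K)) =
        (aeval φ P, fun T => eval (fun i => f i T) P) * (φ i, f i) := by
      apply Prod.ext
      · change aeval φ (P * X i) = aeval φ P * φ i
        rw [map_mul, aeval_X]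
      · funext T
        change eval (fun i => f i T) (P * X i) = eval (fun i => f i T) P * f i T
        rw [map_mul, eval_X]
    rw [h4]
    exact h3

end pairs

end Pool.Agent.Y218.QM
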