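import Mathlib
import Pool.Agent.Y218.QMd

set_option autoImplicit false

open Module MvPolynomial

namespace Pool.Agent.Y218.QM

variable {K : Type*} [Field K] [CharZero K] {N : ℕ}

/-- the field of rational functions in the coefficients of a quadratic map -/
abbrev FF (K : Type*) [Field K] (N : ℕ) := FractionRing (MvPolynomial (Idx (N + 1)) K)

theorem single_sum {R : Type*} [Semiring R] {κ : Type*} [Fintype κ] [DecidableEq κ] (x : κ → R) :
    x = ∑ q, x q • (Pi.single q 1 : κ → R) := by
  ext p
  rw [Finset.sum_apply, Finset.sum_eq_single p]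
  · simp
  · intro b _ hb; simp [hb.symm]
  · intro h; exact absurd (Finset.mem_univ _) h

theorem lin_single {κ κ' : Type*} [Fintype κ] [DecidableEq κ] (f : (κ → K) →ₗ[K] (κ' → K))
    (x : κ → K) (p : κ') : f x p = ∑ q, f (Pi.single q 1) p * x q := by
  conv_lhs => rw [single_sum x, map_sum, Finset.sum_apply]
  apply Finset.sum_congr rfl
  intro q _
  rw [map_smul, Pi.smul_apply, smul_eq_mul, mul_comm]

theorem eval_aeval' {ι κ : Type*} (f : ι → MvPolynomial κ K) (P : MvPolynomial ι K) (t : κ → K) :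
    eval t (aeval f P) = eval (fun p => eval t (f p)) P := by
  induction P using MvPolynomial.induction_on with
  | C a => rw [aeval_C, MvPolynomial.algebraMap_eq, eval_C, eval_C]
  | add P P' h h' => rw [map_add, map_add, map_add, h, h']
  | mul_X P p h => rw [map_mul, map_mul, map_mul, h, eval_X, aeval_X]

theorem exists_good {Δ : MvPolynomial (Idx (N + 1)) K} (hN : 1 ≤ N)
    (hΔ : ∀ T, eval T Δ ≠ 0 ↔ (qmat T).det ≠ 0 ∧ (fmat T).det ≠ 0) : eval (ex K N) Δ ≠ 0 := by
  rw [hΔ]
  refine ⟨ex_det hN, ?_⟩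
  rw [fmat_slice (ex_slice hN) (ex_det hN), Matrix.det_one]
  exact one_ne_zero

/-- **The field of invariants is purely transcendental.** -/
theorem rational (hN : 1 ≤ N) : IsRational (invField K (N + 1)) := by
  classical
  have : Infinite K := CharZero.infinite K
  obtain ⟨Δ, hΔ, hreg⟩ := exists_Delta K (N + 1)
  have hex : eval (ex K N) Δ ≠ 0 := exists_good hN hΔ
  have hΔ0 : Δ ≠ 0 := by
    rintro rfl
    exact hex (map_zero _)
  choose φ hφ using fun p => Pr_exists hΔ0 (hreg p)
  -- notation
  have hnf : ∀ T, eval T Δ ≠ 0 → InSlice (nf T) := fun T hT =>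
    nf_mem ((hΔ T).1 hT).1 ((hΔ T).1 hT).2
  have hgood : ∀ T, eval T Δ ≠ 0 → ∀ g, eval (act g T) Δ ≠ 0 := fun T hT g =>
    (hΔ _).2 ⟨det_act ((hΔ T).1 hT).1 g, fmat_act ((hΔ T).1 hT).1 ((hΔ T).1 hT).2 g⟩
  -- (II) the coordinates of the normal form are invariant
  have hinv : ∀ p, φ p ∈ invField K (N + 1) := by
    intro p g
    obtain ⟨A, k, h1, h2⟩ := hφ p
    dsimp only at h1 h2
    have hne : (algebraMap (MvPolynomial (Idx (N + 1)) K)
        (FractionRing (MvPolynomial (Idx (N + 1)) K))) (Δ ^ k) ≠ 0 := by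
      rw [Ne, IsFractionRing.to_map_eq_zero_iff]
      exact pow_ne_zero _ hΔ0
    have hne' : (algebraMap (MvPolynomial (Idx (N + 1)) K)
        (FractionRing (MvPolynomial (Idx (N + 1)) K))) (sub g (Δ ^ k)) ≠ 0 := by
      rw [Ne, IsFractionRing.to_map_eq_zero_iff]
      intro h0
      have h1 : sub g (Δ ^ k) = sub g 0 := by rw [h0, map_zero]
      exact pow_ne_zero _ hΔ0 (sub_injective g h1)
    have h3 : subF g (φ p) * algebraMap _ _ (sub g (Δ ^ k)) = algebraMap _ _ (sub g A) := by
      rw [← subF_algebraMap, ← subF_algebraMap, ← map_mul, h1]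
    have hpoly : sub g A * Δ ^ k * Δ = A * sub g (Δ ^ k) * Δ := by
      apply MvPolynomial.funext
      intro T
      rw [map_mul, map_mul, map_mul, map_mul, eval_sub, eval_sub, map_pow, map_pow]
      by_cases hT : eval T Δ = 0
      · rw [hT, mul_zero, mul_zero]
      · rw [← h2 T hT, ← h2 _ (hgood T hT g), nf_act ((hΔ T).1 hT).1 ((hΔ T).1 hT).2]
        ring
    have hpoly' : sub g A * Δ ^ k = A * sub g (Δ ^ k) := mul_right_cancel₀ hΔ0 hpoly
    apply mul_right_cancel₀ hne'
    apply mul_right_cancel₀ hne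
    rw [h3, ← map_mul, hpoly', map_mul, ← h1]; ring
  -- (I) every invariant is a rational function of them
  have hgen : invField K (N + 1) ≤ IntermediateField.adjoin K (Set.range φ) := by
    intro F hF
    obtain ⟨P, Q', hQ', rfl⟩ := IsFractionRing.div_surjective (A := MvPolynomial (Idx (N + 1)) K) F
    have hQ0 : Q' ≠ 0 := nonZeroDivisors.ne_zero hQ'
    obtain ⟨T1, hT1⟩ : ∃ T1, eval T1 (Δ * Q') ≠ 0 := by
      by_contra hcon
      push Not at hcon
      exact mul_ne_zero hΔ0 hQ0 (MvPolynomial.funext fun T => by rw [hcon T, map_zero])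
    rw [map_mul] at hT1
    have hT1Δ : eval T1 Δ ≠ 0 := left_ne_zero_of_mul hT1
    have hT1Q : eval T1 Q' ≠ 0 := right_ne_zero_of_mul hT1
    have hf1 : (fmat T1).det ≠ 0 := ((hΔ T1).1 hT1Δ).2
    set h := frame hf1 with hh
    have hnf1 : act h (nf T1) = T1 := by
      rw [nf_eq hf1, act_act, LinearEquiv.symm_trans_self, act_refl]
    set P1 := sub h P with hP1
    set Q1 := sub h Q' with hQ1
    have hQ1v : eval (nf T1) Q1 ≠ 0 := by
      rw [hQ1, eval_sub, hnf1]
      exact hT1Q
    have hF1 : algebraMap (MvPolynomial (Idx (N + 1)) K)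
        (FractionRing (MvPolynomial (Idx (N + 1)) K)) P / algebraMap _ _ Q' =
        algebraMap _ _ P1 / algebraMap _ _ Q1 := by
      have h1 := hF h
      rw [map_div₀, subF_algebraMap, subF_algebraMap] at h1
      exact h1.symm
    rw [hF1] at hF ⊢
    have hQ10 : Q1 ≠ 0 := by
      rintro h0
      rw [h0, map_zero] at hQ1v
      exact hQ1v rfl
    have hQ10' : algebraMap (MvPolynomial (Idx (N + 1)) K)
        (FractionRing (MvPolynomial (Idx (N + 1)) K)) Q1 ≠ 0 := by
      rw [Ne, IsFractionRing.to_map_eq_zero_iff]; exact hQ10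
    -- invariance as an identity of polynomials
    have hid : ∀ g, sub g P1 * Q1 = P1 * sub g Q1 := by
      intro g
      have h1 := hF g
      rw [map_div₀, subF_algebraMap, subF_algebraMap, div_eq_div_iff _ hQ10', ← map_mul,
        ← map_mul] at h1
      · exact IsFractionRing.injective _ (FractionRing (MvPolynomial (Idx (N + 1)) K)) h1
      · rw [Ne, IsFractionRing.to_map_eq_zero_iff]
        intro h0
        have h2 : sub g Q1 = sub g 0 := by rw [h0, map_zero]
        exact hQ10 (sub_injective g h2)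
    have hval : ∀ T, eval T Δ ≠ 0 →
        eval T P1 * eval (nf T) Q1 - eval (nf T) P1 * eval T Q1 = 0 := by
      intro T hT
      have hf := ((hΔ T).1 hT).2
      have h1 := congrArg (eval T) (hid (frame hf).symm)
      rw [map_mul, map_mul, eval_sub (frame hf).symm P1, eval_sub (frame hf).symm Q1,
        ← nf_eq hf] at h1
      rw [sub_eq_zero]
      exact h1.symm
    have hp1 := Pr_poly Δ P1
    have hq1 := Pr_poly Δ Q1
    have hp2 := Pr_aeval hφ P1
    have hq2 := Pr_aeval hφ Q1
    have hmain : algebraMap _ _ P1 * aeval φ Q1 - aeval φ P1 * algebraMap _ _ Q1 = 0 :=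
      (Pr_zero hΔ0 ((Pr Δ).sub_mem ((Pr Δ).mul_mem hp1 hq2) ((Pr Δ).mul_mem hp2 hq1))).2
        (fun T hT => hval T hT)
    have hq2ne : aeval φ Q1 ≠ 0 := by
      intro h0
      exact hQ1v ((Pr_zero hΔ0 hq2).1 h0 T1 hT1Δ)
    have hfin : algebraMap (MvPolynomial (Idx (N + 1)) K)
        (FractionRing (MvPolynomial (Idx (N + 1)) K)) P1 / algebraMap _ _ Q1 =
        aeval φ P1 / aeval φ Q1 := by
      rw [div_eq_div_iff hQ10' hq2ne]
      exact sub_eq_zero.1 hmain
    rw [hfin]
    have hae : ∀ H : MvPolynomial (Idx (N + 1)) K,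
        aeval φ H ∈ IntermediateField.adjoin K (Set.range φ) := by
      intro H
      apply IntermediateField.algebra_adjoin_le_adjoin K (Set.range φ)
      rw [Algebra.adjoin_range_eq_range_aeval]
      exact ⟨H, rfl⟩
    exact div_mem (hae P1) (hae Q1)
  have hle : IntermediateField.adjoin K (Set.range φ) ≤ invField K (N + 1) := by
    rw [IntermediateField.adjoin_le_iff]
    rintro _ ⟨p, rfl⟩
    exact hinv p
  have hfield : invField K (N + 1) = IntermediateField.adjoin K (Set.range φ) :=
    le_antisymm hgen hle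
  -- (III) affine coordinates on the slice
  obtain ⟨m, ⟨b⟩⟩ : ∃ m : ℕ, Nonempty (Basis (Fin m) K (slice K N).direction) :=
    ⟨_, ⟨Module.finBasis K (slice K N).direction⟩⟩
  obtain ⟨inc, hinc⟩ : ∃ inc : (Fin m → K) →ₗ[K] (Idx (N + 1) → K), inc =
    (slice K N).direction.subtype ∘ₗ (b.equivFun.symm : (Fin m → K) →ₗ[K] (slice K N).direction) :=
    ⟨_, rfl⟩
  have hinj : LinearMap.ker inc = ⊥ := by
    rw [LinearMap.ker_eq_bot, hinc, LinearMap.coe_comp]
    exact (Subtype.val_injective).comp b.equivFun.symm.injective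
  obtain ⟨r, hr⟩ := LinearMap.exists_leftInverse_of_injective inc hinj
  have hrinc : ∀ t, r (inc t) = t := fun t => LinearMap.congr_fun hr t
  have hexS : (ex K N) ∈ slice K N := ex_slice hN
  have hincS : ∀ t, InSlice (ex K N + inc t) := by
    intro t
    have h0 : inc t ∈ (slice K N).direction := by
      rw [hinc]
      exact (b.equivFun.symm t).2
    have h1 : (inc t) +ᵥ (ex K N) ∈ slice K N :=
      AffineSubspace.vadd_mem_of_mem_direction h0 hexS
    rw [vadd_eq_add, add_comm (inc t) (ex K N)] at h1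
    exact h1
  have hS : ∀ T, InSlice T → T = ex K N + inc (r (T - ex K N)) := by
    intro T hT
    have h1 : T -ᵥ ex K N ∈ (slice K N).direction := AffineSubspace.vsub_mem_direction hT hexS
    have h2 : T - ex K N = inc (b.equivFun ⟨T - ex K N, h1⟩) := by
      rw [hinc, LinearMap.comp_apply]
      change T - ex K N = (b.equivFun.symm (b.equivFun ⟨T - ex K N, h1⟩) : Idx (N + 1) → K)
      rw [LinearEquiv.symm_apply_apply]
    have h3 : inc (r (T - ex K N)) = T - ex K N := by
      conv_lhs => rw [h2, hrinc]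
      exact h2.symm
    rw [h3]; abel
  -- the coordinates
  obtain ⟨ψ, hψ⟩ : ∃ ψ : Fin m → FF K N, ∀ j, ψ j =
      ∑ q, algebraMap K (FF K N) (r (Pi.single q 1) j) *
      (φ q - algebraMap K (FF K N) (ex K N q)) := ⟨_, fun _ => rfl⟩
  have hrsum : ∀ (x : Idx (N + 1) → K) (j : Fin m), r x j = ∑ q, r (Pi.single q 1) j * x q :=
    fun x j => lin_single r x j
  have hψP : ∀ j, ((ψ j, fun T => r (nf T - ex K N) j) : FF K N × ((Idx (N + 1) → K) → K)) ∈ Pr Δ := by
    intro j
    have h1 : ((ψ j, fun T => r (nf T - ex K N) j) : FF K N × ((Idx (N + 1) → K) → K)) =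
        ∑ q, algebraMap K _ (r (Pi.single q 1) j) *
          ((φ q, fun T => nf T q) - algebraMap K _ (ex K N q)) := by
      apply Prod.ext
      · rw [Prod.fst_sum, hψ]
        rfl
      · rw [Prod.snd_sum]
        funext T
        rw [Finset.sum_apply]
        change r (nf T - ex K N) j = _
        rw [hrsum]
        rfl
    rw [h1]
    exact Subalgebra.sum_mem _ fun q _ => (Pr Δ).mul_mem ((Pr Δ).algebraMap_mem _)
      ((Pr Δ).sub_mem (hφ q) ((Pr Δ).algebraMap_mem _))
  have hψφ : ∀ p, φ p = algebraMap K (FF K N) (ex K N p) +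
      ∑ j, algebraMap K (FF K N) (inc (Pi.single j 1) p) * ψ j := by
    intro p
    rw [← sub_eq_zero]
    have hincsum : ∀ (x : Fin m → K), inc x p = ∑ j, inc (Pi.single j 1) p * x j :=
      fun x => lin_single inc x p
    have h1 := (Pr Δ).sub_mem (hφ p) ((Pr Δ).add_mem ((Pr Δ).algebraMap_mem (ex K N p))
      (Subalgebra.sum_mem _ (fun (j : Fin m) (_ : j ∈ Finset.univ) => (Pr Δ).mul_mem
        ((Pr Δ).algebraMap_mem (inc (Pi.single j 1) p)) (hψP j))))
    have h2 : ((φ p, fun T => nf T p) : FF K N × ((Idx (N + 1) → K) → K)) -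
        (algebraMap K _ (ex K N p) + ∑ j, algebraMap K _ (inc (Pi.single j 1) p) *
          ((ψ j, fun T => r (nf T - ex K N) j) : FF K N × ((Idx (N + 1) → K) → K))) =
        (φ p - (algebraMap K (FF K N) (ex K N p) + ∑ j, algebraMap K (FF K N) (inc (Pi.single j 1) p) * ψ j),
          fun T => nf T p - (ex K N p + ∑ j, inc (Pi.single j 1) p * r (nf T - ex K N) j)) := by
      apply Prod.ext
      · rw [Prod.fst_sub, Prod.fst_add, Prod.fst_sum]
        rfl
      · rw [Prod.snd_sub, Prod.snd_add, Prod.snd_sum]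
        funext T
        rw [Pi.sub_apply, Pi.add_apply, Finset.sum_apply]
        rfl
    rw [h2] at h1
    apply (Pr_zero hΔ0 h1).2
    intro T hT
    rw [← hincsum]
    have h3 := congrFun (hS _ (hnf T hT)) p
    rw [Pi.add_apply] at h3
    rw [sub_eq_zero]
    exact h3
  have hadj : IntermediateField.adjoin K (Set.range φ) =
      IntermediateField.adjoin K (Set.range ψ) := by
    apply le_antisymm
    · rw [IntermediateField.adjoin_le_iff]
      rintro _ ⟨p, rfl⟩
      rw [hψφ]
      refine add_mem (algebraMap_mem _ _) (sum_mem fun j _ => mul_mem (algebraMap_mem _ _) ?_)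
      exact IntermediateField.subset_adjoin _ _ ⟨j, rfl⟩
    · rw [IntermediateField.adjoin_le_iff]
      rintro _ ⟨j, rfl⟩
      rw [hψ]
      refine sum_mem fun q _ => mul_mem (algebraMap_mem _ _) (sub_mem ?_ (algebraMap_mem _ _))
      exact IntermediateField.subset_adjoin _ _ ⟨q, rfl⟩
  -- (IV) algebraic independence
  have hai : AlgebraicIndependent K ψ := by
    rw [algebraicIndependent_iff]
    intro H hH
    have h1 := (Pr_zero hΔ0 (Pr_aeval hψP H)).1 hH
    set Δ' : MvPolynomial (Fin m) K := aeval (fun p => C (ex K N p) +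
      ∑ j, C (inc (Pi.single j 1) p) * X j) Δ with hΔ'
    have hev : ∀ t, eval t Δ' = eval (ex K N + inc t) Δ := by
      intro t
      have hcoord : ∀ p, eval t (C (ex K N p) + ∑ j, C (inc (Pi.single j 1) p) * X j) =
          (ex K N + inc t) p := by
        intro p
        rw [map_add, eval_C, map_sum, Pi.add_apply, lin_single inc t p]
        congr 1
        apply Finset.sum_congr rfl
        intro q _
        rw [map_mul, eval_C, eval_X]
      rw [hΔ', eval_aeval']
      congr 2
      funext p
      exact hcoord p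
    have hΔ'0 : Δ' ≠ 0 := by
      intro h0
      have h2 := hev 0
      rw [h0, map_zero, map_zero, add_zero] at h2
      exact hex h2.symm
    have h3 : H * Δ' = 0 := by
      apply MvPolynomial.funext
      intro t
      rw [map_mul, map_zero]
      by_cases ht : eval t Δ' = 0
      · rw [ht, mul_zero]
      · rw [hev] at ht
        have h4 := h1 _ ht
        rw [nf_slice (hincS t) ((hΔ _).1 ht).1, add_sub_cancel_left, hrinc] at h4
        rw [h4, zero_mul]
    exact (mul_eq_zero.1 h3).resolve_right hΔ'0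
  refine ⟨m, ⟨?_⟩⟩
  rw [hfield, hadj]
  exact hai.aevalEquivField.symm

end Pool.Agent.Y218.QM
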