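import Mathlib
import Pool.Agent.Y218.NPd

set_option autoImplicit false

open Polynomial Module W534.FS

namespace Pool.Agent.Y218.NP

/-- the first side of the Newton polygon lies below all other points -/
theorem first_side {p : ℕ} (hp : p.Prime) {E : ℤ[X]} (hE : E.Monic)
    (h : ∃ i < E.natDegree, E.coeff i ≠ 0) :
    ∃ r s, Nat.Coprime r s ∧ 0 < s ∧ s ≤ E.natDegree ∧ s ≤ len p r s E ∧
      ∀ i < E.natDegree, E.coeff i ≠ 0 →
        r * (E.natDegree - i) ≤ padicValInt p (E.coeff i) * s := by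
  classical
  set n := E.natDegree with hn
  obtain ⟨i1, hi1n, hi10⟩ := h
  set I : Finset ℕ := (Finset.range n).filter (fun i => E.coeff i ≠ 0) with hI
  have hi1I : i1 ∈ I := by rw [hI, Finset.mem_filter, Finset.mem_range]; exact ⟨hi1n, hi10⟩
  obtain ⟨j, hjI, hj⟩ := Finset.exists_min_image I
    (fun i => (padicValInt p (E.coeff i) : ℚ) / ((n - i : ℕ) : ℚ)) ⟨i1, hi1I⟩
  rw [hI, Finset.mem_filter, Finset.mem_range] at hjI
  obtain ⟨hjn, hj0⟩ := hjI
  set v := padicValInt p (E.coeff j) with hv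
  have hcross : ∀ i ∈ I, v * (n - i) ≤ padicValInt p (E.coeff i) * (n - j) := by
    intro i hi
    have h1 := hj i hi
    rw [hI, Finset.mem_filter, Finset.mem_range] at hi
    have h2 : (0 : ℚ) < ((n - i : ℕ) : ℚ) := by
      have : 0 < n - i := by omega
      exact_mod_cast this
    have h3 : (0 : ℚ) < ((n - j : ℕ) : ℚ) := by
      have : 0 < n - j := by omega
      exact_mod_cast this
    rw [div_le_div_iff₀ h3 h2] at h1
    exact_mod_cast h1
  have hm0 : 0 < n - j := by omega
  set g := Nat.gcd v (n - j) with hg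
  have hg0 : 0 < g := Nat.gcd_pos_of_pos_right _ hm0
  obtain ⟨r, hr⟩ : g ∣ v := Nat.gcd_dvd_left _ _
  obtain ⟨s, hs⟩ : g ∣ n - j := Nat.gcd_dvd_right _ _
  have hcop : Nat.Coprime r s := by
    have h1 := Nat.coprime_div_gcd_div_gcd (m := v) (n := n - j) hg0
    have h2 : v / g = r := by rw [hr]; exact Nat.mul_div_cancel_left _ hg0
    have h3 : (n - j) / g = s := by rw [hs]; exact Nat.mul_div_cancel_left _ hg0
    rw [← hg, h2, h3] at h1
    exact h1
  have hs0 : 0 < s := by
    rcases Nat.eq_zero_or_pos s with h0 | h0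
    · rw [h0, mul_zero] at hs; omega
    · exact h0
  have hcr : ∀ i ∈ I, r * (n - i) ≤ padicValInt p (E.coeff i) * s := by
    intro i hi
    have h1 := hcross i hi
    rw [hr, hs] at h1
    have h2 : g * (r * (n - i)) ≤ g * (padicValInt p (E.coeff i) * s) := by
      calc g * (r * (n - i)) = g * r * (n - i) := by ring
        _ ≤ padicValInt p (E.coeff i) * (g * s) := h1
        _ = _ := by ring
    exact Nat.le_of_mul_le_mul_left h2 hg0
  have hEn : E.coeff n = 1 := hE.coeff_natDegree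
  have hone : padicValInt p (E.coeff n) = 0 := by rw [hEn]; simp
  have hwt : wt p r s E = r * n := by
    apply le_antisymm
    · have h1 := wt_le (p := p) (r := r) (s := s) (P := E) (i := n) (by rw [hEn]; exact one_ne_zero)
      rw [hone, mul_zero, zero_add] at h1
      exact h1
    · obtain ⟨i, hi, hi'⟩ := wt_mem (p := p) (r := r) (s := s) hE.ne_zero
      rw [hi']
      have hin : i ≤ n := le_natDegree_of_ne_zero hi
      rcases Nat.lt_or_ge i n with h1 | h1
      · have h2 := hcr i (by rw [hI, Finset.mem_filter, Finset.mem_range]; exact ⟨h1, hi⟩)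
        obtain ⟨d, hd⟩ := Nat.exists_eq_add_of_le hin
        rw [hd, Nat.add_sub_cancel_left] at h2
        rw [hd, mul_add, mul_comm s]
        omega
      · have : i = n := le_antisymm hin h1
        rw [this, hone, mul_zero, zero_add]
  have h1 : (side p r s E).coeff n ≠ 0 := by
    apply side_coeff_ne hp (by rw [hEn]; exact one_ne_zero)
    rw [hone, mul_zero, zero_add, hwt]
  have h2 : (side p r s E).coeff j ≠ 0 := by
    apply side_coeff_ne hp hj0
    rw [hwt, ← hv, hr]
    obtain ⟨d, hd⟩ := Nat.exists_eq_add_of_le hjn.le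
    rw [hd, Nat.add_sub_cancel_left] at hs
    rw [hd, mul_add, hs]; ring
  have h3 : n ≤ (side p r s E).natDegree := le_natDegree_of_ne_zero h1
  have h4 : (side p r s E).natTrailingDegree ≤ j := natTrailingDegree_le_of_ne_zero h2
  have h5 : s ≤ n - j := by rw [hs]; exact Nat.le_mul_of_pos_left _ hg0
  refine ⟨r, s, hcop, hs0, by omega, ?_, ?_⟩
  · unfold len
    omega
  · intro i hi hi0
    exact hcr i (by rw [hI, Finset.mem_filter, Finset.mem_range]; exact ⟨hi, hi0⟩)

/-- the constant coefficient, by the Riemann hypothesis -/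
theorem const_sq {p a w : ℕ} {E : ℤ[X]} (hE : E.Monic)
    (hw : ∀ z : ℂ, aeval z E = 0 → ‖z‖ ^ 2 = ((p : ℝ) ^ a) ^ w) :
    (E.coeff 0) ^ 2 = ((p : ℤ) ^ (a * w * E.natDegree)) := by
  set f := E.map (Int.castRingHom ℂ) with hf
  have hfm : f.Monic := hE.map _
  have hspl := IsAlgClosed.splits f
  have hcard : f.roots.card = E.natDegree := by
    rw [← hE.natDegree_map (Int.castRingHom ℂ)]; exact splits_iff_card_roots.1 hspl
  have h1 : ∀ s : Multiset ℂ, (∀ x ∈ s, ‖x‖ ^ 2 = ((p : ℝ) ^ a) ^ w) →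
      ‖s.prod‖ ^ 2 = (((p : ℝ) ^ a) ^ w) ^ s.card := by
    intro s
    induction s using Multiset.induction_on with
    | empty => intro _; simp
    | cons x s ih =>
      intro h
      rw [Multiset.prod_cons, norm_mul, mul_pow, h x (Multiset.mem_cons_self _ _),
        ih (fun y hy => h y (Multiset.mem_cons_of_mem hy)), Multiset.card_cons, pow_succ']
  have h2 := h1 f.roots (by
    intro x hx
    apply hw
    have := (mem_roots hfm.ne_zero).1 hx
    rw [IsRoot, hf, eval_map] at this
    exact this)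
  have h3 : f.coeff 0 = (-1) ^ f.natDegree * f.roots.prod :=
    hspl.coeff_zero_eq_prod_roots_of_monic hfm
  have h4 : ‖f.coeff 0‖ ^ 2 = (((p : ℝ) ^ a) ^ w) ^ E.natDegree := by
    rw [h3, norm_mul, norm_pow, norm_neg, norm_one, one_pow, one_mul, h2, hcard]
  rw [hf, coeff_map, eq_intCast, Complex.norm_intCast, sq_abs] at h4
  have h5 : ((E.coeff 0 : ℤ) : ℝ) ^ 2 = (p : ℝ) ^ (a * w * E.natDegree) := by
    rw [h4, ← pow_mul, ← pow_mul]
    ring_nf
  exact_mod_cast h5

/-- The multiplicity of a root `z` of `P` is at most the multiplicity of a nonzero root of a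
residual polynomial of slope at most half of the weight. -/
theorem mult_middle {p a w : ℕ} [Fact p.Prime] {K : Type*} [Field K] [CharZero K] {P : ℤ[X]}
    (hP : P.Monic) (hw : ∀ z : ℂ, aeval z P = 0 → ‖z‖ ^ 2 = ((p : ℝ) ^ a) ^ w)
    {z : K} (hz : aeval z P = 0) :
    ∃ r s, Nat.Coprime r s ∧ 0 < s ∧ 2 * r ≤ a * w * s ∧ ∃ R : (ZMod p)[X], IsResidual p r s P R ∧
      ∃ ρ : AlgebraicClosure (ZMod p), ρ ≠ 0 ∧
        mu P z ≤ rootMultiplicity ρ (R.map (algebraMap (ZMod p) (AlgebraicClosure (ZMod p)))) := by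
  have hp : p.Prime := Fact.out
  obtain ⟨k, G, hGm, hEm, hPG, hk0, hd, hk⟩ := factor hP hz
  have hsq := const_sq (p := p) (a := a) (w := w) hEm (by
    intro y hy
    apply hw
    rw [hPG, map_mul, map_pow, hy, zero_pow hk0.ne', zero_mul])
  have hc0 : (minpoly ℤ z).coeff 0 ≠ 0 := by
    intro h0
    rw [h0] at hsq
    have : (p : ℤ) ^ (a * w * (minpoly ℤ z).natDegree) ≠ 0 :=
      pow_ne_zero _ (by exact_mod_cast hp.ne_zero)
    exact this (by rw [← hsq]; ring)
  obtain ⟨r, s, hrs, hs, hsn, hlen, hmin⟩ := first_side hp hEm ⟨0, hd, hc0⟩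
  have hval : 2 * padicValInt p ((minpoly ℤ z).coeff 0) = a * w * (minpoly ℤ z).natDegree := by
    have h1 : padicValInt p (((minpoly ℤ z).coeff 0) ^ 2) =
        2 * padicValInt p ((minpoly ℤ z).coeff 0) := by
      rw [pow_two, padicValInt.mul hc0 hc0]; ring
    rw [← h1, hsq]
    unfold padicValInt
    rw [Int.natAbs_pow, Int.natAbs_natCast, padicValNat.prime_pow]
  have hslope : 2 * r ≤ a * w * s := by
    have h1 := hmin 0 hd hc0
    rw [Nat.sub_zero] at h1
    have h2 : (2 * r) * (minpoly ℤ z).natDegree ≤ (a * w * s) * (minpoly ℤ z).natDegree := by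
      calc (2 * r) * (minpoly ℤ z).natDegree = 2 * (r * (minpoly ℤ z).natDegree) := by ring
        _ ≤ 2 * (padicValInt p ((minpoly ℤ z).coeff 0) * s) := Nat.mul_le_mul_left _ h1
        _ = (2 * padicValInt p ((minpoly ℤ z).coeff 0)) * s := by ring
        _ = _ := by rw [hval]; ring
    exact Nat.le_of_mul_le_mul_right h2 hd
  obtain ⟨RE, hRE, hRE'⟩ := exists_resid hp hs hrs hEm.ne_zero
  obtain ⟨RG, hRG, hRG'⟩ := exists_resid hp hs hrs hGm.ne_zero
  have hmul : side p r s P = X ^ (k * (side p r s (minpoly ℤ z)).natTrailingDegree +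
      (side p r s G).natTrailingDegree) * expand (ZMod p) s (RE ^ k * RG) := by
    conv_lhs => rw [hPG, side_mul hp hs (pow_ne_zero _ hEm.ne_zero) hGm.ne_zero,
      side_pow hp hs hEm.ne_zero, hRE', hRG']
    rw [map_mul, map_pow, mul_pow, pow_add, ← pow_mul, mul_comm k]
    ring
  have hc0' : (RE ^ k * RG).coeff 0 ≠ 0 := by
    rw [mul_coeff_zero, coeff_zero_eq_eval_zero, eval_pow, ← coeff_zero_eq_eval_zero]
    exact mul_ne_zero (pow_ne_zero _ hRE) hRG
  have hdeg : RE.natDegree ≠ 0 := by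
    intro h0
    have := len_eq hp hs hRE hRE'
    rw [h0, zero_mul] at this
    omega
  set k' := AlgebraicClosure (ZMod p)
  have hmap0 : RE.map (algebraMap (ZMod p) k') ≠ 0 :=
    (Polynomial.map_ne_zero_iff (algebraMap (ZMod p) k').injective).2
      (fun h0 => hRE (by rw [h0, coeff_zero]))
  obtain ⟨ρ, hρ⟩ : ∃ ρ : k', (RE.map (algebraMap (ZMod p) k')).IsRoot ρ := by
    apply IsAlgClosed.exists_root
    rw [degree_eq_natDegree hmap0, natDegree_map]
    exact_mod_cast hdeg
  refine ⟨r, s, hrs, hs, hslope, RE ^ k * RG, ⟨hc0', _, hmul⟩, ρ, ?_, ?_⟩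
  · rintro rfl
    rw [IsRoot, ← coeff_zero_eq_eval_zero, coeff_map] at hρ
    exact hRE ((algebraMap (ZMod p) k').injective (hρ.trans (map_zero _).symm))
  · have hmu : mu P z = k := hk
    have hRP0 : (RE ^ k * RG).map (algebraMap (ZMod p) k') ≠ 0 :=
      (Polynomial.map_ne_zero_iff (algebraMap (ZMod p) k').injective).2
        (fun h0 => hc0' (by rw [h0, coeff_zero]))
    rw [hmu, le_rootMultiplicity_iff hRP0, Polynomial.map_mul, Polynomial.map_pow]
    exact Dvd.dvd.mul_right (pow_dvd_pow_of_dvd (dvd_iff_isRoot.2 hρ) _) _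

end Pool.Agent.Y218.NP
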