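import Mathlib
import Pool.Agent.W534.FS4
import Pool.Agent.Y146.HW.EndL

set_option autoImplicit false

open Polynomial Module W534.FS

namespace Pool.Agent.Y218.PE

/-- a similitude of a positive definite rational form is semisimple -/
theorem semisimple_of_pos {Λ : Type*} [AddCommGroup Λ] [Module ℚ Λ] [Module.Finite ℚ Λ]
    (φ : Module.End ℚ Λ) (b : LinearMap.BilinForm ℚ Λ) (hs : ∀ x y, b x y = b y x)
    (hpos : ∀ x, x ≠ 0 → 0 < b x x) {c : ℚ} (hc : c ≠ 0)
    (hb : ∀ x y, b (φ x) (φ y) = c * b x y) : φ.IsSemisimple := by
  rw [Module.End.isSemisimple_iff]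
  intro P hP
  rw [Module.End.mem_invtSubmodule] at hP
  have hinj : Function.Injective φ := by
    rw [injective_iff_map_eq_zero]
    intro x hx
    by_contra h0
    have h1 := hb x x
    rw [hx, map_zero] at h1
    have h2 := hpos x h0
    have : c * b x x ≠ 0 := mul_ne_zero hc h2.ne'
    exact this h1.symm
  have hrefl : b.IsRefl := fun x y h => by rw [hs]; exact h
  refine ⟨b.orthogonal P, ?_, ?_⟩
  · rw [Module.End.mem_invtSubmodule]
    intro y hy
    change φ y ∈ b.orthogonal P
    intro x hx
    obtain ⟨x', hx', rfl⟩ : ∃ x' ∈ P, φ x' = x := by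
      have h1 : P.map φ ≤ P := by
        rw [Submodule.map_le_iff_le_comap]
        exact hP
      have h2 : finrank ℚ (P.map φ) = finrank ℚ P :=
        (Submodule.equivMapOfInjective φ hinj P).finrank_eq.symm
      have h3 : P.map φ = P := Submodule.eq_of_le_of_finrank_eq h1 h2
      rw [← h3] at hx
      exact (Submodule.mem_map).1 hx
    change b (φ x') (φ y) = 0
    rw [hb]
    have : b x' y = 0 := hy x' hx'
    rw [this, mul_zero]
  · rw [LinearMap.BilinForm.isCompl_orthogonal_iff_disjoint hrefl, Submodule.disjoint_def]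
    intro x hx hx'
    by_contra h0
    have h1 : b x x = 0 := hx' x hx
    exact (hpos x h0).ne' h1

/-- the Hodge index form made positive -/
theorem semisimple_of_index {Λ : Type*} [AddCommGroup Λ] [Module ℚ Λ] [Module.Finite ℚ Λ]
    (φ : Module.End ℚ Λ) (b : LinearMap.BilinForm ℚ Λ) (hs : ∀ x y, b x y = b y x) {h : Λ}
    (hh : 0 < b h h) (hneg : ∀ x, b h x = 0 → x ≠ 0 → b x x < 0) {Q : ℚ} (hQ : Q ≠ 0)
    (hφ : φ h = Q • h) (hb : ∀ x y, b (φ x) (φ y) = Q ^ 2 * b x y) : φ.IsSemisimple := by
  -- the form `2 b(x,h) b(y,h) / b(h,h) - b(x,y)`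
  set b' : LinearMap.BilinForm ℚ Λ :=
    (2 / b h h) • LinearMap.BilinForm.linMulLin (b h) (b h) - b with hb'
  have hval : ∀ x y, b' x y = 2 / b h h * (b h x * b h y) - b x y := by
    intro x y
    rw [hb', LinearMap.sub_apply, LinearMap.sub_apply, LinearMap.smul_apply, LinearMap.smul_apply,
      LinearMap.BilinForm.linMulLin_apply, smul_eq_mul]
  have hbh : ∀ x, b h (φ x) = Q * b h x := by
    intro x
    have h1 := hb h x
    rw [hφ, map_smul, LinearMap.smul_apply, smul_eq_mul] at h1
    apply mul_left_cancel₀ hQ
    rw [h1]; ring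
  apply semisimple_of_pos φ b' _ _ (pow_ne_zero 2 hQ)
  · intro x y
    rw [hval, hval, hbh, hbh, hb]; ring
  · intro x y
    rw [hval, hval, hs x y]; ring
  · intro x hx
    rw [hval]
    set t := b h x / b h h with ht
    set y := x - t • h with hy
    have hhy : b h y = 0 := by
      rw [hy, map_sub, map_smul, smul_eq_mul, ht, div_mul_cancel₀ _ hh.ne', sub_self]
    have hxy : x = y + t • h := by rw [hy]; abel
    have hbx : b h x = t * b h h := by rw [ht, div_mul_cancel₀ _ hh.ne']
    have hxx : b x x = b y y + t ^ 2 * b h h := by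
      rw [hxy]
      simp only [map_add, map_smul, LinearMap.add_apply, LinearMap.smul_apply, smul_eq_mul]
      rw [hs y h, hhy]; ring
    rw [hbx, hxx]
    have h1 : 2 / b h h * (t * b h h * (t * b h h)) = 2 * t ^ 2 * b h h := by
      field_simp
    rw [h1]
    by_cases hy0 : y = 0
    · have ht0 : t ≠ 0 := by
        intro h0
        apply hx
        rw [hxy, hy0, h0, zero_smul, zero_add]
      rw [hy0, map_zero]
      have : 0 < t ^ 2 * b h h := mul_pos (by positivity) hh
      linarith
    · have h2 := hneg y hhy hy0
      have h3 : 0 ≤ t ^ 2 * b h h := mul_nonneg (sq_nonneg _) hh.le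
      linarith

/-- a polynomial on a Jordan chain -/
theorem aeval_chain {K V : Type*} [Field K] [AddCommGroup V] [Module K V] (f : Module.End K V)
    {α : K} {n v : V} (hn : f n = α • n + v) (hv : f v = α • v) (P : K[X]) :
    (aeval f P) n = P.eval α • n + P.derivative.eval α • v ∧ (aeval f P) v = P.eval α • v := by
  induction P using Polynomial.induction_on' with
  | add P Q hP hQ =>
    obtain ⟨h1, h2⟩ := hP
    obtain ⟨h3, h4⟩ := hQ
    constructor
    · rw [map_add, LinearMap.add_apply, h1, h3, eval_add, derivative_add, eval_add]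
      module
    · rw [map_add, LinearMap.add_apply, h2, h4, eval_add]
      module
  | monomial k c =>
    obtain ⟨h1, h2⟩ := pow_jordan f hn hv k
    constructor
    · rw [aeval_monomial, eval_monomial, derivative_monomial, eval_monomial,
        Module.End.mul_apply, Module.algebraMap_end_apply, h1]
      module
    · rw [aeval_monomial, eval_monomial, Module.End.mul_apply, Module.algebraMap_end_apply, h2]
      module

/-- no Jordan chains on the span of the classes of a lattice on which the map is semisimple -/
theorem no_chain_span {K V Λ : Type*} [Field K] [CharZero K] [AddCommGroup V] [Module K V]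
    [AddCommGroup Λ] [Module ℚ Λ] [Module.Finite ℚ Λ] (f : Module.End K V)
    (φ : Module.End ℚ Λ) (hφ : φ.IsSemisimple) (cl : Λ →+ V) (hcl : ∀ x, f (cl x) = cl (φ x))
    (hq : ∀ (t : ℚ) (x : Λ), cl (t • x) = (t : K) • cl x) {α : K} {n v : V}
    (hnN : n ∈ Submodule.span K (Set.range cl)) (hn : f n = α • n + v) (hv : f v = α • v) :
    v = 0 := by
  set μ : K[X] := (minpoly ℚ φ).map (algebraMap ℚ K) with hμ
  have hsep : μ.Separable :=
    (PerfectField.separable_iff_squarefree.2 hφ.minpoly_squarefree).map
  have hpow : ∀ (P : ℚ[X]) (x : Λ), (aeval f (P.map (algebraMap ℚ K))) (cl x) =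
      cl ((aeval φ P) x) := by
    intro P x
    induction P using Polynomial.induction_on' with
    | add P Q hP hQ =>
      rw [Polynomial.map_add, map_add, LinearMap.add_apply, hP, hQ, map_add, LinearMap.add_apply,
        map_add]
    | monomial k c =>
      have hk : ∀ k : ℕ, (f ^ k) (cl x) = cl ((φ ^ k) x) := by
        intro k
        induction k with
        | zero => simp
        | succ k ih => rw [pow_succ', Module.End.mul_apply, ih, hcl, pow_succ',
            Module.End.mul_apply]
      rw [Polynomial.map_monomial, aeval_monomial, aeval_monomial, Module.End.mul_apply,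
        Module.End.mul_apply, Module.algebraMap_end_apply, Module.algebraMap_end_apply, hk, hq,
        eq_ratCast]
  have hzero : (aeval f μ) n = 0 := by
    have h1 : Submodule.span K (Set.range cl) ≤ LinearMap.ker (aeval f μ) := by
      rw [Submodule.span_le]
      rintro _ ⟨x, rfl⟩
      change (aeval f μ) (cl x) = 0
      rw [hμ, hpow, minpoly.aeval, LinearMap.zero_apply, map_zero]
    exact h1 hnN
  obtain ⟨h1, h2⟩ := aeval_chain f hn hv μ
  by_cases h0 : μ.eval α = 0
  · rw [h1, h0, zero_smul, zero_add] at hzero
    have hd : μ.derivative.eval α ≠ 0 := by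
      intro hd
      exact (hsep.eval₂_derivative_ne_zero (RingHom.id K) (x := α) (by simpa [eval₂_id] using h0))
        (by simpa [eval₂_id] using hd)
    exact (smul_eq_zero.1 hzero).resolve_left hd
  · -- apply `f - α` to the relation
    have h3 : μ.eval α • v = 0 := by
      have h4 := congrArg f hzero
      rw [h1, map_zero, map_add, map_smul, map_smul, hn, hv] at h4
      have h5 : μ.eval α • n + μ.derivative.eval α • v = 0 := by rw [← h1]; exact hzero
      have h6 : μ.eval α • (α • n + v) + μ.derivative.eval α • α • v =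
          α • (μ.eval α • n + μ.derivative.eval α • v) + μ.eval α • v := by module
      rw [h6, h5, smul_zero, zero_add] at h4
      exact h4
    exact (smul_eq_zero.1 h3).resolve_left h0

end Pool.Agent.Y218.PE
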