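import Mathlib
import Pool.Agent.Y218.PEa

set_option autoImplicit false

open Polynomial Module W534.FS

namespace Pool.Agent.Y218.PE

variable {p a : ℕ} {K V : Type*} [Field K] [AddCommGroup V] [Module K V] [Module.Finite K V]

/-- no Jordan chains on the Tate part -/
theorem tate_part [CharZero K] (X : SurfaceH2 p a K V) (hp : p.Prime) (f : Module.End K V)
    (hcomm : Commute f X.F) {Q : K} (hQ : Q ≠ 0)
    (hBf : ∀ x y, X.B (f x) (f y) = Q ^ 2 * X.B x y) (hfN : ∀ x ∈ X.N, f x ∈ X.N) {α : K}
    (hN : ∀ n ∈ X.N, ∀ v, f n = α • n + v → f v = α • v → v = 0) {M : ℕ}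
    (hM : ∀ x ∈ X.N, (X.F ^ M) x = ((p : K) ^ a) ^ M • x)
    (hdim : finrank K ((X.F ^ M).maxGenEigenspace (((p : K) ^ a) ^ M)) ≤ finrank K X.N + 2)
    (hss : (X.F ^ M).maxGenEigenspace (((p : K) ^ a) ^ M) =
      (X.F ^ M).eigenspace (((p : K) ^ a) ^ M)) {y v : V}
    (hyU : y ∈ (X.F ^ M).maxGenEigenspace (((p : K) ^ a) ^ M)) (hy : f y = α • y + v)
    (hv : f v = α • v) : v = 0 := by
  by_contra hv0
  set G := X.F ^ M with hG
  set c := ((p : K) ^ a) ^ M with hc
  have hc0 : c ≠ 0 := pow_ne_zero _ (pow_ne_zero _ (by exact_mod_cast hp.ne_zero))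
  have hcommG : Commute f G := hcomm.pow_right M
  have hinj : ∀ x, f x = 0 → x = 0 := by
    intro x hx
    apply X.B_nondeg
    intro z
    have h1 := hBf x z
    rw [hx, map_zero, LinearMap.zero_apply] at h1
    exact (mul_eq_zero.1 h1.symm).resolve_left (pow_ne_zero _ hQ)
  have hα : α ≠ 0 := by
    rintro rfl
    rw [zero_smul] at hv
    exact hv0 (hinj v hv)
  have hfN' : X.N.map f = X.N := by
    have h1 : X.N.map f ≤ X.N := by
      rw [Submodule.map_le_iff_le_comap]
      exact hfN
    have hi : Function.Injective f := by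
      rw [injective_iff_map_eq_zero]
      exact hinj
    exact Submodule.eq_of_le_of_finrank_eq h1
      (Submodule.equivMapOfInjective f hi X.N).finrank_eq.symm
  have hfo : ∀ w ∈ X.B.orthogonal X.N, f w ∈ X.B.orthogonal X.N := by
    intro w hw x hx
    rw [← hfN'] at hx
    obtain ⟨x', hx', rfl⟩ := Submodule.mem_map.1 hx
    change X.B (f x') (f w) = 0
    rw [hBf]
    have : X.B x' w = 0 := hw x' hx'
    rw [this, mul_zero]
  -- split off the `N`-component
  obtain ⟨n, hn, w, hw, hnw⟩ : ∃ n ∈ X.N, ∃ w ∈ X.B.orthogonal X.N, n + w = y := by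
    have : y ∈ X.N ⊔ X.B.orthogonal X.N := by rw [X.compl.sup_eq_top]; trivial
    exact Submodule.mem_sup.1 this
  set vn := f n - α • n with hvn
  set vw := f w - α • w with hvw
  have h1 : vn ∈ X.N := X.N.sub_mem (hfN n hn) (X.N.smul_mem _ hn)
  have h2 : vw ∈ X.B.orthogonal X.N :=
    Submodule.sub_mem _ (hfo w hw) (Submodule.smul_mem _ _ hw)
  have h3 : v = vn + vw := by
    have : v = f y - α • y := by rw [hy]; abel
    rw [this, ← hnw, map_add, smul_add, hvn, hvw]; abel
  have h4 : f vn - α • vn = 0 := by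
    have h5 : (f vn - α • vn) + (f vw - α • vw) = 0 := by
      have : (f vn - α • vn) + (f vw - α • vw) = f v - α • v := by
        rw [h3, map_add, smul_add]; abel
      rw [this, hv, sub_self]
    have h6 : f vn - α • vn ∈ X.N := X.N.sub_mem (hfN _ h1) (X.N.smul_mem _ h1)
    have h7 : f vn - α • vn ∈ X.B.orthogonal X.N := by
      have h8 : f vn - α • vn = -(f vw - α • vw) := eq_neg_of_add_eq_zero_left h5
      rw [h8]
      exact Submodule.neg_mem _ (Submodule.sub_mem _ (hfo _ h2) (Submodule.smul_mem _ _ h2))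
    exact (Submodule.disjoint_def.1 X.compl.disjoint) _ h6 h7
  have h5 : vn = 0 := by
    apply hN n hn vn
    · rw [hvn]; abel
    · exact sub_eq_zero.1 h4
  rw [h5, zero_add] at h3
  have hvo : v ∈ X.B.orthogonal X.N := by rw [h3]; exact h2
  have hfw : f w = α • w + v := by rw [h3, hvw]; abel
  -- the form on the chain
  have e1 := hBf v v
  have e2 := hBf w v
  have e3 := hBf w w
  rw [hv] at e1 e2
  rw [hfw] at e2 e3
  simp only [map_add, map_smul, LinearMap.add_apply, LinearMap.smul_apply, smul_eq_mul]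
    at e1 e2 e3
  rw [X.B_symm v w] at e3
  have hvv : X.B v v = 0 := by
    by_cases hcase : α ^ 2 = Q ^ 2
    · have : α * X.B v v = 0 := by linear_combination e2 - (X.B w v) * hcase
      exact (mul_eq_zero.1 this).resolve_left hα
    · have : (α ^ 2 - Q ^ 2) * X.B v v = 0 := by linear_combination e1
      exact (mul_eq_zero.1 this).resolve_left (sub_ne_zero.2 hcase)
  have hwv : X.B w v = 0 := by
    by_cases hcase : α ^ 2 = Q ^ 2
    · have : (2 * α) * X.B w v = 0 := by
        linear_combination e3 - (X.B w w) * hcase - hvv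
      exact (mul_eq_zero.1 this).resolve_left (mul_ne_zero two_ne_zero hα)
    · have : (α ^ 2 - Q ^ 2) * X.B w v = 0 := by linear_combination e2 - α * hvv
      exact (mul_eq_zero.1 this).resolve_left (sub_ne_zero.2 hcase)
  have hBvN : ∀ x ∈ X.N, X.B x v = 0 := fun x hx => hvo x hx
  -- the span of `w`, `v`
  set D : Submodule K V := Submodule.span K (Set.range ![w, v]) with hD
  have hli : LinearIndependent K ![w, v] := by
    rw [LinearIndependent.pair_iff]
    intro s t hst
    have h1 := congrArg f hst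
    rw [map_add, map_smul, map_smul, hfw, hv, map_zero] at h1
    have h2 : s • v = 0 := by
      have h3 : s • (α • w + v) + t • α • v - α • (s • w + t • v) = 0 := by
        rw [h1, hst, smul_zero, sub_zero]
      have h4 : s • (α • w + v) + t • α • v - α • (s • w + t • v) = s • v := by
        module
      rw [← h4]; exact h3
    have hs : s = 0 := (smul_eq_zero.1 h2).resolve_right hv0
    rw [hs, zero_smul, zero_add] at hst
    exact ⟨hs, (smul_eq_zero.1 hst).resolve_right hv0⟩
  have hDfin : finrank K D = 2 := by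
    rw [hD, finrank_span_eq_card hli]; simp
  have hDle : D ≤ X.B.orthogonal X.N := by
    rw [hD, Submodule.span_le]
    rintro _ ⟨i, rfl⟩
    fin_cases i
    · exact hw
    · exact hvo
  have hDdisj : Disjoint X.N D := X.compl.disjoint.mono_right hDle
  set U := G.maxGenEigenspace c with hU
  have hNU : X.N ≤ U := by
    intro x hx
    rw [hU, Module.End.mem_maxGenEigenspace]
    refine ⟨1, ?_⟩
    rw [pow_one, LinearMap.sub_apply, hM x hx]
    simp
  have hfU : ∀ x ∈ U, f x ∈ U :=
    fun x hx => Module.End.mapsTo_maxGenEigenspace_of_comm hcommG.symm c hx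
  have hwU : w ∈ U := by
    have : w = y - n := by rw [← hnw]; abel
    rw [this]
    exact U.sub_mem hyU (hNU hn)
  have hvU' : v ∈ U := by
    rw [h3, hvw]
    exact U.sub_mem (hfU w hwU) (U.smul_mem _ hwU)
  have hDU : D ≤ U := by
    rw [hD, Submodule.span_le]
    rintro _ ⟨i, rfl⟩
    fin_cases i
    · exact hwU
    · exact hvU'
  have hsup : X.N ⊔ D = U := by
    apply Submodule.eq_of_le_of_finrank_le (sup_le hNU hDU)
    have h1 := Submodule.finrank_sup_add_finrank_inf_eq X.N D
    rw [hDdisj.eq_bot, finrank_bot, add_zero, hDfin] at h1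
    rw [h1]
    exact hdim
  have hvU : ∀ x ∈ U, X.B v x = 0 := by
    intro x hx
    rw [← hsup] at hx
    obtain ⟨n', hn', d, hd, rfl⟩ := Submodule.mem_sup.1 hx
    rw [map_add, X.B_symm v n', hBvN n' hn', zero_add]
    have : D ≤ LinearMap.ker (X.B v) := by
      rw [hD, Submodule.span_le]
      rintro _ ⟨i, rfl⟩
      fin_cases i
      · change X.B v w = 0
        rw [X.B_symm]; exact hwv
      · exact hvv
    exact this hd
  -- `v` is orthogonal to the range
  have hGv : G v = c • v := by
    have : v ∈ G.eigenspace c := by rw [← hss]; exact hvU'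
    exact Module.End.mem_eigenspace_iff.1 this
  have hBG : ∀ x y, X.B (G x) (G y) = c ^ 2 * X.B x y := pow_form X.F X.B X.B_F M
  have hvR : ∀ x, X.B v ((G - c • (1 : Module.End K V)) x) = 0 := by
    intro x
    have h1 := hBG v x
    rw [hGv, map_smul, LinearMap.smul_apply, smul_eq_mul] at h1
    have h2 : X.B v (G x) = c * X.B v x := by
      apply mul_left_cancel₀ hc0
      rw [h1]; ring
    rw [LinearMap.sub_apply, map_sub, h2]
    simp
  obtain ⟨b, hb1, hb2⟩ := (((LinearMap.eventually_isCompl_ker_pow_range_pow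
    (G - c • (1 : Module.End K V))).and (Filter.eventually_ge_atTop 1))).exists
  apply hv0
  apply X.B_nondeg
  intro x
  have hx : x ∈ LinearMap.ker ((G - c • (1 : Module.End K V)) ^ b) ⊔
      LinearMap.range ((G - c • (1 : Module.End K V)) ^ b) := by
    rw [hb1.sup_eq_top]; trivial
  obtain ⟨x1, hx1, x2, hx2, rfl⟩ := Submodule.mem_sup.1 hx
  rw [map_add]
  have h1 : X.B v x1 = 0 := by
    apply hvU
    rw [hU, Module.End.mem_maxGenEigenspace]
    exact ⟨b, hx1⟩
  have h2 : X.B v x2 = 0 := by
    obtain ⟨x3, rfl⟩ := hx2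
    obtain ⟨b', rfl⟩ : ∃ b', b = b' + 1 := ⟨b - 1, by omega⟩
    rw [pow_succ']
    exact hvR _
  rw [h1, h2, add_zero]

/-- The main step: an endomorphism commuting with the Frobenius. -/
theorem main [CharZero K] [IsAlgClosed K] (X : SurfaceH2 p a K V) (hp : p.Prime)
    (f : Module.End K V) (hcomm : Commute f X.F) {Q : K} (hQ : Q ≠ 0)
    (hBf : ∀ x y, X.B (f x) (f y) = Q ^ 2 * X.B x y) (hfN : ∀ x ∈ X.N, f x ∈ X.N)
    (hN : ∀ α : K, ∀ n ∈ X.N, ∀ v, f n = α • n + v → f v = α • v → v = 0)
    (hm : ∀ α, ¬ IsTate p a α → X.mult α ≤ 1) (hF : X.FewTate) (α : K) :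
    f.maxGenEigenspace α = f.eigenspace α := by
  have hss : ∀ n, ∀ β, (X.F ^ n).maxGenEigenspace β = (X.F ^ n).eigenspace β := by
    intro n β
    apply Y146.HW.maxGen_pow_eq
    intro γ _
    by_cases hγ : IsTate p a γ
    · exact X.ss_tate hp hF hγ
    · exact X.ss_of_mult (hm γ hγ)
  apply eig_eq
  intro y v hy hv
  set g := (f - α • (1 : Module.End K V)) with hg
  have hcg : Commute X.F g := by
    rw [hg]
    apply Commute.sub_right hcomm.symm
    rw [← Algebra.algebraMap_eq_smul_one]
    exact (Algebra.commutes α X.F).symm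
  have hgx : ∀ x, g x = f x - α • x := by
    intro x
    rw [hg, LinearMap.sub_apply]; simp
  set W : Submodule K V := LinearMap.ker (g ^ 2) with hW
  have hWF : ∀ x ∈ W, X.F x ∈ W := by
    intro x hx
    rw [hW, LinearMap.mem_ker] at hx ⊢
    have h1 := (hcg.pow_right 2).eq
    have h2 := congrArg (fun T : Module.End K V => T x) h1
    simp only [Module.End.mul_apply] at h2
    rw [← h2, hx, map_zero]
  have hdec := Submodule.inf_iSup_genEigenspace (p := W) (f := X.F) hWF ⊤
  have htop : ⨆ μ : K, X.F.genEigenspace μ ⊤ = ⊤ := X.F.iSup_maxGenEigenspace_eq_top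
  rw [htop, inf_top_eq] at hdec
  have hle : W ≤ LinearMap.ker g := by
    rw [hdec, iSup_le_iff]
    rintro γ x ⟨hxW, hxγ⟩
    rw [LinearMap.mem_ker]
    have hxγ' : x ∈ X.F.maxGenEigenspace γ := hxγ
    have h1 : f x = α • x + g x := by rw [hgx]; abel
    have h2 : f (g x) = α • g x := by
      have h3 : (g ^ 2) x = 0 := hxW
      rw [pow_two, Module.End.mul_apply, hgx (g x)] at h3
      exact sub_eq_zero.1 h3
    by_cases hγ : IsTate p a γ
    · obtain ⟨m1, hm1, h4⟩ := hγ
      obtain ⟨m, hm0, hNm⟩ := X.N_F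
      have hγM : γ ^ (m * m1) = ((p : K) ^ a) ^ (m * m1) := by
        rw [mul_comm, pow_mul, h4, ← pow_mul]
      have hM0 : 0 < m * m1 := Nat.mul_pos hm0 hm1
      refine tate_part X hp f hcomm hQ hBf hfN (hN α) (M := m * m1) (X.N_pow hNm m1)
        (hF _ hM0) (hss _ _) ?_ h1 h2
      rw [← hγM]
      exact Y146.HW.maxGen_pow_le X.F γ _ hxγ'
    · have hcf : Commute X.F f := hcomm.symm
      have hgγ : g x ∈ X.F.maxGenEigenspace γ :=
        Module.End.mapsTo_maxGenEigenspace_of_comm hcg γ hxγ'
      by_contra hne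
      have hfin : finrank K (X.F.maxGenEigenspace γ) = 1 := by
        have h5 := hm γ hγ
        unfold SurfaceH2.mult at h5
        apply le_antisymm h5
        have : Nontrivial (X.F.maxGenEigenspace γ) := by
          refine ⟨⟨⟨g x, hgγ⟩, 0, ?_⟩⟩
          intro h0
          exact hne (congrArg Subtype.val h0)
        exact finrank_pos
      have hnz : (⟨g x, hgγ⟩ : X.F.maxGenEigenspace γ) ≠ 0 := by
        intro h0
        exact hne (congrArg Subtype.val h0)
      obtain ⟨t, ht⟩ := (finrank_eq_one_iff_of_nonzero' _ hnz).1 hfin ⟨x, hxγ'⟩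
      have ht' : t • g x = x := congrArg Subtype.val ht
      apply hne
      have h6 : g x = f x - α • x := hgx x
      rw [h6, ← ht', map_smul, h2, smul_comm, sub_self]
  have hyW : y ∈ W := by
    rw [hW, LinearMap.mem_ker, pow_two, Module.End.mul_apply, hgx y, hy, add_sub_cancel_left,
      hgx v, hv, sub_self]
  have h7 := hle hyW
  rw [LinearMap.mem_ker, hgx y, hy, add_sub_cancel_left] at h7
  exact h7

end Pool.Agent.Y218.PE
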