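import Mathlib
import Pool.Agent.Y162.HW.Spread

/-!
An infinitesimal criterion for dense ordinary reduction of abelian varieties over fields of positive
transcendence degree.
-/

set_option autoImplicit false

open Matrix

namespace Pool.Agent.Y218.GM

universe u

/-- The indices of a basis of `H = H^1_dR` whose first half is a basis of the Hodge filtration. -/
abbrev Ix (g : ℕ) : Type := Fin g ⊕ Fin g

/-- The vectors of the Hodge filtration `F = H^0(Ω^1) ⊂ H`. -/
def InHodge {S : Type*} [Zero S] {g : ℕ} (x : Ix g → S) : Prop := ∀ i, x (Sum.inr i) = 0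

/-- `∇ x = δ x + A x`, where `δ` is a derivation and `A` the connection matrix. -/
def nabla {S : Type*} [CommRing S] {g : ℕ} (δ : Derivation ℤ S S) (A : Matrix (Ix g) (Ix g) S)
    (x : Ix g → S) : Ix g → S := fun a => δ (x a) + ∑ b, A a b * x b

/-- The value `⟨x, y⟩` of the pairing with Gram matrix `P`. -/
def pair {S : Type*} [CommRing S] {g : ℕ} (P : Matrix (Ix g) (Ix g) S) (x y : Ix g → S) : S :=
  ∑ a, ∑ b, x a * P a b * y b

/-- Data of an abelian variety `X` of dimension `g` over the field `K`, with a model over the finitely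
generated ring `R` with fraction field `K`: the first de Rham cohomology `H = H^1_dR(X)` with its
Gauss-Manin connection `∇`, written in a basis over `R` whose first half is a basis of the Hodge
filtration `F = H^0(X, Ω^1)`. -/
structure DeRham (R K : Type u) [CommRing R] [CommRing K] (g : ℕ) (J I : Type) where
  /-- finitely many derivations of `R` -/
  D : J → Derivation ℤ R R
  /-- their extensions to the field `K` -/
  DK : J → Derivation ℤ K K
  /-- the connection matrices: `∇_j x = D_j x + A_j x` -/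
  A : J → Matrix (Ix g) (Ix g) R
  /-- the Gram matrix of the pairing on `H` given by a polarization of `X` -/
  P : Matrix (Ix g) (Ix g) R
  /-- finitely many endomorphisms of `H` with sum `1` that are linear combinations over `R` of
  endomorphisms of `X`; for instance only the identity, or the projectors of a decomposition of `H` -/
  e : I → Matrix (Ix g) (Ix g) R
  /-- lifts to `R` of the Hasse invariants in `R / p R` (the determinants of the Hasse-Witt matrices on
  `H^1(X, O)`); the reduction of `X` at a point of characteristic `p` is ordinary if and only if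
  the Hasse invariant is not zero there -/
  hw : ℕ → R

variable {R K : Type u} [CommRing R] [Field K] [Algebra R K] {g : ℕ} {J I : Type}

/-- The matrix of the Kodaira-Spencer map: `ks j l i = ⟨∇_j e_l, e_i⟩`. -/
def DeRham.ks (X : DeRham R K g J I) (j : J) (l i : Fin g) : R :=
  ∑ a, X.A j a (Sum.inl l) * X.P a (Sum.inl i)

/-- The facts on the conjugate filtration `C` of `H ⊗ κ`, where `κ` is the residue field of a minimal
prime `Q` over `p` (for large `p` the derivations `D_j` induce derivations `δ_j` of `κ`): `C` is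
isotropic and stable under `∇_j` and under endomorphisms, and if `C ∩ F = 0` then the reduction of `X` over `κ` is ordinary,
that is, the Hasse invariant is not in `Q`. -/
def ConjFact (X : DeRham R K g J I) (p : ℕ) (Q : Ideal R) : Prop :=
  ∃ (κ : Type u) (_ : Field κ) (φ : R →+* κ) (δ : J → Derivation ℤ κ κ)
    (C : Submodule κ (Ix g → κ)), RingHom.ker φ = Q ∧
    (∀ j r, δ j (φ r) = φ (X.D j r)) ∧
    (∀ x ∈ C, ∀ y ∈ C, pair (X.P.map φ) x y = 0) ∧
    (∀ j, ∀ x ∈ C, nabla (δ j) ((X.A j).map φ) x ∈ C) ∧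
    (∀ t, ∀ x ∈ C, ((X.e t).map φ) *ᵥ x ∈ C) ∧
    ((∀ x ∈ C, InHodge x → x = 0) → X.hw p ∉ Q)

/-- The known properties of the first de Rham cohomology of a polarized abelian variety. -/
structure DeRham.IsAbelian [Fintype I] (X : DeRham R K g J I) : Prop where
  /-- the pairing is antisymmetric -/
  anti : ∀ a b, X.P a b = - X.P b a
  /-- the Hodge filtration is isotropic -/
  isotropic : ∀ i l, X.P (Sum.inl i) (Sum.inl l) = 0
  /-- the pairing of `F = H^0(Ω^1)` and `H / F = H^1(O)` is nondegenerate over `K` -/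
  nondeg : (Matrix.of fun m i => X.P (Sum.inr m) (Sum.inl i)).det ≠ 0
  /-- the pairing is horizontal: `D ⟨x, y⟩ = ⟨∇ x, y⟩ + ⟨x, ∇ y⟩` -/
  horizontal : ∀ j a b, X.D j (X.P a b) = ∑ c, X.A j c a * X.P c b + ∑ c, X.P a c * X.A j c b
  /-- `DK j` extends `D j` -/
  ext : ∀ j r, X.DK j (algebraMap R K r) = algebraMap R K (X.D j r)
  /-- the sum of the endomorphisms `e_t` is the identity -/
  sum_e : ∀ a b, ∑ t, X.e t a b = if a = b then 1 else 0
  /-- the endomorphisms `e_t` map `F` to `F` -/
  e_hodge : ∀ t i l, X.e t (Sum.inr i) (Sum.inl l) = 0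
  /-- the conjugate filtration, for all large `p` (Katz) -/
  conj : ∃ p₀ : ℕ, ∀ p : ℕ, p₀ ≤ p → p.Prime → ∀ Q ∈ (Ideal.span {(p : R)}).minimalPrimes,
    ConjFact X p Q

/-- The vectors of the dual of `H` obtained from the annihilator of `F` by the dual connection. -/
inductive Word (X : DeRham R K g J I) : (Ix g → R) → Prop
  | base (i : Fin g) : Word X (Pi.single (Sum.inr i) 1)
  | step (j : J) (w : Ix g → R) : Word X w →
      Word X (fun a => X.D j (w a) - ∑ b, X.A j b a * w b)

section general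

variable {S : Type*} [CommRing S]

lemma sum_split (f : Ix g → S) : ∑ a, f a = ∑ i, f (Sum.inl i) + ∑ i, f (Sum.inr i) :=
  Fintype.sum_sum_type f

/-- the Leibniz rule for the dual connection -/
lemma dual_rule (δ : Derivation ℤ S S) (A : Matrix (Ix g) (Ix g) S) (w x : Ix g → S) :
    ∑ a, (δ (w a) - ∑ b, A b a * w b) * x a = δ (∑ a, w a * x a) - ∑ a, w a * nabla δ A x a := by
  have h1 : ∑ a, (∑ b, A b a * w b) * x a = ∑ a, w a * ∑ b, A a b * x b := by
    simp_rw [Finset.sum_mul, Finset.mul_sum]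
    rw [Finset.sum_comm]
    refine Finset.sum_congr rfl fun a _ => Finset.sum_congr rfl fun b _ => ?_
    ring
  have h2 : δ (∑ a, w a * x a) = ∑ a, (w a * δ (x a) + x a * δ (w a)) := by
    rw [map_sum]
    refine Finset.sum_congr rfl fun a _ => ?_
    rw [Derivation.leibniz]
    simp [smul_eq_mul]
  simp_rw [sub_mul, Finset.sum_sub_distrib, h1, h2, nabla, mul_add, Finset.sum_add_distrib]
  have h3 : ∑ a, δ (w a) * x a = ∑ a, x a * δ (w a) :=
    Finset.sum_congr rfl fun a _ => mul_comm _ _
  rw [h3]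
  ring

end general

section charp

variable (X : DeRham R K g J I)

omit [Algebra R K] in
/-- For `x` in the Hodge filtration the pairing of `∇ x` with `e_i` is given by the Kodaira-Spencer
matrix. -/
lemma pair_nabla {κ : Type*} [Field κ] (φ : R →+* κ) (hX : ∀ i l, X.P (Sum.inl i) (Sum.inl l) = 0)
    (δ : Derivation ℤ κ κ) (j : J) (x : Ix g → κ) (hx : InHodge x) (i : Fin g) :
    ∑ a, nabla δ ((X.A j).map φ) x a * φ (X.P a (Sum.inl i)) =
      ∑ l, x (Sum.inl l) * φ (X.ks j l i) := by
  have h1 : ∑ a, δ (x a) * φ (X.P a (Sum.inl i)) = 0 := by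
    rw [sum_split]
    have e1 : ∑ l, δ (x (Sum.inl l)) * φ (X.P (Sum.inl l) (Sum.inl i)) = 0 :=
      Finset.sum_eq_zero fun l _ => by rw [hX, map_zero, mul_zero]
    have e2 : ∑ l, δ (x (Sum.inr l)) * φ (X.P (Sum.inr l) (Sum.inl i)) = 0 :=
      Finset.sum_eq_zero fun l _ => by rw [hx l, map_zero, zero_mul]
    rw [e1, e2, add_zero]
  have h2 : ∑ a, (∑ b, φ (X.A j a b) * x b) * φ (X.P a (Sum.inl i)) =
      ∑ l, x (Sum.inl l) * φ (X.ks j l i) := by
    have e1 : ∀ a, ∑ b, φ (X.A j a b) * x b = ∑ l, φ (X.A j a (Sum.inl l)) * x (Sum.inl l) := by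
      intro a
      rw [sum_split]
      have : ∑ l, φ (X.A j a (Sum.inr l)) * x (Sum.inr l) = 0 :=
        Finset.sum_eq_zero fun l _ => by rw [hx l, mul_zero]
      rw [this, add_zero]
    simp_rw [e1, DeRham.ks, map_sum, Finset.mul_sum, Finset.sum_mul]
    rw [Finset.sum_comm]
    refine Finset.sum_congr rfl fun l _ => Finset.sum_congr rfl fun a _ => ?_
    rw [map_mul]; ring
  simp only [nabla, Matrix.map_apply, add_mul, Finset.sum_add_distrib]
  rw [h1, zero_add, h2]

omit [Algebra R K] in
/-- The core of the proof: the intersection of the Hodge and the conjugate filtration is zero. -/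
lemma core [Fintype I] {κ : Type*} [Field κ] (φ : R →+* κ)
    (hX : ∀ i l, X.P (Sum.inl i) (Sum.inl l) = 0)
    (hsum : ∀ a b, ∑ t, X.e t a b = if a = b then 1 else 0)
    (hhod : ∀ t i l, X.e t (Sum.inr i) (Sum.inl l) = 0)
    (hnd : φ ((Matrix.of fun m i => X.P (Sum.inr m) (Sum.inl i)).det) ≠ 0)
    (δ : J → Derivation ℤ κ κ) (hδ : ∀ j r, δ j (φ r) = φ (X.D j r))
    (C : Submodule κ (Ix g → κ)) (hiso : ∀ x ∈ C, ∀ y ∈ C, pair (X.P.map φ) x y = 0)
    (hst : ∀ j, ∀ x ∈ C, nabla (δ j) ((X.A j).map φ) x ∈ C)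
    (hse : ∀ t, ∀ x ∈ C, ((X.e t).map φ) *ᵥ x ∈ C)
    -- the condition on the Kodaira-Spencer maps
    (hks : ∀ t, ∀ x z : Fin g → κ, (∀ l, z l = ∑ m, φ (X.e t (Sum.inl l) (Sum.inl m)) * x m) →
      (∀ j, ∑ i, ∑ l, z l * φ (X.ks j l i) * z i = 0) → ∀ j i, ∑ l, z l * φ (X.ks j l i) = 0)
    -- the certificate
    (hcert : ∀ a, ∃ c : R, φ c ≠ 0 ∧
      (fun b => if b = a then c else 0) ∈ Submodule.span R {w | Word X w}) :
    ∀ x ∈ C, InHodge x → x = 0 := by
  classical
  -- step 1a: `∇` maps `C ∩ F` to `F`, for one component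
  have key1 : ∀ x ∈ C, InHodge x → ∀ t j,
      InHodge (nabla (δ j) ((X.A j).map φ) (((X.e t).map φ) *ᵥ x)) := by
    intro x0 hx0C hx0 t j
    obtain ⟨x, hxdef⟩ : ∃ x, x = ((X.e t).map φ) *ᵥ x0 := ⟨_, rfl⟩
    have hxC : x ∈ C := hxdef ▸ hse t x0 hx0C
    have hxa : ∀ a, x a = ∑ m, φ (X.e t a (Sum.inl m)) * x0 (Sum.inl m) := by
      intro a
      rw [hxdef]
      change ∑ b, φ (X.e t a b) * x0 b = _
      rw [sum_split]
      have : ∑ l, φ (X.e t a (Sum.inr l)) * x0 (Sum.inr l) = 0 :=
        Finset.sum_eq_zero fun l _ => by rw [hx0 l, mul_zero]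
      rw [this, add_zero]
    have hx : InHodge x := by
      intro i
      rw [hxa]
      exact Finset.sum_eq_zero fun m _ => by rw [hhod, map_zero, zero_mul]
    rw [← hxdef]
    have hQ : ∀ j, ∑ i, ∑ l, x (Sum.inl l) * φ (X.ks j l i) * x (Sum.inl i) = 0 := by
      intro j
      have h1 := hiso _ (hst j x hxC) x hxC
      unfold pair at h1
      rw [Finset.sum_comm, sum_split] at h1
      have e2 : ∑ b, ∑ a, nabla (δ j) ((X.A j).map φ) x a * (X.P.map φ) a (Sum.inr b) *
          x (Sum.inr b) = 0 :=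
        Finset.sum_eq_zero fun b _ => Finset.sum_eq_zero fun a _ => by rw [hx b, mul_zero]
      rw [e2, add_zero] at h1
      rw [← h1]
      refine Finset.sum_congr rfl fun i _ => ?_
      rw [← Finset.sum_mul, ← Finset.sum_mul, ← pair_nabla X φ hX (δ j) j x hx i]
      rfl
    have hL := hks t (fun m => x0 (Sum.inl m)) (fun l => x (Sum.inl l))
      (fun l => hxa (Sum.inl l)) hQ j
    -- the vector `y = ∇ x` is orthogonal to `F`
    set y := nabla (δ j) ((X.A j).map φ) x with hy
    have h3 : ∀ i, ∑ m, y (Sum.inr m) * φ (X.P (Sum.inr m) (Sum.inl i)) = 0 := by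
      intro i
      have h4 := pair_nabla X φ hX (δ j) j x hx i
      rw [hL i, ← hy, sum_split] at h4
      have e1 : ∑ l, y (Sum.inl l) * φ (X.P (Sum.inl l) (Sum.inl i)) = 0 :=
        Finset.sum_eq_zero fun l _ => by rw [hX, map_zero, mul_zero]
      rwa [e1, zero_add] at h4
    have h5 : (fun m => y (Sum.inr m)) ᵥ*
        ((Matrix.of fun m i => X.P (Sum.inr m) (Sum.inl i)).map φ) = 0 := by
      ext i
      exact h3 i
    have h6 : ((Matrix.of fun m i => X.P (Sum.inr m) (Sum.inl i)).map φ).det ≠ 0 := by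
      rwa [← RingHom.mapMatrix_apply, ← RingHom.map_det]
    have h7 := Matrix.eq_zero_of_vecMul_eq_zero h6 h5
    intro i
    exact congrFun h7 i
  -- step 1b: the sum of the components
  have key : ∀ x ∈ C, InHodge x → ∀ j, InHodge (nabla (δ j) ((X.A j).map φ) x) := by
    intro x hxC hx j i
    have hxs : ∀ a, x a = ∑ t, (((X.e t).map φ) *ᵥ x) a := by
      intro a
      have e1 : ∀ t, (((X.e t).map φ) *ᵥ x) a = ∑ b, φ (X.e t a b) * x b := fun t => rfl
      simp_rw [e1]
      rw [Finset.sum_comm]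
      have e2 : ∀ b, ∑ t, φ (X.e t a b) * x b = (if a = b then 1 else 0) * x b := by
        intro b
        rw [← Finset.sum_mul, ← map_sum, hsum]
        split_ifs <;> simp
      simp_rw [e2]
      simp
    have h1 : nabla (δ j) ((X.A j).map φ) x (Sum.inr i) =
        ∑ t, nabla (δ j) ((X.A j).map φ) (((X.e t).map φ) *ᵥ x) (Sum.inr i) := by
      unfold nabla
      rw [Finset.sum_add_distrib, ← map_sum, ← hxs, Finset.sum_comm]
      congr 1
      refine Finset.sum_congr rfl fun b _ => ?_
      rw [← Finset.mul_sum, ← hxs]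
    rw [h1]
    exact Finset.sum_eq_zero fun t _ => key1 x hxC hx t j i
  -- step 2: the words vanish on `C ∩ F`
  have hw : ∀ w, Word X w → ∀ x ∈ C, InHodge x → ∑ a, φ (w a) * x a = 0 := by
    intro w hw
    induction hw with
    | base i =>
      intro x _ hx
      rw [Finset.sum_eq_single (Sum.inr i)]
      · rw [hx i, mul_zero]
      · intro b _ hb
        rw [Pi.single_eq_of_ne hb, map_zero, zero_mul]
      · intro h; exact absurd (Finset.mem_univ _) h
    | step j w _ ih =>
      intro x hxC hx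
      have h1 := dual_rule (δ j) ((X.A j).map φ) (fun a => φ (w a)) x
      rw [ih x hxC hx, map_zero, ih _ (hst j x hxC) (key x hxC hx j), sub_zero] at h1
      rw [← h1]
      refine Finset.sum_congr rfl fun a _ => ?_
      congr 1
      rw [map_sub, map_sum, hδ]
      congr 1
      refine Finset.sum_congr rfl fun b _ => ?_
      rw [map_mul]; rfl
  -- step 3: the certificate
  intro x hxC hx
  have hspan : ∀ w ∈ Submodule.span R {w | Word X w}, ∑ a, φ (w a) * x a = 0 := by
    intro w hw'
    induction hw' using Submodule.span_induction with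
    | mem w h => exact hw w h x hxC hx
    | zero => simp
    | add u v _ _ hu hv =>
      simp only [Pi.add_apply, map_add, add_mul, Finset.sum_add_distrib]
      rw [hu, hv, add_zero]
    | smul r u _ hu =>
      simp only [Pi.smul_apply, smul_eq_mul, map_mul, mul_assoc, ← Finset.mul_sum]
      rw [hu, mul_zero]
  ext a
  obtain ⟨c, hc, hcw⟩ := hcert a
  have h1 := hspan _ hcw
  rw [Finset.sum_eq_single a] at h1
  · rw [if_pos rfl] at h1
    exact (mul_eq_zero.1 h1).resolve_left hc
  · intro b _ hb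
    rw [if_neg hb, map_zero, zero_mul]
  · intro h; exact absurd (Finset.mem_univ _) h

end charp


/-- No nonzero `K`-subspace of `F = H^0(X, Ω^1)` is stable under all `∇_j`. For example this holds if
`H` is irreducible as a module with connection; it fails if `X` has a nonzero abelian subvariety that is
constant in the directions `D_j`. -/
def DeRham.NoHorizontal (X : DeRham R K g J I) : Prop :=
  ∀ W : Submodule K (Ix g → K), (∀ x ∈ W, InHodge x) →
    (∀ j, ∀ x ∈ W, nabla (X.DK j) ((X.A j).map (algebraMap R K)) x ∈ W) → W = ⊥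

/-- For each `t` every common zero `x = e_t y` in `e_t F`, over the algebraic closure of `K`, of the second
fundamental forms `x ↦ ⟨∇_j x, x⟩` on `F = H^0(X, Ω^1)` is in the kernel of all Kodaira-Spencer maps: `⟨∇_j x, e_i⟩ = 0`
for all `i`, `j` (that is, `∇_j x ∈ F`). For example the forms have no common zero but `x = 0`. -/
def DeRham.KSCondition (X : DeRham R K g J I) : Prop :=
  ∀ t, ∀ y x : Fin g → AlgebraicClosure K,
    (∀ l, x l = ∑ m, algebraMap K _ (algebraMap R K (X.e t (Sum.inl l) (Sum.inl m))) * y m) →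
    (∀ j, ∑ i, ∑ l, x l * algebraMap K _ (algebraMap R K (X.ks j l i)) * x i = 0) →
      ∀ j i, ∑ l, x l * algebraMap K _ (algebraMap R K (X.ks j l i)) = 0

/-- The Kodaira-Spencer maps `F → H / F` of all the `D_j` have rank at most one. -/
def DeRham.RankOne (X : DeRham R K g J I) : Prop :=
  ∀ j l i l' i', X.ks j l i * X.ks j l' i' = X.ks j l i' * X.ks j l' i

section cert

variable [IsDomain R] [IsFractionRing R K] (X : DeRham R K g J I)

lemma clear_denominators (T : Set (Ix g → R)) (y : Ix g → K)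
    (hy : y ∈ Submodule.span K ((fun w a => algebraMap R K (w a)) '' T)) :
    ∃ c : R, c ≠ 0 ∧ ∃ u ∈ Submodule.span R T, ∀ b, algebraMap R K (u b) =
      algebraMap R K c * y b := by
  induction hy using Submodule.span_induction with
  | mem w h =>
    obtain ⟨v, hv, rfl⟩ := h
    exact ⟨1, one_ne_zero, v, Submodule.subset_span hv, fun b => by simp⟩
  | zero => exact ⟨1, one_ne_zero, 0, Submodule.zero_mem _, fun b => by simp⟩
  | add u v _ _ hu hv =>
    obtain ⟨c1, h1, u1, hu1, e1⟩ := hu
    obtain ⟨c2, h2, u2, hu2, e2⟩ := hv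
    refine ⟨c1 * c2, mul_ne_zero h1 h2, c2 • u1 + c1 • u2,
      Submodule.add_mem _ (Submodule.smul_mem _ _ hu1) (Submodule.smul_mem _ _ hu2), fun b => ?_⟩
    simp only [Pi.add_apply, Pi.smul_apply, smul_eq_mul, map_add, map_mul, e1, e2]
    ring
  | smul k u _ hu =>
    obtain ⟨c1, h1, u1, hu1, e1⟩ := hu
    obtain ⟨r, s, hs, hrs⟩ := IsFractionRing.div_surjective (A := R) k
    have hs0 : s ≠ 0 := nonZeroDivisors.ne_zero hs
    have hsK : algebraMap R K s ≠ 0 := by
      rwa [map_ne_zero_iff _ (IsFractionRing.injective R K)]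
    refine ⟨s * c1, mul_ne_zero hs0 h1, r • u1, Submodule.smul_mem _ _ hu1, fun b => ?_⟩
    simp only [Pi.smul_apply, smul_eq_mul, map_mul, e1]
    rw [← hrs]
    field_simp

lemma span_words [Fintype I] (hX : X.IsAbelian) (h : X.NoHorizontal) :
    Submodule.span K ((fun w a => algebraMap R K (w a)) '' {w | Word X w}) = ⊤ := by
  classical
  set φ := algebraMap R K with hφ
  let W : Submodule K (Ix g → K) :=
    { carrier := {x | ∀ w, Word X w → ∑ a, φ (w a) * x a = 0}
      add_mem' := by
        intro x y hx hy w hw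
        simp only [Pi.add_apply, mul_add, Finset.sum_add_distrib]
        rw [hx w hw, hy w hw, add_zero]
      zero_mem' := by intro w _; simp
      smul_mem' := by
        intro r x hx w hw
        simp only [Pi.smul_apply, smul_eq_mul]
        have : ∑ a, φ (w a) * (r * x a) = r * ∑ a, φ (w a) * x a := by
          rw [Finset.mul_sum]
          exact Finset.sum_congr rfl fun a _ => by ring
        rw [this, hx w hw, mul_zero] }
  have hW : W = ⊥ := by
    apply h
    · intro x hx i
      have h1 := hx _ (Word.base i)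
      rw [Finset.sum_eq_single (Sum.inr i)] at h1
      · simpa using h1
      · intro b _ hb
        rw [Pi.single_eq_of_ne hb, map_zero, zero_mul]
      · intro h; exact absurd (Finset.mem_univ _) h
    · intro j x hx w hw
      have h1 := dual_rule (X.DK j) ((X.A j).map φ) (fun a => φ (w a)) x
      rw [hx w hw, map_zero, zero_sub] at h1
      have h2 : ∑ a, (X.DK j (φ (w a)) - ∑ b, ((X.A j).map φ) b a * φ (w b)) * x a = 0 := by
        rw [← hx _ (Word.step j w hw)]
        refine Finset.sum_congr rfl fun a _ => ?_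
        congr 1
        rw [map_sub, map_sum, hX.ext]
        congr 1
        refine Finset.sum_congr rfl fun b _ => ?_
        rw [map_mul]; rfl
      rw [h2] at h1
      exact neg_eq_zero.1 h1.symm
  by_contra hne
  obtain ⟨f, hf0, hf⟩ := Submodule.exists_le_ker_of_lt_top _ (lt_top_iff_ne_top.2 hne)
  apply hf0
  have hx : (fun a => f (Pi.single a 1)) ∈ W := by
    intro w hw
    have h1 : f (fun a => φ (w a)) = 0 := hf (Submodule.subset_span ⟨w, hw, rfl⟩)
    rw [LinearMap.pi_apply_eq_sum_univ f (fun a => φ (w a))] at h1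
    rw [← h1]
    refine Finset.sum_congr rfl fun a _ => ?_
    rw [smul_eq_mul]
    have e : (Pi.single a 1 : Ix g → K) = fun b => if a = b then 1 else 0 := by
      funext b
      rw [Pi.single_apply]
      simp [eq_comm]
    change φ (w a) * f (Pi.single a 1) = _
    rw [e]
  rw [hW, Submodule.mem_bot] at hx
  ext a
  simpa using congrFun hx a

lemma cert [Fintype I] (hX : X.IsAbelian) (h : X.NoHorizontal) (a : Ix g) :
    ∃ c : R, c ≠ 0 ∧ (fun b => if b = a then c else 0) ∈ Submodule.span R {w | Word X w} := by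
  classical
  obtain ⟨c, hc, u, hu, e⟩ := clear_denominators (K := K) {w | Word X w} (Pi.single a 1)
    (by rw [span_words X hX h]; trivial)
  refine ⟨c, hc, ?_⟩
  have : (fun b => if b = a then c else 0) = u := by
    ext b
    apply IsFractionRing.injective R K
    rw [e b, Pi.single_apply]
    split_ifs <;> simp
  rw [this]
  exact hu

/-- the coordinates of `e_t x` -/
noncomputable def coordForm (t : I) (l : Fin g) : MvPolynomial (Fin g) R :=
  ∑ m, MvPolynomial.C (X.e t (Sum.inl l) (Sum.inl m)) * MvPolynomial.X m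

/-- the linear forms `⟨∇_j e_t x, e_i⟩` -/
noncomputable def linForm (t : I) (j : J) (i : Fin g) : MvPolynomial (Fin g) R :=
  ∑ l, coordForm X t l * MvPolynomial.C (X.ks j l i)

/-- the quadratic forms `⟨∇_j e_t x, e_t x⟩` -/
noncomputable def quadForm (t : I) (j : J) : MvPolynomial (Fin g) R :=
  ∑ i, ∑ l, coordForm X t l * MvPolynomial.C (X.ks j l i) * coordForm X t i

omit [Algebra R K] [IsDomain R] [IsFractionRing R K] in
lemma eval_coord {S : Type*} [CommRing S] (φ : R →+* S) (x : Fin g → S) (t : I) (l : Fin g) :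
    MvPolynomial.eval₂ φ x (coordForm X t l) =
      ∑ m, φ (X.e t (Sum.inl l) (Sum.inl m)) * x m := by
  unfold coordForm
  simp [MvPolynomial.eval₂_sum, MvPolynomial.eval₂_mul]

omit [Algebra R K] [IsDomain R] [IsFractionRing R K] in
lemma eval_lin {S : Type*} [CommRing S] (φ : R →+* S) (x z : Fin g → S) (t : I)
    (hz : ∀ l, z l = ∑ m, φ (X.e t (Sum.inl l) (Sum.inl m)) * x m) (j : J) (i : Fin g) :
    MvPolynomial.eval₂ φ x (linForm X t j i) = ∑ l, z l * φ (X.ks j l i) := by
  unfold linForm
  simp only [MvPolynomial.eval₂_sum, MvPolynomial.eval₂_mul, eval_coord, ← hz,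
    MvPolynomial.eval₂_C]

omit [Algebra R K] [IsDomain R] [IsFractionRing R K] in
lemma eval_quad {S : Type*} [CommRing S] (φ : R →+* S) (x z : Fin g → S) (t : I)
    (hz : ∀ l, z l = ∑ m, φ (X.e t (Sum.inl l) (Sum.inl m)) * x m) (j : J) :
    MvPolynomial.eval₂ φ x (quadForm X t j) = ∑ i, ∑ l, z l * φ (X.ks j l i) * z i := by
  unfold quadForm
  simp only [MvPolynomial.eval₂_sum, MvPolynomial.eval₂_mul, eval_coord, ← hz,
    MvPolynomial.eval₂_C]

attribute [local instance] MvPolynomial.algebraMvPolynomial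

lemma cert_ks (h : X.KSCondition) (t : I) (j : J) (i : Fin g) :
    ∃ c : R, c ≠ 0 ∧ ∃ N : ℕ, linForm X t j i ^ N * MvPolynomial.C c ∈
      Ideal.span (Set.range (quadForm X t)) := by
  classical
  set I : Ideal (MvPolynomial (Fin g) R) := Ideal.span (Set.range (quadForm X t)) with hI
  set IK : Ideal (MvPolynomial (Fin g) K) := I.map (algebraMap _ _) with hIK
  have hmem : algebraMap (MvPolynomial (Fin g) R) (MvPolynomial (Fin g) K) (linForm X t j i) ∈
      IK.radical := by
    rw [← MvPolynomial.vanishingIdeal_zeroLocus_eq_radical (K := AlgebraicClosure K) IK,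
      MvPolynomial.mem_vanishingIdeal_iff]
    intro x hx
    have hx' : ∀ P ∈ IK, MvPolynomial.aeval x P = 0 := fun P hP => hx P hP
    have e1 : ∀ P : MvPolynomial (Fin g) R, MvPolynomial.aeval x
        (algebraMap (MvPolynomial (Fin g) R) (MvPolynomial (Fin g) K) P) =
        MvPolynomial.eval₂ ((algebraMap K (AlgebraicClosure K)).comp (algebraMap R K)) x P := by
      intro P
      rw [MvPolynomial.algebraMap_def, MvPolynomial.aeval_def, MvPolynomial.eval₂_map]
    rw [e1, eval_lin X _ x _ t (fun l => rfl)]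
    refine h t x _ (fun l => rfl) ?_ j i
    intro j'
    have h2 := hx' _ (Ideal.mem_map_of_mem (algebraMap _ _)
      (Ideal.subset_span (Set.mem_range_self j') : quadForm X t j' ∈ I))
    rw [e1, eval_quad X _ x _ t (fun l => rfl)] at h2
    exact h2
  obtain ⟨N, hN⟩ := hmem
  rw [hIK, IsLocalization.mem_map_algebraMap_iff
    ((nonZeroDivisors R).map (MvPolynomial.C (σ := Fin g))) (MvPolynomial (Fin g) K)] at hN
  obtain ⟨⟨⟨a, ha⟩, ⟨s, hs⟩⟩, he⟩ := hN
  obtain ⟨c, hc, rfl⟩ := hs
  refine ⟨c, nonZeroDivisors.ne_zero hc, N, ?_⟩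
  have hinj : Function.Injective
      (algebraMap (MvPolynomial (Fin g) R) (MvPolynomial (Fin g) K)) := by
    rw [MvPolynomial.algebraMap_def]
    exact MvPolynomial.map_injective _ (IsFractionRing.injective R K)
  have h3 : linForm X t j i ^ N * MvPolynomial.C c = a := by
    apply hinj
    rw [map_mul, map_pow]
    exact he
  rw [h3]
  exact ha

omit [Algebra R K] [IsDomain R] [IsFractionRing R K] in
lemma ks_of_cert {κ : Type*} [Field κ] (φ : R →+* κ) (t : I) (j : J) (i : Fin g) (c : R)
    (hc : φ c ≠ 0) (N : ℕ)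
    (h : linForm X t j i ^ N * MvPolynomial.C c ∈ Ideal.span (Set.range (quadForm X t)))
    (x z : Fin g → κ) (hz : ∀ l, z l = ∑ m, φ (X.e t (Sum.inl l) (Sum.inl m)) * x m)
    (hx : ∀ j, ∑ i, ∑ l, z l * φ (X.ks j l i) * z i = 0) :
    ∑ l, z l * φ (X.ks j l i) = 0 := by
  have h1 : ∀ P ∈ Ideal.span (Set.range (quadForm X t)), MvPolynomial.eval₂Hom φ x P = 0 := by
    intro P hP
    have h2 : Ideal.span (Set.range (quadForm X t)) ≤
        RingHom.ker (MvPolynomial.eval₂Hom φ x) := by
      rw [Ideal.span_le]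
      rintro _ ⟨j', rfl⟩
      have := hx j'
      rw [← eval_quad X φ x z t hz] at this
      exact this
    exact h2 hP
  have h3 := h1 _ h
  rw [map_mul, map_pow] at h3
  have h4 : MvPolynomial.eval₂Hom φ x (MvPolynomial.C c) = φ c := by simp
  have h5 : MvPolynomial.eval₂Hom φ x (linForm X t j i) = ∑ l, z l * φ (X.ks j l i) :=
    eval_lin X φ x z t hz j i
  rw [h4, h5] at h3
  have h6 := (mul_eq_zero.1 h3).resolve_right hc
  by_contra hne
  exact pow_ne_zero N hne h6

end cert

section rankone

variable (X : DeRham R K g J I)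

lemma ks_symm [Fintype I] (hX : X.IsAbelian) (j : J) (l i : Fin g) : X.ks j l i = X.ks j i l := by
  have h1 := hX.horizontal j (Sum.inl l) (Sum.inl i)
  rw [hX.isotropic, map_zero] at h1
  have h2 : ∑ c, X.P (Sum.inl l) c * X.A j c (Sum.inl i) = - X.ks j i l := by
    unfold DeRham.ks
    rw [← Finset.sum_neg_distrib]
    refine Finset.sum_congr rfl fun c _ => ?_
    rw [hX.anti]; ring
  rw [h2] at h1
  have h3 : X.ks j l i + - X.ks j i l = 0 := h1.symm
  linear_combination h3

lemma ks_of_rankOne [Fintype I] (hX : X.IsAbelian) (h : X.RankOne) {κ : Type*} [Field κ] (φ : R →+* κ)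
    (x : Fin g → κ) (hx : ∀ j, ∑ i, ∑ l, x l * φ (X.ks j l i) * x i = 0) (j : J) (i : Fin g) :
    ∑ l, x l * φ (X.ks j l i) = 0 := by
  have h1 : (∑ l, x l * φ (X.ks j l i)) * (∑ l, x l * φ (X.ks j l i)) =
      φ (X.ks j i i) * ∑ i, ∑ l, x l * φ (X.ks j l i) * x i := by
    rw [Finset.sum_mul_sum, Finset.mul_sum, Finset.sum_comm]
    refine Finset.sum_congr rfl fun m _ => ?_
    rw [Finset.mul_sum]
    refine Finset.sum_congr rfl fun l _ => ?_
    have e1 : X.ks j l i * X.ks j m i = X.ks j i i * X.ks j l m := by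
      rw [ks_symm X hX j m i, h j l i i m, mul_comm]
    have e2 : φ (X.ks j l i) * φ (X.ks j m i) = φ (X.ks j i i) * φ (X.ks j l m) := by
      rw [← map_mul, e1, map_mul]
    calc x l * φ (X.ks j l i) * (x m * φ (X.ks j m i))
        = x l * x m * (φ (X.ks j l i) * φ (X.ks j m i)) := by ring
      _ = φ (X.ks j i i) * (x l * φ (X.ks j l m) * x m) := by rw [e2]; ring
  rw [hx j, mul_zero] at h1
  exact mul_self_eq_zero.1 h1

theorem ksCondition_of_rankOne [Fintype I] (hX : X.IsAbelian) (h : X.RankOne) : X.KSCondition :=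
  fun _ _ x _ hx j i =>
    ks_of_rankOne X hX h ((algebraMap K (AlgebraicClosure K)).comp (algebraMap R K)) x hx j i

/-- `X` has real multiplication by a totally real field of degree `g = dim X` all embeddings of which are
in `K`: the `e_t`, `1 ≤ t ≤ g`, are the projectors to the eigenspaces, they are horizontal and symmetric
for the Rosati involution, and `F` is the sum of the lines `e_t F`, spanned by the basis vectors. -/
structure DeRham.HasRM (X : DeRham R K g J (Fin g)) : Prop where
  line : ∀ t l m, X.e t (Sum.inl l) (Sum.inl m) = if l = t ∧ m = t then 1 else 0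
  symm : ∀ t a b, ∑ c, X.e t c a * X.P c b = ∑ c, X.P a c * X.e t c b
  horiz : ∀ t j a b, X.D j (X.e t a b) + ∑ c, X.A j a c * X.e t c b =
    ∑ c, X.e t a c * X.A j c b

/-- with real multiplication the second fundamental forms are diagonal -/
lemma ks_diag (X : DeRham R K g J (Fin g)) (hX : X.IsAbelian) (h : X.HasRM) (j : J) (l i : Fin g)
    (hli : l ≠ i) : X.ks j l i = 0 := by
  classical
  -- `⟨∇ e_l, e_i⟩ = ⟨∇ (e_l e_l), e_i⟩ = ⟨e_l ∇ e_l, e_i⟩ = ⟨∇ e_l, e_l e_i⟩ = 0`
  have hcol : ∀ t a m, X.e t a (Sum.inl m) = if a = Sum.inl t ∧ m = t then 1 else 0 := by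
    intro t a m
    rcases a with a | a
    · rw [h.line]; simp
    · rw [hX.e_hodge]; simp
  -- the horizontality in the column `e_l`
  have h1 : ∀ a, X.A j a (Sum.inl l) = ∑ c, X.e l a c * X.A j c (Sum.inl l) := by
    intro a
    rw [← h.horiz l j a (Sum.inl l), hcol]
    have e1 : X.D j (if a = Sum.inl l ∧ l = l then (1 : R) else 0) = 0 := by
      split_ifs
      · exact Derivation.map_one_eq_zero _
      · exact map_zero _
    rw [e1, zero_add, Finset.sum_eq_single (Sum.inl l)]
    · rw [hcol]; simp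
    · intro b _ hb
      rw [hcol, if_neg (fun h => hb h.1), mul_zero]
    · intro h; exact absurd (Finset.mem_univ _) h
  have h2 : X.ks j l i = ∑ c, X.A j c (Sum.inl l) * ∑ a, X.e l a c * X.P a (Sum.inl i) := by
    unfold DeRham.ks
    calc ∑ a, X.A j a (Sum.inl l) * X.P a (Sum.inl i)
        = ∑ a, (∑ c, X.e l a c * X.A j c (Sum.inl l)) * X.P a (Sum.inl i) :=
          Finset.sum_congr rfl fun a _ => by rw [← h1 a]
      _ = ∑ c, X.A j c (Sum.inl l) * ∑ a, X.e l a c * X.P a (Sum.inl i) := by
          simp_rw [Finset.sum_mul, Finset.mul_sum]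
          rw [Finset.sum_comm]
          refine Finset.sum_congr rfl fun c _ => Finset.sum_congr rfl fun a _ => ?_
          ring
  rw [h2]
  refine Finset.sum_eq_zero fun c _ => ?_
  rw [h.symm l c (Sum.inl i)]
  have h3 : ∑ b, X.P c b * X.e l b (Sum.inl i) = 0 := by
    refine Finset.sum_eq_zero fun b _ => ?_
    rw [hcol, if_neg (fun h => hli h.2.symm), mul_zero]
  rw [h3, mul_zero]

end rankone

section main

variable [IsDomain R] [CharZero R] [Algebra.FiniteType ℤ R] [IsFractionRing R K] [Fintype J]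
  [Fintype I] (X : DeRham R K g J I)

open Pool.Agent.Y162.HW in
theorem main_min (hX : X.IsAbelian) (h1 : X.NoHorizontal) (h2 : X.KSCondition) :
    ∃ N : ℕ, ∀ p : ℕ, N ≤ p → p.Prime → ∀ Q ∈ (Ideal.span {(p : R)}).minimalPrimes,
      X.hw p ∉ Q := by
  classical
  have hNoeth : IsNoetherianRing R := Algebra.FiniteType.isNoetherianRing ℤ R
  obtain ⟨p₀, hp₀⟩ := hX.conj
  -- the elements which must not vanish
  choose c hc hcs using fun a => cert X hX h1 a
  obtain ⟨d, hd0, hd⟩ : ∃ d : R, d ≠ 0 ∧ ∀ (κ : Type u) [Field κ] (φ : R →+* κ), φ d ≠ 0 →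
      ∀ t, ∀ x z : Fin g → κ, (∀ l, z l = ∑ m, φ (X.e t (Sum.inl l) (Sum.inl m)) * x m) →
        (∀ j, ∑ i, ∑ l, z l * φ (X.ks j l i) * z i = 0) →
        ∀ j i, ∑ l, z l * φ (X.ks j l i) = 0 := by
    choose e he N hN using fun t j i => cert_ks X h2 t j i
    refine ⟨∏ t, ∏ j, ∏ i, e t j i, Finset.prod_ne_zero_iff.2 fun t _ =>
      Finset.prod_ne_zero_iff.2 fun j _ => Finset.prod_ne_zero_iff.2 fun i _ => he t j i, ?_⟩
    intro κ _ φ hφ t x z hz hx j i
    refine ks_of_cert X φ t j i (e t j i) ?_ (N t j i) (hN t j i) x z hz hx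
    rw [map_prod, Finset.prod_ne_zero_iff] at hφ
    have h3 := hφ t (Finset.mem_univ _)
    rw [map_prod, Finset.prod_ne_zero_iff] at h3
    have h4 := h3 j (Finset.mem_univ _)
    rw [map_prod, Finset.prod_ne_zero_iff] at h4
    exact h4 i (Finset.mem_univ _)
  set dd : R := (Matrix.of fun m i => X.P (Sum.inr m) (Sum.inl i)).det with hdd
  obtain ⟨N1, hN1⟩ := large_primes ((∏ a, c a) * (d * dd))
    (mul_ne_zero (Finset.prod_ne_zero_iff.2 fun a _ => hc a) (mul_ne_zero hd0 hX.nondeg))
  refine ⟨max N1 p₀, fun p hp hpp Q hQ => ?_⟩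
  have hQp : Q.IsPrime := hQ.1.1
  have hnot := hN1 p ((le_max_left _ _).trans hp) hpp Q hQ
  obtain ⟨κ, _, φ, δ, C, hker, hδ, hiso, hst, hse, hord⟩ := hp₀ p ((le_max_right _ _).trans hp) hpp Q hQ
  have hne : φ ((∏ a, c a) * (d * dd)) ≠ 0 := by
    intro h
    exact hnot (hker ▸ (RingHom.mem_ker.2 h))
  rw [map_mul, map_mul, map_prod] at hne
  have hne1 := left_ne_zero_of_mul hne
  have hne2 := left_ne_zero_of_mul (right_ne_zero_of_mul hne)
  have hne3 := right_ne_zero_of_mul (right_ne_zero_of_mul hne)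
  apply hord
  refine core X φ hX.isotropic hX.sum_e hX.e_hodge hne3 δ hδ C hiso hst hse (hd κ φ hne2) ?_
  intro a
  exact ⟨c a, (Finset.prod_ne_zero_iff.1 hne1) a (Finset.mem_univ _), hcs a⟩

open Pool.Agent.Y162.HW in
theorem main_closed (hX : X.IsAbelian) (h1 : X.NoHorizontal) (h2 : X.KSCondition)
    (c : R) (hc : c ≠ 0) :
    ∃ N : ℕ, ∀ p : ℕ, N ≤ p → p.Prime → ∃ M : Ideal R, M.IsMaximal ∧ (p : R) ∈ M ∧ c ∉ M ∧
      X.hw p ∉ M := by
  have hNoeth : IsNoetherianRing R := Algebra.FiniteType.isNoetherianRing ℤ R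
  have hJ : IsJacobsonRing R := by
    have := jac_int
    exact isJacobsonRing_of_finiteType (A := ℤ)
  obtain ⟨N0, hN0⟩ := main_min X hX h1 h2
  obtain ⟨N1, hN1⟩ := large_primes c hc
  obtain ⟨N2, hN2⟩ := exists_prime_over (R := R)
  refine ⟨max N0 (max N1 N2), fun p hp hpp => ?_⟩
  obtain ⟨Q', hQ', hpQ'⟩ := hN2 p ((le_max_right _ _).trans ((le_max_right _ _).trans hp)) hpp
  obtain ⟨Q, hQ, -⟩ := Ideal.exists_minimalPrimes_le
    (show Ideal.span {(p : R)} ≤ Q' by rw [Ideal.span_le]; simpa using hpQ')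
  have hQp : Q.IsPrime := hQ.1.1
  have h3 := hN0 p ((le_max_left _ _).trans hp) hpp Q hQ
  have h4 := hN1 p ((le_max_left _ _).trans ((le_max_right _ _).trans hp)) hpp Q hQ
  have hprod : c * X.hw p ∉ Q := by
    intro hm
    rcases hQp.mem_or_mem hm with h | h
    · exact h4 h
    · exact h3 h
  have hjac : Q.jacobson = Q := isJacobsonRing_iff_prime_eq.mp hJ Q hQp
  rw [← hjac, Ideal.jacobson, Submodule.mem_sInf] at hprod
  push Not at hprod
  obtain ⟨M, ⟨hQM, hM⟩, hMa⟩ := hprod
  exact ⟨M, hM, hQM (hQ.1.2 (Ideal.subset_span rfl)), fun h => hMa (Ideal.mul_mem_right _ M h),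
    fun h => hMa (Ideal.mul_mem_left M _ h)⟩

end main

/-- real multiplication: the two conditions -/
theorem rm_conditions (X : DeRham R K g J (Fin g)) [IsDomain R] [IsFractionRing R K]
    (hX : X.IsAbelian) (h : X.HasRM) (hne : ∀ i, ∃ j, X.ks j i i ≠ 0) :
    X.NoHorizontal ∧ X.KSCondition := by
  classical
  constructor
  · intro W hW hWs
    rw [eq_bot_iff]
    intro x hx
    rw [Submodule.mem_bot]
    have hxF := hW x hx
    have h0 : ∀ i, x (Sum.inl i) = 0 := by
      intro i
      obtain ⟨j, hj⟩ := hne i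
      have h1 := hW _ (hWs j x hx)
      have h2 := pair_nabla X (algebraMap R K) hX.isotropic (X.DK j) j x hxF i
      have e1 : ∑ a, nabla (X.DK j) ((X.A j).map (algebraMap R K)) x a *
          algebraMap R K (X.P a (Sum.inl i)) = 0 := by
        rw [sum_split]
        have e2 : ∀ l : Fin g, nabla (X.DK j) ((X.A j).map (algebraMap R K)) x (Sum.inl l) *
            algebraMap R K (X.P (Sum.inl l) (Sum.inl i)) = 0 := fun l => by
          rw [hX.isotropic, map_zero, mul_zero]
        have e3 : ∀ l : Fin g, nabla (X.DK j) ((X.A j).map (algebraMap R K)) x (Sum.inr l) *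
            algebraMap R K (X.P (Sum.inr l) (Sum.inl i)) = 0 := fun l => by
          rw [h1 l, zero_mul]
        simp_rw [e2, e3]
        simp
      rw [e1, Finset.sum_eq_single i] at h2
      · have h3 : algebraMap R K (X.ks j i i) ≠ 0 := by
          rwa [map_ne_zero_iff _ (IsFractionRing.injective R K)]
        exact (mul_eq_zero.1 h2.symm).resolve_right h3
      · intro l _ hl
        rw [ks_diag X hX h j l i hl, map_zero, mul_zero]
      · intro h; exact absurd (Finset.mem_univ _) h
    ext a
    rcases a with a | a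
    · exact h0 a
    · exact hxF a
  · intro t y x hxy hQ j i
    have hx0 : ∀ l, l ≠ t → x l = 0 := by
      intro l hl
      rw [hxy l]
      refine Finset.sum_eq_zero fun m _ => ?_
      rw [h.line, if_neg (fun h => hl h.1), map_zero, map_zero, zero_mul]
    rw [Finset.sum_eq_single t]
    · by_cases hti : t = i
      · subst hti
        have h1 := hQ j
        rw [Finset.sum_eq_single t, Finset.sum_eq_single t] at h1
        · rcases mul_eq_zero.1 h1 with h2 | h2
          · exact h2
          · rw [h2, zero_mul]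
        · intro l _ hl
          rw [hx0 l hl, zero_mul, zero_mul]
        · intro h; exact absurd (Finset.mem_univ _) h
        · intro l _ hl
          exact Finset.sum_eq_zero fun m _ => by rw [hx0 l hl, mul_zero]
        · intro h; exact absurd (Finset.mem_univ _) h
      · rw [ks_diag X hX h j t i hti, map_zero, map_zero, mul_zero]
    · intro l _ hl
      rw [hx0 l hl, zero_mul]
    · intro h; exact absurd (Finset.mem_univ _) h

end Pool.Agent.Y218.GM
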