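import Pool.Agent.Y218.HNDefs
import Pool.Agent.W547.UB.Tate

/-!
# The numerical Hodge standard conjecture for ordinary abelian varieties in independent blocks
-/

set_option linter.unusedSectionVars false
set_option linter.unusedVariables false

namespace Pool.Agent.Y218.HN

open NumberField Pool.Agent.H204R3.CM Pool.Agent.W547.KB Pool.Agent.W547.LD Pool.Agent.W530.NF
open Equiv Module Pool.Agent.W547 Pool.Agent.W547.HR Pool.Agent.W547.DP

noncomputable section

section sums

variable {P Q S H R : Type} [Fintype P] [DecidableEq P] [Fintype Q] [DecidableEq Q]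
  [Fintype S] [DecidableEq S] [CommRing R]

/-- An alternating sum inside an alternating sum, on the left. -/
theorem altSum_absorb_left (g : (P → H) → R) (h : (Q → H) → R) (v : P ⊕ Q → H) :
    altSum (times (altSum g) h) v = (Fintype.card (Perm P) : R) * altSum (times g h) v := by
  have h1 : ∀ τ : Perm P, ∑ σ : Perm (P ⊕ Q), ((Perm.sign σ : ℤ) : R) *
      ((((Perm.sign τ : ℤ) : R) * g (fun p => v (σ (Sum.inl (τ p))))) *
        h (fun q => v (σ (Sum.inr q)))) = altSum (times g h) v := by
    intro τ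
    unfold altSum
    refine Fintype.sum_equiv (Equiv.mulRight (Perm.sumCongr τ 1)) _ _ fun σ => ?_
    have h2 : (Equiv.mulRight (Perm.sumCongr τ 1)) σ = σ * Perm.sumCongr τ 1 := rfl
    have h3 : Perm.sign (Perm.sumCongr τ (1 : Perm Q)) = Perm.sign τ := by
      rw [Perm.sign_sumCongr, map_one, mul_one]
    rw [h2, map_mul, h3, Units.val_mul, Int.cast_mul]
    unfold times
    simp only [Perm.mul_apply, Perm.sumCongr_apply, Sum.map_inl, Sum.map_inr, Perm.coe_one, id_eq]
    ring
  have h2 : altSum (times (altSum g) h) v = ∑ τ : Perm P, ∑ σ : Perm (P ⊕ Q),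
      ((Perm.sign σ : ℤ) : R) * ((((Perm.sign τ : ℤ) : R) *
        g (fun p => v (σ (Sum.inl (τ p))))) * h (fun q => v (σ (Sum.inr q)))) := by
    rw [Finset.sum_comm]
    refine Finset.sum_congr rfl fun σ _ => ?_
    unfold times altSum
    rw [Finset.sum_mul, Finset.mul_sum]
  rw [h2, Finset.sum_congr rfl fun τ _ => h1 τ, Finset.sum_const, Finset.card_univ, nsmul_eq_mul]

theorem altSum_assoc (f : (P → H) → R) (g : (Q → H) → R) (h : (S → H) → R)
    (v : (P ⊕ Q) ⊕ S → H) : altSum (times (times f g) h) v =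
      altSum (times f (times g h)) (fun x => v ((Equiv.sumAssoc P Q S).symm x)) := by
  rw [← altSum_reindex (Equiv.sumAssoc P Q S).symm (times f (times g h)) v]
  congr 1
  funext w
  unfold times
  exact mul_assoc _ _ _

theorem altSum_times_reindex (e : S ≃ Q) (g : (P → H) → R) (h : (S → H) → R) (v : P ⊕ Q → H) :
    altSum (times g (fun u : Q → H => h (fun s => u (e s)))) v =
      altSum (times g h) (fun x => v (Equiv.sumCongr (Equiv.refl P) e x)) :=
  altSum_reindex (Equiv.sumCongr (Equiv.refl P) e) (times g h) v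

end sums

variable {X : CMAV} {K V : Type} [Field K] [CharZero K] [AddCommGroup V] [Module K V]
  {C : Comparison X K V} {F : V →ₗ[K] V} {q : ℕ}
  {A : ∀ n : ℕ, Submodule ℚ (V [⋀^Fin n × Fin 2]→ₗ[K] K)}

/-- A class in the ring, in an even number of variables, is the restriction of a class of a cycle. -/
theorem exists_cycle (hA : IsCycleSpaces C F q A) {κ' : Type} [Fintype κ'] [DecidableEq κ'] (k : ℕ)
    (hk : Fintype.card κ' = 2 * k) (h : X.H1 [⋀^κ']→ₗ[ℚ] ℚ) (hh : DWRing X κ' h) :
    ∃ (e : Fin k × Fin 2 ≃ κ') (w : V [⋀^Fin k × Fin 2]→ₗ[K] K), w ∈ A k ∧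
      ∀ u : κ' → X.H1, ((h u : ℚ) : K) = onH1 C w (fun s => u (e s)) := by
  have e : Fin k × Fin 2 ≃ κ' := Fintype.equivOfCardEq (by
    rw [Fintype.card_prod, Fintype.card_fin, Fintype.card_fin, hk, mul_comm])
  obtain ⟨w, hw⟩ := exists_ext C (h.domDomCongr e.symm)
  refine ⟨e, w, hA.ring k w _ (DWRing.reindex e.symm h hh) hw, fun u => ?_⟩
  refine Eq.trans ?_ (hw (fun s => u (e s))).symm
  rw [AlternatingMap.domDomCongr_apply]
  congr 2
  funext i
  exact congrArg u (e.apply_symm_apply i).symm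

theorem hasRationalNumbers (hA : IsCycleSpaces C F q A) {n : ℕ}
    {z : V [⋀^Fin n × Fin 2]→ₗ[K] K} (hz : z ∈ A n) : HasRationalNumbers C z := by
  intro κ' _ _ h hcard hh v
  obtain ⟨d, hd⟩ := even_finrank X
  rw [Fintype.card_prod, Fintype.card_fin, Fintype.card_fin] at hcard
  obtain ⟨e, w, hwA, hw⟩ := exists_cycle hA (d - n) (by omega) h hh
  obtain ⟨a, ha⟩ := hA.rational n (d - n) (by omega) z hz w hwA
    (fun x => v (Equiv.sumCongr (Equiv.refl _) e x))
  refine ⟨a, ?_⟩
  rw [← ha, ← altSum_times_reindex e (onH1 C z) (onH1 C w) v]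
  congr 2
  funext u
  exact hw u

theorem isPrimitive_of_num
    (hring : ∀ {κ : Type} [Finite κ] (f : X.H1 [⋀^κ]→ₗ[ℚ] ℚ), IsHodge X.per f → DWRing X κ f)
    (hA : IsCycleSpaces C F q A) {E : X.H1 → X.H1 → ℚ} (hE : IsPolarization X E) {n m : ℕ}
    (hnm : 2 * (2 * n + m) = finrank ℚ X.H1) {z : V [⋀^Fin n × Fin 2]→ₗ[K] K}
    (hgen : LN.IsGenerated C z) (hprim : NumPrimitive C A E m z) : IsPrimitive C E m z := by
  classical
  obtain ⟨f, a, ha, hf, hfv⟩ := exists_power hE (m + 1)
  obtain ⟨r, c, g, hg, hz⟩ := hgen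
  choose y hy using fun i => exists_ext C (cupAlt (g i) f)
  have hpow : ∀ k : ℕ, (powE (castE K E) k : (Fin k × Fin 2 → X.H1) → K) =
      fun u => ((powE E k u : ℚ) : K) := by
    intro k
    funext u
    exact (powE_cast (Rat.castHom K) E k u).symm
  set N : K := (a : K) * (Fintype.card (Perm (Fin (m + 1) × Fin 2)) : K) with hN
  have hN0 : N ≠ 0 := mul_ne_zero (Rat.cast_ne_zero.2 ha)
    (Nat.cast_ne_zero.2 Fintype.card_ne_zero)
  let Y : V [⋀^(Fin n × Fin 2) ⊕ (Fin (m + 1) × Fin 2)]→ₗ[K] K := ∑ i, c i • y i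
  have hY0 : ∀ v : (Fin n × Fin 2) ⊕ (Fin (m + 1) × Fin 2) → X.H1,
      onH1 C Y v = ∑ i, c i * ((cupAlt (g i) f v : ℚ) : K) := by
    intro v
    let ev : (V [⋀^(Fin n × Fin 2) ⊕ (Fin (m + 1) × Fin 2)]→ₗ[K] K) →+ K :=
      { toFun := fun t => t (fun k => C.ι (v k)), map_zero' := rfl, map_add' := fun _ _ => rfl }
    have h0 : onH1 C Y v = ∑ i, (c i • y i) (fun k => C.ι (v k)) := map_sum ev _ _
    rw [h0]
    refine Finset.sum_congr rfl fun i _ => ?_
    rw [AlternatingMap.smul_apply, hy, smul_eq_mul]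
  have hcup : ∀ i (v : (Fin n × Fin 2) ⊕ (Fin (m + 1) × Fin 2) → X.H1),
      ((cupAlt (g i) f v : ℚ) : K) =
        N * altSum (times (fun u => ((g i u : ℚ) : K)) (powE (castE K E) (m + 1))) v := by
    intro i v
    have h1 : cupAlt (g i) f v =
        altSum (times (g i) (fun u => a * altSum (powE E (m + 1)) u)) v := by
      rw [cupAlt_apply]
      unfold altSum times
      refine Finset.sum_congr rfl fun σ _ => ?_
      rw [hfv]
      rfl
    have h2 : cupAlt (g i) f v = a * (Fintype.card (Perm (Fin (m + 1) × Fin 2)) *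
        altSum (times (g i) (powE E (m + 1))) v) := by
      rw [h1, ← altSum_absorb, ← altSum_const_mul]
      congr 1
      funext w
      unfold times
      ring
    have h3 := altSum_cast (Q := Unit) (Rat.castHom K) (times (g i) (powE E (m + 1))) v
    rw [Rat.coe_castHom] at h3
    rw [h2, Rat.cast_mul, Rat.cast_mul, Rat.cast_natCast, h3, hN, mul_assoc]
    congr 3
    funext w
    unfold times
    rw [hpow, Rat.cast_mul]
  have hY : ∀ v : (Fin n × Fin 2) ⊕ (Fin (m + 1) × Fin 2) → X.H1,
      onH1 C Y v = N * altSum (times (onH1 C z) (powE (castE K E) (m + 1))) v := by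
    intro v
    rw [hY0 v, Finset.sum_congr rfl fun i _ => by rw [hcup i v]]
    have h1 : altSum (times (onH1 C z) (powE (castE K E) (m + 1))) v =
        ∑ i, c i * altSum (times (fun u => ((g i u : ℚ) : K)) (powE (castE K E) (m + 1))) v := by
      unfold altSum
      simp only [Finset.mul_sum]
      rw [Finset.sum_comm]
      refine Finset.sum_congr rfl fun σ _ => ?_
      have h2 : onH1 C z (fun p => v (σ (Sum.inl p))) =
          ∑ i, c i * (g i (fun p => v (σ (Sum.inl p))) : K) := hz _
      unfold times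
      rw [h2, Finset.sum_mul, Finset.mul_sum]
      refine Finset.sum_congr rfl fun i _ => ?_
      ring
    rw [h1, Finset.mul_sum]
    refine Finset.sum_congr rfl fun i _ => ?_
    ring
  have hYgen : LN.IsGenerated C Y :=
    ⟨r, c, fun i => cupAlt (g i) f, fun i => DWRing.cup (g i) f (hg i) hf _
      fun w => cupAlt_apply (g i) f w, hY0⟩
  have hYzero : Y = 0 := by
    rcases Nat.lt_or_ge (finrank ℚ X.H1)
      (Fintype.card ((Fin n × Fin 2) ⊕ (Fin (m + 1) × Fin 2))) with hlt | hge
    · obtain ⟨N', b, b', hb, hc⟩ := exists_basis C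
      have hfin : FiniteDimensional K V := Module.Finite.of_basis b'
      exact eq_zero_of_lt (by rw [C.finrank_eq]; exact hlt) hfin Y
    · refine eq_zero_of_generated X hring C hge Y hYgen ?_
      intro κ' _ _ h hcard hh v
      rw [Fintype.card_sum, Fintype.card_prod, Fintype.card_prod, Fintype.card_fin,
        Fintype.card_fin, Fintype.card_fin] at hcard hge
      obtain ⟨e, w, hwA, hw⟩ := exists_cycle hA (n - 1) (by omega) h hh
      have h0 : altSum (times (times (onH1 C z) (powE (castE K E) (m + 1)))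
          (fun u : κ' → X.H1 => onH1 C w (fun s => u (e s)))) v = 0 := by
        rw [altSum_times_reindex e (times (onH1 C z) (powE (castE K E) (m + 1))) (onH1 C w) v,
          altSum_assoc]
        exact hprim (n - 1) (by omega) w hwA _
      have h1 : altSum (times (onH1 C Y) (fun u => ((h u : ℚ) : K))) v =
          N * ((Fintype.card (Perm ((Fin n × Fin 2) ⊕ (Fin (m + 1) × Fin 2))) : K) *
            altSum (times (times (onH1 C z) (powE (castE K E) (m + 1)))
              (fun u : κ' → X.H1 => onH1 C w (fun s => u (e s)))) v) := by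
        rw [← altSum_absorb_left, ← altSum_const_mul]
        congr 1
        funext t
        change onH1 C Y (fun p => t (Sum.inl p)) * ((h (fun q => t (Sum.inr q)) : ℚ) : K) =
          N * (altSum (times (onH1 C z) (powE (castE K E) (m + 1))) (fun p => t (Sum.inl p)) *
            onH1 C w (fun s => t (Sum.inr (e s))))
        rw [hY, hw, mul_assoc]
      rw [h1, h0, mul_zero, mul_zero]
  intro v
  have h1 := hY v
  rw [hYzero] at h1
  have h2 : onH1 C (0 : V [⋀^(Fin n × Fin 2) ⊕ (Fin (m + 1) × Fin 2)]→ₗ[K] K) v = 0 := rfl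
  rw [h2] at h1
  exact (mul_eq_zero.1 h1.symm).resolve_left hN0

/-- The numerical Hodge standard conjecture for ordinary abelian varieties such that the Hodge ring of
the canonical lift is generated by divisors and by pull-backs of split Weil classes. -/
theorem numericalHodgeStandard (X : CMAV)
    (hring : ∀ {κ : Type} [Finite κ] (f : X.H1 [⋀^κ]→ₗ[ℚ] ℚ), IsHodge X.per f → DWRing X κ f)
    (p : ℕ) [Fact p.Prime] (a : ℕ) (ha : 0 < a) (ν : PadicAlgCl p ≃+* ℂ) (π : X.H1)
    (hπ : LN.IsCanonicalLift p a ν X π) {K V : Type} [Field K] [CharZero K] [AddCommGroup V]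
    [Module K V] (C : Comparison X K V) (F : V →ₗ[K] V) (hF : LN.IsFrobeniusMap C π F)
    (A : ∀ n : ℕ, Submodule ℚ (V [⋀^Fin n × Fin 2]→ₗ[K] K)) (hA : IsCycleSpaces C F (p ^ a) A)
    {E : X.H1 → X.H1 → ℚ} (hE : IsPolarization X E) : NumericalHodgeStandard C A E := by
  intro r m hrm z hzA hprim hnum
  obtain ⟨s, hs, htate⟩ := hA.tate r z hzA
  have hp : p.Prime := Fact.out
  have hST : ShimuraTaniyama X (TF.absC p ν) (p ^ a) π := by
    constructor
    · intro i φ hφ
      rw [TF.absC_cast]
      exact hπ.slope_one i φ hφ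
    · intro i φ hφ
      exact hπ.slope_zero i φ hφ
  have hw : TF.absC p ν ((p ^ a : ℕ) : ℂ) < 1 := by
    rw [TF.absC_cast, norm_pow, TF.norm_p]
    refine pow_lt_one₀ (by positivity) ?_ ha.ne'
    rw [inv_lt_one₀ (by exact_mod_cast hp.pos)]
    exact_mod_cast hp.one_lt
  have hFs : ∀ (N : ℕ) (x : X.H1), (F ^ N) (C.ι x) = C.ι (π ^ N * x) := by
    intro N
    induction N with
    | zero =>
      intro x
      simp
    | succ N ih =>
      intro x
      rw [pow_succ', Module.End.mul_apply, ih, pow_succ', mul_assoc]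
      exact hF _
  have hgen : LN.IsGenerated C z := by
    let e : Fin r × Fin 2 ≃ Fin (2 * r) :=
      Fintype.equivFinOfCardEq (by rw [Fintype.card_prod, Fintype.card_fin, Fintype.card_fin,
        mul_comm])
    refine generated_reindex C e z ?_
    refine LN.generated_of_ring X hring C (TF.absC p ν) (p ^ a)
      (pow_pos hp.pos a).ne' hw π hST s r hs.ne' _ fun v => ?_
    have h1 := htate (fun k => C.ι (v (e k)))
    simp only [hFs s] at h1
    exact h1
  have hz : z ≠ 0 := by
    rintro rfl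
    refine hnum fun k _ w _ v => ?_
    unfold altSum
    refine Finset.sum_eq_zero fun σ _ => ?_
    change _ * ((0 : K) * _) = 0
    rw [zero_mul, mul_zero]
  exact positive_of_generated X C hE r m hrm z hgen (hasRationalNumbers hA hzA)
    (isPrimitive_of_num hring hA hE hrm hgen hprim) hz

theorem numericalHodgeStandard_blocks (p : ℕ) [Fact p.Prime] (a : ℕ) (ha : 0 < a)
    (ν : PadicAlgCl p ≃+* ℂ) (X : CMAV) {J : Type} (b : X.I → J) (hX : UB.IndependentBlocks X b)
    (π : X.H1) (hπ : LN.IsCanonicalLift p a ν X π) {K V : Type} [Field K] [CharZero K]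
    [AddCommGroup V] [Module K V] (C : Comparison X K V) (F : V →ₗ[K] V)
    (hF : LN.IsFrobeniusMap C π F)
    (A : ∀ n : ℕ, Submodule ℚ (V [⋀^Fin n × Fin 2]→ₗ[K] K)) (hA : IsCycleSpaces C F (p ^ a) A)
    {E : X.H1 → X.H1 → ℚ} (hE : IsPolarization X E) : NumericalHodgeStandard C A E :=
  numericalHodgeStandard X (fun f hf => UB.ring_blocks X b hX f hf) p a ha ν π hπ C F hF A hA hE

end

end Pool.Agent.Y218.HN
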