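import Pool.Agent.W547.HR.Defs

/-!
# Classes of algebraic cycles modulo numerical equivalence on ordinary abelian varieties
-/

namespace Pool.Agent.Y218.HN

open Module Pool.Agent.W547.KB Pool.Agent.W547.LD Pool.Agent.W530.NF Pool.Agent.W547.HR

/-- The `ℚ`-subspaces `A n ⊆ H^{2n}(A₀, K)` (alternating forms in `2 n` variables, indexed by
`Fin n × Fin 2`, on the rational Tate module `V` of `A₀`) have the following properties of the spaces
of the classes of algebraic cycles of codimension `n`, with rational coefficients, on the abelian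
variety `A₀` over an algebraic closure of the field with `q` elements, with Frobenius endomorphism `F`:

* `tate`: every class in `A n` is multiplied by `q ^ {n s}` by the `s`-th power of the Frobenius
  endomorphism, for some `s > 0` (the cycle is defined over the field with `q ^ s` elements);
* `ring`: `A n` contains the classes which belong, on the lift `X` of `A₀`, to the ring generated by
  the classes of divisors and by the pull-backs of the Weil classes of imaginary quadratic fields on
  abelian fourfolds and sixfolds of CM type of split Weil type (algebraic by theorems of Lefschetz and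
  Markman; an algebraic class on `X` specializes to `A₀`);
* `rational`: intersection numbers are rational. -/
structure IsCycleSpaces {X : CMAV} {K V : Type} [Field K] [CharZero K] [AddCommGroup V] [Module K V]
    (C : Comparison X K V) (F : V →ₗ[K] V) (q : ℕ)
    (A : ∀ n : ℕ, Submodule ℚ (V [⋀^Fin n × Fin 2]→ₗ[K] K)) : Prop where
  tate : ∀ n, ∀ z ∈ A n, ∃ s : ℕ, 0 < s ∧ IsTateOver F q s z
  ring : ∀ n (z : V [⋀^Fin n × Fin 2]→ₗ[K] K) (f : X.H1 [⋀^Fin n × Fin 2]→ₗ[ℚ] ℚ), DWRing X _ f →
    (∀ v : Fin n × Fin 2 → X.H1, onH1 C z v = ((f v : ℚ) : K)) → z ∈ A n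
  rational : ∀ n k, 2 * (n + k) = finrank ℚ X.H1 → ∀ z ∈ A n, ∀ w ∈ A k,
    ∀ v : (Fin n × Fin 2) ⊕ (Fin k × Fin 2) → X.H1,
      ∃ a : ℚ, altSum (times (onH1 C z) (onH1 C w)) v = a

/-- The class `z` is numerically trivial: its intersection number with every class of complementary
codimension in the spaces `A k` is zero. -/
def NumTrivial {X : CMAV} {K V : Type} [Field K] [CharZero K] [AddCommGroup V] [Module K V]
    (C : Comparison X K V) (A : ∀ n : ℕ, Submodule ℚ (V [⋀^Fin n × Fin 2]→ₗ[K] K)) {n : ℕ}
    (z : V [⋀^Fin n × Fin 2]→ₗ[K] K) : Prop :=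
  ∀ k, 2 * (n + k) = finrank ℚ X.H1 → ∀ w ∈ A k,
    ∀ v : (Fin n × Fin 2) ⊕ (Fin k × Fin 2) → X.H1, altSum (times (onH1 C z) (onH1 C w)) v = 0

/-- `z · L ^ {m + 1}` is numerically trivial, where `L` is the class of the polarization `E`: the
intersection number `z · L ^ {m + 1} · w` is zero for every class `w` of complementary codimension
in the spaces `A k`. -/
def NumPrimitive {X : CMAV} {K V : Type} [Field K] [CharZero K] [AddCommGroup V] [Module K V]
    (C : Comparison X K V) (A : ∀ n : ℕ, Submodule ℚ (V [⋀^Fin n × Fin 2]→ₗ[K] K))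
    (E : X.H1 → X.H1 → ℚ) (m : ℕ) {n : ℕ} (z : V [⋀^Fin n × Fin 2]→ₗ[K] K) : Prop :=
  ∀ k, 2 * (n + (m + 1) + k) = finrank ℚ X.H1 → ∀ w ∈ A k,
    ∀ v : (Fin n × Fin 2) ⊕ ((Fin (m + 1) × Fin 2) ⊕ (Fin k × Fin 2)) → X.H1,
      altSum (times (onH1 C z) (times (powE (castE K E) (m + 1)) (onH1 C w))) v = 0

/-- The numerical Hodge standard conjecture, for the spaces `A n` and the polarization `E`: if
`dim X = 2 n + m`, and if `z ∈ A n` is primitive modulo numerical equivalence (`z · L ^ {m + 1}` is
numerically trivial) and not numerically trivial, then `(-1) ^ n z · z · L ^ m > 0`; that is,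
`(-1) ^ n z · z · L ^ m` is a positive rational multiple of `L ^ {2 n + m}`. -/
def NumericalHodgeStandard {X : CMAV} {K V : Type} [Field K] [CharZero K] [AddCommGroup V]
    [Module K V] (C : Comparison X K V) (A : ∀ n : ℕ, Submodule ℚ (V [⋀^Fin n × Fin 2]→ₗ[K] K))
    (E : X.H1 → X.H1 → ℚ) : Prop :=
  ∀ n m : ℕ, 2 * (2 * n + m) = finrank ℚ X.H1 → ∀ z ∈ A n, NumPrimitive C A E m z →
    ¬ NumTrivial C A z → IsPositive C E m z

end Pool.Agent.Y218.HN
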