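import Pool.Agent.Results.MP_2ca583_ag.HasseWittClassification

/-! Hyperelliptic curves in characteristic `p`: kernels of the Cartier operator in families in which
several branch points move. -/

set_option autoImplicit false

open Polynomial

namespace Pool.Agent.Y218.HW

open Pool.Agent.Results.MP_2ca583_ag.HasseWittClassification

section deriv

variable {R : Type*} [CommRing R] (D : Derivation ℤ R R)

/-- a derivation applied to the coefficients -/
noncomputable def Dx (P : R[X]) : R[X] := P.sum fun n a => monomial n (D a)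

lemma coeff_Dx (P : R[X]) (n : ℕ) : (Dx D P).coeff n = D (P.coeff n) := by
  unfold Dx
  rw [Polynomial.sum_def, finsetSum_coeff]
  simp only [coeff_monomial]
  rw [Finset.sum_ite_eq']
  split_ifs with h
  · rfl
  · rw [notMem_support_iff.1 h, map_zero]

lemma Dx_mul (P Q : R[X]) : Dx D (P * Q) = Dx D P * Q + P * Dx D Q := by
  ext1 n
  rw [coeff_Dx, coeff_add, coeff_mul, coeff_mul, coeff_mul, map_sum,
    ← Finset.sum_add_distrib]
  refine Finset.sum_congr rfl fun x _ => ?_
  rw [Derivation.leibniz, coeff_Dx, coeff_Dx, smul_eq_mul, smul_eq_mul]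
  ring

lemma Dx_sub (P Q : R[X]) : Dx D (P - Q) = Dx D P - Dx D Q := by
  ext1 n
  rw [coeff_Dx, coeff_sub, coeff_sub, coeff_Dx, coeff_Dx, map_sub]

lemma Dx_X : Dx D (X : R[X]) = 0 := by
  ext1 n
  rw [coeff_Dx, coeff_X, coeff_zero]
  split_ifs <;> simp

lemma Dx_C (a : R) : Dx D (C a : R[X]) = C (D a) := by
  ext1 n
  rw [coeff_Dx, coeff_C, coeff_C]
  split_ifs <;> simp

lemma Dx_pow (P : R[X]) (n : ℕ) : Dx D (P ^ n) = (n : R[X]) * P ^ (n - 1) * Dx D P := by
  induction n with
  | zero =>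
    have : (1 : R[X]) = C 1 := C_1.symm
    rw [pow_zero, this, Dx_C]; simp
  | succ m ih =>
    rw [pow_succ, Dx_mul, ih]
    rcases m with _ | m
    · simp
    · simp only [Nat.add_sub_cancel]; push_cast; ring

lemma degree_Dx_le (P : R[X]) : (Dx D P).degree ≤ P.degree := by
  rw [degree_le_iff_coeff_zero]
  intro n hn
  rw [coeff_Dx, coeff_eq_zero_of_degree_lt hn, map_zero]

lemma noTop_Dx (p : ℕ) (P : R[X]) (hP : NoTop p P) : NoTop p (Dx D P) := by
  intro i
  rw [coeff_Dx, hP i, map_zero]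

lemma Dx_prod {Λ : Finset R} (hD : ∀ l ∈ Λ, D l = 0) : Dx D (∏ l ∈ Λ, (X - C l)) = 0 := by
  classical
  induction Λ using Finset.induction_on with
  | empty =>
    rw [Finset.prod_empty, ← C_1, Dx_C]; simp
  | insert a s ha ih =>
    rw [Finset.prod_insert ha, Dx_mul, ih (fun l hl => hD l (Finset.mem_insert_of_mem hl)), Dx_sub,
      Dx_X, Dx_C, hD a (Finset.mem_insert_self a s)]
    simp

lemma Dx_mul_pow (L H U : R[X]) (hL : Dx D L = -1) (hH : Dx D H = 0) (N : ℕ) (hN : 1 ≤ N) :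
    Dx D (U * (L * H) ^ N) = (L * H) ^ (N - 1) * H * (L * Dx D U - C (N : R) * U) := by
  obtain ⟨M, rfl⟩ : ∃ M, N = M + 1 := ⟨N - 1, by omega⟩
  rw [Dx_mul, Dx_pow, Dx_mul, hL, hH]
  simp only [Nat.add_sub_cancel]
  have h2 : (C ((M + 1 : ℕ) : R) : R[X]) = ((M + 1 : ℕ) : R[X]) := by simp
  rw [pow_succ, h2]
  ring

lemma noTop_map' {R' : Type*} [CommRing R'] (p : ℕ) (P : R[X]) (φ : R →+* R') (hP : NoTop p P) :
    NoTop p (P.map φ) := by
  intro i
  rw [coeff_map, hP i, map_zero]

end deriv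

section domain

variable {R : Type*} [CommRing R] [IsDomain R] (p : ℕ) [Fact p.Prime] [CharP R p]
  (D : Derivation ℤ R R)

omit [IsDomain R] in
lemma natCast_isUnit (n : ℕ) (h1 : 1 ≤ n) (h2 : n < p) : IsUnit ((n : ℕ) : R) := by
  have hcop : Nat.Coprime n p := by
    rw [Nat.coprime_comm]
    rw [Nat.Prime.coprime_iff_not_dvd (Fact.out : p.Prime)]
    intro h
    have := Nat.le_of_dvd (by omega) h
    omega
  have h3 : IsUnit ((n : ℕ) : ZMod p) := (ZMod.isUnit_iff_coprime n p).2 hcop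
  have h4 := h3.map (ZMod.castHom (dvd_refl p) R)
  simpa using h4

lemma L_dvd (hp2 : 2 < p) (g : ℕ) (Λ : Finset R) (hΛ : Λ.card = 2 * g) (hD : ∀ l ∈ Λ, D l = 0)
    (t : R) (ht : D t = 1) (N : ℕ) (hN : 2 * N + 1 = p) (U : R[X]) (hU : U.degree < g)
    (hU' : NoTop p (U * ((X - C t) * ∏ l ∈ Λ, (X - C l)) ^ N)) : X - C t ∣ U := by
  classical
  set H : R[X] := ∏ l ∈ Λ, (X - C l) with hHdef
  have hDL : Dx D (X - C t) = -1 := by
    rw [Dx_sub, Dx_X, Dx_C, ht, C_1, zero_sub]
  have hDH : Dx D H = 0 := Dx_prod D hD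
  have hN1 : 1 ≤ N := by omega
  let K := FractionRing R
  let φ : R →+* K := algebraMap R K
  have hφ : Function.Injective φ := IsFractionRing.injective R K
  have : CharP K p := charP_of_injective_algebraMap hφ p
  rw [dvd_iff_isRoot, IsRoot.def]
  have htΛ : t ∉ Λ := by
    intro h
    have := hD t h
    rw [ht] at this
    exact one_ne_zero this
  have hcard : (Λ.image φ).card = 2 * g := by
    rw [Finset.card_image_of_injective _ hφ, hΛ]
  have hmem : φ t ∉ Λ.image φ := by
    intro h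
    obtain ⟨l, hl, h2⟩ := Finset.mem_image.1 h
    exact htΛ (hφ h2 ▸ hl)
  have hHmap : H.map φ = ∏ l ∈ Λ.image φ, (X - C l) := by
    rw [Finset.prod_image (fun a _ b _ h => hφ h), hHdef, Polynomial.map_prod]
    simp
  have e1 := noTop_map' p _ φ hU'
  rw [Polynomial.map_mul, Polynomial.map_pow, Polynomial.map_mul] at e1
  have e2 := noTop_map' p _ φ (noTop_Dx D p _ hU')
  rw [Dx_mul_pow D _ _ _ hDL hDH N hN1] at e2
  have hlin : (X - C t : R[X]).map φ = X - C (φ t) := by simp
  have key := pointwise (k := K) p hp2 g (Λ.image φ) hcard (φ t) hmem (H.map φ)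
    ((X - C (φ t)) * H.map φ) (U.map φ) ((Dx D U).map φ) hHmap rfl
    (lt_of_le_of_lt degree_map_le hU)
    (lt_of_le_of_lt degree_map_le (lt_of_le_of_lt (degree_Dx_le D U) hU)) N hN
    (by rw [← hlin]; exact e1)
    (by
      have e3 : (((X - C t) * H) ^ (N - 1) * H * ((X - C t) * Dx D U - C (N : R) * U)).map φ =
          ((X - C (φ t)) * H.map φ) ^ (N - 1) * H.map φ *
            ((X - C (φ t)) * (Dx D U).map φ - C (N : K) * U.map φ) := by
        simp only [Polynomial.map_mul, Polynomial.map_pow, Polynomial.map_sub, Polynomial.map_X,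
          Polynomial.map_C]
        rw [show φ (N : R) = (N : K) from map_natCast φ N]
      rw [← e3]
      exact e2)
  rw [eval_map_algebraMap, aeval_algebraMap_apply] at key
  have key2 : φ (aeval t U) = 0 := key
  have key3 := hφ (key2.trans (map_zero φ).symm)
  simpa using key3

lemma L_pow_dvd (hp2 : 2 < p) (g : ℕ) (Λ : Finset R) (hΛ : Λ.card = 2 * g) (hD : ∀ l ∈ Λ, D l = 0)
    (t : R) (ht : D t = 1) (N : ℕ) (hN : 2 * N + 1 = p) (m : ℕ) (hm : m ≤ N + 1) :
    ∀ U : R[X], U.degree < g → NoTop p (U * ((X - C t) * ∏ l ∈ Λ, (X - C l)) ^ N) →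
      (X - C t) ^ m ∣ U := by
  have hN1 : 1 ≤ N := by omega
  obtain ⟨L, hL⟩ : ∃ L : R[X], L = X - C t := ⟨_, rfl⟩
  obtain ⟨H, hHdef⟩ : ∃ H : R[X], H = ∏ l ∈ Λ, (X - C l) := ⟨_, rfl⟩
  have hDL : Dx D L = -1 := by
    rw [hL, Dx_sub, Dx_X, Dx_C, ht, C_1, zero_sub]
  have hDH : Dx D H = 0 := by rw [hHdef]; exact Dx_prod D hD
  have hLmonic : L.Monic := by rw [hL]; exact monic_X_sub_C t
  have hL0 : L ≠ 0 := hLmonic.ne_zero
  rw [← hL, ← hHdef]
  induction m with
  | zero => intro U _ _; simp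
  | succ m ih =>
    intro U hU hU'
    rcases Nat.eq_zero_or_pos m with rfl | hmpos
    · rw [zero_add, pow_one, hL]
      rw [hL, hHdef] at hU'
      exact L_dvd p D hp2 g Λ hΛ hD t ht N hN U hU hU'
    · obtain ⟨W, hW⟩ := ih (by omega) U hU hU'
      obtain ⟨m', rfl⟩ : ∃ m', m = m' + 1 := ⟨m - 1, by omega⟩
      obtain ⟨W1, hW1⟩ : ∃ W1, W1 = L ^ m' * W := ⟨_, rfl⟩
      have hUW1 : U = L * W1 := by rw [hW, hW1]; ring
      obtain ⟨V, hV⟩ : ∃ V, V = Dx D U - C (N : R) * W1 := ⟨_, rfl⟩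
      have hVdeg : V.degree < g := by
        have e1 : W1.degree < g := by
          refine lt_of_le_of_lt ?_ hU
          rw [hUW1, hLmonic.degree_mul_comm, hLmonic.degree_mul]
          have : L.degree = 1 := by rw [hL]; exact degree_X_sub_C t
          rw [this]
          exact le_add_of_nonneg_right (by norm_num)
        rw [hV]
        refine lt_of_le_of_lt (degree_sub_le _ _) (max_lt ?_ ?_)
        · exact lt_of_le_of_lt (degree_Dx_le D U) hU
        · exact lt_of_le_of_lt ((degree_mul_le _ _).trans (add_le_of_nonpos_left degree_C_le)) e1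
      have hVtop : NoTop p (V * (L * H) ^ N) := by
        have e1 := noTop_Dx D p _ hU'
        rw [Dx_mul_pow D L H U hDL hDH N hN1] at e1
        have e2 : (L * H) ^ (N - 1) * H * (L * Dx D U - C (N : R) * U) = V * (L * H) ^ N := by
          have e3 : (L * H) ^ N = (L * H) ^ (N - 1) * (L * H) := by
            obtain ⟨M, rfl⟩ : ∃ M, N = M + 1 := ⟨N - 1, by omega⟩
            rw [pow_succ, Nat.add_sub_cancel]
          rw [e3, hV]
          nth_rewrite 2 [hUW1]
          ring
        rwa [e2] at e1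
      have hdvd := ih (by omega) V hVdeg hVtop
      have hVeq : V = L ^ m' * (L * Dx D W - C ((m' + 1 + N : ℕ) : R) * W) := by
        rw [hV, hW1, hW, Dx_mul, Dx_pow, hDL]
        simp only [Nat.add_sub_cancel]
        have e4 : (C ((m' + 1 + N : ℕ) : R) : R[X]) = ((m' + 1 + N : ℕ) : R[X]) := by simp
        have e5 : (C (N : R) : R[X]) = (N : R[X]) := by simp
        rw [e4, e5]
        push_cast
        ring
      rw [hVeq, pow_succ, mul_dvd_mul_iff_left (pow_ne_zero _ hL0)] at hdvd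
      have hdvd2 : L ∣ C ((m' + 1 + N : ℕ) : R) * W :=
        (dvd_sub_right (dvd_mul_right L (Dx D W))).1 hdvd
      have hunit : IsUnit (C ((m' + 1 + N : ℕ) : R) : R[X]) :=
        isUnit_C.2 (natCast_isUnit p _ (by omega) (by omega))
      have hdvd3 : L ∣ W := by
        rwa [hunit.dvd_mul_left] at hdvd2
      rw [hW, pow_succ]
      exact mul_dvd_mul_left _ hdvd3

end domain

end Pool.Agent.Y218.HW
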