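import Pool.Agent.Results.MP_2ca583_ag.HasseWittClassification

/-! Separable polynomials `h` of degree `r p + 2 e + 1` such that `w h ^ ((p - 1) / 2)` is killed by
the Cartier operator for some `w ≠ 0` of degree less than `e`. -/

set_option autoImplicit false

open Polynomial

namespace Pool.Agent.Y218.HW

open Pool.Agent.Results.MP_2ca583_ag.HasseWittClassification

variable {k : Type*} [Field k] (p : ℕ) [Fact p.Prime] [CharP k p] [PerfectRing k p]

/-- exponents `m ≡ 1` -/
lemma fam_one (hp2 : 2 < p) (m : ℕ) (hm : m % p = 1) :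
    cart p ((X ^ m + 1 : k[X]) ^ ((p - 1) / 2)) = 0 := by
  have hN := two_mul_half p hp2
  set N := (p - 1) / 2 with hNdef
  rw [add_pow, cart_sum]
  apply Finset.sum_eq_zero
  intro i hi
  have hi' : i ≤ N := by have := Finset.mem_range.1 hi; omega
  have h1 : ((X : k[X]) ^ m) ^ i * 1 ^ (N - i) * ((N.choose i : ℕ) : k[X])
      = C ((N.choose i : ℕ) : k) * X ^ (m * i) := by
    rw [← pow_mul, mul_comm]; simp
  rw [h1]
  apply cart_C_mul_X_pow
  intro hdvd
  have h2 : m = p * (m / p) + 1 := by
    have := Nat.div_add_mod m p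
    omega
  have h3 : m * i + 1 = p * (m / p * i) + (i + 1) := by
    conv_lhs => rw [h2]
    ring
  rw [h3, Nat.dvd_add_right (dvd_mul_right _ _)] at hdvd
  have := Nat.le_of_dvd (by omega) hdvd
  omega

/-- exponents `m ≡ 2` -/
lemma fam_two (hp2 : 2 < p) (m : ℕ) (hm : m % p = 2) :
    cart p (X * (X ^ m + 1 : k[X]) ^ ((p - 1) / 2)) = 0 := by
  have hN := two_mul_half p hp2
  set N := (p - 1) / 2 with hNdef
  rw [add_pow, Finset.mul_sum, cart_sum]
  apply Finset.sum_eq_zero
  intro i hi
  have hi' : i ≤ N := by have := Finset.mem_range.1 hi; omega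
  have h1 : (X : k[X]) * (((X : k[X]) ^ m) ^ i * 1 ^ (N - i) * ((N.choose i : ℕ) : k[X]))
      = C ((N.choose i : ℕ) : k) * X ^ (m * i + 1) := by
    rw [← pow_mul, pow_succ]; simp; ring
  rw [h1]
  apply cart_C_mul_X_pow
  intro hdvd
  have h2 : m = p * (m / p) + 2 := by
    have := Nat.div_add_mod m p
    omega
  have h3 : m * i + 1 + 1 = p * (m / p * i) + (2 * i + 2) := by
    conv_lhs => rw [h2]
    ring
  rw [h3, Nat.dvd_add_right (dvd_mul_right _ _)] at hdvd
  obtain ⟨s, hs⟩ := hdvd
  rcases s with _ | _ | s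
  · omega
  · omega
  · have : p * (s + 1 + 1) = p * s + 2 * p := by ring
    have h5 : 0 ≤ p * s := Nat.zero_le _
    omega

omit [Fact p.Prime] [PerfectRing k p] in
lemma sep_X_pow_add_one (m : ℕ) (hm : ¬ p ∣ m) : (X ^ m + 1 : k[X]).Separable := by
  have h0 : (m : k) ≠ 0 := by
    intro h
    rw [CharP.cast_eq_zero_iff k p] at h
    exact hm h
  have := separable_X_pow_sub_C (n := m) (-1 : k) h0 (neg_ne_zero.2 one_ne_zero)
  simpa using this

/-- `h = x (x ^ (2 G) + a x ^ G + 1)` -/
lemma fam_odd (hp2 : 2 < p) (G : ℕ) (hG : 1 ≤ G) (hpG : ¬ p ∣ G) (i : ℕ) (hip : i < p)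
    (hi : p ∣ (p - 1) / 2 + G * i + 1)
    (a : k) (ha : ((X ^ 2 + C a * X + 1 : k[X]) ^ ((p - 1) / 2)).coeff i = 0) :
    cart p ((X * (X ^ (2 * G) + C a * X ^ G + 1) : k[X]) ^ ((p - 1) / 2)) = 0 := by
  have hN := two_mul_half p hp2
  have hp1 : 1 ≤ p := by omega
  set N := (p - 1) / 2 with hNdef
  have hexp : (X ^ (2 * G) + C a * X ^ G + 1 : k[X]) = expand k G (X ^ 2 + C a * X + 1) := by
    simp only [map_add, map_mul, map_pow, expand_X, expand_C, map_one]
    rw [← pow_mul, mul_comm G 2]
  rw [mul_pow, hexp, ← map_pow]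
  ext n
  rw [coeff_cart, coeff_X_pow_mul', coeff_zero]
  split_ifs with hle
  swap
  · rw [map_zero]
  rw [coeff_expand (by omega)]
  split_ifs with hdiv
  · obtain ⟨j, hj⟩ := hdiv
    have hgj : p ∣ N + G * j + 1 := by
      rw [← hj]; exact ⟨n + 1, by rw [mul_add, mul_one, mul_comm p n]; omega⟩
    rw [hj, Nat.mul_div_cancel_left _ (by omega)]
    by_cases hjp : j < p
    · have : j = i := by
        have h1 : G * i ≡ G * j [MOD p] := by
          have h2 : N + G * i + 1 ≡ N + G * j + 1 [MOD p] :=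
            ((Nat.modEq_zero_iff_dvd).2 hi).trans ((Nat.modEq_zero_iff_dvd).2 hgj).symm
          exact Nat.ModEq.add_left_cancel' N (Nat.ModEq.add_right_cancel' 1 h2)
        have hcop : Nat.Coprime p G := by
          rw [Nat.Prime.coprime_iff_not_dvd (Fact.out : p.Prime)]
          exact hpG
        have h4 : i ≡ j [MOD p] := Nat.ModEq.cancel_left_of_coprime hcop h1
        exact (Nat.ModEq.eq_of_lt_of_lt h4 hip hjp).symm
      rw [this, ha, map_zero]
    · rw [coeff_eq_zero_of_natDegree_lt, map_zero]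
      have h5 : (X ^ 2 + C a * X + 1 : k[X]).natDegree ≤ 2 := by compute_degree
      have h6 := natDegree_pow_le_of_le N h5
      omega
  · rw [map_zero]

omit [CharP k p] [PerfectRing k p] in
lemma exists_index_odd (G : ℕ) (hp2 : 2 < p) (h0 : ¬ p ∣ G) (h1 : ¬ (2 * G) % p = 1) :
    ∃ i, 1 ≤ i ∧ i + 2 ≤ p ∧ p ∣ (p - 1) / 2 + G * i + 1 := by
  have hp := (Fact.out : p.Prime)
  have hN := two_mul_half p hp2
  set N := (p - 1) / 2 with hNdef
  have hg0 : (G : ZMod p) ≠ 0 := by
    rw [Ne, ZMod.natCast_eq_zero_iff]; exact h0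
  have h2N : (2 : ZMod p) * ((N : ZMod p) + 1) = 1 := by
    have : ((2 * N + 1 : ℕ) : ZMod p) = 0 := by rw [hN]; simp
    push_cast at this
    linear_combination this
  have hN1 : ((N : ZMod p) + 1) ≠ 0 := by
    intro h
    rw [h, mul_zero] at h2N
    have : Fact (1 < p) := ⟨by omega⟩
    exact zero_ne_one h2N
  refine ⟨(-(((N : ZMod p) + 1) * (G : ZMod p)⁻¹)).val, ?_, ?_, ?_⟩
  · rw [Nat.one_le_iff_ne_zero, Ne, ZMod.val_eq_zero, neg_eq_zero]
    exact mul_ne_zero hN1 (inv_ne_zero hg0)
  · have hlt : (-(((N : ZMod p) + 1) * (G : ZMod p)⁻¹)).val < p := ZMod.val_lt _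
    have hne : (-(((N : ZMod p) + 1) * (G : ZMod p)⁻¹)).val ≠ p - 1 := by
      intro h
      apply h1
      have h2 : (-(((N : ZMod p) + 1) * (G : ZMod p)⁻¹)) = -1 := by
        rw [← ZMod.natCast_zmod_val (-(((N : ZMod p) + 1) * (G : ZMod p)⁻¹)), h,
          Nat.cast_sub hp.one_le]
        simp
      have h3 : (N : ZMod p) + 1 = G := by
        have h4 := neg_injective h2
        field_simp at h4
        exact h4
      have h5 : ((2 * G : ℕ) : ZMod p) = ((1 : ℕ) : ZMod p) := by
        push_cast
        rw [← h3]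
        exact h2N
      have h6 := (ZMod.natCast_eq_natCast_iff _ _ _).1 h5
      have h7 : (2 * G) % p = 1 % p := h6
      rw [h7, Nat.mod_eq_of_lt (by omega)]
    omega
  · rw [← ZMod.natCast_eq_zero_iff]
    push_cast
    rw [ZMod.natCast_zmod_val]
    field_simp
    ring

omit [PerfectRing k p] in
lemma sep_odd (G : ℕ) (hG : 1 ≤ G) (hpG : ¬ p ∣ G) (a : k) (ha : a ^ 2 ≠ 4) [PerfectRing k p] :
    (X * (X ^ (2 * G) + C a * X ^ G + 1) : k[X]).Separable := by
  have h1 := separable_a p G hG hpG a ha
  refine Separable.mul separable_X h1 ?_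
  obtain ⟨m, rfl⟩ : ∃ m, G = m + 1 := ⟨G - 1, by omega⟩
  refine ⟨-(X ^ (2 * m + 1) + C a * X ^ m), 1, ?_⟩
  have h2 : 2 * (m + 1) = 2 * m + 1 + 1 := by ring
  rw [h2]
  ring

/-- **the families** -/
theorem exists_fam [IsAlgClosed k] (hp2 : 2 < p) (r e : ℕ) (he : 1 ≤ e) :
    ∃ h w : k[X], h.Monic ∧ h.Separable ∧ h.natDegree = r * p + 2 * e + 1 ∧ w ≠ 0 ∧
      w.natDegree < e ∧ cart p (w * h ^ ((p - 1) / 2)) = 0 := by
  have hN := two_mul_half p hp2
  have hp1 : 1 ≤ p := by omega
  rcases Nat.even_or_odd' (r * p + 2 * e + 1) with ⟨G, hG | hG⟩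
  · -- even degree
    have hG1 : 1 ≤ G := by omega
    rw [hG]
    by_cases h0 : p ∣ G
    · refine ⟨X ^ (2 * G) + X, 1, ?_, separable_b p G h0, ?_, one_ne_zero, ?_, ?_⟩
      · exact monic_X_pow_add (by rw [degree_X]; exact_mod_cast (by omega : 1 < 2 * G))
      · apply natDegree_eq_of_le_of_coeff_ne_zero
        · compute_degree; omega
        · rw [coeff_add, coeff_X_pow_self, coeff_X, if_neg (by omega), add_zero]; exact one_ne_zero
      · rw [natDegree_one]; omega
      · rw [one_mul]; exact family_b p hp2 G hG1 h0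
    · by_cases h1 : G ≡ 1 [MOD p]
      · have h2 : (2 * G) % p = 2 := by
          have h3 : 2 * G ≡ 2 * 1 [MOD p] := Nat.ModEq.mul_left 2 h1
          have h4 : (2 * G) % p = (2 * 1) % p := h3
          rw [h4, Nat.mod_eq_of_lt (by omega)]
        have he2 : 1 < e := by
          by_contra hcon
          have he1 : e = 1 := by omega
          rw [← hG, he1] at h2
          have h3 : r * p + 2 * 1 + 1 = 3 + r * p := by ring
          rw [h3, Nat.add_mul_mod_self_right] at h2
          rcases Nat.lt_or_ge 3 p with h4 | h4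
          · rw [Nat.mod_eq_of_lt h4] at h2; omega
          · have : p = 3 := by omega
            rw [this] at h2
            omega
        refine ⟨X ^ (2 * G) + 1, X, ?_, sep_X_pow_add_one p _ ?_, ?_, X_ne_zero, ?_,
          fam_two p hp2 _ h2⟩
        · exact monic_X_pow_add (by rw [degree_one]; exact_mod_cast (by omega))
        · intro h; rw [Nat.mod_eq_zero_of_dvd h] at h2; omega
        · have := natDegree_X_pow_add_C (n := 2 * G) (r := (1 : k))
          simpa using this
        · rw [natDegree_X]; exact he2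
      · obtain ⟨i, hi1, hi2, hi3⟩ := exists_index p G hp2 h0 h1
        obtain ⟨a, ha1, ha2⟩ := exists_root (k := k) p hp2 i hi1 hi2
        refine ⟨X ^ (2 * G) + C a * X ^ G + 1, 1, ?_, separable_a p G hG1 h0 a ha1, ?_,
          one_ne_zero, ?_, ?_⟩
        · rw [add_assoc]
          apply monic_X_pow_add
          refine lt_of_le_of_lt (degree_add_le _ _) (max_lt ?_ ?_)
          · refine lt_of_le_of_lt (degree_C_mul_X_pow_le G a) ?_
            exact_mod_cast (by omega : G < 2 * G)
          · rw [degree_one]; exact_mod_cast (by omega : 0 < 2 * G)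
        · apply natDegree_eq_of_le_of_coeff_ne_zero
          · compute_degree; omega
          · rw [coeff_add, coeff_add, coeff_X_pow_self, coeff_C_mul_X_pow, if_neg (by omega),
              coeff_one, if_neg (by omega), add_zero, add_zero]
            exact one_ne_zero
        · rw [natDegree_one]; omega
        · rw [one_mul]; exact family_a p hp2 G hG1 i (by omega) hi3 a ha2
  · -- odd degree
    have hG1 : 1 ≤ G := by omega
    rw [hG]
    by_cases h0 : p ∣ G
    · have h2 : (2 * G + 1) % p = 1 := by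
        obtain ⟨s, rfl⟩ := h0
        have h3 : 2 * (p * s) + 1 = 1 + (2 * s) * p := by ring
        rw [h3, Nat.add_mul_mod_self_right, Nat.mod_eq_of_lt (by omega)]
      refine ⟨X ^ (2 * G + 1) + 1, 1, ?_, sep_X_pow_add_one p _ ?_, ?_, one_ne_zero, ?_, ?_⟩
      · exact monic_X_pow_add (by rw [degree_one]; exact_mod_cast (by omega))
      · intro h; rw [Nat.mod_eq_zero_of_dvd h] at h2; omega
      · have := natDegree_X_pow_add_C (n := 2 * G + 1) (r := (1 : k))
        simpa using this
      · rw [natDegree_one]; omega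
      · rw [one_mul]; exact fam_one p hp2 _ h2
    · by_cases h1 : (2 * G) % p = 1
      · have h2 : (2 * G + 1) % p = 2 := by
          rw [Nat.add_mod, h1, Nat.mod_eq_of_lt (by omega : 1 < p), Nat.mod_eq_of_lt (by omega)]
        have he2 : 1 < e := by
          by_contra hcon
          have he1 : e = 1 := by omega
          have h3 : 2 * G = 2 + r * p := by omega
          rw [h3, Nat.add_mul_mod_self_right, Nat.mod_eq_of_lt (by omega)] at h1
          omega
        refine ⟨X ^ (2 * G + 1) + 1, X, ?_, sep_X_pow_add_one p _ ?_, ?_, X_ne_zero, ?_,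
          fam_two p hp2 _ h2⟩
        · exact monic_X_pow_add (by rw [degree_one]; exact_mod_cast (by omega))
        · intro h; rw [Nat.mod_eq_zero_of_dvd h] at h2; omega
        · have := natDegree_X_pow_add_C (n := 2 * G + 1) (r := (1 : k))
          simpa using this
        · rw [natDegree_X]; exact he2
      · obtain ⟨i, hi1, hi2, hi3⟩ := exists_index_odd p G hp2 h0 h1
        obtain ⟨a, ha1, ha2⟩ := exists_root (k := k) p hp2 i hi1 hi2
        have hmon : (X ^ (2 * G) + C a * X ^ G + 1 : k[X]).Monic := by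
          rw [add_assoc]
          apply monic_X_pow_add
          refine lt_of_le_of_lt (degree_add_le _ _) (max_lt ?_ ?_)
          · refine lt_of_le_of_lt (degree_C_mul_X_pow_le G a) ?_
            exact_mod_cast (by omega : G < 2 * G)
          · rw [degree_one]; exact_mod_cast (by omega : 0 < 2 * G)
        have hdeg : (X ^ (2 * G) + C a * X ^ G + 1 : k[X]).natDegree = 2 * G := by
          apply natDegree_eq_of_le_of_coeff_ne_zero
          · compute_degree; omega
          · rw [coeff_add, coeff_add, coeff_X_pow_self, coeff_C_mul_X_pow, if_neg (by omega),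
              coeff_one, if_neg (by omega), add_zero, add_zero]
            exact one_ne_zero
        refine ⟨X * (X ^ (2 * G) + C a * X ^ G + 1), 1, monic_X.mul hmon,
          sep_odd p G hG1 h0 a ha1, ?_, one_ne_zero, ?_, ?_⟩
        · rw [Monic.natDegree_mul monic_X hmon, natDegree_X, hdeg]; ring
        · rw [natDegree_one]; omega
        · rw [one_mul]; exact fam_odd p hp2 G hG1 h0 i (by omega) hi3 a ha2

end Pool.Agent.Y218.HW
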