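import Pool.Agent.Y218.HW
import Pool.Agent.Y218.HWFam

/-! Hyperelliptic curves in characteristic `p`: moving `r` branch points. -/

set_option autoImplicit false

open Polynomial

namespace Pool.Agent.Y218.HW

open Pool.Agent.Results.MP_2ca583_ag.HasseWittClassification

section generic

variable {k : Type*} [Field k] {r : ℕ}

/-- the polynomial whose roots are the variables and the elements of `Λ` -/
noncomputable def Fg (r : ℕ) (Λ : Finset k) : (MvPolynomial (Fin r) k)[X] :=
  (∏ i : Fin r, (X - C (MvPolynomial.X i))) * ∏ l ∈ Λ, (X - C (MvPolynomial.C l))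

/-- the derivation with respect to the variable with index `i` -/
noncomputable def Dp (i : Fin r) : Derivation ℤ (MvPolynomial (Fin r) k) (MvPolynomial (Fin r) k) :=
  (MvPolynomial.pderiv i).restrictScalars ℤ

lemma Dp_X_self (i : Fin r) : Dp (k := k) i (MvPolynomial.X i) = 1 :=
  MvPolynomial.pderiv_X_self i

lemma Dp_X_of_ne {i j : Fin r} (h : j ≠ i) : Dp (k := k) i (MvPolynomial.X j) = 0 :=
  MvPolynomial.pderiv_X_of_ne h

lemma Dp_C (i : Fin r) (c : k) : Dp i (MvPolynomial.C c) = 0 :=
  MvPolynomial.pderiv_C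

lemma X_ne_C (i : Fin r) (c : k) : (MvPolynomial.X i : MvPolynomial (Fin r) k) ≠ MvPolynomial.C c := by
  intro h
  have h1 := congrArg (Dp (k := k) i) h
  rw [Dp_X_self, Dp_C] at h1
  exact one_ne_zero h1

open Classical in
/-- the roots of `Fg r Λ` other than the variable with index `i` -/
noncomputable def others (i : Fin r) (Λ : Finset k) : Finset (MvPolynomial (Fin r) k) :=
  ((Finset.univ.erase i).image MvPolynomial.X) ∪ Λ.image MvPolynomial.C

lemma others_disj (i : Fin r) (Λ : Finset k) : open Classical in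
    Disjoint ((Finset.univ.erase i).image (MvPolynomial.X : Fin r → MvPolynomial (Fin r) k))
      (Λ.image MvPolynomial.C) := by
  classical
  rw [Finset.disjoint_left]
  intro a ha hb
  obtain ⟨j, _, rfl⟩ := Finset.mem_image.1 ha
  obtain ⟨c, _, hc⟩ := Finset.mem_image.1 hb
  exact X_ne_C j c hc.symm

lemma card_others (i : Fin r) (Λ : Finset k) : (others i Λ).card + 1 = Λ.card + r := by
  classical
  unfold others
  rw [Finset.card_union_of_disjoint (others_disj i Λ),
    Finset.card_image_of_injective _ (MvPolynomial.X_injective),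
    Finset.card_image_of_injective _ (MvPolynomial.C_injective _ _),
    Finset.card_erase_of_mem (Finset.mem_univ i), Finset.card_univ, Fintype.card_fin]
  have := i.2
  omega

lemma D_others (i : Fin r) (Λ : Finset k) : ∀ l ∈ others i Λ, Dp i l = 0 := by
  classical
  intro l hl
  unfold others at hl
  rcases Finset.mem_union.1 hl with h | h
  · obtain ⟨j, hj, rfl⟩ := Finset.mem_image.1 h
    exact Dp_X_of_ne (Finset.ne_of_mem_erase hj)
  · obtain ⟨c, _, rfl⟩ := Finset.mem_image.1 h
    exact Dp_C i c

lemma Fg_eq (i : Fin r) (Λ : Finset k) :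
    Fg r Λ = (X - C (MvPolynomial.X i)) * ∏ l ∈ others i Λ, (X - C l) := by
  classical
  unfold Fg others
  rw [Finset.prod_union (others_disj i Λ), Finset.prod_image (fun a _ b _ h =>
    MvPolynomial.X_injective h), Finset.prod_image (fun a _ b _ h => MvPolynomial.C_injective _ _ h),
    ← mul_assoc, Finset.mul_prod_erase _ (fun j => (X - C (MvPolynomial.X j : MvPolynomial (Fin r) k)))
      (Finset.mem_univ i)]

lemma natDegree_Fg (Λ : Finset k) : (Fg r Λ).natDegree = r + Λ.card := by
  unfold Fg
  rw [Monic.natDegree_mul (monic_prod_of_monic _ _ fun i _ => monic_X_sub_C _)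
    (monic_prod_of_monic _ _ fun i _ => monic_X_sub_C _),
    natDegree_prod_of_monic _ _ (fun l _ => monic_X_sub_C _),
    natDegree_prod_of_monic _ _ (fun l _ => monic_X_sub_C _)]
  simp

variable (p : ℕ) [Fact p.Prime] [CharP k p]

/-- a nonzero element of the generic kernel of the Cartier operator has large degree -/
lemma degree_kernel (hp2 : 2 < p) (g : ℕ) (Λ : Finset k) (hΛ : Λ.card + r = 2 * g + 1) (N : ℕ)
    (hN : 2 * N + 1 = p) (U : (MvPolynomial (Fin r) k)[X]) (hU : U.degree < g) (hU0 : U ≠ 0)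
    (hU' : NoTop p (U * Fg r Λ ^ N)) : r * (N + 1) ≤ U.natDegree := by
  classical
  let R := MvPolynomial (Fin r) k
  let K := FractionRing R
  let φ : R →+* K := algebraMap R K
  have hφ : Function.Injective φ := IsFractionRing.injective R K
  have h1 : ∀ i : Fin r, (X - C (MvPolynomial.X i)) ^ (N + 1) ∣ U := by
    intro i
    have hc := card_others i Λ
    rw [Fg_eq i Λ] at hU'
    exact L_pow_dvd p (Dp i) hp2 g (others i Λ) (by omega) (D_others i Λ) _ (Dp_X_self i) N hN (N + 1)
      le_rfl U hU hU'
  have h2 : (∏ i : Fin r, (X - C (φ (MvPolynomial.X i))) ^ (N + 1)) ∣ U.map φ := by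
    apply Finset.prod_dvd_of_coprime
    · intro i _ j _ hij
      have hinj : Function.Injective (fun i : Fin r => φ (MvPolynomial.X i)) :=
        fun a b h => MvPolynomial.X_injective (hφ h)
      exact (pairwise_coprime_X_sub_C hinj hij).pow
    · intro i _
      have := Polynomial.map_dvd φ (h1 i)
      simpa using this
  have hU1 : U.map φ ≠ 0 := (Polynomial.map_ne_zero_iff hφ).2 hU0
  have h3 := natDegree_le_of_dvd h2 hU1
  rw [natDegree_map_eq_of_injective hφ, natDegree_prod_of_monic _ _
    (fun i _ => (monic_X_sub_C _).pow _)] at h3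
  simpa [natDegree_pow] using h3

/-- the inclusion of the first `d` coordinates -/
def Emat (R : Type*) [Zero R] [One R] (g d : ℕ) (hd : d ≤ g) : Matrix (Fin g) (Fin d) R :=
  Matrix.of fun i j => if i = Fin.castLE hd j then 1 else 0

lemma Emat_mulVec {R : Type*} [CommRing R] (g d : ℕ) (hd : d ≤ g) (a : Fin d → R) (i : Fin g) :
    (Emat R g d hd).mulVec a i = if h : (i : ℕ) < d then a ⟨i, h⟩ else 0 := by
  unfold Emat
  rw [Matrix.mulVec, dotProduct]
  simp only [Matrix.of_apply]
  split_ifs with h
  · rw [Finset.sum_eq_single (⟨i, h⟩ : Fin d)]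
    · have e : i = Fin.castLE hd ⟨i, h⟩ := Fin.ext rfl
      rw [if_pos e, one_mul]
    · intro b _ hb
      rw [if_neg, zero_mul]
      intro h1
      apply hb
      apply Fin.ext
      have := congrArg Fin.val h1
      simpa using this.symm
    · intro h1; exact absurd (Finset.mem_univ _) h1
  · apply Finset.sum_eq_zero
    intro b _
    rw [if_neg, zero_mul]
    intro h1
    have := congrArg Fin.val h1
    have hb := b.2
    simp at this
    omega

lemma Emat_map {R S : Type*} [CommRing R] [CommRing S] (f : R →+* S) (g d : ℕ) (hd : d ≤ g) :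
    (Emat R g d hd).map f = Emat S g d hd := by
  ext i j
  unfold Emat
  simp only [Matrix.map_apply, Matrix.of_apply]
  split_ifs <;> simp

lemma hasseWitt_map {R S : Type*} [CommRing R] [CommRing S] (f : R →+* S) (g : ℕ) (P : R[X]) :
    (hasseWitt p g P).map f = hasseWitt p g (P.map f) := by
  ext i j
  rw [Matrix.map_apply, hasseWitt, hasseWitt, Matrix.of_apply, Matrix.of_apply,
    ← map_X f, ← Polynomial.map_pow, ← Polynomial.map_pow, ← Polynomial.map_mul, coeff_map]

/-- generic injectivity -/
lemma generic_inj (hp2 : 2 < p) (g d : ℕ) (hg : 1 ≤ g) (hd : d ≤ g) (Λ : Finset k)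
    (hΛ : Λ.card + r = 2 * g + 1) (N : ℕ) (hN : 2 * N + 1 = p) (hd' : d ≤ r * (N + 1))
    (a : Fin d → MvPolynomial (Fin r) k)
    (ha : Matrix.mulVec (hasseWitt p g (Fg r Λ) * Emat (MvPolynomial (Fin r) k) g d hd :
      Matrix (Fin g) (Fin d) (MvPolynomial (Fin r) k)) a = 0) : a = 0 := by
  obtain ⟨a', ha'⟩ : ∃ a', a' = (Emat (MvPolynomial (Fin r) k) g d hd).mulVec a := ⟨_, rfl⟩
  rw [← Matrix.mulVec_mulVec, ← ha'] at ha
  have hdeg : (Fg r Λ).natDegree ≤ 2 * g + 1 := by rw [natDegree_Fg]; omega
  have h1 := noTop_of_mulVec p g N hN (Fg r Λ) hdeg hg a' ha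
  obtain ⟨U, hU⟩ : ∃ U : (MvPolynomial (Fin r) k)[X], U = ∑ j : Fin g, C (a' j) * X ^ (j : ℕ) :=
    ⟨_, rfl⟩
  have hUd := degree_sum_lt g a'
  rw [← hU] at h1 hUd
  have hUc : ∀ j : Fin g, U.coeff j = a' j := fun j => by rw [hU, coeff_sum_fin]
  have hU0 : U = 0 := by
    by_contra hne
    have h2 := degree_kernel p hp2 g Λ hΛ N hN U hUd hne h1
    have h3 : U.natDegree < d := by
      by_contra hcon
      push Not at hcon
      have h4 : U.coeff U.natDegree ≠ 0 := by
        rw [coeff_natDegree]; exact leadingCoeff_ne_zero.2 hne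
      have h5 : U.natDegree < g := (natDegree_lt_iff_degree_lt hne).2 hUd
      apply h4
      have h6 := hUc ⟨U.natDegree, h5⟩
      simp only at h6
      rw [h6, ha', Emat_mulVec, dif_neg (by simpa using hcon)]
    omega
  funext j
  have h7 := hUc (Fin.castLE hd j)
  rw [hU0, coeff_zero, ha', Emat_mulVec, dif_pos (by simp)] at h7
  exact h7.symm

end generic

end Pool.Agent.Y218.HW
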