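import Pool.Agent.Y218.HWGen
import Pool.Agent.Results.MP_2ca583_ag.Disproof

/-! Hyperelliptic curves in characteristic `p`: moving `r` branch points. -/

set_option autoImplicit false

open Polynomial

namespace Pool.Agent.Y218.HW

open Pool.Agent.Results.MP_2ca583_ag.HasseWittClassification

/-- a left inverse up to a nonzero factor of a matrix over a domain with trivial kernel -/
lemma exists_left_factor {R : Type*} [CommRing R] [IsDomain R] {m n : ℕ}
    (A : Matrix (Fin m) (Fin n) R) (hA : ∀ a : Fin n → R, A.mulVec a = 0 → a = 0) :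
    ∃ (δ : R) (B : Matrix (Fin n) (Fin m) R), δ ≠ 0 ∧ B * A = δ • (1 : Matrix (Fin n) (Fin n) R) := by
  classical
  let K := FractionRing R
  let φ : R →+* K := algebraMap R K
  have hφ : Function.Injective φ := IsFractionRing.injective R K
  have hker : LinearMap.ker (Matrix.toLin' (A.map φ)) = ⊥ := by
    rw [LinearMap.ker_eq_bot']
    intro b hb
    rw [Matrix.toLin'_apply] at hb
    obtain ⟨s, hs⟩ := IsLocalization.exist_integer_multiples_of_finite (nonZeroDivisors R) b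
    choose a ha using hs
    have hs0 : (s : R) ≠ 0 := nonZeroDivisors.coe_ne_zero s
    have h1 : A.mulVec a = 0 := by
      funext i
      apply hφ
      have h2 : φ (A.mulVec a i) = φ (s : R) * (A.map φ).mulVec b i := by
        rw [Matrix.mulVec, Matrix.mulVec, dotProduct, dotProduct, map_sum, Finset.mul_sum]
        refine Finset.sum_congr rfl fun j _ => ?_
        have h3 : φ (a j) = φ (s : R) * b j := by
          have := ha j
          rw [Algebra.smul_def] at this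
          exact this
        rw [map_mul, h3, Matrix.map_apply]
        ring
      rw [h2, hb, Pi.zero_apply, mul_zero, Pi.zero_apply, map_zero]
    have h4 := hA a h1
    funext j
    have h5 := ha j
    rw [h4, Pi.zero_apply, map_zero, Algebra.smul_def] at h5
    rcases mul_eq_zero.1 h5.symm with h | h
    · exact absurd (hφ (h.trans (map_zero φ).symm)) hs0
    · exact h
  obtain ⟨f, hf⟩ := LinearMap.exists_leftInverse_of_injective (Matrix.toLin' (A.map φ)) hker
  obtain ⟨B₀, hB₀⟩ : ∃ B₀ : Matrix (Fin n) (Fin m) K, B₀ = LinearMap.toMatrix' f := ⟨_, rfl⟩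
  have hBA : B₀ * A.map φ = 1 := by
    have h1 := congrArg LinearMap.toMatrix' hf
    rw [LinearMap.toMatrix'_comp, LinearMap.toMatrix'_toLin', LinearMap.toMatrix'_id] at h1
    rw [hB₀]
    exact h1
  obtain ⟨s, hs⟩ := IsLocalization.exist_integer_multiples_of_finite (nonZeroDivisors R)
    (fun x : Fin n × Fin m => B₀ x.1 x.2)
  choose B' hB' using hs
  have hs0 : (s : R) ≠ 0 := nonZeroDivisors.coe_ne_zero s
  refine ⟨s, Matrix.of fun i j => B' (i, j), hs0, ?_⟩
  ext i j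
  apply hφ
  have h1 : φ (((Matrix.of fun i j => B' (i, j)) * A) i j) = φ (s : R) * (B₀ * A.map φ) i j := by
    rw [Matrix.mul_apply, Matrix.mul_apply, map_sum, Finset.mul_sum]
    refine Finset.sum_congr rfl fun l _ => ?_
    have h3 : φ (B' (i, l)) = φ (s : R) * B₀ i l := by
      have := hB' (i, l)
      rw [Algebra.smul_def] at this
      exact this
    rw [map_mul, Matrix.of_apply, h3, Matrix.map_apply]
    ring
  rw [h1, hBA, Matrix.smul_apply, smul_eq_mul, map_mul]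
  congr 1
  rw [Matrix.one_apply, Matrix.one_apply]
  split_ifs <;> simp

section

variable {k : Type*} [Field k] [IsAlgClosed k] (p : ℕ) [Fact p.Prime] [CharP k p]

omit [IsAlgClosed k] [Fact p.Prime] [CharP k p] in
lemma map_Fg {r : ℕ} (Λ : Finset k) (μ : Fin r → k) :
    (Fg r Λ).map (MvPolynomial.eval μ) = (∏ i, (X - C (μ i))) * ∏ l ∈ Λ, (X - C l) := by
  unfold Fg
  rw [Polynomial.map_mul, Polynomial.map_prod, Polynomial.map_prod]
  simp

theorem exists_left (hp2 : 2 < p) (g d r : ℕ) (hg : 1 ≤ g) (hd : d ≤ g) (Λ : Finset k)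
    (hΛ : Λ.card + r = 2 * g + 1) (hd' : 2 * d ≤ r * (p + 1)) :
    ∃ μ : Fin r → k, Function.Injective μ ∧ (∀ i, μ i ∉ Λ) ∧
      ∃ Y : Matrix (Fin d) (Fin g) k,
        Y * (hasseWitt p g ((∏ i, (X - C (μ i))) * ∏ l ∈ Λ, (X - C l)) * Emat k g d hd) = 1 := by
  classical
  obtain ⟨N, hN⟩ : ∃ N, 2 * N + 1 = p := ⟨(p - 1) / 2, two_mul_half p hp2⟩
  have hd2 : d ≤ r * (N + 1) := by
    have : r * (p + 1) = 2 * (r * (N + 1)) := by rw [← hN]; ring
    omega
  obtain ⟨δ, B, hδ, hB⟩ := exists_left_factor _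
    (generic_inj (r := r) p hp2 g d hg hd Λ hΛ N hN hd2)
  -- a good specialization
  obtain ⟨Q, hQ⟩ : ∃ Q : MvPolynomial (Fin r) k, Q = δ *
    ((∏ x ∈ (Finset.univ : Finset (Fin r × Fin r)).filter (fun x => x.1 ≠ x.2),
      (MvPolynomial.X x.1 - MvPolynomial.X x.2)) *
    ∏ i : Fin r, ∏ l ∈ Λ, (MvPolynomial.X i - MvPolynomial.C l)) := ⟨_, rfl⟩
  have hQ0 : Q ≠ 0 := by
    rw [hQ]
    refine mul_ne_zero hδ (mul_ne_zero ?_ ?_)
    · rw [Finset.prod_ne_zero_iff]
      intro x hx h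
      rw [Finset.mem_filter] at hx
      exact hx.2 (MvPolynomial.X_injective (sub_eq_zero.1 h))
    · rw [Finset.prod_ne_zero_iff]
      intro i _
      rw [Finset.prod_ne_zero_iff]
      intro l _ h
      exact X_ne_C i l (sub_eq_zero.1 h)
  obtain ⟨μ, hμ⟩ : ∃ μ : Fin r → k, MvPolynomial.eval μ Q ≠ 0 := by
    by_contra hcon
    push Not at hcon
    apply hQ0
    apply MvPolynomial.funext
    intro x
    rw [hcon x, map_zero]
  rw [hQ, map_mul, map_mul] at hμ
  have h1 : MvPolynomial.eval μ δ ≠ 0 := fun h => hμ (by rw [h, zero_mul])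
  refine ⟨μ, ?_, ?_, (MvPolynomial.eval μ δ)⁻¹ • B.map (MvPolynomial.eval μ), ?_⟩
  · intro a b hab
    by_contra hne
    apply hμ
    have : MvPolynomial.eval μ (∏ x ∈ (Finset.univ : Finset (Fin r × Fin r)).filter
        (fun x => x.1 ≠ x.2), (MvPolynomial.X x.1 - MvPolynomial.X x.2)) = 0 := by
      rw [map_prod]
      apply Finset.prod_eq_zero (i := (a, b))
      · rw [Finset.mem_filter]; exact ⟨Finset.mem_univ _, hne⟩
      · simp [hab]
    rw [this, zero_mul, mul_zero]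
  · intro i hi
    apply hμ
    have : MvPolynomial.eval μ (∏ i : Fin r, ∏ l ∈ Λ,
        (MvPolynomial.X i - MvPolynomial.C l)) = 0 := by
      rw [map_prod]
      apply Finset.prod_eq_zero (Finset.mem_univ i)
      rw [map_prod]
      apply Finset.prod_eq_zero hi
      simp
    rw [this, mul_zero, mul_zero]
  · have h2 := congrArg (fun Z : Matrix (Fin d) (Fin d) (MvPolynomial (Fin r) k) =>
      Z.map (MvPolynomial.eval μ)) hB
    rw [Matrix.map_mul, Matrix.map_mul, hasseWitt_map, map_Fg, Emat_map] at h2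
    rw [Matrix.smul_mul, h2]
    ext i j
    rw [Matrix.smul_apply, Matrix.map_apply, Matrix.smul_apply, smul_eq_mul, smul_eq_mul, map_mul,
      ← mul_assoc, inv_mul_cancel₀ h1, one_mul, Matrix.one_apply, Matrix.one_apply]
    split_ifs <;> simp

/-- moving `r` points one reaches a curve whose Hasse-Witt matrix has rank at least
`min g (r (p + 1) / 2)` -/
theorem exists_rank (hp2 : 2 < p) (g r : ℕ) (hg : 1 ≤ g) (Λ : Finset k)
    (hΛ : Λ.card + r = 2 * g + 1) :
    ∃ μ : Fin r → k, Function.Injective μ ∧ (∀ i, μ i ∉ Λ) ∧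
      min g (r * ((p + 1) / 2)) ≤
        (hasseWitt p g ((∏ i, (X - C (μ i))) * ∏ l ∈ Λ, (X - C l))).rank := by
  have hd : min g (r * ((p + 1) / 2)) ≤ g := min_le_left _ _
  have hd' : 2 * min g (r * ((p + 1) / 2)) ≤ r * (p + 1) := by
    have h1 : min g (r * ((p + 1) / 2)) ≤ r * ((p + 1) / 2) := min_le_right _ _
    have h2 : 2 * ((p + 1) / 2) ≤ p + 1 := Nat.mul_div_le _ _
    calc 2 * min g (r * ((p + 1) / 2)) ≤ 2 * (r * ((p + 1) / 2)) := by omega
      _ = r * (2 * ((p + 1) / 2)) := by ring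
      _ ≤ r * (p + 1) := Nat.mul_le_mul_left r h2
  obtain ⟨μ, h1, h2, Y, hY⟩ := exists_left p hp2 g _ r hg hd Λ hΛ hd'
  refine ⟨μ, h1, h2, ?_⟩
  have h3 := congrArg Matrix.rank hY
  rw [Matrix.rank_one, Fintype.card_fin] at h3
  rw [← h3]
  exact (Matrix.rank_mul_le_right _ _).trans (Matrix.rank_mul_le_left _ _)

theorem exists_ordinary (hp2 : 2 < p) (g r : ℕ) (hg : 1 ≤ g) (Λ : Finset k)
    (hΛ : Λ.card + r = 2 * g + 1) (h : 2 * g ≤ r * (p + 1)) :
    ∃ μ : Fin r → k, Function.Injective μ ∧ (∀ i, μ i ∉ Λ) ∧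
      (hasseWitt p g ((∏ i, (X - C (μ i))) * ∏ l ∈ Λ, (X - C l))).det ≠ 0 := by
  obtain ⟨μ, h1, h2, Y, hY⟩ := exists_left p hp2 g g r hg le_rfl Λ hΛ h
  refine ⟨μ, h1, h2, ?_⟩
  have hE : Emat k g g le_rfl = 1 := by
    ext i j
    unfold Emat
    rw [Matrix.of_apply, Matrix.one_apply]
    simp
  rw [hE, Matrix.mul_one] at hY
  intro h0
  have h3 := congrArg Matrix.det hY
  rw [Matrix.det_mul, h0, mul_zero, Matrix.det_one] at h3
  exact zero_ne_one h3

/-- from few elements killed by `p` to the `p`-rank -/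
theorem prank_lt (hp2 : 2 < p) (f : k[X]) (hsq : Squarefree f) (g : ℕ) (hg : 1 ≤ g)
    (hfd : f.natDegree = 2 * g + 1) (u : k[X]) (hu : u ≠ 0) (hud : u.degree < g)
    (hu0 : cart p (u * f ^ ((p - 1) / 2)) = 0) :
    ∃ s < g, Pool.Agent.Results.MP_2ca583_ag.Disproof.HasPRank p f s := by
  obtain ⟨hfin, hle⟩ := Pool.Agent.Results.MP_2ca583_ag.Disproof.card_torsion_le p hp2 f hsq g hg hfd
    u hu hud hu0
  have hfinite : Finite {c : CommRing.Pic (AdjoinRoot (X ^ 2 - C f : k[X][X])) // c ^ p = 1} := hfin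
  have hpow : ∃ r, Nat.card {c : CommRing.Pic (AdjoinRoot (X ^ 2 - C f : k[X][X])) //
      c ^ p = 1} = p ^ r := by
    let G : Subgroup (CommRing.Pic (AdjoinRoot (X ^ 2 - C f : k[X][X]))) := (powMonoidHom p).ker
    have hG : IsPGroup p G := by
      intro x
      refine ⟨1, ?_⟩
      rw [pow_one]
      apply Subtype.ext
      exact x.2
    have hGfin : Finite G := hfinite
    obtain ⟨r, hr⟩ := IsPGroup.iff_card.1 hG
    exact ⟨r, hr⟩
  obtain ⟨r, hr⟩ := hpow
  refine ⟨r, ?_, hr⟩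
  have h3 : p ^ r ≤ p ^ (g - 1) := by
    rw [← hr]; exact hle
  have h4 := (Nat.pow_le_pow_iff_right (Fact.out : p.Prime).one_lt).1 h3
  omega

theorem exists_bad (hp2 : 2 < p) (g r : ℕ) (h : r * (p + 1) < 2 * g) :
    ∃ Λ : Finset k, Λ.card + r = 2 * g + 1 ∧ ∀ μ : Fin r → k,
      (hasseWitt p g ((∏ i, (X - C (μ i))) * ∏ l ∈ Λ, (X - C l))).det = 0 ∧
      (Function.Injective μ → (∀ i, μ i ∉ Λ) → ∃ s < g,
        Pool.Agent.Results.MP_2ca583_ag.Disproof.HasPRank p
          ((∏ i, (X - C (μ i))) * ∏ l ∈ Λ, (X - C l)) s) := by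
  classical
  have hN := two_mul_half p hp2
  obtain ⟨N, hNdef⟩ : ∃ N, N = (p - 1) / 2 := ⟨_, rfl⟩
  rw [← hNdef] at hN
  have h0 : r * (p + 1) = 2 * (r * (N + 1)) := by rw [← hN]; ring
  obtain ⟨e, he⟩ : ∃ e, g = r * (N + 1) + e := ⟨g - r * (N + 1), by omega⟩
  have he1 : 1 ≤ e := by omega
  obtain ⟨h, w, hmon, hsep, hdeg, hw, hwd, hcart⟩ := exists_fam (k := k) p hp2 r e he1
  obtain ⟨Λ, hΛ, hprod⟩ := monic_sep_eq_prod h hmon hsep
  have hcard : Λ.card + r = 2 * g + 1 := by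
    rw [hΛ, hdeg, he]
    have : r * p + r = 2 * (r * (N + 1)) := by rw [← h0]; ring
    omega
  refine ⟨Λ, hcard, fun μ => ?_⟩
  obtain ⟨P, hP⟩ : ∃ P : k[X], P = ∏ i, (X - C (μ i)) := ⟨_, rfl⟩
  have hPm : P.Monic := by rw [hP]; exact monic_prod_of_monic _ _ fun i _ => monic_X_sub_C _
  have hPd : P.natDegree = r := by
    rw [hP, natDegree_prod_of_monic _ _ (fun i _ => monic_X_sub_C _)]
    simp
  have hu : P ^ (N + 1) * w ≠ 0 := mul_ne_zero (pow_ne_zero _ hPm.ne_zero) hw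
  have hud : (P ^ (N + 1) * w).degree < (g : WithBot ℕ) := by
    rw [degree_eq_natDegree hu, natDegree_mul (pow_ne_zero _ hPm.ne_zero) hw, natDegree_pow, hPd]
    have : (N + 1) * r = r * (N + 1) := mul_comm _ _
    exact_mod_cast (by omega)
  have hu0 : cart p (P ^ (N + 1) * w * (P * h) ^ ((p - 1) / 2)) = 0 := by
    have h1 : P ^ (N + 1) * w * (P * h) ^ ((p - 1) / 2) = P ^ p * (w * h ^ ((p - 1) / 2)) := by
      have h2 : P ^ p = P ^ (2 * N + 1) := by rw [hN]
      rw [← hNdef, mul_pow, h2]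
      ring
    rw [h1, cart_pow_mul, hcart, mul_zero]
  rw [← hprod, ← hP]
  refine ⟨det_eq_zero_of_exact p g _ _ hu hud (noTop_of_cart p _ hu0), fun hinj hmem => ?_⟩
  have hfd : (P * h).natDegree = 2 * g + 1 := by
    rw [hPm.natDegree_mul hmon, hPd, ← hcard, hΛ]; ring
  have hsq : Squarefree (P * h) := by
    apply Separable.squarefree
    rw [hP, hprod]
    have hdisj : Disjoint (Finset.univ.image μ) Λ := by
      rw [Finset.disjoint_left]
      intro a ha
      obtain ⟨i, _, rfl⟩ := Finset.mem_image.1 ha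
      exact hmem i
    have e1 : (∏ i, (X - C (μ i)) : k[X]) * ∏ l ∈ Λ, (X - C l) =
        ∏ l ∈ Finset.univ.image μ ∪ Λ, (X - C l) := by
      rw [Finset.prod_union hdisj, Finset.prod_image (fun a _ b _ h => hinj h)]
    rw [e1]
    exact (separable_prod_X_sub_C_iff' (f := fun l : k => l)).2 (fun x _ y _ h => h)
  exact prank_lt p hp2 (P * h) hsq g (by omega) hfd _ hu hud hu0

/-- **the classification** -/
theorem classification_r (hp2 : 2 < p) (g r : ℕ) (hg : 1 ≤ g) :
    (∀ Λ : Finset k, Λ.card + r = 2 * g + 1 →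
      ∃ μ : Fin r → k, Function.Injective μ ∧ (∀ i, μ i ∉ Λ) ∧
        (hasseWitt p g ((∏ i, (X - C (μ i))) * ∏ l ∈ Λ, (X - C l))).det ≠ 0) ↔
      2 * g ≤ r * (p + 1) := by
  constructor
  · intro h
    by_contra hcon
    obtain ⟨Λ, hΛ, hneg⟩ := exists_bad (k := k) p hp2 g r (by omega)
    obtain ⟨μ, _, _, hdet⟩ := h Λ hΛ
    exact hdet (hneg μ).1
  · intro h Λ hΛ
    exact exists_ordinary p hp2 g r hg Λ hΛ h

end

end Pool.Agent.Y218.HW
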