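import Pool.Agent.Helper819.Comp

/-!
One curve in `M_d^N` over which, for every period `n`, there is a rational component.
-/

set_option autoImplicit false

open MvPolynomial

namespace Pool.Agent.Y218.RC

open Pool.Agent.Helper819.Dyn Pool.Agent.Helper819.Zar

variable {k : Type} [Field k] [IsAlgClosed k] {N d n : ℕ}

/-- the member `[x_0^d : … : x_{N-1}^d : x_N^d + t x_0^(d-1) x_N]` of the family -/
noncomputable def ft (hN : 2 ≤ N) (hd : 2 ≤ d) (t : k) : EndTuple k N d :=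
  ⟨famT N d t, famT_isEnd (by omega) hd t⟩

theorem Gam_eq (hN : 2 ≤ N) (hd : 2 ≤ d) (hn : 1 ≤ n) {ζ : k}
    (hζ : IsPrimitiveRoot ζ (d ^ n - 1)) :
    Gam N d n ζ = closure (Set.range fun t : k => cls (ft hN hd t)) := by
  have hNd : 0 < N + d := by omega
  unfold Gam
  congr 1
  ext m
  constructor
  · rintro ⟨_, ⟨x, hx, rfl⟩, rfl⟩
    obtain ⟨A, hA, s, hs, t, rfl⟩ := (mem_DD hN hd hn hζ x).mp hx
    exact ⟨t, (cls_eq_iff hNd _ _).mpr ⟨A, hA, rfl⟩⟩
  · rintro ⟨t, rfl⟩
    exact ⟨base (xt hN hd hn hζ t), ⟨_, xt_mem hN hd hn hζ t, rfl⟩, rfl⟩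

theorem exists_root [CharZero k] (hd : 2 ≤ d) (hn : 1 ≤ n) :
    ∃ ζ : k, IsPrimitiveRoot ζ (d ^ n - 1) := by
  have hpos : 1 < d ^ n := Nat.one_lt_pow (by omega) (by omega)
  have : NeZero ((d ^ n - 1 : ℕ) : k) := ⟨by
    rw [Nat.cast_ne_zero]; omega⟩
  exact HasEnoughRootsOfUnity.exists_primitiveRoot k (d ^ n - 1)

/-- The component. -/
theorem component [CharZero k] (hN : 2 ≤ N) (hd : 2 ≤ d) (hn : 1 ≤ n) {ζ : k}
    (hζ : IsPrimitiveRoot ζ (d ^ n - 1)) :
    ∃ Δ ∈ irreducibleComponents ↥(forget k N d n ⁻¹' Gam N d n ζ),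
      IsRationalCurve (Subtype.val '' Δ) ∧
      closure (forget k N d n '' (Subtype.val '' Δ)) = Gam N d n ζ := by
  have hNd : 0 < N + d := by omega
  have hcs := closure_subset hN hd hn hζ
  have hirr : IsIrreducible (closure (ptCls '' (DD N d n ζ))) :=
    ((DD_irred hN hd hn hζ).image _ continuous_ptCls.continuousOn).closure
  refine ⟨Subtype.val ⁻¹' closure (ptCls '' DD N d n ζ), ?_, ?_, ?_⟩
  · refine ⟨preirred_subtype hcs hirr, ?_⟩
    intro C hC hle
    exact key hN hd hn hζ hC hle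
  · rw [Subtype.image_preimage_coe, Set.inter_eq_right.mpr hcs]
    refine ⟨?_, fun i => famT N d Polynomial.X i, fun i => Polynomial.C (ptz N ζ i),
      fun t => xt hN hd hn hζ t, ?_, ?_⟩
    · intro hs
      have h0 : ptCls (xt hN hd hn hζ 0) ∈ closure (ptCls '' DD N d n ζ) :=
        subset_closure ⟨_, xt_mem hN hd hn hζ 0, rfl⟩
      have h1 : ptCls (xt hN hd hn hζ 1) ∈ closure (ptCls '' DD N d n ζ) :=
        subset_closure ⟨_, xt_mem hN hd hn hζ 1, rfl⟩
      obtain ⟨A, hA, s, hs', h2⟩ := (ptCls_eq_iff hNd _ _).mp (hs h0 h1)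
      have h3 : famT N d (1 : k) = act A (famT N d (0 : k)) :=
        congrArg (fun x : PtTuple k N d n => x.1.1) h2
      exact famT_ne (by omega) hd A hA h3
    · intro t
      refine Prod.ext ?_ ?_
      · funext i
        change famT N d t i = map (Polynomial.evalRingHom t) (famT N d Polynomial.X i)
        rw [map_famT]
        simp
      · funext i
        change ptz N ζ i = _
        simp
    · rw [image_DD hN hd hn hζ]
  · rw [Subtype.image_preimage_coe, Set.inter_eq_right.mpr hcs]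
    apply le_antisymm
    · apply closure_minimal _ isClosed_closure
      rintro _ ⟨x, hx, rfl⟩
      exact hcs hx
    · unfold Gam
      apply closure_mono
      rintro _ ⟨_, ⟨x, hx, rfl⟩, rfl⟩
      exact ⟨ptCls x, subset_closure ⟨x, hx, rfl⟩, rfl⟩

/-- **One curve for all periods.** -/
theorem main (k : Type) [Field k] [IsAlgClosed k] [CharZero k] {N d : ℕ} (hN : 2 ≤ N)
    (hd : 2 ≤ d) : ∃ Γ : Set (Moduli k N d), IsClosed Γ ∧ IsIrreducible Γ ∧ ¬ Γ.Subsingleton ∧
      Γ = closure (Set.range fun t : k => cls (ft hN hd t)) ∧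
      ∀ n, 1 ≤ n → ∃ Δ ∈ irreducibleComponents ↥(forget k N d n ⁻¹' Γ),
        IsRationalCurve (Subtype.val '' Δ) ∧
        closure (forget k N d n '' (Subtype.val '' Δ)) = Γ := by
  have hNd : 0 < N + d := by omega
  obtain ⟨ζ, hζ⟩ := exists_root (k := k) (n := 1) hd le_rfl
  refine ⟨closure (Set.range fun t : k => cls (ft hN hd t)), isClosed_closure, ?_, ?_, rfl, ?_⟩
  · rw [← Gam_eq hN hd le_rfl hζ]
    exact Gam_irred hN hd le_rfl hζ
  · intro hs
    have h1 : cls (ft hN hd (0 : k)) = cls (ft hN hd (1 : k)) :=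
      hs (subset_closure ⟨0, rfl⟩) (subset_closure ⟨1, rfl⟩)
    obtain ⟨A, hA, h2⟩ := (cls_eq_iff hNd _ _).mp h1
    have h3 : famT N d (1 : k) = act A (famT N d (0 : k)) :=
      congrArg (fun x : EndTuple k N d => x.1) h2
    exact famT_ne (by omega) hd A hA h3
  · intro n hn
    obtain ⟨ζ', hζ'⟩ := exists_root (k := k) hd hn
    rw [← Gam_eq hN hd hn hζ']
    exact component hN hd hn hζ'

end Pool.Agent.Y218.RC
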