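import Pool.Agent.Y218.RC

set_option autoImplicit false

open MvPolynomial

namespace Pool.Agent.Y218.RC

open Pool.Agent.Helper819.Dyn Pool.Agent.Helper819.Zar

variable {k : Type} [Field k] {N d n : ℕ}

theorem evB_iter (x : PtTuple k N d n) (m : ℕ) (i : Fin (N + 1)) :
    evB x (iterT (gen k N d) m i) = ((evalMap x.1.1)^[m] x.1.2) i := by
  unfold evB
  rw [RingHom.comp_apply]
  have h1 : map (eval (fc x)) (iterT (gen k N d) m i) =
      iterT (fun j => map (eval (fc x)) (gen k N d j)) m i :=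
    congrFun (map_iterT (eval (fc x)) (gen k N d) m) i
  rw [h1]
  have h2 : (fun j => map (eval (fc x)) (gen k N d j)) = x.1.1 :=
    spec_gen (⟨x.1.1, x.2.1⟩ : EndTuple k N d)
  rw [h2, eval_iterT]

/-- the minor -/
def mnr {R : Type} [CommRing R] (a b : Fin (N + 1)) (v w : Fin (N + 1) → R) : R :=
  v a * w b - v b * w a

theorem ptz_lin (z : k) : ptz N z = z • (ptz N 1 - ptz N 0) + ptz N 0 := by
  funext i
  rw [Pi.add_apply, Pi.smul_apply, Pi.sub_apply, smul_eq_mul]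
  unfold ptz
  split_ifs <;> ring

theorem mnr_lin (a b : Fin (N + 1)) (U W : Fin (N + 1) → k) (c c' z z' : k) :
    mnr a b (c • (z • U + W)) (c' • (z' • U + W)) = c * c' * (z - z') * mnr a b U W := by
  simp only [mnr, Pi.smul_apply, Pi.add_apply, smul_eq_mul]
  ring

variable [IsAlgClosed k]

theorem rel_DD (hN : 2 ≤ N) (hd : 2 ≤ d) (hn : 1 ≤ n) {ζ : k}
    (hζ : IsPrimitiveRoot ζ (d ^ n - 1)) (a b : Fin (N + 1)) {x : PtTuple k N d n}
    (hx : x ∈ DD N d n ζ) :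
    mnr a b ((evalMap x.1.1)^[0] x.1.2) ((evalMap x.1.1)^[2] x.1.2) *
      mnr a b ((evalMap x.1.1)^[1] x.1.2) ((evalMap x.1.1)^[3] x.1.2) *
        ((ζ ^ d ^ 0 - ζ ^ d ^ 3) * (ζ ^ d ^ 1 - ζ ^ d ^ 2)) -
    mnr a b ((evalMap x.1.1)^[0] x.1.2) ((evalMap x.1.1)^[3] x.1.2) *
      mnr a b ((evalMap x.1.1)^[1] x.1.2) ((evalMap x.1.1)^[2] x.1.2) *
        ((ζ ^ d ^ 0 - ζ ^ d ^ 2) * (ζ ^ d ^ 1 - ζ ^ d ^ 3)) = 0 := by
  obtain ⟨A, hA, s, hs, t, rfl⟩ := (mem_DD hN hd hn hζ x).mp hx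
  have h : ∀ m, ∃ c : k, (evalMap (act A (famT N d t)))^[m] (s • A.adjugate.mulVec (ptz N ζ)) =
      c • (ζ ^ d ^ m • A.adjugate.mulVec (ptz N 1 - ptz N 0) + A.adjugate.mulVec (ptz N 0)) := by
    intro m
    obtain ⟨c, _, h⟩ := iter_act A hA (famT_isEnd (by omega) hd t).1 s hs (ptz N ζ) m
    refine ⟨c, ?_⟩
    rw [h, iter_ptz hN (by omega), ptz_lin (ζ ^ d ^ m), Matrix.mulVec_add, Matrix.mulVec_smul]
  obtain ⟨c0, h0⟩ := h 0
  obtain ⟨c1, h1⟩ := h 1
  obtain ⟨c2, h2⟩ := h 2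
  obtain ⟨c3, h3⟩ := h 3
  change mnr a b ((evalMap (act A (famT N d t)))^[0] (s • A.adjugate.mulVec (ptz N ζ)))
      ((evalMap (act A (famT N d t)))^[2] (s • A.adjugate.mulVec (ptz N ζ))) *
      mnr a b ((evalMap (act A (famT N d t)))^[1] (s • A.adjugate.mulVec (ptz N ζ)))
      ((evalMap (act A (famT N d t)))^[3] (s • A.adjugate.mulVec (ptz N ζ))) * _ -
      mnr a b ((evalMap (act A (famT N d t)))^[0] (s • A.adjugate.mulVec (ptz N ζ)))
      ((evalMap (act A (famT N d t)))^[3] (s • A.adjugate.mulVec (ptz N ζ))) *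
      mnr a b ((evalMap (act A (famT N d t)))^[1] (s • A.adjugate.mulVec (ptz N ζ)))
      ((evalMap (act A (famT N d t)))^[2] (s • A.adjugate.mulVec (ptz N ζ))) * _ = 0
  rw [h0, h1, h2, h3, mnr_lin, mnr_lin, mnr_lin, mnr_lin]
  ring

theorem rel_closure (a b : Fin (N + 1)) (u w : k) {S : Set (PtTuple k N d n)}
    (hS : ∀ x ∈ S, mnr a b ((evalMap x.1.1)^[0] x.1.2) ((evalMap x.1.1)^[2] x.1.2) *
      mnr a b ((evalMap x.1.1)^[1] x.1.2) ((evalMap x.1.1)^[3] x.1.2) * u -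
    mnr a b ((evalMap x.1.1)^[0] x.1.2) ((evalMap x.1.1)^[3] x.1.2) *
      mnr a b ((evalMap x.1.1)^[1] x.1.2) ((evalMap x.1.1)^[2] x.1.2) * w = 0)
    {x : PtTuple k N d n} (hx : x ∈ closure S) :
    mnr a b ((evalMap x.1.1)^[0] x.1.2) ((evalMap x.1.1)^[2] x.1.2) *
      mnr a b ((evalMap x.1.1)^[1] x.1.2) ((evalMap x.1.1)^[3] x.1.2) * u -
    mnr a b ((evalMap x.1.1)^[0] x.1.2) ((evalMap x.1.1)^[3] x.1.2) *
      mnr a b ((evalMap x.1.1)^[1] x.1.2) ((evalMap x.1.1)^[2] x.1.2) * w = 0 := by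
  have hm : ∀ (x : PtTuple k N d n) (i j : ℕ), evB x (mnr a b (fun l => iterT (gen k N d) i l)
      (fun l => iterT (gen k N d) j l)) =
      mnr a b ((evalMap x.1.1)^[i] x.1.2) ((evalMap x.1.1)^[j] x.1.2) := by
    intro x i j
    unfold mnr
    rw [map_sub, map_mul, map_mul, evB_iter, evB_iter, evB_iter, evB_iter]
  have hP : ∀ x : PtTuple k N d n, eval (ptCoords x) ((sumAlgEquiv k _ _).symm
      (mnr a b (fun l => iterT (gen k N d) 0 l) (fun l => iterT (gen k N d) 2 l) *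
        mnr a b (fun l => iterT (gen k N d) 1 l) (fun l => iterT (gen k N d) 3 l) *
        C (C u) -
      mnr a b (fun l => iterT (gen k N d) 0 l) (fun l => iterT (gen k N d) 3 l) *
        mnr a b (fun l => iterT (gen k N d) 1 l) (fun l => iterT (gen k N d) 2 l) *
        C (C w))) =
      mnr a b ((evalMap x.1.1)^[0] x.1.2) ((evalMap x.1.1)^[2] x.1.2) *
      mnr a b ((evalMap x.1.1)^[1] x.1.2) ((evalMap x.1.1)^[3] x.1.2) * u -
    mnr a b ((evalMap x.1.1)^[0] x.1.2) ((evalMap x.1.1)^[3] x.1.2) *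
      mnr a b ((evalMap x.1.1)^[1] x.1.2) ((evalMap x.1.1)^[2] x.1.2) * w := by
    intro x
    rw [eval_ptCoords, AlgEquiv.apply_symm_apply, map_sub, map_mul, map_mul, map_mul, map_mul,
      hm, hm, hm, hm, evB_C, evB_C, eval_C, eval_C]
  rw [← hP]
  apply ((isZar_ptCoords k N d n).mem_closure_iff _ _).mp hx
  intro y hy
  rw [hP]
  exact hS y hy

theorem mnr_ptz (hN : 2 ≤ N) (z z' : k) :
    mnr 0 ⟨1, by omega⟩ (ptz N z) (ptz N z') = z - z' := by
  unfold mnr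
  rw [ptz_zero, ptz_zero, ptz_one (by omega), ptz_one (by omega)]
  ring

theorem cross (hN : 2 ≤ N) (hd : 2 ≤ d) (hn : 1 ≤ n) {ζ ζ' : k}
    (hζ : IsPrimitiveRoot ζ (d ^ n - 1)) (hζ' : IsPrimitiveRoot ζ' (d ^ n - 1))
    (h : closure (ptCls '' DD N d n ζ') = closure (ptCls '' DD N d n ζ)) :
    (ζ' ^ d ^ 0 - ζ' ^ d ^ 2) * (ζ' ^ d ^ 1 - ζ' ^ d ^ 3) *
        ((ζ ^ d ^ 0 - ζ ^ d ^ 3) * (ζ ^ d ^ 1 - ζ ^ d ^ 2)) -
    (ζ' ^ d ^ 0 - ζ' ^ d ^ 3) * (ζ' ^ d ^ 1 - ζ' ^ d ^ 2) *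
        ((ζ ^ d ^ 0 - ζ ^ d ^ 2) * (ζ ^ d ^ 1 - ζ ^ d ^ 3)) = 0 := by
  have hNd : 0 < N + d := by omega
  have hx : xt hN hd hn hζ' 0 ∈ closure (DD N d n ζ) := by
    have h1 : ptCls (xt hN hd hn hζ' 0) ∈ closure (ptCls '' DD N d n ζ) := by
      rw [← h]
      exact subset_closure ⟨_, xt_mem hN hd hn hζ' 0, rfl⟩
    have h2 : xt hN hd hn hζ' 0 ∈ ptCls ⁻¹' closure (ptCls '' DD N d n ζ) := h1
    rw [(isOpenMap_ptCls hNd).preimage_closure_eq_closure_preimage continuous_ptCls] at h2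
    have h3 : ptCls ⁻¹' (ptCls '' DD N d n ζ) = DD N d n ζ := by
      ext y
      constructor
      · rintro ⟨x, hx, hxy⟩
        obtain ⟨A, hA, s, hs, rfl⟩ := (ptCls_eq_iff hNd x y).mp hxy
        obtain ⟨B, hB, s', hs', t, rfl⟩ := (mem_DD hN hd hn hζ x).mp hx
        rw [act2_act2]
        exact (mem_DD hN hd hn hζ _).mpr ⟨_, _, _, _, t, rfl⟩
      · intro hy
        exact ⟨y, hy, rfl⟩
    rw [h3] at h2
    exact h2
  have h4 := rel_closure 0 ⟨1, by omega⟩ _ _ (fun y hy => rel_DD hN hd hn hζ 0 ⟨1, by omega⟩ hy) hx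
  have h5 : ∀ m, (evalMap (xt hN hd hn hζ' 0).1.1)^[m] (xt hN hd hn hζ' 0).1.2 =
      ptz N (ζ' ^ d ^ m) := fun m => iter_ptz hN (by omega) 0 ζ' m
  rw [h5, h5, h5, h5, mnr_ptz hN, mnr_ptz hN, mnr_ptz hN, mnr_ptz hN] at h4
  exact h4

theorem root_ne (hd : 2 ≤ d) (hn : 4 ≤ n) {ζ : k} (hζ : IsPrimitiveRoot ζ (d ^ n - 1))
    {i j : ℕ} (hij : i < j) (hj : j ≤ 3) : ζ ^ d ^ i - ζ ^ d ^ j ≠ 0 := by
  intro h
  have h1 : d ^ i < d ^ j := Nat.pow_lt_pow_right (by omega) hij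
  have h2 : d ^ j ≤ d ^ 3 := Nat.pow_le_pow_right (by omega) hj
  have h3 : d ^ 4 ≤ d ^ n := Nat.pow_le_pow_right (by omega) hn
  have h4 : d ^ 4 = d * d ^ 3 := by ring
  have h5 : 1 ≤ d ^ i := Nat.one_le_pow _ _ (by omega)
  have h6 : 2 * d ^ 3 ≤ d * d ^ 3 := Nat.mul_le_mul_right _ hd
  exact h1.ne (hζ.pow_inj (by omega) (by omega) (sub_eq_zero.1 h))

/-- the polynomial -/
noncomputable def gp (d : ℕ) (u w : k) : Polynomial k :=
  Polynomial.C u * ((Polynomial.X ^ 1 - Polynomial.X ^ d ^ 2) *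
      (Polynomial.X ^ d - Polynomial.X ^ d ^ 3)) -
    Polynomial.C w * ((Polynomial.X ^ 1 - Polynomial.X ^ d ^ 3) *
      (Polynomial.X ^ d - Polynomial.X ^ d ^ 2))

theorem gp_ne (hd : 2 ≤ d) {u w : k} (hu : u ≠ 0) : gp d u w ≠ 0 := by
  intro h
  have h1 := congrArg (fun p => Polynomial.coeff p (1 + d ^ 3)) h
  have e : gp d u w = Polynomial.C (u - w) * Polynomial.X ^ (1 + d) +
      Polynomial.C (u - w) * Polynomial.X ^ (d ^ 2 + d ^ 3) -
      Polynomial.C u * Polynomial.X ^ (1 + d ^ 3) - Polynomial.C u * Polynomial.X ^ (d ^ 2 + d) +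
      Polynomial.C w * Polynomial.X ^ (1 + d ^ 2) + Polynomial.C w * Polynomial.X ^ (d ^ 3 + d) := by
    unfold gp
    rw [Polynomial.C_sub]
    ring
  have d2 : 2 * d ≤ d ^ 2 := by nlinarith
  have d3 : 2 * d ^ 2 ≤ d ^ 3 := by
    have : d ^ 3 = d * d ^ 2 := by ring
    rw [this]; exact Nat.mul_le_mul_right _ hd
  have d4 : d ^ 2 + d ≠ 1 + d ^ 3 := by
    intro h0
    omega
  rw [e] at h1
  simp only [Polynomial.coeff_add, Polynomial.coeff_sub, Polynomial.coeff_C_mul,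
    Polynomial.coeff_X_pow, Polynomial.coeff_zero] at h1
  rw [if_neg (by omega), if_neg (by omega), if_pos trivial, if_neg (by omega), if_neg (by omega),
    if_neg (by omega)] at h1
  apply hu
  linear_combination -h1

theorem gp_deg (hd : 2 ≤ d) (u w : k) : (gp d u w).natDegree ≤ d ^ 3 + d ^ 2 := by
  have h1 : 1 ≤ d ^ 2 := Nat.one_le_pow _ _ (by omega)
  have h2 : d ≤ d ^ 2 := Nat.le_self_pow (by omega) d
  have h3 : d ^ 2 ≤ d ^ 3 := Nat.pow_le_pow_right (by omega) (by omega)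
  have hx : ∀ a b c : ℕ, a ≤ c → b ≤ c →
      ((Polynomial.X : Polynomial k) ^ a - Polynomial.X ^ b).natDegree ≤ c := by
    intro a b c ha hb
    exact (Polynomial.natDegree_sub_le_of_le ((Polynomial.natDegree_X_pow_le (R := k) a).trans ha)
      ((Polynomial.natDegree_X_pow_le b).trans hb)).trans (max_self c).le
  unfold gp
  refine (Polynomial.natDegree_sub_le_of_le (m := d ^ 3 + d ^ 2) (n := d ^ 3 + d ^ 2) ?_ ?_).trans
    (max_self _).le
  · refine (Polynomial.natDegree_C_mul_le _ _).trans ?_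
    refine (Polynomial.natDegree_mul_le_of_le (hx 1 (d ^ 2) (d ^ 2) h1 le_rfl)
      (hx d (d ^ 3) (d ^ 3) (by omega) le_rfl)).trans ?_
    omega
  · refine (Polynomial.natDegree_C_mul_le _ _).trans ?_
    exact Polynomial.natDegree_mul_le_of_le (hx 1 (d ^ 3) (d ^ 3) (by omega) le_rfl)
      (hx d (d ^ 2) (d ^ 2) h2 le_rfl)

/-- The component, with its set. -/
theorem component' [CharZero k] (hN : 2 ≤ N) (hd : 2 ≤ d) (hn : 1 ≤ n) {ζ : k}
    (hζ : IsPrimitiveRoot ζ (d ^ n - 1)) :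
    ∃ Δ ∈ irreducibleComponents ↥(forget k N d n ⁻¹' Gam N d n ζ),
      Subtype.val '' Δ = closure (ptCls '' DD N d n ζ) ∧
      IsRationalCurve (Subtype.val '' Δ) ∧
      closure (forget k N d n '' (Subtype.val '' Δ)) = Gam N d n ζ := by
  have hNd : 0 < N + d := by omega
  have hcs := closure_subset hN hd hn hζ
  have hirr : IsIrreducible (closure (ptCls '' (DD N d n ζ))) :=
    ((DD_irred hN hd hn hζ).image _ continuous_ptCls.continuousOn).closure
  refine ⟨Subtype.val ⁻¹' closure (ptCls '' DD N d n ζ), ?_, ?_, ?_, ?_⟩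
  · refine ⟨preirred_subtype hcs hirr, ?_⟩
    intro C hC hle
    exact key hN hd hn hζ hC hle
  · rw [Subtype.image_preimage_coe, Set.inter_eq_right.mpr hcs]
  · rw [Subtype.image_preimage_coe, Set.inter_eq_right.mpr hcs]
    refine ⟨?_, fun i => famT N d Polynomial.X i, fun i => Polynomial.C (ptz N ζ i),
      fun t => xt hN hd hn hζ t, ?_, ?_⟩
    · intro hs
      have h0 : ptCls (xt hN hd hn hζ 0) ∈ closure (ptCls '' DD N d n ζ) :=
        subset_closure ⟨_, xt_mem hN hd hn hζ 0, rfl⟩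
      have h1 : ptCls (xt hN hd hn hζ 1) ∈ closure (ptCls '' DD N d n ζ) :=
        subset_closure ⟨_, xt_mem hN hd hn hζ 1, rfl⟩
      obtain ⟨A, hA, s, hs', h2⟩ := (ptCls_eq_iff hNd _ _).mp (hs h0 h1)
      have h3 : famT N d (1 : k) = act A (famT N d (0 : k)) :=
        congrArg (fun x : PtTuple k N d n => x.1.1) h2
      exact famT_ne (by omega) hd A hA h3
    · intro t
      refine Prod.ext ?_ ?_
      · funext i
        change famT N d t i = map (Polynomial.evalRingHom t) (famT N d Polynomial.X i)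
        rw [map_famT]
        simp
      · funext i
        change ptz N ζ i = _
        simp
    · rw [image_DD hN hd hn hζ]
  · rw [Subtype.image_preimage_coe, Set.inter_eq_right.mpr hcs]
    apply le_antisymm
    · apply closure_minimal _ isClosed_closure
      rintro _ ⟨x, hx, rfl⟩
      exact hcs hx
    · unfold Gam
      apply closure_mono
      rintro _ ⟨_, ⟨x, hx, rfl⟩, rfl⟩
      exact ⟨ptCls x, subset_closure ⟨x, hx, rfl⟩, rfl⟩

open Classical in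
theorem many [CharZero k] (hN : 2 ≤ N) (hd : 2 ≤ d) (hn : 4 ≤ n) :
    Nat.totient (d ^ n - 1) ≤ (d ^ 3 + d ^ 2) *
      ((primitiveRoots (d ^ n - 1) k).image
        (fun ζ => closure (ptCls '' DD N d n ζ))).card := by
  obtain ⟨ζ0, hζ0⟩ := exists_root (k := k) (n := n) hd (by omega)
  rw [← hζ0.card_primitiveRoots]
  apply Finset.card_le_mul_card_image
  intro a ha
  obtain ⟨ζ, hζm, rfl⟩ := Finset.mem_image.1 ha
  have hζ : IsPrimitiveRoot ζ (d ^ n - 1) := isPrimitiveRoot_of_mem_primitiveRoots hζm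
  have hu := mul_ne_zero (root_ne hd hn hζ (i := 0) (j := 3) (by omega) (by omega))
    (root_ne hd hn hζ (i := 1) (j := 2) (by omega) (by omega))
  have hg := gp_ne hd (w := (ζ ^ d ^ 0 - ζ ^ d ^ 2) * (ζ ^ d ^ 1 - ζ ^ d ^ 3)) hu
  refine le_trans (Finset.card_le_card (t := (gp d ((ζ ^ d ^ 0 - ζ ^ d ^ 3) *
    (ζ ^ d ^ 1 - ζ ^ d ^ 2)) ((ζ ^ d ^ 0 - ζ ^ d ^ 2) *
    (ζ ^ d ^ 1 - ζ ^ d ^ 3))).roots.toFinset) ?_) ?_
  · intro x hx
    rw [Finset.mem_filter] at hx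
    have hx' : IsPrimitiveRoot x (d ^ n - 1) := isPrimitiveRoot_of_mem_primitiveRoots hx.1
    rw [Multiset.mem_toFinset, Polynomial.mem_roots hg, Polynomial.IsRoot.def]
    have h1 := cross hN hd (by omega) hζ hx' hx.2
    unfold gp
    simp only [Polynomial.eval_sub, Polynomial.eval_mul, Polynomial.eval_C, Polynomial.eval_pow,
      Polynomial.eval_X]
    rw [pow_zero, pow_one d] at h1
    linear_combination h1
  · exact (Multiset.toFinset_card_le _).trans ((Polynomial.card_roots' _).trans (gp_deg hd _ _))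

open Classical in
/-- **One curve for all periods, with many rational components.** -/
theorem main2 (k : Type) [Field k] [IsAlgClosed k] [CharZero k] {N d : ℕ} (hN : 2 ≤ N)
    (hd : 2 ≤ d) : ∃ Γ : Set (Moduli k N d), IsClosed Γ ∧ IsIrreducible Γ ∧ ¬ Γ.Subsingleton ∧
      Γ = closure (Set.range fun t : k => cls (ft hN hd t)) ∧
      (∀ n, 1 ≤ n → ∃ Δ ∈ irreducibleComponents ↥(forget k N d n ⁻¹' Γ),
        IsRationalCurve (Subtype.val '' Δ) ∧
        closure (forget k N d n '' (Subtype.val '' Δ)) = Γ) ∧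
      ∀ n, 4 ≤ n → ∃ S : Finset (Set ↥(forget k N d n ⁻¹' Γ)),
        Nat.totient (d ^ n - 1) ≤ (d ^ 3 + d ^ 2) * S.card ∧
        ∀ Δ ∈ S, Δ ∈ irreducibleComponents ↥(forget k N d n ⁻¹' Γ) ∧
          IsRationalCurve (Subtype.val '' Δ) ∧
          closure (forget k N d n '' (Subtype.val '' Δ)) = Γ := by
  obtain ⟨Γ, h1, h2, h3, h4, h5⟩ := main k hN hd
  refine ⟨Γ, h1, h2, h3, h4, h5, ?_⟩
  intro n hn
  have hΓ : ∀ ζ : k, IsPrimitiveRoot ζ (d ^ n - 1) → Gam N d n ζ = Γ := fun ζ hζ => by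
    rw [h4]; exact Gam_eq hN hd (by omega) hζ
  have hcomp : ∀ ζ : k, IsPrimitiveRoot ζ (d ^ n - 1) →
      ∃ Δ ∈ irreducibleComponents ↥(forget k N d n ⁻¹' Γ),
      Subtype.val '' Δ = closure (ptCls '' DD N d n ζ) ∧ IsRationalCurve (Subtype.val '' Δ) ∧
      closure (forget k N d n '' (Subtype.val '' Δ)) = Γ := by
    intro ζ hζ
    rw [← hΓ ζ hζ]
    exact component' hN hd (by omega) hζ
  choose! f hf using hcomp
  refine ⟨(primitiveRoots (d ^ n - 1) k).image f, ?_, ?_⟩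
  · have h0 := many (k := k) hN hd hn
    refine h0.trans (Nat.mul_le_mul_left _ ?_)
    have h6 : (primitiveRoots (d ^ n - 1) k).image (fun ζ => closure (ptCls '' DD N d n ζ)) =
        ((primitiveRoots (d ^ n - 1) k).image f).image (fun Δ => Subtype.val '' Δ) := by
      rw [Finset.image_image]
      apply Finset.image_congr
      intro ζ hζ
      exact (hf ζ (isPrimitiveRoot_of_mem_primitiveRoots hζ)).2.1.symm
    rw [h6]
    exact Finset.card_image_le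
  · intro Δ hΔ
    obtain ⟨ζ, hζ, rfl⟩ := Finset.mem_image.1 hΔ
    have h7 := hf ζ (isPrimitiveRoot_of_mem_primitiveRoots hζ)
    exact ⟨h7.1, h7.2.2.1, h7.2.2.2⟩

end Pool.Agent.Y218.RC
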