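import Pool.Agent.H281R3.HT.Defs
import Pool.Agent.H914R2.DDefs

/-!
# Families of supersingular type and the numerical conjecture of Hodge type: definitions
-/

set_option autoImplicit false

open CategoryTheory AlgebraicGeometry

universe u v w

namespace Pool.Agent.Y218.SF

open Pool.Agent.H914 Pool.Agent.H914.VarClass Pool.Agent.H914.VarClass.Obj
  Pool.Agent.H914.WeilCohomology Pool.Agent.H281R3.HT

variable {k : Type u} [Field k] {𝒱 : VarClass k}

/-- The cycle `z` of codimension `j` on `X` is numerically trivial: its intersection numbers with
all cycles of the complementary codimension are zero. -/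
def NumTrivial (ops : CycleOps 𝒱) (X : 𝒱.Obj) (j : ℕ) (z : X.Cycles) : Prop :=
  ∀ i w, j + i = X.dim → X.IsCyc i w → X.V.degCycle (ops.mul z w) = 0

/-- The numerical Hodge standard conjecture for the polarized variety `X` of dimension `n`, with
the divisor `D`: if `z` is a cycle of codimension `j ≤ n / 2` which is primitive modulo numerical
equivalence (`D ^ (n - 2 j + 1) z` is numerically trivial) and which is not numerically trivial,
then `(-1) ^ j z · z · D ^ (n - 2 j) > 0`. -/
def NumericalHodge (ops : CycleOps 𝒱) (X : Polarized 𝒱) : Prop :=
  ∀ j, 2 * j ≤ X.X.dim → ∀ z, X.X.IsCyc j z →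
    NumTrivial ops X.X (X.X.dim - j + 1) (divPow ops X.D (X.X.dim - 2 * j + 1) z) →
    ¬ NumTrivial ops X.X j z →
    0 < (-1 : ℚ) ^ j * X.X.V.degCycle (ops.mul z (divPow ops X.D (X.X.dim - 2 * j) z))

variable {ops : CycleOps 𝒱}

/-- `X.D` is a divisor on `X.X` which satisfies the hard Lefschetz theorem (for example an ample
divisor, if `W` is an `ℓ`-adic cohomology). -/
structure IsLefschetz (W : WeilCohomology.{u, v} ops) (X : Polarized 𝒱) : Prop where
  div : X.X.IsCyc 1 X.D
  hard : HardLefschetz W X.X X.D

/-- A family of polarized varieties of supersingular type (for example all supersingular curves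
over an algebraically closed field): the transcendental cohomology of each member is in the middle
degree; the products of transcendental classes of two members are combinations of algebraic
classes; homological and numerical equivalence coincide on the members; the numerical Hodge standard
conjecture holds for the members and for the products of two members. -/
structure IsSupersingularFamily (W : WeilCohomology.{u, v} ops) {ι : Type w}
    (P : ι → Polarized 𝒱) : Prop where
  lef : ∀ i, IsLefschetz W (P i)
  mid : ∀ i, transcendental W (P i).X ≤ W.gr (P i).X (P i).X.dim
  ext : ∀ i j, ExternallyAlgebraic W (P i).X (P j).X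
  homEqNum : ∀ i, HomEqNum W (P i).X
  hodge : ∀ i, NumericalHodge ops (P i)
  hodge_pair : ∀ i j, NumericalHodge ops ((P i).prod ops (P j))

end Pool.Agent.Y218.SF
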