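import Pool.Agent.H914R2.Weil

/-!
# Iterated products of members of a family of varieties
-/

set_option autoImplicit false

universe u w

namespace Pool.Agent.Y218.SF

open Pool.Agent.H914 Pool.Agent.H914.VarClass Pool.Agent.H914.VarClass.Obj

variable {k : Type u} [Field k] {𝒱 : VarClass k}

/-- The iterated products of members of the family `P` (with any bracketing and any
repetitions). -/
inductive IsProd {ι : Type w} (P : ι → 𝒱.Obj) : 𝒱.Obj → Prop
  | base (i : ι) : IsProd P (P i)
  | prod {Q R : 𝒱.Obj} : IsProd P Q → IsProd P R → IsProd P (Q.prod R)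

end Pool.Agent.Y218.SF
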