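import Pool.Agent.TH132.A.Hodge

/-!
# The projector to the span of the algebraic classes
-/

set_option autoImplicit false

open CategoryTheory AlgebraicGeometry

universe u v

namespace Pool.Agent.Y218.SF

open Pool.Agent.H914 Pool.Agent.H914.VarClass Pool.Agent.H914.VarClass.Obj
  Pool.Agent.H914.WeilCohomology Pool.Agent.H281R3.HT Pool.Agent.W552 Pool.Agent.TH132.A

variable {k : Type u} [Field k] {𝒱 : VarClass k} {ops : CycleOps 𝒱}
  {W : WeilCohomology.{u, v} ops} {X Y U : 𝒱.Obj}

/-! ### Transcendental classes -/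

lemma trans_AS {t : W.H X} (ht : t ∈ transcendental W X) {c : W.H X} (hc : AS W X c) :
    W.tr X (t * c) = 0 := by
  refine AS.ind (p := fun c => W.tr X (t * c) = 0) ?_ ?_ hc
  · intro j c hc
    have := mem_trans.1 ht j c hc
    rwa [bil_apply] at this
  · intro a b ha hb
    rw [mul_add, map_add, ha, hb, add_zero]

lemma mem_trans_AS {t : W.H X} : t ∈ transcendental W X ↔ ∀ c, AS W X c → W.tr X (t * c) = 0 := by
  constructor
  · intro h c hc
    exact trans_AS h hc
  · intro h
    rw [mem_trans]
    intro j c hc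
    rw [bil_apply]
    exact h c (AS.of hc)

lemma algSpan_eq : algSpan W X = Submodule.span W.K {x | AS W X x} := by
  rw [algSpan]
  apply le_antisymm
  · refine Submodule.span_mono ?_
    intro x hx
    obtain ⟨j, hj⟩ := Set.mem_iUnion.1 hx
    exact AS.of hj
  · refine Submodule.span_le.2 ?_
    intro x hx
    refine AS.ind (p := fun x => x ∈ Submodule.span W.K (⋃ j, algClasses W X j)) ?_ ?_ hx
    · intro j x hx
      exact Submodule.subset_span (Set.mem_iUnion.2 ⟨j, hx⟩)
    · intro a b ha hb
      exact Submodule.add_mem _ ha hb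

lemma AS.mem_algSpan {x : W.H X} (hx : AS W X x) : x ∈ algSpan W X := by
  rw [algSpan_eq]
  exact Submodule.subset_span hx

lemma algSpan_induction {p : W.H X → Prop} (h1 : ∀ x, AS W X x → p x) (h0 : p 0)
    (h2 : ∀ x y, p x → p y → p (x + y)) (h3 : ∀ (c : W.K) x, p x → p (c • x)) {x : W.H X}
    (hx : x ∈ algSpan W X) : p x := by
  rw [algSpan_eq] at hx
  induction hx using Submodule.span_induction with
  | mem x hx => exact h1 x hx
  | zero => exact h0
  | add x y _ _ hx hy => exact h2 x y hx hy
  | smul c x _ hx => exact h3 c x hx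

lemma trans_algSpan {t : W.H X} (ht : t ∈ transcendental W X) {c : W.H X}
    (hc : c ∈ algSpan W X) : W.tr X (t * c) = 0 := by
  refine algSpan_induction (p := fun c => W.tr X (t * c) = 0) ?_ ?_ ?_ ?_ hc
  · intro c hc; exact trans_AS ht hc
  · rw [mul_zero, map_zero]
  · intro a b ha hb; rw [mul_add, map_add, ha, hb, add_zero]
  · intro r a ha; rw [mul_smul_comm, map_smul, ha, smul_zero]

lemma algSpan_mul {x y : W.H X} (hx : x ∈ algSpan W X) (hy : y ∈ algSpan W X) :
    x * y ∈ algSpan W X := by
  refine algSpan_induction (p := fun x => x * y ∈ algSpan W X) ?_ ?_ ?_ ?_ hx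
  · intro x hx
    refine algSpan_induction (p := fun y => x * y ∈ algSpan W X) ?_ ?_ ?_ ?_ hy
    · intro y hy; exact AS.mem_algSpan (hx.mul hy)
    · rw [mul_zero]; exact Submodule.zero_mem _
    · intro a b ha hb; rw [mul_add]; exact Submodule.add_mem _ ha hb
    · intro r a ha; rw [mul_smul_comm]; exact Submodule.smul_mem _ _ ha
  · rw [zero_mul]; exact Submodule.zero_mem _
  · intro a b ha hb; rw [add_mul]; exact Submodule.add_mem _ ha hb
  · intro r a ha; rw [smul_mul_assoc]; exact Submodule.smul_mem _ _ ha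

lemma algSpan_map (g : X ⟶ Y) {x : W.H Y} (hx : x ∈ algSpan W Y) :
    W.map g x ∈ algSpan W X := by
  refine algSpan_induction (p := fun x => W.map g x ∈ algSpan W X) ?_ ?_ ?_ ?_ hx
  · intro x hx; exact AS.mem_algSpan (hx.map g)
  · rw [map_zero]; exact Submodule.zero_mem _
  · intro a b ha hb; rw [map_add]; exact Submodule.add_mem _ ha hb
  · intro r a ha; rw [map_smul]; exact Submodule.smul_mem _ _ ha

lemma algSpan_comm {x : W.H X} (hx : x ∈ algSpan W X) (y : W.H X) : x * y = y * x := by
  refine algSpan_induction (p := fun x => x * y = y * x) ?_ ?_ ?_ ?_ hx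
  · intro x hx; exact hx.comm y
  · rw [mul_zero, zero_mul]
  · intro a b ha hb; rw [add_mul, mul_add, ha, hb]
  · intro r a ha; rw [smul_mul_assoc, mul_smul_comm, ha]

/-! ### The projector -/

/-- The operator `x ↦ ∑ tr (x b_i) a_i`. -/
noncomputable def pr (W : WeilCohomology.{u, v} ops) {X : 𝒱.Obj} {N : ℕ}
    (a b : Fin N → W.H X) : Module.End W.K (W.H X) :=
  ∑ i, ((bil W X).flip (b i)).smulRight (a i)

lemma pr_apply {N : ℕ} (a b : Fin N → W.H X) (x : W.H X) :
    pr W a b x = ∑ i, W.tr X (x * b i) • a i := by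
  rw [pr, LinearMap.sum_apply]
  refine Finset.sum_congr rfl fun i _ => ?_
  rw [LinearMap.smulRight_apply, LinearMap.flip_apply, bil_apply]

section

variable {N : ℕ} {a b : Fin N → W.H X} (h : DualFam W X a b)

include h

lemma pr_a (j : Fin N) : pr W a b (a j) = a j := by
  classical
  rw [pr_apply, Finset.sum_eq_single j]
  · rw [h.dual, if_pos rfl, one_smul]
  · intro i _ hij
    rw [h.dual, if_neg (Ne.symm hij), zero_smul]
  · intro h0
    exact absurd (Finset.mem_univ _) h0

lemma pr_AS {x : W.H X} (hx : AS W X x) : pr W a b x = x := by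
  have h1 := h.span x hx
  clear hx
  induction h1 using Submodule.span_induction with
  | mem x hx =>
    obtain ⟨j, rfl⟩ := hx
    exact pr_a h j
  | zero => rw [map_zero]
  | add x y _ _ hx hy => rw [map_add, hx, hy]
  | smul c x _ hx => rw [map_smul, hx]

lemma pr_algSpan {x : W.H X} (hx : x ∈ algSpan W X) : pr W a b x = x := by
  refine algSpan_induction (p := fun x => pr W a b x = x) ?_ ?_ ?_ ?_ hx
  · intro x hx; exact pr_AS h hx
  · rw [map_zero]
  · intro x y hx hy; rw [map_add, hx, hy]
  · intro c x hx; rw [map_smul, hx]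

lemma pr_mem (x : W.H X) : pr W a b x ∈ algSpan W X := by
  rw [pr_apply]
  exact Submodule.sum_mem _ fun i _ => Submodule.smul_mem _ _ (AS.mem_algSpan (h.ha i))

lemma pr_trans {t : W.H X} (ht : t ∈ transcendental W X) : pr W a b t = 0 := by
  rw [pr_apply]
  refine Finset.sum_eq_zero fun i _ => ?_
  rw [trans_AS ht (h.hb i), zero_smul]

/-- The second family of a dual family spans. -/
lemma b_rep (hDX : HomEqNum W X) {c : W.H X} (hc : AS W X c) :
    c = ∑ i, W.tr X (a i * c) • b i := by
  classical
  rw [← sub_eq_zero]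
  have h2 : AS W X (∑ i, W.tr X (a i * c) • b i) := by
    refine AS.ratSub.sum _ fun i _ => ?_
    obtain ⟨q, hq⟩ := ((h.ha i).mul hc).tr
    rw [hq]
    exact (h.hb i).smul q
  have h3 : AS W X (c - ∑ i, W.tr X (a i * c) • b i) := by
    rw [sub_eq_add_neg]
    exact hc.add (AS.ratSub.neg h2)
  refine AS_zero_of_pair hDX h3 fun y hy => ?_
  rw [h3.comm]
  have h4 := h.span y hy
  clear hy
  induction h4 using Submodule.span_induction with
  | mem y hy =>
    obtain ⟨j, rfl⟩ := hy
    rw [mul_sub, map_sub, Finset.mul_sum, map_sum, Finset.sum_eq_single j]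
    · rw [mul_smul_comm, map_smul, h.dual, if_pos rfl, smul_eq_mul, mul_one, sub_self]
    · intro i _ hij
      rw [mul_smul_comm, map_smul, h.dual, if_neg (Ne.symm hij), smul_zero]
    · intro h0
      exact absurd (Finset.mem_univ _) h0
  | zero => rw [zero_mul, map_zero]
  | add x y _ _ hx hy => rw [add_mul, map_add, hx, hy, add_zero]
  | smul c x _ hx => rw [smul_mul_assoc, map_smul, hx, smul_zero]

lemma sub_pr (hDX : HomEqNum W X) (x : W.H X) : x - pr W a b x ∈ transcendental W X := by
  classical
  rw [mem_trans_AS]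
  intro c hc
  rw [b_rep h hDX hc, Finset.mul_sum, map_sum]
  refine Finset.sum_eq_zero fun j _ => ?_
  rw [mul_smul_comm, map_smul, sub_mul, map_sub, pr_apply, Finset.sum_mul, map_sum,
    Finset.sum_eq_single j]
  · rw [smul_mul_assoc, map_smul, h.dual, if_pos rfl]
    simp
  · intro i _ hij
    rw [smul_mul_assoc, map_smul, h.dual, if_neg hij, smul_zero]
  · intro h0
    exact absurd (Finset.mem_univ _) h0

lemma pr_comm (hDX : HomEqNum W X) {T : Module.End W.K (W.H X)}
    (hA : ∀ x, AS W X x → T x ∈ algSpan W X)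
    (hT : ∀ t ∈ transcendental W X, T t ∈ transcendental W X) :
    pr W a b * T = T * pr W a b := by
  apply LinearMap.ext
  intro x
  rw [Module.End.mul_apply, Module.End.mul_apply]
  have h1 : x = pr W a b x + (x - pr W a b x) := by abel
  have h2 : T (pr W a b x) ∈ algSpan W X := by
    refine algSpan_induction (p := fun x => T x ∈ algSpan W X) hA ?_ ?_ ?_ (pr_mem h x)
    · rw [map_zero]; exact Submodule.zero_mem _
    · intro x y hx hy; rw [map_add]; exact Submodule.add_mem _ hx hy
    · intro c x hx; rw [map_smul]; exact Submodule.smul_mem _ _ hx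
  conv_lhs => rw [h1, map_add, map_add, pr_algSpan h h2,
    pr_trans h (hT _ (sub_pr h hDX x)), add_zero]

/-- The projector is algebraic. -/
lemma pr_aop : AOp W X X (pr W a b) := by
  refine ⟨∑ i, ext W (b i) (a i), AS.ratSub.sum _ fun i _ => (h.hb i).ext (h.ha i), ?_⟩
  apply LinearMap.ext
  intro x
  rw [corr_apply, Finset.sum_mul, map_sum, pr_apply]
  refine Finset.sum_congr rfl fun i _ => ?_
  rw [ext, mul_assoc, ((h.ha i).map (snd X X)).comm, ← mul_assoc, ← map_mul, W.push_snd,
    (h.hb i).comm]

lemma extL_pr (z : W.H (X.prod U)) :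
    extL W X U (pr W a b) z = ∑ i, ext W (a i) (coef W (b i) z) := by
  refine W.kunneth_induction (p := fun z =>
    extL W X U (pr W a b) z = ∑ i, ext W (a i) (coef W (b i) z)) ?_ ?_ z
  · intro x y hx hy
    rw [map_add, hx, hy, ← Finset.sum_add_distrib]
    refine Finset.sum_congr rfl fun i _ => ?_
    simp only [coef, add_mul, map_add, ext, mul_add]
  · intro i j x _ y _
    rw [extL_apply, extOp_tmul, Module.End.one_apply, pr_apply, map_sum, Finset.sum_mul]
    refine Finset.sum_congr rfl fun i _ => ?_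
    rw [coef, mul_assoc, ← ((h.hb i).map (fst X U)).comm (W.map (snd X U) y), ← mul_assoc,
      ← map_mul, W.push_snd, map_smul, smul_mul_assoc, ext, map_smul, mul_smul_comm]

lemma extL_pr_tens {z : W.H (X.prod U)} (hz : AS W (X.prod U) z) :
    extL W X U (pr W a b) z ∈ tens W X U := by
  rw [extL_pr h]
  exact AddSubmonoid.sum_mem _ fun i _ =>
    AddSubmonoid.subset_closure ⟨a i, _, h.ha i, coef_AS (h.hb i) hz, rfl⟩

end

/-- The conjecture `D` in terms of the span of the algebraic classes. -/
lemma homEqNum_iff_span : HomEqNum W X ↔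
    ∀ x, x ∈ algSpan W X → x ∈ transcendental W X → x = 0 := by
  constructor
  · intro hD x hx ht
    obtain ⟨N, a, b, h⟩ := exists_dualFam hD
    rw [← pr_algSpan h hx, pr_trans h ht]
  · intro h
    rw [homEqNum_iff]
    intro x hx h0
    exact h x (AS.mem_algSpan hx) (mem_trans_AS.2 h0)

/-! ### Self-adjointness of the lowering operator -/

section

variable {D : X.Cycles} {f : Module.End W.K (W.H X)} (F : Lw W X D f)

include F

lemma lw_hl : HardLefschetz W X D := by
  refine hardLefschetz_of_inj F.hD fun i hi a ha h0 => ?_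
  by_contra hne
  have hwt : wt (W.isInternal X) X.dim a = -((X.dim - i : ℕ) : W.K) • a := by
    rw [Fr.wt_gr ha]
    congr 1
    rw [Nat.cast_sub hi]
    ring
  have hf : f a = 0 := by
    refine F.sl2.f_eq_zero hwt ?_
    rw [pow_succ', Module.End.mul_apply, h0, map_zero]
  exact Sl2.e_pow_ne F.sl2 hf hwt hne le_rfl h0

lemma lw_lefStr : LefStr (W.isInternal X) X.dim (LinearMap.mulLeft W.K (W.cl X D)) f :=
  ⟨mulLeft_isHom F.hD, W_hbd, lw_hl F, F.sl2⟩

lemma tr_w (x y : W.H X) : W.tr X (wop W X D f x * y) = W.tr X (x * wop W X D f y) := by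
  have h := (lw_lefStr F).w_self (B := bil W X) (fun a b => by
      rw [bil_apply, bil_apply, LinearMap.mulLeft_apply, LinearMap.mulLeft_apply,
        W.even_comm (p := 1) (W.cl_mem F.hD) a, mul_assoc])
    (fun i j a ha b hb hij => W.tr_eq_zero (W.mul_mem ha hb) hij) x y
  rwa [bil_apply, bil_apply] at h

lemma tr_e (x y : W.H X) : W.tr X (LinearMap.mulLeft W.K (W.cl X D) x * y) =
    W.tr X (x * LinearMap.mulLeft W.K (W.cl X D) y) := by
  rw [LinearMap.mulLeft_apply, LinearMap.mulLeft_apply,
        W.even_comm (p := 1) (W.cl_mem F.hD) x, mul_assoc]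

lemma w_surj (x : W.H X) : ∃ y, wop W X D f y = x := by
  have h := (lw_lefStr F).star_star
  refine ⟨scal (W.isInternal X) (fun i => (sg i : W.K)) (st W X D f x), ?_⟩
  exact congrArg (fun G => G x) h

lemma tr_f (x y : W.H X) : W.tr X (f x * y) = W.tr X (x * f y) := by
  obtain ⟨x, rfl⟩ := w_surj F x
  have h1 : f (wop W X D f x) = -(wop W X D f (LinearMap.mulLeft W.K (W.cl X D) x)) := by
    have := congrArg (fun G => G x) (wey_e F.sl2)
    simp only [Module.End.mul_apply, LinearMap.neg_apply] at this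
    rw [wop, this, neg_neg]
  have h2 : wop W X D f (f y) = -(LinearMap.mulLeft W.K (W.cl X D) (wop W X D f y)) := by
    have := congrArg (fun G => G y) (wey_f F.sl2)
    simp only [Module.End.mul_apply, LinearMap.neg_apply] at this
    exact this
  rw [h1, neg_mul, map_neg, tr_w F, tr_e F, tr_w F, h2, mul_neg, map_neg]

lemma bf_nondeg {x : W.H X} (h : ∀ y, bf W X D f x y = 0) : x = 0 := by
  apply W.nondeg
  intro y
  have h2 := congrArg (fun G => G y) (lw_lefStr F).star_star
  have h3 : st W X D f (st W X D f y) = y := h2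
  rw [← h3, ← bf_apply]
  exact h _

lemma f_trans (hf : Stable W X f) {t : W.H X} (ht : t ∈ transcendental W X) :
    f t ∈ transcendental W X := by
  rw [mem_trans_AS]
  intro c hc
  rw [tr_f F]
  exact trans_AS ht (hf c hc)

lemma pr_f (hDX : HomEqNum W X) (hf : Stable W X f) {N : ℕ} {a b : Fin N → W.H X}
    (h : DualFam W X a b) : pr W a b * f = f * pr W a b :=
  pr_comm h hDX (fun x hx => AS.mem_algSpan (hf x hx)) (fun _ ht => f_trans F hf ht)

lemma wop_AS (hf : Stable W X f) {x : W.H X} (hx : AS W X x) : AS W X (wop W X D f x) :=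
  (F.deep_wop (deep_of_stable F.hD hf hx)).as

lemma st_AS (hf : Stable W X f) {x : W.H X} (hx : AS W X x) : AS W X (st W X D f x) := by
  rw [Fr.AS_sum hx, map_sum]
  refine AS.ratSub.sum _ fun j _ => ?_
  rw [st_apply (alg_gr (hx.proj j))]
  have := (wop_AS F hf (AS.of (hx.proj j))).smul (sg (2 * j) : ℚ)
  simpa using this

lemma bf_trans_AS (hf : Stable W X f) {t x : W.H X} (ht : t ∈ transcendental W X)
    (hx : AS W X x) : bf W X D f t x = 0 := by
  rw [bf_apply]
  exact trans_AS ht (st_AS F hf hx)

lemma bf_AS_trans (hf : Stable W X f) {t x : W.H X} (ht : t ∈ transcendental W X)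
    (hx : AS W X x) : bf W X D f x t = 0 := by
  refine AS.ind (p := fun x => bf W X D f x t = 0) ?_ ?_ hx
  · intro j x hx
    have h1 : bf W X D f x t = bf W X D f x (proj (W.isInternal X) (2 * j) t) := by
      refine gr_induction (W.isInternal X) (p := fun t =>
        bf W X D f x t = bf W X D f x (proj (W.isInternal X) (2 * j) t)) ?_ ?_ t
      · intro i b hb
        by_cases hi : i = 2 * j
        · subst hi; rw [proj_same _ hb]
        · rw [proj_ne _ hb hi, map_zero, F.bf_deg (alg_gr hx) hb (Ne.symm hi)]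
      · intro b c hb hc
        rw [map_add, map_add, hb, hc, map_add]
    have h2 := proj_trans ht (2 * j)
    rw [h1, bf_apply, st_apply (proj_mem _ _ _), mul_smul_comm, map_smul, ← tr_w F,
      (wop_AS F hf (AS.of hx)).comm, trans_AS h2 (wop_AS F hf (AS.of hx)), smul_zero]
  · intro a b ha hb
    rw [map_add, LinearMap.add_apply, ha, hb, add_zero]

end

end Pool.Agent.Y218.SF
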