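import Pool.Agent.Y218.SFa

/-!
# Reshuffling the factors of `(S × E) × (E' × U)`
-/

set_option autoImplicit false

open CategoryTheory AlgebraicGeometry
open scoped TensorProduct

universe u v

namespace Pool.Agent.Y218.SF

open Pool.Agent.H914 Pool.Agent.H914.VarClass Pool.Agent.H914.VarClass.Obj
  Pool.Agent.H914.WeilCohomology Pool.Agent.H281R3.HT Pool.Agent.W552 Pool.Agent.TH132.A

variable {k : Type u} [Field k] {𝒱 : VarClass k} {ops : CycleOps 𝒱}
  {W : WeilCohomology.{u, v} ops} {S E E' U : 𝒱.Obj}

/-- The projection `(S × E) × (E' × U) → S × U`. -/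
noncomputable def r1 (S E E' U : 𝒱.Obj) : (S.prod E).prod (E'.prod U) ⟶ S.prod U :=
  Obj.lift (fst (S.prod E) (E'.prod U) ≫ fst S E) (snd (S.prod E) (E'.prod U) ≫ snd E' U)

/-- The projection `(S × E) × (E' × U) → E × E'`. -/
noncomputable def r2 (S E E' U : 𝒱.Obj) : (S.prod E).prod (E'.prod U) ⟶ E.prod E' :=
  Obj.lift (fst (S.prod E) (E'.prod U) ≫ snd S E) (snd (S.prod E) (E'.prod U) ≫ fst E' U)

lemma r1_ext (t : W.H S) (u : W.H U) : W.map (r1 S E E' U) (ext W t u) =
    W.map (fst (S.prod E) (E'.prod U)) (W.map (fst S E) t) *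
      W.map (snd (S.prod E) (E'.prod U)) (W.map (snd E' U) u) := by
  have e1 : r1 S E E' U ≫ fst S U = fst (S.prod E) (E'.prod U) ≫ fst S E := Obj.lift_fst _ _
  have e2 : r1 S E E' U ≫ snd S U = snd (S.prod E) (E'.prod U) ≫ snd E' U := Obj.lift_snd _ _
  rw [ext, map_mul, ← W.map_comp, ← W.map_comp, e1, e2, W.map_comp, W.map_comp]

lemma r2_ext (t : W.H E) (u : W.H E') : W.map (r2 S E E' U) (ext W t u) =
    W.map (fst (S.prod E) (E'.prod U)) (W.map (snd S E) t) *
      W.map (snd (S.prod E) (E'.prod U)) (W.map (fst E' U) u) := by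
  have e1 : r2 S E E' U ≫ fst E E' = fst (S.prod E) (E'.prod U) ≫ snd S E := Obj.lift_fst _ _
  have e2 : r2 S E E' U ≫ snd E E' = snd (S.prod E) (E'.prod U) ≫ fst E' U := Obj.lift_snd _ _
  rw [ext, map_mul, ← W.map_comp, ← W.map_comp, e1, e2, W.map_comp, W.map_comp]

/-- The class `(t × t') × (t'' × u)` for `c = t × u` and `e = t' × t''`, extended bilinearly. -/
noncomputable def rsh (W : WeilCohomology.{u, v} ops) {S E E' U : 𝒱.Obj} :
    W.H (E.prod E') →ₗ[W.K] W.H (S.prod U) →ₗ[W.K] W.H ((S.prod E).prod (E'.prod U)) :=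
  LinearMap.mk₂ W.K (fun e c => TensorProduct.lift (LinearMap.mk₂ W.K
      (fun t u => W.map (fst (S.prod E) (E'.prod U)) (W.map (fst S E) t) *
        W.map (r2 S E E' U) e * W.map (snd (S.prod E) (E'.prod U)) (W.map (snd E' U) u))
      (fun x y z => by simp only [map_add, add_mul])
      (fun c x z => by simp only [map_smul, smul_mul_assoc])
      (fun x y z => by simp only [map_add, mul_add])
      (fun c x z => by simp only [map_smul, mul_smul_comm])) ((kappa W S U).symm c))
    (fun e e' c => by
      induction (kappa W S U).symm c using TensorProduct.induction_on with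
      | zero => simp
      | tmul x y => simp only [TensorProduct.lift.tmul, LinearMap.mk₂_apply, map_add, mul_add,
          add_mul]
      | add x y hx hy => simp only [LinearMap.map_add]; rw [hx, hy]; abel)
    (fun r e c => by
      induction (kappa W S U).symm c using TensorProduct.induction_on with
      | zero => simp
      | tmul x y => simp only [TensorProduct.lift.tmul, LinearMap.mk₂_apply, map_smul,
          mul_smul_comm, smul_mul_assoc]
      | add x y hx hy => simp only [LinearMap.map_add]; rw [hx, hy, smul_add])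
    (fun e c c' => by simp only [map_add])
    (fun r e c => by simp only [map_smul])

lemma rsh_ext (e : W.H (E.prod E')) (t : W.H S) (u : W.H U) : rsh W e (ext W t u) =
    W.map (fst (S.prod E) (E'.prod U)) (W.map (fst S E) t) * W.map (r2 S E E' U) e *
      W.map (snd (S.prod E) (E'.prod U)) (W.map (snd E' U) u) := by
  rw [rsh, LinearMap.mk₂_apply, ext, ← kappa_tmul, LinearEquiv.symm_apply_apply,
    TensorProduct.lift.tmul, LinearMap.mk₂_apply]

lemma rsh_ext_ext (t' : W.H E) (t'' : W.H E') (t : W.H S) (u : W.H U) :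
    rsh W (ext W t' t'') (ext W t u) = ext W (ext W t t') (ext W t'' u) := by
  rw [rsh_ext, r2_ext, ext, ext, ext, map_mul, map_mul]
  simp only [mul_assoc]

/-- For even classes `e` the class `rsh e c` is the product of the pull-backs. -/
lemma rsh_alg {e : W.H (E.prod E')} (he : e ∈ algSpan W (E.prod E')) (c : W.H (S.prod U)) :
    rsh W e c = W.map (r1 S E E' U) c * W.map (r2 S E E' U) e := by
  refine W.kunneth_induction (p := fun c => rsh W e c =
    W.map (r1 S E E' U) c * W.map (r2 S E E' U) e) ?_ ?_ c
  · intro x y hx hy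
    rw [map_add, hx, hy, map_add, add_mul]
  · intro i j t _ u _
    change rsh W e (ext W t u) = W.map (r1 S E E' U) (ext W t u) * _
    rw [rsh_ext, r1_ext, mul_assoc, mul_assoc, algSpan_comm (algSpan_map _ he)]

/-- Operators on the factors. -/
lemma extSum_rsh (A : Module.End W.K (W.H S)) (A' : Module.End W.K (W.H E))
    (A'' : Module.End W.K (W.H E')) (A''' : Module.End W.K (W.H U)) (e : W.H (E.prod E'))
    (c : W.H (S.prod U)) :
    extSum W (extSum W A A') (extSum W A'' A''') (rsh W e c) =
      rsh W e (extSum W A A''' c) + rsh W (extSum W A' A'' e) c := by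
  refine W.kunneth_induction (p := fun c =>
    extSum W (extSum W A A') (extSum W A'' A''') (rsh W e c) =
      rsh W e (extSum W A A''' c) + rsh W (extSum W A' A'' e) c) ?_ ?_ c
  · intro x y hx hy
    rw [map_add, map_add, hx, hy, map_add, map_add, map_add]
    abel
  · intro i j t _ u _
    refine W.kunneth_induction (p := fun e =>
      extSum W (extSum W A A') (extSum W A'' A''') (rsh W e (ext W t u)) =
        rsh W e (extSum W A A''' (ext W t u)) + rsh W (extSum W A' A'' e) (ext W t u)) ?_ ?_ e
    · intro x y hx hy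
      rw [map_add, LinearMap.add_apply, map_add, hx, hy, map_add, map_add, LinearMap.add_apply,
        LinearMap.add_apply]
      abel
    · intro l m t' _ t'' _
      change extSum W (extSum W A A') (extSum W A'' A''') (rsh W (ext W t' t'') (ext W t u)) =
        rsh W (ext W t' t'') (extSum W A A''' (ext W t u)) +
          rsh W (extSum W A' A'' (ext W t' t'')) (ext W t u)
      rw [rsh_ext_ext]
      have e0 : ∀ {X Y : 𝒱.Obj} (φ : Module.End W.K (W.H X)) (ψ : Module.End W.K (W.H Y))
          (x : W.H X) (y : W.H Y), extSum W φ ψ (ext W x y) = ext W (φ x) y + ext W x (ψ y) := by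
        intro X Y φ ψ x y
        rw [ext, extSum_tmul]
        rfl
      rw [e0, e0, e0, e0, e0, map_add, map_add, LinearMap.add_apply, rsh_ext_ext, rsh_ext_ext,
        rsh_ext_ext, rsh_ext_ext]
      have e1 : ∀ {X Y : 𝒱.Obj} (x x' : W.H X) (y : W.H Y),
          ext W (x + x') y = ext W x y + ext W x' y := by
        intro X Y x x' y
        simp only [ext, map_add, add_mul]
      have e2 : ∀ {X Y : 𝒱.Obj} (x : W.H X) (y y' : W.H Y),
          ext W x (y + y') = ext W x y + ext W x y' := by
        intro X Y x y y'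
        simp only [ext, map_add, mul_add]
      rw [e1, e2]
      abel

section

variable {DS : S.Cycles} {DE : E.Cycles} {DE' : E'.Cycles} {B : U.Cycles}
  {fS : Module.End W.K (W.H S)} {fE : Module.End W.K (W.H E)} {fE' : Module.End W.K (W.H E')}
  {g : Module.End W.K (W.H U)}

/-- The forms. -/
lemma bf_rsh (FS : Lw W S DS fS) (FE : Lw W E DE fE) (FE' : Lw W E' DE' fE')
    (G : Lw W U B g) (e e' : W.H (E.prod E')) (c c' : W.H (S.prod U)) :
    bf W ((S.prod E).prod (E'.prod U))
      (ops.pull (fst (S.prod E) (E'.prod U)) (ops.pull (fst S E) DS + ops.pull (snd S E) DE) +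
        ops.pull (snd (S.prod E) (E'.prod U)) (ops.pull (fst E' U) DE' + ops.pull (snd E' U) B))
      (extSum W (extSum W fS fE) (extSum W fE' g)) (rsh W e c) (rsh W e' c') =
    bf W (E.prod E') (ops.pull (fst E E') DE + ops.pull (snd E E') DE') (extSum W fE fE') e e' *
      bf W (S.prod U) (ops.pull (fst S U) DS + ops.pull (snd S U) B) (extSum W fS g) c c' := by
  refine W.kunneth_induction (p := fun c => bf W ((S.prod E).prod (E'.prod U))
      (ops.pull (fst (S.prod E) (E'.prod U)) (ops.pull (fst S E) DS + ops.pull (snd S E) DE) +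
        ops.pull (snd (S.prod E) (E'.prod U)) (ops.pull (fst E' U) DE' + ops.pull (snd E' U) B))
      (extSum W (extSum W fS fE) (extSum W fE' g)) (rsh W e c) (rsh W e' c') =
    bf W (E.prod E') (ops.pull (fst E E') DE + ops.pull (snd E E') DE') (extSum W fE fE') e e' *
      bf W (S.prod U) (ops.pull (fst S U) DS + ops.pull (snd S U) B) (extSum W fS g) c c') ?_ ?_ c
  · intro x y hx hy
    rw [map_add, map_add, LinearMap.add_apply, hx, hy, map_add, LinearMap.add_apply, mul_add]
  intro _ _ t _ u _
  refine W.kunneth_induction (p := fun c' => bf W ((S.prod E).prod (E'.prod U))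
      (ops.pull (fst (S.prod E) (E'.prod U)) (ops.pull (fst S E) DS + ops.pull (snd S E) DE) +
        ops.pull (snd (S.prod E) (E'.prod U)) (ops.pull (fst E' U) DE' + ops.pull (snd E' U) B))
      (extSum W (extSum W fS fE) (extSum W fE' g)) (rsh W e (ext W t u)) (rsh W e' c') =
    bf W (E.prod E') (ops.pull (fst E E') DE + ops.pull (snd E E') DE') (extSum W fE fE') e e' *
      bf W (S.prod U) (ops.pull (fst S U) DS + ops.pull (snd S U) B) (extSum W fS g)
        (ext W t u) c') ?_ ?_ c'
  · intro x y hx hy
    rw [map_add, map_add, hx, hy, map_add, mul_add]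
  intro _ _ s _ y _
  refine W.kunneth_induction (p := fun e => bf W ((S.prod E).prod (E'.prod U))
      (ops.pull (fst (S.prod E) (E'.prod U)) (ops.pull (fst S E) DS + ops.pull (snd S E) DE) +
        ops.pull (snd (S.prod E) (E'.prod U)) (ops.pull (fst E' U) DE' + ops.pull (snd E' U) B))
      (extSum W (extSum W fS fE) (extSum W fE' g)) (rsh W e (ext W t u))
        (rsh W e' (ext W s y)) =
    bf W (E.prod E') (ops.pull (fst E E') DE + ops.pull (snd E E') DE') (extSum W fE fE') e e' *
      bf W (S.prod U) (ops.pull (fst S U) DS + ops.pull (snd S U) B) (extSum W fS g)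
        (ext W t u) (ext W s y)) ?_ ?_ e
  · intro x y hx hy
    rw [map_add, LinearMap.add_apply, map_add, LinearMap.add_apply, hx, hy, map_add,
      LinearMap.add_apply, add_mul]
  intro _ _ t' _ t'' _
  refine W.kunneth_induction (p := fun e' => bf W ((S.prod E).prod (E'.prod U))
      (ops.pull (fst (S.prod E) (E'.prod U)) (ops.pull (fst S E) DS + ops.pull (snd S E) DE) +
        ops.pull (snd (S.prod E) (E'.prod U)) (ops.pull (fst E' U) DE' + ops.pull (snd E' U) B))
      (extSum W (extSum W fS fE) (extSum W fE' g)) (rsh W (ext W t' t'') (ext W t u))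
        (rsh W e' (ext W s y)) =
    bf W (E.prod E') (ops.pull (fst E E') DE + ops.pull (snd E E') DE') (extSum W fE fE')
        (ext W t' t'') e' *
      bf W (S.prod U) (ops.pull (fst S U) DS + ops.pull (snd S U) B) (extSum W fS g)
        (ext W t u) (ext W s y)) ?_ ?_ e'
  · intro x y hx hy
    rw [map_add, LinearMap.add_apply, map_add, hx, hy, map_add, add_mul]
  intro _ _ s' _ s'' _
  change bf W _ _ _ (rsh W (ext W t' t'') (ext W t u)) (rsh W (ext W s' s'') (ext W s y)) =
    bf W _ _ _ (ext W t' t'') (ext W s' s'') * bf W _ _ _ (ext W t u) (ext W s y)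
  rw [rsh_ext_ext, rsh_ext_ext, (FS.prod FE).bf_ext (FE'.prod G), FS.bf_ext FE, FE'.bf_ext G,
    FE.bf_ext FE', FS.bf_ext G]
  ring

end

/-- The classes `rsh e c` are combinations of products with algebraic classes on `S × E`. -/
lemma rsh_span (hEA : ExternallyAlgebraic W S E) {e : W.H (E.prod E')}
    (he : e ∈ Submodule.span W.K {x | ∃ t ∈ transcendental W E, ∃ y : W.H E', x = ext W t y})
    {c : W.H (S.prod U)}
    (hc : c ∈ Submodule.span W.K {x | ∃ t ∈ transcendental W S, ∃ y : W.H U, x = ext W t y}) :
    rsh W e c ∈ Submodule.span W.K {w | ∃ (x : W.H (S.prod E)) (y : W.H (E'.prod U)),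
      AS W (S.prod E) x ∧ w = ext W x y} := by
  induction hc using Submodule.span_induction with
  | mem c hc =>
    obtain ⟨t, ht, u, rfl⟩ := hc
    induction he using Submodule.span_induction with
    | mem e he =>
      obtain ⟨t', ht', t'', rfl⟩ := he
      rw [rsh_ext_ext]
      refine algSpan_induction (p := fun x => ext W x (ext W t'' u) ∈ Submodule.span W.K
        {w | ∃ (x : W.H (S.prod E)) (y : W.H (E'.prod U)), AS W (S.prod E) x ∧ w = ext W x y})
        ?_ ?_ ?_ ?_ (hEA t ht t' ht')
      · intro x hx
        exact Submodule.subset_span ⟨x, _, hx, rfl⟩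
      · rw [ext, map_zero, zero_mul]; exact Submodule.zero_mem _
      · intro x y hx hy
        rw [show ext W (x + y) (ext W t'' u) = ext W x (ext W t'' u) + ext W y (ext W t'' u) by
          simp only [ext, map_add, add_mul]]
        exact Submodule.add_mem _ hx hy
      · intro r x hx
        rw [show ext W (r • x) (ext W t'' u) = r • ext W x (ext W t'' u) by
          simp only [ext, map_smul, smul_mul_assoc]]
        exact Submodule.smul_mem _ _ hx
    | zero => rw [map_zero, LinearMap.zero_apply]; exact Submodule.zero_mem _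
    | add x y _ _ hx hy => rw [map_add, LinearMap.add_apply]; exact Submodule.add_mem _ hx hy
    | smul r x _ hx => rw [map_smul, LinearMap.smul_apply]; exact Submodule.smul_mem _ _ hx
  | zero => rw [map_zero]; exact Submodule.zero_mem _
  | add x y _ _ hx hy => rw [map_add]; exact Submodule.add_mem _ hx hy
  | smul r x _ hx => rw [map_smul]; exact Submodule.smul_mem _ _ hx

end Pool.Agent.Y218.SF
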