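import Pool.Agent.Y218.SFb

/-!
# Positivity on the primitive classes which are sums of products
-/

set_option autoImplicit false

open CategoryTheory AlgebraicGeometry

universe u v

namespace Pool.Agent.Y218.SF

open Pool.Agent.H914 Pool.Agent.H914.VarClass Pool.Agent.H914.VarClass.Obj
  Pool.Agent.H914.WeilCohomology Pool.Agent.H281R3.HT Pool.Agent.W552 Pool.Agent.TH132.A

variable {k : Type u} [Field k] {𝒱 : VarClass k} {ops : CycleOps 𝒱}
  {W : WeilCohomology.{u, v} ops} {X U : 𝒱.Obj} {D : X.Cycles} {B : U.Cycles}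
  {f : Module.End W.K (W.H X)} {g : Module.End W.K (W.H U)}

lemma tens_AS {z : W.H (X.prod U)} (hz : z ∈ tens W X U) : AS W (X.prod U) z := by
  induction hz using AddSubmonoid.closure_induction with
  | mem w hw =>
    obtain ⟨x, y, hx, hy, rfl⟩ := hw
    exact AS.ext hx hy
  | zero => exact AS.zero
  | add x y _ _ hx hy => exact hx.add hy

lemma extL_words_AS (hD : X.IsCyc 1 D) (hf : Stable W X f) {A : Module.End W.K (W.H X)}
    (hA : A ∈ words W X D f) {z : W.H (X.prod U)} (hz : z ∈ tens W X U) :
    AS W (X.prod U) (extL W X U A z) := by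
  induction hz using AddSubmonoid.closure_induction with
  | mem w hw =>
    obtain ⟨x, y, hx, hy, rfl⟩ := hw
    rw [ext, extL_apply, extOp_tmul, Module.End.one_apply]
    exact AS.ext (deep_of_stable hD hf hx A hA) hy
  | zero => rw [map_zero]; exact AS.zero
  | add x y _ _ hx hy => rw [map_add]; exact hx.add hy

lemma extR_e_tens (hB : U.IsCyc 1 B) {z : W.H (X.prod U)} (hz : z ∈ tens W X U) :
    extR W X U (LinearMap.mulLeft W.K (W.cl U B)) z ∈ tens W X U := by
  induction hz using AddSubmonoid.closure_induction with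
  | mem w hw =>
    obtain ⟨x, y, hx, hy, rfl⟩ := hw
    rw [ext, extR_apply, extOp_tmul, Module.End.one_apply]
    exact AddSubmonoid.subset_closure ⟨x, _, hx, e_AS hB hy, rfl⟩
  | zero => rw [map_zero]; exact AddSubmonoid.zero_mem _
  | add x y _ _ hx hy => rw [map_add]; exact AddSubmonoid.add_mem _ hx hy

/-- The coefficients of a primitive class which is a sum of products. -/
theorem deep_coef_tens (tf : Lw W X D f) (tg : Lw W U B g) (hf : Stable W X f)
    {z : W.H (X.prod U)} {c : ℤ} (hz : z ∈ tens W X U) (h0 : extSum W f g z = 0)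
    (hc : extSum W (wt (W.isInternal X) X.dim) (wt (W.isInternal U) U.dim) z = (c : W.K) • z)
    {b : W.H X} (hb : AS W X b) : Deep W U B g (coef W b z) := by
  have hP : ∀ T ∈ words W U B g, ∀ w ∈ orb W D B f z, extR W X U T w ∈ orb W D B f z := by
    intro T hT
    induction hT using Submonoid.closure_induction with
    | mem T hT =>
      rcases hT with rfl | rfl
      · exact fun w hw => orb_e hw
      · exact fun w hw => orb_f tf tg h0 hc hw
    | one =>
      intro w hw
      rwa [map_one, Module.End.one_apply]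
    | mul S T _ _ hS' hT' =>
      intro w hw
      rw [map_mul, Module.End.mul_apply]
      exact hS' _ (hT' _ hw)
  have hzP : z ∈ orb W D B f z := by
    refine AddSubmonoid.subset_closure ⟨1, Submonoid.one_mem _, 0, 1, ?_⟩
    rw [pow_zero, map_one, Module.End.one_apply, Module.End.one_apply, Rat.cast_one, one_smul]
  have hAS : ∀ w ∈ orb W D B f z, AS W (X.prod U) w := by
    intro w hw
    induction hw using AddSubmonoid.closure_induction with
    | mem w hw =>
      obtain ⟨A, hA, s, q, rfl⟩ := hw
      refine AS.smul q (extL_words_AS tf.hD hf hA ?_)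
      induction s with
      | zero => exact hz
      | succ s ih => rw [pow_succ', Module.End.mul_apply]; exact extR_e_tens tg.hD ih
    | zero => exact AS.zero
    | add x y _ _ hx hy => exact hx.add hy
  intro T hT
  rw [← coef_extR hb]
  exact coef_AS hb (hAS _ (hP T hT _ hzP))

/-- **Positivity on the primitive classes which are sums of products of algebraic classes.** -/
theorem pos_tens (tf : Lw W X D f) (hfX : IsHom (W.gr X) (-2) f) (hf : Stable W X f)
    (hHX : HodgeType W X D) (tg : Lw W U B g) (hgU : IsHom (W.gr U) (-2) g)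
    (hHU : HodgeType W U B) {z : W.H (X.prod U)} {c : ℤ} (hz : z ∈ tens W X U)
    (h0 : extSum W f g z = 0)
    (hc : extSum W (wt (W.isInternal X) X.dim) (wt (W.isInternal U) U.dim) z = (c : W.K) • z) :
    ∃ q : ℚ, 0 ≤ q ∧ (z ≠ 0 → 0 < q) ∧
      bf W (X.prod U) (ops.pull (fst X U) D + ops.pull (snd X U) B) (extSum W f g) z z = q := by
  obtain ⟨N, a, b, w, hab, hw, horth⟩ := exists_orthoFam tf hfX (lw_hl tf) hf hHX
  have hrep := hab.rep (tens_le_span hz)
  have hdeep : ∀ i, Deep W U B g (coef W (b i) z) := fun i =>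
    deep_coef_tens tf tg hf hz h0 hc (hab.hb i)
  set y : Fin N → W.H U := fun i => coef W (b i) z with hy
  have hpos : ∀ i, ∃ q : ℚ, 0 ≤ q ∧ (y i ≠ 0 → 0 < q) ∧ bf W U B g (y i) (y i) = q := by
    intro i
    by_cases hyi : y i = 0
    · exact ⟨0, le_rfl, fun h => absurd hyi h, by rw [hyi]; simp⟩
    · obtain ⟨q, hq, hq'⟩ := tg.bf_pos hgU hHU (hdeep i) hyi
      exact ⟨q, hq.le, fun _ => hq, hq'⟩
  choose q hq0 hq1 hq2 using hpos
  refine ⟨∑ i, w i * q i, Finset.sum_nonneg fun i _ => mul_nonneg (hw i).le (hq0 i), ?_, ?_⟩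
  · intro hz0
    have hex : ∃ i, y i ≠ 0 := by
      by_contra hne
      push Not at hne
      apply hz0
      rw [hrep]
      refine Finset.sum_eq_zero fun i _ => ?_
      change ext W (a i) (y i) = 0
      rw [hne i]
      simp [ext]
    obtain ⟨i, hi⟩ := hex
    exact Finset.sum_pos' (fun i _ => mul_nonneg (hw i).le (hq0 i))
      ⟨i, Finset.mem_univ _, mul_pos (hw i) (hq1 i hi)⟩
  · conv_lhs => rw [hrep]
    rw [map_sum]
    push_cast
    refine Finset.sum_congr rfl fun i _ => ?_
    rw [map_sum, LinearMap.sum_apply, Finset.sum_eq_single i]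
    · rw [tf.bf_ext tg, horth, if_pos rfl]
      change _ * bf W U B g (y i) (y i) = _
      rw [hq2]
    · intro l _ hl
      rw [tf.bf_ext tg, horth, if_neg hl, zero_mul]
    · intro h; exact absurd (Finset.mem_univ _) h

end Pool.Agent.Y218.SF
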