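import Pool.Agent.Y218.SFb

/-!
# The conjecture `D` for the products with one more variety
-/

set_option autoImplicit false

open CategoryTheory AlgebraicGeometry
open scoped TensorProduct

universe u v w

namespace Pool.Agent.Y218.SF

open Pool.Agent.H914 Pool.Agent.H914.VarClass Pool.Agent.H914.VarClass.Obj
  Pool.Agent.H914.WeilCohomology Pool.Agent.H281R3.HT Pool.Agent.W552 Pool.Agent.TH132.A

variable {k : Type u} [Field k] {𝒱 : VarClass k} {ops : CycleOps 𝒱}
  {W : WeilCohomology.{u, v} ops} {X Y Z S E E' U : 𝒱.Obj}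

/-! ### Injectivity of the reshuffling -/

/-- The reshuffling isomorphism. -/
noncomputable def rshEquiv (W : WeilCohomology.{u, v} ops) (S E E' U : 𝒱.Obj) :
    (W.H (E.prod E') ⊗[W.K] W.H (S.prod U)) ≃ₗ[W.K] W.H ((S.prod E).prod (E'.prod U)) :=
  (TensorProduct.congr (kappa W E E').symm (kappa W S U).symm).trans <|
    (TensorProduct.tensorTensorTensorComm W.K (W.H E) (W.H E') (W.H S) (W.H U)).trans <|
    (TensorProduct.congr (TensorProduct.comm W.K (W.H E) (W.H S))
      (LinearEquiv.refl W.K (W.H E' ⊗[W.K] W.H U))).trans <|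
    (TensorProduct.congr (kappa W S E) (kappa W E' U)).trans (kappa W (S.prod E) (E'.prod U))

lemma rsh_eq (e : W.H (E.prod E')) (c : W.H (S.prod U)) :
    rsh W e c = rshEquiv W S E E' U (e ⊗ₜ[W.K] c) := by
  refine W.kunneth_induction (p := fun c => rsh W e c =
    rshEquiv W S E E' U (e ⊗ₜ[W.K] c)) ?_ ?_ c
  · intro x y hx hy
    rw [map_add, hx, hy, TensorProduct.tmul_add, map_add]
  · intro _ _ t _ u _
    refine W.kunneth_induction (p := fun e => rsh W e (ext W t u) =
      rshEquiv W S E E' U (e ⊗ₜ[W.K] (ext W t u))) ?_ ?_ e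
    · intro x y hx hy
      rw [map_add, LinearMap.add_apply, hx, hy, TensorProduct.add_tmul, map_add]
    · intro _ _ t' _ t'' _
      change rsh W (ext W t' t'') (ext W t u) = _
      rw [rsh_ext_ext, rshEquiv]
      have e1 : ∀ {X Y : 𝒱.Obj} (x : W.H X) (y : W.H Y),
          (kappa W X Y).symm (ext W x y) = x ⊗ₜ y := by
        intro X Y x y
        rw [ext, ← kappa_tmul, LinearEquiv.symm_apply_apply]
      simp only [LinearEquiv.trans_apply, TensorProduct.congr_tmul]
      rw [show W.map (fst E E') t' * W.map (snd E E') t'' = ext W t' t'' from rfl, e1, e1,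
        TensorProduct.tensorTensorTensorComm_tmul, TensorProduct.congr_tmul,
        TensorProduct.congr_tmul, TensorProduct.comm_tmul, LinearEquiv.refl_apply, kappa_tmul,
        kappa_tmul, kappa_tmul]
      rfl

lemma rsh_inj {e : W.H (E.prod E')} (he : e ≠ 0) {c : W.H (S.prod U)} (h : rsh W e c = 0) :
    c = 0 := by
  rw [rsh_eq] at h
  refine tmul_zero_right (K := W.K) (a := e) he ?_
  exact (rshEquiv W S E E' U).injective (by rw [h, map_zero])

/-! ### External products -/

lemma ext_add_left (x x' : W.H X) (y : W.H Y) : ext W (x + x') y = ext W x y + ext W x' y := by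
  simp only [ext, map_add, add_mul]

lemma ext_add_right (x : W.H X) (y y' : W.H Y) : ext W x (y + y') = ext W x y + ext W x y' := by
  simp only [ext, map_add, mul_add]

lemma ext_smul_left (r : W.K) (x : W.H X) (y : W.H Y) : ext W (r • x) y = r • ext W x y := by
  simp only [ext, map_smul, smul_mul_assoc]

lemma ext_smul_right (r : W.K) (x : W.H X) (y : W.H Y) : ext W x (r • y) = r • ext W x y := by
  simp only [ext, map_smul, mul_smul_comm]

lemma ext_algSpan {x : W.H X} {y : W.H Y} (hx : x ∈ algSpan W X) (hy : y ∈ algSpan W Y) :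
    ext W x y ∈ algSpan W (X.prod Y) :=
  algSpan_mul (algSpan_map _ hx) (algSpan_map _ hy)

/-- The product of an algebraic class and of a transcendental class. -/
lemma ext_alg_trans {x : W.H X} {y : W.H Y} (hx : x ∈ algSpan W X)
    (hy : y ∈ transcendental W Y) : ext W x y ∈ transcendental W (X.prod Y) := by
  rw [mem_trans_AS]
  intro z hz
  refine algSpan_induction (p := fun x => W.tr (X.prod Y) (ext W x y * z) = 0) ?_ ?_ ?_ ?_ hx
  · intro x hx
    rw [← hz.comm, ← tr_coef, (coef_AS hx hz).comm]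
    exact trans_AS hy (coef_AS hx hz)
  · rw [ext, map_zero, zero_mul, zero_mul, map_zero]
  · intro a b ha hb
    rw [ext_add_left, add_mul, map_add, ha, hb, add_zero]
  · intro r a ha
    rw [ext_smul_left, smul_mul_assoc, map_smul, ha, smul_zero]

lemma ext_trans_alg {x : W.H X} {y : W.H Y} (hx : x ∈ transcendental W X)
    (hy : y ∈ algSpan W Y) : ext W x y ∈ transcendental W (X.prod Y) := by
  rw [mem_trans_AS]
  intro z hz
  refine algSpan_induction (p := fun y => W.tr (X.prod Y) (ext W x y * z) = 0) ?_ ?_ ?_ ?_ hy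
  · intro y hy
    have h1 : ext W x y * z = z * W.map (snd X Y) y * W.map (fst X Y) x := by
      rw [← hz.comm, ext, mul_assoc, (hy.map (snd X Y)).comm]
    have h2 := (hz.mul (hy.map (snd X Y))).push (fst X Y)
    rw [h1, ← W.tr_push, h2.comm]
    exact trans_AS hx h2
  · rw [ext, map_zero, mul_zero, zero_mul, map_zero]
  · intro a b ha hb
    rw [ext_add_right, add_mul, map_add, ha, hb, add_zero]
  · intro r a ha
    rw [ext_smul_right, smul_mul_assoc, map_smul, ha, smul_zero]

/-- The conjecture `D` in terms of the splitting of the cohomology. -/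
lemma homEqNum_iff_split : HomEqNum W X ↔
    ∀ y : W.H X, ∃ a ∈ algSpan W X, ∃ t ∈ transcendental W X, y = a + t := by
  constructor
  · intro hD y
    obtain ⟨N, a, b, h⟩ := exists_dualFam hD
    exact ⟨pr W a b y, pr_mem h y, y - pr W a b y, sub_pr h hD y, by abel⟩
  · intro h
    rw [homEqNum_iff_span]
    intro x hx ht
    apply W.nondeg
    intro y
    obtain ⟨a, ha, t, ht', rfl⟩ := h y
    rw [mul_add, map_add, trans_algSpan ht ha, algSpan_comm hx, trans_algSpan ht' hx, add_zero]

lemma ext_split {x : W.H X} {y : W.H Y} (hE : ExternallyAlgebraic W X Y)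
    {a t : W.H X} (ha : a ∈ algSpan W X) (ht : t ∈ transcendental W X) (hx : x = a + t)
    {a' t' : W.H Y} (ha' : a' ∈ algSpan W Y) (ht' : t' ∈ transcendental W Y)
    (hy : y = a' + t') : ∃ w ∈ algSpan W (X.prod Y), ext W x y = w + (ext W a t' + ext W t a') := by
  refine ⟨ext W a a' + ext W t t', Submodule.add_mem _ (ext_algSpan ha ha') (hE t ht t' ht'), ?_⟩
  rw [hx, hy, ext_add_left, ext_add_right, ext_add_right]
  abel

/-- The mixed classes. -/
noncomputable def mixed (W : WeilCohomology.{u, v} ops) (X Y : 𝒱.Obj) :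
    Submodule W.K (W.H (X.prod Y)) :=
  Submodule.span W.K {x | ∃ a ∈ algSpan W X, ∃ t ∈ transcendental W Y, x = ext W a t} ⊔
    Submodule.span W.K {x | ∃ t ∈ transcendental W X, ∃ a ∈ algSpan W Y, x = ext W t a}

lemma mixed_trans : mixed W X Y ≤ transcendental W (X.prod Y) := by
  refine sup_le (Submodule.span_le.2 ?_) (Submodule.span_le.2 ?_)
  · rintro _ ⟨a, ha, t, ht, rfl⟩
    exact ext_alg_trans ha ht
  · rintro _ ⟨t, ht, a, ha, rfl⟩
    exact ext_trans_alg ht ha

lemma split_prod (hX : HomEqNum W X) (hY : HomEqNum W Y) (hE : ExternallyAlgebraic W X Y)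
    (z : W.H (X.prod Y)) : ∃ a ∈ algSpan W (X.prod Y), ∃ t ∈ mixed W X Y, z = a + t := by
  refine W.kunneth_induction (p := fun z => ∃ a ∈ algSpan W (X.prod Y), ∃ t ∈ mixed W X Y,
    z = a + t) ?_ ?_ z
  · rintro _ _ ⟨a, ha, t, ht, rfl⟩ ⟨b, hb, s, hs, rfl⟩
    exact ⟨a + b, Submodule.add_mem _ ha hb, t + s, Submodule.add_mem _ ht hs, by abel⟩
  · intro _ _ x _ y _
    obtain ⟨a, ha, t, ht, hx⟩ := homEqNum_iff_split.1 hX x
    obtain ⟨a', ha', t', ht', hy⟩ := homEqNum_iff_split.1 hY y
    obtain ⟨w, hw, h⟩ := ext_split hE ha ht hx ha' ht' hy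
    exact ⟨w, hw, _, Submodule.add_mem _
      (Submodule.mem_sup_left (Submodule.subset_span ⟨a, ha, t', ht', rfl⟩))
      (Submodule.mem_sup_right (Submodule.subset_span ⟨t, ht, a', ha', rfl⟩)), h⟩

/-- **The conjecture `D` for a product.** -/
theorem homEqNum_prod (hX : HomEqNum W X) (hY : HomEqNum W Y)
    (hE : ExternallyAlgebraic W X Y) : HomEqNum W (X.prod Y) := by
  rw [homEqNum_iff_split]
  intro z
  obtain ⟨a, ha, t, ht, h⟩ := split_prod hX hY hE z
  exact ⟨a, ha, t, mixed_trans ht, h⟩

/-- The transcendental classes on a product. -/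
lemma trans_mixed (hX : HomEqNum W X) (hY : HomEqNum W Y) (hE : ExternallyAlgebraic W X Y)
    {z : W.H (X.prod Y)} (hz : z ∈ transcendental W (X.prod Y)) : z ∈ mixed W X Y := by
  obtain ⟨a, ha, t, ht, rfl⟩ := split_prod hX hY hE z
  have h1 : a ∈ transcendental W (X.prod Y) := by
    have := Submodule.sub_mem _ hz (mixed_trans ht)
    rwa [add_sub_cancel_right] at this
  rw [homEqNum_iff_span.1 (homEqNum_prod hX hY hE) a ha h1, zero_add]
  exact ht

/-- External algebraicity for a product on the left. -/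
theorem ea_prod_left (hX : HomEqNum W X) (hY : HomEqNum W Y) (hXY : ExternallyAlgebraic W X Y)
    (hXZ : ExternallyAlgebraic W X Z) (hYZ : ExternallyAlgebraic W Y Z) :
    ExternallyAlgebraic W (X.prod Y) Z := by
  intro x hx r hr
  obtain ⟨y, hy, z, hz, rfl⟩ := Submodule.mem_sup.1 (trans_mixed hX hY hXY hx)
  clear hx
  rw [ext_add_left]
  refine Submodule.add_mem _ ?_ ?_
  · induction hy using Submodule.span_induction with
    | mem y hy =>
      obtain ⟨a, ha, t, ht, rfl⟩ := hy
      have h1 := algSpan_mul (algSpan_map (fst (X.prod Y) Z ≫ fst X Y) ha)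
        (algSpan_map (Obj.lift (fst (X.prod Y) Z ≫ snd X Y) (snd (X.prod Y) Z)) (hYZ t ht r hr))
      have e1 : Obj.lift (fst (X.prod Y) Z ≫ snd X Y) (snd (X.prod Y) Z) ≫ fst Y Z =
          fst (X.prod Y) Z ≫ snd X Y := Obj.lift_fst _ _
      have e2 : Obj.lift (fst (X.prod Y) Z ≫ snd X Y) (snd (X.prod Y) Z) ≫ snd Y Z =
          snd (X.prod Y) Z := Obj.lift_snd _ _
      rw [ext, map_mul, ← W.map_comp, ← W.map_comp, e1, e2, W.map_comp, W.map_comp,
        ← mul_assoc, ← map_mul] at h1
      exact h1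
    | zero => rw [ext, map_zero, zero_mul]; exact Submodule.zero_mem _
    | add x y _ _ hx hy => rw [ext_add_left]; exact Submodule.add_mem _ hx hy
    | smul c x _ hx => rw [ext_smul_left]; exact Submodule.smul_mem _ _ hx
  · induction hz using Submodule.span_induction with
    | mem y hy =>
      obtain ⟨t, ht, a, ha, rfl⟩ := hy
      have h1 := algSpan_mul (algSpan_map (fst (X.prod Y) Z ≫ snd X Y) ha)
        (algSpan_map (Obj.lift (fst (X.prod Y) Z ≫ fst X Y) (snd (X.prod Y) Z)) (hXZ t ht r hr))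
      have e1 : Obj.lift (fst (X.prod Y) Z ≫ fst X Y) (snd (X.prod Y) Z) ≫ fst X Z =
          fst (X.prod Y) Z ≫ fst X Y := Obj.lift_fst _ _
      have e2 : Obj.lift (fst (X.prod Y) Z ≫ fst X Y) (snd (X.prod Y) Z) ≫ snd X Z =
          snd (X.prod Y) Z := Obj.lift_snd _ _
      rw [ext, map_mul, ← W.map_comp, ← W.map_comp, e1, e2, W.map_comp, W.map_comp,
        ← mul_assoc, ← map_mul, algSpan_comm (algSpan_map (snd X Y) ha)] at h1
      exact h1
    | zero => rw [ext, map_zero, zero_mul]; exact Submodule.zero_mem _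
    | add x y _ _ hx hy => rw [ext_add_left]; exact Submodule.add_mem _ hx hy
    | smul c x _ hx => rw [ext_smul_left]; exact Submodule.smul_mem _ _ hx

/-- External algebraicity for a product on the right. -/
theorem ea_prod_right (hX : HomEqNum W X) (hY : HomEqNum W Y) (hXY : ExternallyAlgebraic W X Y)
    (hZX : ExternallyAlgebraic W Z X) (hZY : ExternallyAlgebraic W Z Y) :
    ExternallyAlgebraic W Z (X.prod Y) := by
  intro r hr x hx
  obtain ⟨y, hy, z, hz, rfl⟩ := Submodule.mem_sup.1 (trans_mixed hX hY hXY hx)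
  clear hx
  rw [ext_add_right]
  refine Submodule.add_mem _ ?_ ?_
  · induction hy using Submodule.span_induction with
    | mem y hy =>
      obtain ⟨a, ha, t, ht, rfl⟩ := hy
      have h1 := algSpan_mul (algSpan_map (snd Z (X.prod Y) ≫ fst X Y) ha)
        (algSpan_map (Obj.lift (fst Z (X.prod Y)) (snd Z (X.prod Y) ≫ snd X Y)) (hZY r hr t ht))
      have e1 : Obj.lift (fst Z (X.prod Y)) (snd Z (X.prod Y) ≫ snd X Y) ≫ fst Z Y =
          fst Z (X.prod Y) := Obj.lift_fst _ _
      have e2 : Obj.lift (fst Z (X.prod Y)) (snd Z (X.prod Y) ≫ snd X Y) ≫ snd Z Y =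
          snd Z (X.prod Y) ≫ snd X Y := Obj.lift_snd _ _
      rw [ext, map_mul, ← W.map_comp, ← W.map_comp, e1, e2, W.map_comp, W.map_comp,
        ← mul_assoc, algSpan_comm (algSpan_map _ (algSpan_map (fst X Y) ha)), mul_assoc,
        ← map_mul] at h1
      exact h1
    | zero => rw [ext, map_zero, mul_zero]; exact Submodule.zero_mem _
    | add x y _ _ hx hy => rw [ext_add_right]; exact Submodule.add_mem _ hx hy
    | smul c x _ hx => rw [ext_smul_right]; exact Submodule.smul_mem _ _ hx
  · induction hz using Submodule.span_induction with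
    | mem y hy =>
      obtain ⟨t, ht, a, ha, rfl⟩ := hy
      have h1 := algSpan_mul
        (algSpan_map (Obj.lift (fst Z (X.prod Y)) (snd Z (X.prod Y) ≫ fst X Y)) (hZX r hr t ht))
        (algSpan_map (snd Z (X.prod Y) ≫ snd X Y) ha)
      have e1 : Obj.lift (fst Z (X.prod Y)) (snd Z (X.prod Y) ≫ fst X Y) ≫ fst Z X =
          fst Z (X.prod Y) := Obj.lift_fst _ _
      have e2 : Obj.lift (fst Z (X.prod Y)) (snd Z (X.prod Y) ≫ fst X Y) ≫ snd Z X =
          snd Z (X.prod Y) ≫ fst X Y := Obj.lift_snd _ _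
      rw [ext, map_mul, ← W.map_comp, ← W.map_comp, e1, e2, W.map_comp, W.map_comp,
        mul_assoc, ← map_mul] at h1
      exact h1
    | zero => rw [ext, map_zero, mul_zero]; exact Submodule.zero_mem _
    | add x y _ _ hx hy => rw [ext_add_right]; exact Submodule.add_mem _ hx hy
    | smul c x _ hx => rw [ext_smul_right]; exact Submodule.smul_mem _ _ hx

end Pool.Agent.Y218.SF
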