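import Pool.Agent.Y218.SFd
import Pool.Agent.Y218.SFProd

/-!
# The conjecture `D` for the products with one more variety: the transfer
-/

set_option autoImplicit false

open CategoryTheory AlgebraicGeometry
open scoped TensorProduct

universe u v w

namespace Pool.Agent.Y218.SF

open Pool.Agent.H914 Pool.Agent.H914.VarClass Pool.Agent.H914.VarClass.Obj
  Pool.Agent.H914.WeilCohomology Pool.Agent.H281R3.HT Pool.Agent.W552 Pool.Agent.TH132.A

variable {k : Type u} [Field k] {𝒱 : VarClass k} {ops : CycleOps 𝒱}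
  {W : WeilCohomology.{u, v} ops} {X Y Z S E E' U : 𝒱.Obj}

/-- The combinations of the products of a transcendental class on `X` and a class on `Y`. -/
noncomputable def T1 (W : WeilCohomology.{u, v} ops) (X Y : 𝒱.Obj) :
    Submodule W.K (W.H (X.prod Y)) :=
  Submodule.span W.K {x | ∃ t ∈ transcendental W X, ∃ y : W.H Y, x = ext W t y}

section

variable {N : ℕ} {a b : Fin N → W.H X} (h : DualFam W X a b)

include h

lemma sub_extL_pr (hX : HomEqNum W X) (z : W.H (X.prod Y)) :
    z - extL W X Y (pr W a b) z ∈ T1 W X Y := by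
  refine W.kunneth_induction (p := fun z => z - extL W X Y (pr W a b) z ∈ T1 W X Y) ?_ ?_ z
  · intro x y hx hy
    rw [map_add, add_sub_add_comm]
    exact Submodule.add_mem _ hx hy
  · intro _ _ x _ y _
    rw [extL_apply, extOp_tmul, Module.End.one_apply, ← sub_mul, ← map_sub]
    exact Submodule.subset_span ⟨_, sub_pr h hX x, y, rfl⟩

lemma extL_pr_T1 {z : W.H (X.prod Y)} (hz : z ∈ T1 W X Y) : extL W X Y (pr W a b) z = 0 := by
  induction hz using Submodule.span_induction with
  | mem z hz =>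
    obtain ⟨t, ht, y, rfl⟩ := hz
    rw [ext, extL_apply, extOp_tmul, Module.End.one_apply, pr_trans h ht, map_zero, zero_mul]
  | zero => rw [map_zero]
  | add x y _ _ hx hy => rw [map_add, hx, hy, add_zero]
  | smul c x _ hx => rw [map_smul, hx, smul_zero]

/-- The transcendental component of the class of the diagonal. -/
lemma diag_ne (hT : transcendental W X ≠ ⊥) :
    W.push (diag X) 1 - extL W X X (pr W a b) (W.push (diag X) 1) ≠ 0 := by
  intro h0
  obtain ⟨t, ht, ht0⟩ := Submodule.exists_mem_ne_zero_of_ne_bot hT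
  apply ht0
  have hΔ : AS W (X.prod X) (W.push (diag X) (1 : W.H X)) := AS.one.push _
  have h1 : W.corr (W.push (diag X) (1 : W.H X)) t = t := by
    rw [corr_diag, one_mul]
  rw [← h1, sub_eq_zero.1 h0, extL_pr h, corr_apply, Finset.sum_mul, map_sum]
  refine Finset.sum_eq_zero fun i _ => ?_
  have h2 : AS W X (coef W (b i) (W.push (diag X) (1 : W.H X))) := coef_AS (h.hb i) hΔ
  rw [ext, mul_assoc, (h2.map (snd X X)).comm, ← mul_assoc, ← map_mul, W.push_snd,
    (h.ha i).comm, trans_AS ht (h.ha i), zero_smul]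

end

lemma exists_trans_class (hX : HomEqNum W X) (hT : transcendental W X ≠ ⊥) :
    ∃ e, AS W (X.prod X) e ∧ e ≠ 0 ∧ e ∈ T1 W X X := by
  obtain ⟨N, a, b, h⟩ := exists_dualFam hX
  refine ⟨_, ?_, diag_ne h hT, sub_extL_pr h hX _⟩
  have hΔ : AS W (X.prod X) (W.push (diag X) (1 : W.H X)) := AS.one.push _
  have h2 := extL_pr_tens h hΔ
  rw [sub_eq_add_neg]
  refine hΔ.add (AS.ratSub.neg ?_)
  generalize extL W X X (pr W a b) (W.push (diag X) 1) = x at h2
  induction h2 using AddSubmonoid.closure_induction with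
  | mem w hw =>
    obtain ⟨x, y, hx, hy, rfl⟩ := hw
    exact AS.ext hx hy
  | zero => exact AS.zero
  | add x y _ _ hx hy => exact hx.add hy

lemma one_ne_of_trans (hT : transcendental W X ≠ ⊥) : (1 : W.H X) ≠ 0 := by
  intro h0
  obtain ⟨t, -, ht0⟩ := Submodule.exists_mem_ne_zero_of_ne_bot hT
  apply ht0
  rw [← one_mul t, h0, zero_mul]

/-- The conjecture `D` for a factor. -/
theorem homEqNum_factor (h1 : (1 : W.H X) ≠ 0) (h : HomEqNum W (X.prod U)) : HomEqNum W U := by
  rw [homEqNum_iff] at h ⊢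
  intro y hy h0
  refine one_ext_inj (X := X) h1 (h _ (AS.one.ext hy) fun w hw => ?_)
  have h2 : ext W (1 : W.H X) y * w = w * W.map (snd X U) y := by
    rw [ext, map_one, one_mul, hw.comm]
  rw [h2, ← W.tr_push, (hw.push (snd X U)).comm]
  exact h0 _ (hw.push _)

/-- **The transfer of the conjecture `D`.** -/
theorem homEqNum_transfer (hEA : ExternallyAlgebraic W S E) (hS : HomEqNum W S)
    (hE : HomEqNum W E) (hT : transcendental W E ≠ ⊥) (hU : HomEqNum W (E.prod U)) :
    HomEqNum W (S.prod U) := by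
  have hU' : HomEqNum W U := homEqNum_factor (one_ne_of_trans hT) hU
  have hSE : HomEqNum W (S.prod E) := homEqNum_prod hS hE hEA
  obtain ⟨e, he, he0, heT⟩ := exists_trans_class hE hT
  obtain ⟨N, a, b, h⟩ := exists_dualFam hS
  rw [homEqNum_iff]
  intro z hz h0
  -- the first component
  have h1 : extL W S U (pr W a b) z = 0 := by
    rw [extL_pr h]
    refine Finset.sum_eq_zero fun i _ => ?_
    have h2 : coef W (b i) z = 0 := by
      refine homEqNum_iff.1 hU' _ (coef_AS (h.hb i) hz) fun y hy => ?_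
      rw [tr_coef]
      exact h0 _ ((h.hb i).ext hy)
    rw [h2, ext, map_zero, mul_zero]
  have hzT : z ∈ T1 W S U := by
    have := sub_extL_pr h hS z
    rwa [h1, sub_zero] at this
  -- the reshuffled class
  refine rsh_inj (E := E) (E' := E) he0 ?_
  have hrA : rsh W e z = W.map (r1 S E E U) z * W.map (r2 S E E U) e :=
    rsh_alg (AS.mem_algSpan he) z
  have hζ : AS W _ (rsh W e z) := by
    rw [hrA]
    exact (hz.map _).mul (he.map _)
  obtain ⟨M, a', b', h'⟩ := exists_dualFam hSE
  rw [h'.rep (rsh_span hEA heT hzT)]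
  refine Finset.sum_eq_zero fun i _ => ?_
  have h2 : coef W (b' i) (rsh W e z) = 0 := by
    refine homEqNum_iff.1 hU _ (coef_AS (h'.hb i) hζ) fun y hy => ?_
    have h3 : AS W _ (W.map (r2 S E E U) e * ext W (b' i) y) :=
      (he.map _).mul ((h'.hb i).ext hy)
    rw [tr_coef, hrA, mul_assoc, ← h3.comm, ← W.tr_push, (h3.push (r1 S E E U)).comm]
    exact h0 _ (h3.push _)
  rw [h2, ext, map_zero, mul_zero]

/-- If the cohomology of the first factor is algebraic. -/
theorem homEqNum_transfer' (hS : HomEqNum W S) (hT : transcendental W S = ⊥)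
    (hU : HomEqNum W U) : HomEqNum W (S.prod U) := by
  obtain ⟨N, a, b, h⟩ := exists_dualFam hS
  rw [homEqNum_iff]
  intro z hz h0
  have h3 : z - extL W S U (pr W a b) z = 0 := by
    have h4 := sub_extL_pr h hS z
    generalize z - extL W S U (pr W a b) z = x at h4
    induction h4 using Submodule.span_induction with
    | mem x hx =>
      obtain ⟨t, ht, y, rfl⟩ := hx
      rw [hT, Submodule.mem_bot] at ht
      rw [ht, ext, map_zero, zero_mul]
    | zero => rfl
    | add x y _ _ hx hy => rw [hx, hy, add_zero]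
    | smul c x _ hx => rw [hx, smul_zero]
  rw [sub_eq_zero.1 h3, extL_pr h]
  refine Finset.sum_eq_zero fun i _ => ?_
  have h2 : coef W (b i) z = 0 := by
    refine homEqNum_iff.1 hU _ (coef_AS (h.hb i) hz) fun y hy => ?_
    rw [tr_coef]
    exact h0 _ ((h.hb i).ext hy)
  rw [h2, ext, map_zero, mul_zero]

/-! ### Families -/

section

variable {ι : Type w} {P : ι → 𝒱.Obj}

lemma isProd_aux (hD : ∀ i, HomEqNum W (P i)) (hE : ∀ i j, ExternallyAlgebraic W (P i) (P j))
    {R : 𝒱.Obj} (hR : IsProd P R) : HomEqNum W R ∧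
      (∀ X, (∀ j, ExternallyAlgebraic W X (P j)) → ExternallyAlgebraic W X R) ∧
      ∀ X, (∀ j, ExternallyAlgebraic W (P j) X) → ExternallyAlgebraic W R X := by
  induction hR with
  | base i => exact ⟨hD i, fun X h => h i, fun X h => h i⟩
  | @prod Q R _ _ ihQ ihR =>
    have h1 : ∀ j, ExternallyAlgebraic W Q (P j) := fun j => ihQ.2.2 _ fun i => hE i j
    have h2 : ExternallyAlgebraic W Q R := ihR.2.1 _ h1
    refine ⟨homEqNum_prod ihQ.1 ihR.1 h2, fun X h => ?_, fun X h => ?_⟩
    · exact ea_prod_right ihQ.1 ihR.1 h2 (ihQ.2.1 X h) (ihR.2.1 X h)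
    · exact ea_prod_left ihQ.1 ihR.1 h2 (ihQ.2.2 X h) (ihR.2.2 X h)

lemma isProd_ea (hD : ∀ i, HomEqNum W (P i)) (hE : ∀ i j, ExternallyAlgebraic W (P i) (P j))
    {Q R : 𝒱.Obj} (hQ : IsProd P Q) (hR : IsProd P R) : ExternallyAlgebraic W Q R :=
  (isProd_aux hD hE hR).2.1 _ fun j => (isProd_aux hD hE hQ).2.2 _ fun i => hE i j

/-- **The conjecture `D` for the products with one more variety depends only on this variety.** -/
theorem homEqNum_times (hD : ∀ i, HomEqNum W (P i))
    (hE : ∀ i j, ExternallyAlgebraic W (P i) (P j)) {Q R : 𝒱.Obj} (hQ : IsProd P Q)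
    (hR : IsProd P R) (hT : transcendental W Q ≠ ⊥) (hU : HomEqNum W (Q.prod U)) :
    HomEqNum W (R.prod U) :=
  homEqNum_transfer (isProd_ea hD hE hR hQ) (isProd_aux hD hE hR).1 (isProd_aux hD hE hQ).1 hT hU

end

end Pool.Agent.Y218.SF
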