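import Pool.Agent.Y218.SFc
import Pool.Agent.Y218.SFe

/-!
# The conjecture of Hodge type for the products with one more variety: the transfer
-/

set_option autoImplicit false

open CategoryTheory AlgebraicGeometry
open scoped TensorProduct

universe u v w

namespace Pool.Agent.Y218.SF

open Pool.Agent.H914 Pool.Agent.H914.VarClass Pool.Agent.H914.VarClass.Obj
  Pool.Agent.H914.WeilCohomology Pool.Agent.H281R3.HT Pool.Agent.W552 Pool.Agent.TH132.A

variable {k : Type u} [Field k] {𝒱 : VarClass k} {ops : CycleOps 𝒱}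
  {W : WeilCohomology.{u, v} ops} {X Y Z S E E' U : 𝒱.Obj}

lemma stable_of_D {D : X.Cycles} {f : Module.End W.K (W.H X)} (F : Lw W X D f)
    (hD : HomEqNum W X) : Stable W X f :=
  stable_of_lefschetzA F.hD F.sl2 (lefschetzA_of_D F.hD (lw_hl F) hD)

/-- The lowering operator is homogeneous of degree `-2`. -/
lemma isHom_of_lw {D : X.Cycles} {f : Module.End W.K (W.H X)} (F : Lw W X D f) :
    IsHom (W.gr X) (-2) f := by
  intro i x hx
  by_cases hi : 0 ≤ i
  · lift i to ℕ using hi
    rw [grZ_natCast] at hx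
    have h1 := F.f_gr hx
    by_cases h2 : i < 2
    · rw [h1.2 h2]
      exact Submodule.zero_mem _
    · have h3 := h1.1 (i - 2) (by omega)
      have h4 : (i : ℤ) + -2 = ((i - 2 : ℕ) : ℤ) := by omega
      rw [h4, grZ_natCast]
      exact h3
  · rw [grZ_of_neg (by omega)] at hx
    rw [(Submodule.mem_bot _).1 hx, map_zero]
    exact Submodule.zero_mem _

/-- The weight operator preserves the algebraic classes. -/
lemma wt_AS {x : W.H X} (hx : AS W X x) : wt (W.isInternal X) X.dim x ∈ algSpan W X := by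
  refine AS.ind (p := fun x => wt (W.isInternal X) X.dim x ∈ algSpan W X) ?_ ?_ hx
  · intro j x hx
    rw [Fr.wt_gr (alg_gr hx)]
    exact Submodule.smul_mem _ _ (AS.mem_algSpan (AS.of hx))
  · intro x y hx hy
    rw [map_add]
    exact Submodule.add_mem _ hx hy

lemma wt_trans {t : W.H X} (ht : t ∈ transcendental W X) :
    wt (W.isInternal X) X.dim t ∈ transcendental W X := by
  have hsum := sum_proj (W.isInternal X) (N := 2 * X.dim + 1) (W_hbd (W := W) (X := X))
  have h2 : t = ∑ i ∈ Finset.range (2 * X.dim + 1), proj (W.isInternal X) i t := by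
    have := congrArg (fun F => F t) hsum
    simp only [LinearMap.sum_apply, Module.End.one_apply] at this
    exact this.symm
  rw [h2, map_sum]
  refine Submodule.sum_mem _ fun i _ => ?_
  rw [Fr.wt_gr (proj_mem _ _ _)]
  exact Submodule.smul_mem _ _ (proj_trans ht i)

lemma extL_comm_sum {p A : Module.End W.K (W.H X)} {B : Module.End W.K (W.H Y)}
    (hpA : p * A = A * p) (z : W.H (X.prod Y)) :
    extSum W A B (extL W X Y p z) = extL W X Y p (extSum W A B z) := by
  rw [extSum, LinearMap.add_apply, LinearMap.add_apply, map_add]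
  congr 1
  · rw [← Module.End.mul_apply, ← Module.End.mul_apply, ← map_mul, ← map_mul, hpA]
  · rw [← Module.End.mul_apply, ← Module.End.mul_apply, (ext_commute p B).eq]

/-- A primitive class in the transcendental part of `X × X`. -/
lemma exists_prim_class {D : X.Cycles} {f : Module.End W.K (W.H X)} (F : Lw W X D f)
    (hX : HomEqNum W X) (hXX : HomEqNum W (X.prod X)) (hT : transcendental W X ≠ ⊥) :
    ∃ (e : W.H (X.prod X)) (c : ℤ), AS W (X.prod X) e ∧ e ≠ 0 ∧ e ∈ T1 W X X ∧
      extSum W f f e = 0 ∧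
      extSum W (wt (W.isInternal X) X.dim) (wt (W.isInternal X) X.dim) e = (c : W.K) • e := by
  obtain ⟨N, a, b, h⟩ := exists_dualFam hX
  set p := pr W a b with hp
  have FF := F.prod F
  have hst : Stable W (X.prod X) (extSum W f f) := stable_of_D FF hXX
  have hf : Stable W X f := stable_of_D F hX
  have hpf : p * f = f * p := pr_f F hX hf h
  have hpw : p * wt (W.isInternal X) X.dim = wt (W.isInternal X) X.dim * p :=
    pr_comm h hX (fun _ hx => wt_AS hx) (fun _ ht => wt_trans ht)
  -- the property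
  let Q : W.H (X.prod X) → Prop := fun e => AS W (X.prod X) e ∧ extL W X X p e = 0
  set e₀ := W.push (diag X) 1 - extL W X X p (W.push (diag X) 1) with he₀
  have hne : e₀ ≠ 0 := diag_ne h hT
  have hΔ : AS W (X.prod X) (W.push (diag X) (1 : W.H X)) := AS.one.push _
  have hQ0 : Q e₀ := by
    refine ⟨?_, extL_pr_T1 h (sub_extL_pr h hX _)⟩
    rw [he₀, sub_eq_add_neg]
    exact hΔ.add (AS.ratSub.neg (tens_AS (extL_pr_tens h hΔ)))
  have hw0 : extSum W (wt (W.isInternal X) X.dim) (wt (W.isInternal X) X.dim) e₀ =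
      ((0 : ℤ) : W.K) • e₀ := by
    have h1 : extSum W (wt (W.isInternal X) X.dim) (wt (W.isInternal X) X.dim)
        (W.push (diag X) (1 : W.H X)) = 0 := by
      have h2 : W.push (diag X) (1 : W.H X) ∈ algClasses W (X.prod X) X.dim :=
        alg_push (diag X) alg_one (by rw [dim_prod]; omega)
      rw [← wt_prod, Fr.wt_gr (alg_gr h2), dim_prod]
      push_cast
      rw [show (2 * (X.dim : W.K) - (X.dim + X.dim)) = 0 by ring, zero_smul]
    rw [he₀, map_sub, extL_comm_sum hpw, h1, map_zero, Int.cast_zero, zero_smul, sub_zero]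
  have hQf : ∀ e, Q e → Q (extSum W f f e) := by
    rintro e ⟨h1, h2⟩
    refine ⟨hst e h1, ?_⟩
    rw [← extL_comm_sum hpf, h2, map_zero]
  have hQpow : ∀ m : ℕ, Q ((extSum W f f ^ m) e₀) ∧
      extSum W (wt (W.isInternal X) X.dim) (wt (W.isInternal X) X.dim)
        ((extSum W f f ^ m) e₀) = ((-(2 * (m : ℤ)) : ℤ) : W.K) • (extSum W f f ^ m) e₀ := by
    intro m
    induction m with
    | zero => exact ⟨hQ0, by simpa using hw0⟩
    | succ m ih =>
      refine ⟨by rw [pow_succ', Module.End.mul_apply]; exact hQf _ ih.1, ?_⟩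
      have h1 := congrArg (fun G => G ((extSum W f f ^ m) e₀)) FF.sl2.hf
      simp only [LinearMap.sub_apply, Module.End.mul_apply, LinearMap.neg_apply] at h1
      have h2 : (2 : Module.End W.K (W.H (X.prod X))) (extSum W f f ((extSum W f f ^ m) e₀)) =
          (2 : W.K) • (extSum W f f ((extSum W f f ^ m) e₀)) := by
        rw [ofNat_smul_eq_nsmul]; rfl
      rw [wt_prod, ih.2, map_smul, h2, sub_eq_iff_eq_add] at h1
      rw [pow_succ', Module.End.mul_apply, h1, ← neg_smul, ← add_smul]
      congr 1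
      push_cast
      ring
  obtain ⟨M, hM⟩ := FF.sl2.nil_f
  have hex : ∃ m : ℕ, (extSum W f f ^ m) e₀ = 0 := ⟨M, by rw [hM, LinearMap.zero_apply]⟩
  classical
  obtain ⟨m, hm⟩ : ∃ m, Nat.find hex = m + 1 := by
    refine Nat.exists_eq_succ_of_ne_zero ?_
    intro h0
    have h1 := Nat.find_spec hex
    rw [h0, pow_zero, Module.End.one_apply] at h1
    exact hne h1
  have hm1 : (extSum W f f ^ m) e₀ ≠ 0 := Nat.find_min hex (by omega)
  have hm2 : (extSum W f f ^ (m + 1)) e₀ = 0 := by
    have := Nat.find_spec hex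
    rwa [hm] at this
  refine ⟨(extSum W f f ^ m) e₀, _, (hQpow m).1.1, hm1, ?_, ?_, (hQpow m).2⟩
  · have h1 := sub_extL_pr h hX ((extSum W f f ^ m) e₀)
    have h2 : extL W X X p ((extSum W f f ^ m) e₀) = 0 := (hQpow m).1.2
    rw [← hp, h2, sub_zero] at h1
    exact h1
  · rw [← Module.End.mul_apply, ← pow_succ', hm2]

section

variable {DS : S.Cycles} {DE : E.Cycles} {B : U.Cycles}
  {fS : Module.End W.K (W.H S)} {fE : Module.End W.K (W.H E)} {g : Module.End W.K (W.H U)}

/-- The components are orthogonal. -/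
lemma bf_orth (FS : Lw W S DS fS) (hS : Stable W S fS) (G : Lw W U B g)
    {x y : W.H (S.prod U)} (hx : x ∈ tens W S U) (hy : y ∈ T1 W S U) :
    bf W (S.prod U) (ops.pull (fst S U) DS + ops.pull (snd S U) B) (extSum W fS g) x y = 0 ∧
      bf W (S.prod U) (ops.pull (fst S U) DS + ops.pull (snd S U) B) (extSum W fS g) y x = 0 := by
  induction hx using AddSubmonoid.closure_induction with
  | mem x hx =>
    obtain ⟨x, u, hx, -, rfl⟩ := hx
    induction hy using Submodule.span_induction with
    | mem y hy =>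
      obtain ⟨t, ht, u', rfl⟩ := hy
      rw [FS.bf_ext G, FS.bf_ext G, bf_AS_trans FS hS ht hx, bf_trans_AS FS hS ht hx, zero_mul,
        zero_mul]
      exact ⟨rfl, rfl⟩
    | zero => rw [map_zero, map_zero, LinearMap.zero_apply]; exact ⟨rfl, rfl⟩
    | add y z _ _ hy hz =>
      rw [map_add, map_add, LinearMap.add_apply, hy.1, hy.2, hz.1, hz.2, add_zero]
      exact ⟨rfl, rfl⟩
    | smul c y _ hy =>
      rw [map_smul, map_smul, LinearMap.smul_apply, hy.1, hy.2, smul_zero]
      exact ⟨rfl, rfl⟩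
  | zero => rw [map_zero, map_zero, LinearMap.zero_apply]; exact ⟨rfl, rfl⟩
  | add x z _ _ hx hz =>
    rw [map_add, map_add, LinearMap.add_apply, hx.1, hx.2, hz.1, hz.2, add_zero]
    exact ⟨rfl, rfl⟩

/-- **The transfer of the conjecture of Hodge type.** -/
theorem hodge_transfer (FS : Lw W S DS fS) (FE : Lw W E DE fE) (G : Lw W U B g)
    (hEA : ExternallyAlgebraic W S E) (hS : HomEqNum W S) (hE : HomEqNum W E)
    (hEE : HomEqNum W (E.prod E)) (hT : transcendental W E ≠ ⊥)
    (hHS : HodgeType W S DS) (hHE : HodgeType W E DE)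
    (hHSE : HodgeType W (S.prod E) (ops.pull (fst S E) DS + ops.pull (snd S E) DE))
    (hHEE : HodgeType W (E.prod E) (ops.pull (fst E E) DE + ops.pull (snd E E) DE))
    (hH : HodgeType W (E.prod U) (ops.pull (fst E U) DE + ops.pull (snd E U) B)) :
    HodgeType W (S.prod U) (ops.pull (fst S U) DS + ops.pull (snd S U) B) := by
  intro j hj z hz hprim hz0
  have hHU : HodgeType W U B := hodge_of_prod FE G hHE (one_ne_of_trans hT) hH
  have hSE : HomEqNum W (S.prod E) := homEqNum_prod hS hE hEA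
  have stS : Stable W S fS := stable_of_D FS hS
  have stSE : Stable W (S.prod E) (extSum W fS fE) := stable_of_D (FS.prod FE) hSE
  have stEE : Stable W (E.prod E) (extSum W fE fE) := stable_of_D (FE.prod FE) hEE
  have F := FS.prod G
  -- the class
  have hzA : AS W (S.prod U) (W.cl _ z) := AS.of ⟨z, hz, rfl⟩
  have hwt := wt_alg (W := W) hj ⟨z, hz, rfl⟩
  have h0 : extSum W fS g (W.cl _ z) = 0 := by
    refine F.sl2.f_eq_zero hwt ?_
    rw [← cl_divPow]
    exact hprim
  have hc : extSum W (wt (W.isInternal S) S.dim) (wt (W.isInternal U) U.dim) (W.cl _ z) =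
      ((-(((S.prod U).dim - 2 * j : ℕ) : ℤ) : ℤ) : W.K) • W.cl _ z := by
    rw [← wt_prod, hwt]
    push_cast
    rfl
  set ζ := W.cl (S.prod U) z with hζ
  set c : ℤ := -(((S.prod U).dim - 2 * j : ℕ) : ℤ) with hcdef
  -- the decomposition
  obtain ⟨N, a, b, h⟩ := exists_dualFam hS
  set p := pr W a b with hp
  have hpf : p * fS = fS * p := pr_f FS hS stS h
  have hpw : p * wt (W.isInternal S) S.dim = wt (W.isInternal S) S.dim * p :=
    pr_comm h hS (fun _ hx => wt_AS hx) (fun _ ht => wt_trans ht)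
  set x := extL W S U p ζ with hx
  set y := ζ - x with hy
  have hxt : x ∈ tens W S U := extL_pr_tens h hzA
  have hyT : y ∈ T1 W S U := sub_extL_pr h hS ζ
  have hyA : AS W (S.prod U) y := by
    rw [hy, sub_eq_add_neg]
    exact hzA.add (AS.ratSub.neg (tens_AS hxt))
  have hx0 : extSum W fS g x = 0 := by rw [hx, extL_comm_sum hpf, h0, map_zero]
  have hxc : extSum W (wt (W.isInternal S) S.dim) (wt (W.isInternal U) U.dim) x =
      (c : W.K) • x := by rw [hx, extL_comm_sum hpw, hc, map_smul]
  have hy0 : extSum W fS g y = 0 := by rw [hy, map_sub, h0, hx0, sub_zero]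
  have hyc : extSum W (wt (W.isInternal S) S.dim) (wt (W.isInternal U) U.dim) y =
      (c : W.K) • y := by rw [hy, map_sub, hc, hxc, smul_sub]
  -- the first component
  obtain ⟨q₁, hq₁, hq₁', hb₁⟩ := pos_tens FS (isHom_of_lw FS) stS hHS G (isHom_of_lw G) hHU hxt hx0 hxc
  -- the second component
  obtain ⟨e, c', he, he0, heT, hef, hec⟩ := exists_prim_class FE hE hEE hT
  obtain ⟨qe, hqe, hbe⟩ := (FE.prod FE).bf_pos (isHom_of_lw (FE.prod FE)) hHEE
    (deep_of_stable (FE.prod FE).hD stEE he) he0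
  have hrA : rsh W e y = W.map (r1 S E E U) y * W.map (r2 S E E U) e :=
    rsh_alg (AS.mem_algSpan he) y
  have hrAS : AS W _ (rsh W e y) := by
    rw [hrA]
    exact (hyA.map _).mul (he.map _)
  have hrt : rsh W e y ∈ tens W (S.prod E) (E.prod U) :=
    mem_tens hSE hrAS (rsh_span hEA heT hyT)
  have hr0 : extSum W (extSum W fS fE) (extSum W fE g) (rsh W e y) = 0 := by
    rw [extSum_rsh, hy0, hef, map_zero, map_zero, LinearMap.zero_apply, add_zero]
  have hrc : extSum W (wt (W.isInternal (S.prod E)) (S.prod E).dim)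
      (wt (W.isInternal (E.prod U)) (E.prod U).dim) (rsh W e y) =
      ((c + c' : ℤ) : W.K) • rsh W e y := by
    rw [wt_prod, wt_prod, extSum_rsh, hyc, hec, map_smul, map_smul, LinearMap.smul_apply]
    push_cast
    rw [add_smul]
  obtain ⟨q₂, hq₂, hq₂', hb₂⟩ := pos_tens (FS.prod FE) (isHom_of_lw (FS.prod FE)) stSE hHSE
    (FE.prod G) (isHom_of_lw (FE.prod G)) hH hrt hr0 hrc
  rw [bf_rsh FS FE FE G, hbe] at hb₂
  have hqe' : (qe : W.K) ≠ 0 := by exact_mod_cast hqe.ne'
  have hby : bf W (S.prod U) (ops.pull (fst S U) DS + ops.pull (snd S U) B) (extSum W fS g) y y =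
      ((q₂ / qe : ℚ) : W.K) := by
    push_cast
    rw [eq_div_iff hqe', mul_comm]
    exact hb₂
  -- the value
  have hval : bf W (S.prod U) (ops.pull (fst S U) DS + ops.pull (snd S U) B) (extSum W fS g)
      ζ ζ = ((q₁ + q₂ / qe : ℚ) : W.K) := by
    obtain ⟨o1, o2⟩ := bf_orth FS stS G hxt hyT
    have hsum : ζ = x + y := by rw [hy]; abel
    conv_lhs => rw [hsum]
    simp only [map_add, LinearMap.add_apply]
    rw [o1, o2, hb₁, hby]
    push_cast
    ring
  rw [hζ, F.form_prim hj hz hprim] at hval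
  have hval' := Rat.cast_injective (α := W.K) hval
  have hpos : 0 < q₁ + q₂ / qe := by
    by_cases hx1 : x = 0
    · have hy1 : y ≠ 0 := by
        intro hy1
        apply hz0
        have hsum : ζ = x + y := by rw [hy]; abel
        rw [hsum, hx1, hy1, add_zero]
      have hr1 : rsh W e y ≠ 0 := fun h1 => hy1 (rsh_inj he0 h1)
      exact add_pos_of_nonneg_of_pos hq₁ (div_pos (hq₂' hr1) hqe)
    · exact add_pos_of_pos_of_nonneg (hq₁' hx1) (div_nonneg hq₂ hqe.le)
  rw [← hval', mul_left_comm] at hpos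
  exact pos_of_mul_pos_right hpos (by positivity)

end

end Pool.Agent.Y218.SF
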