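import Pool.Agent.Y218.SFf
import Pool.Agent.Y218.SFDefs
import Pool.Agent.H281R3.HT.Main

/-!
# The numerical conjecture of Hodge type for the products of supersingular type with any variety
-/

set_option autoImplicit false

open CategoryTheory AlgebraicGeometry
open scoped TensorProduct

universe u v w

namespace Pool.Agent.Y218.SF

open Pool.Agent.H914 Pool.Agent.H914.VarClass Pool.Agent.H914.VarClass.Obj
  Pool.Agent.H914.WeilCohomology Pool.Agent.H281R3.HT Pool.Agent.W552 Pool.Agent.TH132.A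

variable {k : Type u} [Field k] {𝒱 : VarClass k} {ops : CycleOps 𝒱}
  {W : WeilCohomology.{u, v} ops} {X Y Z S E E' U : 𝒱.Obj}

lemma numTrivial_of_cl {j : ℕ} {z : X.Cycles} (hz : X.IsCyc j z) (h : W.cl X z = 0) :
    NumTrivial ops X j z := by
  intro i w hij hw
  have h1 := ops.mul_mem hz hw
  rw [hij] at h1
  have h2 := W.tr_cl h1
  rw [W.cl_mul, h, zero_mul, map_zero] at h2
  exact_mod_cast h2.symm

lemma cl_of_numTrivial (hD : HomEqNum W X) {j : ℕ} {z : X.Cycles} (hz : X.IsCyc j z)
    (h : NumTrivial ops X j z) : W.cl X z = 0 := by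
  by_cases hj : j ≤ X.dim
  · exact hD j hj z hz fun w hw => h _ w (by omega) hw
  · have h1 := W.cl_mem hz
    rw [W.gr_eq_bot X _ (by omega)] at h1
    exact (Submodule.mem_bot _).1 h1

/-- The two forms of the conjecture of Hodge type. -/
lemma hodge_iff {P : Polarized 𝒱} (hP : P.X.IsCyc 1 P.D) (hD : HomEqNum W P.X) :
    NumericalHodge ops P ↔ HodgeType W P.X P.D := by
  have hpow : ∀ {j : ℕ} {z : P.X.Cycles}, P.X.IsCyc j z → 2 * j ≤ P.X.dim →
      P.X.IsCyc (P.X.dim - j + 1) (divPow ops P.D (P.X.dim - 2 * j + 1) z) := by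
    intro j z hz hj
    have := divPow_mem (ops := ops) hP (P.X.dim - 2 * j + 1) hz
    rwa [show j + (P.X.dim - 2 * j + 1) = P.X.dim - j + 1 by omega] at this
  constructor
  · intro h j hj z hz hp h0
    exact h j hj z hz (numTrivial_of_cl (W := W) (hpow hz hj) hp)
      (fun h1 => h0 (cl_of_numTrivial hD hz h1))
  · intro h j hj z hz hp h0
    exact h j hj z hz (cl_of_numTrivial hD (hpow hz hj) hp)
      (fun h1 => h0 (numTrivial_of_cl (W := W) hz h1))

lemma isLefschetz_lw {P : Polarized 𝒱} (h : IsLefschetz W P) : ∃ f, Lw W P.X P.D f := by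
  obtain ⟨f, F, -⟩ := exists_lw h.div h.hard
  exact ⟨f, F⟩

lemma isProduct_isProd {ι : Type w} {P : ι → Polarized 𝒱} {Q : Polarized 𝒱}
    (h : IsProduct ops P Q) : IsProd (fun i => (P i).X) Q.X := by
  induction h with
  | base i => exact IsProd.base (P := fun i => (P i).X) i
  | prod _ _ h1 h2 => exact IsProd.prod h1 h2

lemma isProduct_lw {ι : Type w} {P : ι → Polarized 𝒱} (hP : ∀ i, ∃ f, Lw W (P i).X (P i).D f)
    {Q : Polarized 𝒱} (h : IsProduct ops P Q) : ∃ f, Lw W Q.X Q.D f := by
  induction h with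
  | base i => exact hP i
  | prod _ _ h1 h2 =>
    obtain ⟨f, F⟩ := h1
    obtain ⟨g, G⟩ := h2
    exact ⟨_, F.prod G⟩

section

variable {ι : Type w} {P : ι → Polarized 𝒱} (hP : IsSupersingularFamily W P)

include hP

lemma family_D {Q : Polarized 𝒱} (hQ : IsProduct ops P Q) : HomEqNum W Q.X :=
  (isProd_aux (P := fun i => (P i).X) hP.homEqNum hP.ext (isProduct_isProd hQ)).1

lemma family_ea {Q R : Polarized 𝒱} (hQ : IsProduct ops P Q) (hR : IsProduct ops P R) :
    ExternallyAlgebraic W Q.X R.X :=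
  isProd_ea (P := fun i => (P i).X) hP.homEqNum hP.ext (isProduct_isProd hQ)
    (isProduct_isProd hR)

/-- The conjecture of Hodge type for the products of members. -/
lemma family_hodge {Q : Polarized 𝒱} (hQ : IsProduct ops P Q) : HodgeType W Q.X Q.D := by
  refine ((hodge_products_iff_pairs (fun j => (hP.lef j).div) (fun j => (hP.lef j).hard)
    hP.mid hP.ext).1 ⟨fun j => ?_, fun i j => ?_⟩ Q hQ).1
  · exact (hodge_iff (hP.lef j).div (hP.homEqNum j)).1 (hP.hodge j)
  · obtain ⟨f, F⟩ := isLefschetz_lw (hP.lef i)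
    obtain ⟨g, G⟩ := isLefschetz_lw (hP.lef j)
    exact (hodge_iff (P := (P i).prod ops (P j)) (F.prod G).hD
      (homEqNum_prod (hP.homEqNum i) (hP.homEqNum j) (hP.ext i j))).1 (hP.hodge_pair i j)

/-- **The conjecture of Hodge type for the products of the members with any variety `U` depends
only on `U`.** -/
theorem family_hodge_times {U : Polarized 𝒱} (hU : IsLefschetz W U) {Q R : Polarized 𝒱}
    (hQ : IsProduct ops P Q) (hR : IsProduct ops P R) (hT : transcendental W Q.X ≠ ⊥)
    (hH : HodgeType W (Q.prod ops U).X (Q.prod ops U).D) :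
    HodgeType W (R.prod ops U).X (R.prod ops U).D := by
  have hlw := fun i => isLefschetz_lw (hP.lef i)
  obtain ⟨fQ, FQ⟩ := isProduct_lw hlw hQ
  obtain ⟨fR, FR⟩ := isProduct_lw hlw hR
  obtain ⟨g, G⟩ := isLefschetz_lw hU
  exact hodge_transfer FR FQ G (family_ea hP hR hQ) (family_D hP hR) (family_D hP hQ)
    (family_D hP (hQ.prod hQ)) hT (family_hodge hP hR) (family_hodge hP hQ)
    (family_hodge hP (hR.prod hQ)) (family_hodge hP (hQ.prod hQ)) hH

/-- **The numerical Hodge standard conjecture for the products of the members with any variety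
`U` depends only on `U`.** -/
theorem family_numericalHodge_times {U : Polarized 𝒱} (hU : IsLefschetz W U)
    {Q R : Polarized 𝒱} (hQ : IsProduct ops P Q) (hR : IsProduct ops P R)
    (hT : transcendental W Q.X ≠ ⊥) (hD : HomEqNum W (Q.prod ops U).X)
    (hH : NumericalHodge ops (Q.prod ops U)) :
    HomEqNum W (R.prod ops U).X ∧ NumericalHodge ops (R.prod ops U) := by
  have hDR : HomEqNum W (R.prod ops U).X :=
    homEqNum_transfer (family_ea hP hR hQ) (family_D hP hR) (family_D hP hQ) hT hD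
  refine ⟨hDR, ?_⟩
  have hlw := fun i => isLefschetz_lw (hP.lef i)
  obtain ⟨fQ, FQ⟩ := isProduct_lw hlw hQ
  obtain ⟨fR, FR⟩ := isProduct_lw hlw hR
  obtain ⟨g, G⟩ := isLefschetz_lw hU
  rw [hodge_iff (P := Q.prod ops U) (FQ.prod G).hD hD] at hH
  rw [hodge_iff (P := R.prod ops U) (FR.prod G).hD hDR]
  exact family_hodge_times hP hU hQ hR hT hH

end

end Pool.Agent.Y218.SF
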