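import Pool.Agent.Y218.ThetaDefs

namespace Pool.Agent.Y218

open Matrix Topology

variable {g : ℕ}

/-- complex matrix of an integer matrix -/
abbrev cz (a : Matrix (Fin g) (Fin g) ℤ) : Matrix (Fin g) (Fin g) ℂ := a.map (Int.cast : ℤ → ℂ)

theorem sp_id {R : Type*} [CommRing R] {A B C D : Matrix (Fin g) (Fin g) R}
    (h1 : Aᵀ * C = Cᵀ * A) (h2 : Bᵀ * D = Dᵀ * B) (h3 : Aᵀ * D - Cᵀ * B = 1)
    (X Y : Matrix (Fin g) (Fin g) R) :
    (X * Aᵀ + Bᵀ) * (C * Y + D) - (X * Cᵀ + Dᵀ) * (A * Y + B) = X - Y := by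
  have h4 : Dᵀ * A - Bᵀ * C = 1 := by
    have := congrArg Matrix.transpose h3
    simpa [Matrix.transpose_sub, Matrix.transpose_mul] using this
  have e : (X * Aᵀ + Bᵀ) * (C * Y + D) - (X * Cᵀ + Dᵀ) * (A * Y + B)
      = X * (Aᵀ * C - Cᵀ * A) * Y + X * (Aᵀ * D - Cᵀ * B) - (Dᵀ * A - Bᵀ * C) * Y
        + (Bᵀ * D - Dᵀ * B) := by noncomm_ring
  rw [e, h1, h2, h3, h4]
  simp

/-- blocks of a symplectic matrix -/
theorem sp_blocks {γ : Matrix (Fin g ⊕ Fin g) (Fin g ⊕ Fin g) ℤ}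
    (h : γ ∈ Matrix.symplecticGroup (Fin g) ℤ) :
    γ.toBlocks₁₁ᵀ * γ.toBlocks₂₁ = γ.toBlocks₂₁ᵀ * γ.toBlocks₁₁ ∧
    γ.toBlocks₁₂ᵀ * γ.toBlocks₂₂ = γ.toBlocks₂₂ᵀ * γ.toBlocks₁₂ ∧
    γ.toBlocks₁₁ᵀ * γ.toBlocks₂₂ - γ.toBlocks₂₁ᵀ * γ.toBlocks₁₂ = 1 := by
  rw [← Matrix.fromBlocks_toBlocks γ, SymplecticGroup.fromBlocks_mem_iff] at h
  simpa using h

theorem cz_mul (a b : Matrix (Fin g) (Fin g) ℤ) : cz (a * b) = cz a * cz b := by
  ext i j; simp [Matrix.mul_apply]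

theorem cz_sub (a b : Matrix (Fin g) (Fin g) ℤ) : cz (a - b) = cz a - cz b := by
  ext i j; simp

theorem cz_add (a b : Matrix (Fin g) (Fin g) ℤ) : cz (a + b) = cz a + cz b := by
  ext i j; simp

theorem cz_one : cz (1 : Matrix (Fin g) (Fin g) ℤ) = 1 := by
  ext i j; simp [Matrix.one_apply]

theorem cz_transpose (a : Matrix (Fin g) (Fin g) ℤ) : cz aᵀ = (cz a)ᵀ := by
  ext i j; simp

theorem cz_conjTranspose (a : Matrix (Fin g) (Fin g) ℤ) : (cz a)ᴴ = (cz a)ᵀ := by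
  ext i j; simp [Matrix.conjTranspose_apply]

/-- complex symplectic relations -/
structure SpC (A B C D : Matrix (Fin g) (Fin g) ℂ) : Prop where
  h1 : Aᵀ * C = Cᵀ * A
  h2 : Bᵀ * D = Dᵀ * B
  h3 : Aᵀ * D - Cᵀ * B = 1
  rA : Aᴴ = Aᵀ
  rB : Bᴴ = Bᵀ
  rC : Cᴴ = Cᵀ
  rD : Dᴴ = Dᵀ

theorem spC_of {γ : Matrix (Fin g ⊕ Fin g) (Fin g ⊕ Fin g) ℤ}
    (h : γ ∈ Matrix.symplecticGroup (Fin g) ℤ) :
    SpC (cz γ.toBlocks₁₁) (cz γ.toBlocks₁₂) (cz γ.toBlocks₂₁) (cz γ.toBlocks₂₂) := by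
  obtain ⟨h1, h2, h3⟩ := sp_blocks h
  refine ⟨?_, ?_, ?_, cz_conjTranspose _, cz_conjTranspose _, cz_conjTranspose _,
    cz_conjTranspose _⟩
  · rw [← cz_transpose, ← cz_transpose, ← cz_mul, ← cz_mul, h1]
  · rw [← cz_transpose, ← cz_transpose, ← cz_mul, ← cz_mul, h2]
  · rw [← cz_transpose, ← cz_transpose, ← cz_mul, ← cz_mul, ← cz_sub, h3, cz_one]

section
variable {A B C D : Matrix (Fin g) (Fin g) ℂ}

theorem SpC.sym (h : SpC A B C D) {T : Matrix (Fin g) (Fin g) ℂ} (hT : Tᵀ = T) :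
    (A * T + B)ᵀ * (C * T + D) = (C * T + D)ᵀ * (A * T + B) := by
  have := sp_id h.h1 h.h2 h.h3 T T
  rw [sub_self, sub_eq_zero] at this
  simpa [Matrix.transpose_add, Matrix.transpose_mul, hT] using this

theorem SpC.herm (h : SpC A B C D) {T : Matrix (Fin g) (Fin g) ℂ} :
    (A * T + B)ᴴ * (C * T + D) - (C * T + D)ᴴ * (A * T + B) = Tᴴ - T := by
  have := sp_id h.h1 h.h2 h.h3 Tᴴ T
  simpa [Matrix.conjTranspose_add, Matrix.conjTranspose_mul, h.rA, h.rB, h.rC, h.rD] using this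

end

/-- the sum of the squares of the absolute values of the entries of a vector -/
noncomputable def nsq (v : Fin g → ℂ) : ℝ := ∑ i, ‖v i‖ ^ 2

theorem nsq_nonneg (v : Fin g → ℂ) : 0 ≤ nsq v := Finset.sum_nonneg fun i _ => by positivity

theorem nsq_eq_zero {v : Fin g → ℂ} (h : nsq v = 0) : v = 0 := by
  funext i
  have h1 := (Finset.sum_eq_zero_iff_of_nonneg (fun i _ => by positivity)).1 h i (Finset.mem_univ i)
  have h2 : ‖v i‖ = 0 := by
    rcases pow_eq_zero_iff (n := 2) (by norm_num) |>.1 h1 with h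
    exact h
  simpa using h2

/-- real quadratic form of a real matrix at the real and imaginary parts of a complex vector -/
noncomputable def qf (Y : Matrix (Fin g) (Fin g) ℝ) (v : Fin g → ℂ) : ℝ :=
  (fun i => (v i).re) ⬝ᵥ (Y *ᵥ fun i => (v i).re) + (fun i => (v i).im) ⬝ᵥ (Y *ᵥ fun i => (v i).im)

theorem qf_eq (T : Matrix (Fin g) (Fin g) ℂ) (hT : Tᵀ = T) (v : Fin g → ℂ) :
    star v ⬝ᵥ ((Tᴴ - T) *ᵥ v) = -2 * Complex.I * (qf (T.map Complex.im) v : ℂ) := by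
  have hsym : ∀ i j, T j i = T i j := fun i j => by
    have := congrFun (congrFun hT i) j; simpa using this
  have h1 : ∀ i j, (Tᴴ - T) i j = -2 * Complex.I * ((T i j).im : ℂ) := by
    intro i j
    rw [Matrix.sub_apply, Matrix.conjTranspose_apply, hsym i j]
    apply Complex.ext
    · simp
    · simp; ring
  have h2 : star v ⬝ᵥ ((Tᴴ - T) *ᵥ v)
      = ∑ i, ∑ j, (-2 * Complex.I) * (((T i j).im : ℂ) * (star (v i) * v j)) := by
    simp only [dotProduct, Matrix.mulVec, Pi.star_apply, Finset.mul_sum, h1]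
    refine Finset.sum_congr rfl fun i _ => Finset.sum_congr rfl fun j _ => ?_
    ring
  rw [h2]
  simp only [← Finset.mul_sum]
  congr 1
  -- symmetrise
  have h3 : ∑ i, ∑ j, (((T i j).im : ℂ) * (star (v i) * v j))
      = ∑ i, ∑ j, (((T i j).im : ℂ) * (((v i).re * (v j).re + (v i).im * (v j).im : ℝ) : ℂ)) := by
    have h4 : ∑ i, ∑ j, (((T i j).im : ℂ) * (star (v i) * v j))
        = ∑ i, ∑ j, (((T i j).im : ℂ) * (star (v j) * v i)) := by
      rw [Finset.sum_comm]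
      refine Finset.sum_congr rfl fun i _ => Finset.sum_congr rfl fun j _ => ?_
      rw [hsym]
    have h5 : (2 : ℂ) * ∑ i, ∑ j, (((T i j).im : ℂ) * (star (v i) * v j))
        = 2 * ∑ i, ∑ j, (((T i j).im : ℂ)
          * (((v i).re * (v j).re + (v i).im * (v j).im : ℝ) : ℂ)) := by
      rw [two_mul]
      nth_rewrite 2 [h4]
      rw [← Finset.sum_add_distrib, Finset.mul_sum]
      refine Finset.sum_congr rfl fun i _ => ?_
      rw [← Finset.sum_add_distrib, Finset.mul_sum]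
      refine Finset.sum_congr rfl fun j _ => ?_
      rw [← mul_add]
      have : star (v i) * v j + star (v j) * v i
          = 2 * (((v i).re * (v j).re + (v i).im * (v j).im : ℝ) : ℂ) := by
        apply Complex.ext
        · simp; ring
        · simp; ring
      rw [this]; ring
    exact mul_left_cancel₀ two_ne_zero h5
  rw [h3]
  simp only [qf, dotProduct, Matrix.mulVec, Matrix.map_apply, Finset.mul_sum]
  push_cast
  rw [← Finset.sum_add_distrib]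
  refine Finset.sum_congr rfl fun i _ => ?_
  rw [← Finset.sum_add_distrib]
  refine Finset.sum_congr rfl fun j _ => ?_
  ring

theorem qf_pos {Y : Matrix (Fin g) (Fin g) ℝ} (hY : Y.PosDef) {v : Fin g → ℂ} (hv : v ≠ 0) :
    0 < qf Y v := by
  have h0 : ∀ x : Fin g → ℝ, 0 ≤ x ⬝ᵥ (Y *ᵥ x) := fun x => by
    simpa using hY.posSemidef.dotProduct_mulVec_nonneg x
  have hp : ∀ x : Fin g → ℝ, x ≠ 0 → 0 < x ⬝ᵥ (Y *ᵥ x) := fun x hx => by
    simpa using hY.dotProduct_mulVec_pos hx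
  unfold qf
  by_cases h1 : (fun i => (v i).re) = 0
  · have h2 : (fun i => (v i).im) ≠ 0 := by
      intro h2
      apply hv
      funext i
      exact Complex.ext (by simpa using congrFun h1 i) (by simpa using congrFun h2 i)
    have := h0 (fun i => (v i).re)
    have := hp _ h2
    linarith
  · have := h0 (fun i => (v i).im)
    have := hp _ h1
    linarith

theorem symMat_transpose (t : Sym2 (Fin g) → ℂ) : (symMat t)ᵀ = symMat t := by
  ext i j
  simp [symMat, Sym2.eq_swap]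

theorem symMat_apply (t : Sym2 (Fin g) → ℂ) (i j : Fin g) : symMat t i j = t s(i, j) := rfl

theorem symMat_injective : Function.Injective (symMat (g := g)) := by
  intro t t' h
  funext s
  induction s using Sym2.inductionOn with
  | hf i j => exact congrFun (congrFun h i) j

/-- numerator -/
def num (γ : Matrix (Fin g ⊕ Fin g) (Fin g ⊕ Fin g) ℤ) (T : Matrix (Fin g) (Fin g) ℂ) :
    Matrix (Fin g) (Fin g) ℂ := cz γ.toBlocks₁₁ * T + cz γ.toBlocks₁₂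

/-- denominator -/
def den (γ : Matrix (Fin g ⊕ Fin g) (Fin g ⊕ Fin g) ℤ) (T : Matrix (Fin g) (Fin g) ℂ) :
    Matrix (Fin g) (Fin g) ℂ := cz γ.toBlocks₂₁ * T + cz γ.toBlocks₂₂

/-- the relation `t' = γ t` without denominators -/
def Rel (γ : Matrix (Fin g ⊕ Fin g) (Fin g ⊕ Fin g) ℤ) (t t' : Sym2 (Fin g) → ℂ) : Prop :=
  symMat t' * den γ (symMat t) = num γ (symMat t)

theorem SpC.key {A B C D : Matrix (Fin g) (Fin g) ℂ} (h : SpC A B C D)
    {T : Matrix (Fin g) (Fin g) ℂ} (hT : Tᵀ = T) (v : Fin g → ℂ) :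
    star ((A * T + B) *ᵥ v) ⬝ᵥ ((C * T + D) *ᵥ v) - star ((C * T + D) *ᵥ v) ⬝ᵥ ((A * T + B) *ᵥ v)
      = -2 * Complex.I * (qf (T.map Complex.im) v : ℂ) := by
  rw [← qf_eq T hT v, ← h.herm (T := T), Matrix.sub_mulVec, dotProduct_sub,
    ← Matrix.mulVec_mulVec, ← Matrix.mulVec_mulVec, Matrix.star_mulVec, Matrix.star_mulVec,
    Matrix.dotProduct_mulVec, Matrix.dotProduct_mulVec, Matrix.dotProduct_mulVec,
    Matrix.dotProduct_mulVec]
  simp [Matrix.vecMul_vecMul, Matrix.dotProduct_mulVec]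

theorem den_det_ne {γ : Matrix (Fin g ⊕ Fin g) (Fin g ⊕ Fin g) ℤ}
    (h : γ ∈ Matrix.symplecticGroup (Fin g) ℤ) {t : Sym2 (Fin g) → ℂ} (ht : t ∈ siegel g) :
    (den γ (symMat t)).det ≠ 0 := by
  intro h0
  obtain ⟨v, hv, hv0⟩ := Matrix.exists_mulVec_eq_zero_iff.2 h0
  have h1 := (spC_of h).key (symMat_transpose t) v
  have h2 : (cz γ.toBlocks₂₁ * symMat t + cz γ.toBlocks₂₂) *ᵥ v = 0 := hv0
  rw [h2] at h1
  have h3 := qf_pos ht hv
  simp at h1
  exact h3.ne' h1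

theorem rel_iff_moves {γ : Matrix (Fin g ⊕ Fin g) (Fin g ⊕ Fin g) ℤ}
    (h : γ ∈ Matrix.symplecticGroup (Fin g) ℤ) {t t' : Sym2 (Fin g) → ℂ} (ht : t ∈ siegel g) :
    Moves γ t t' ↔ Rel γ t t' := by
  have hd := den_det_ne h ht
  have hu : IsUnit (den γ (symMat t)).det := isUnit_iff_ne_zero.2 hd
  unfold Moves Rel
  constructor
  · intro h1
    rw [h1]
    show num γ (symMat t) * (den γ (symMat t))⁻¹ * den γ (symMat t) = _
    rw [Matrix.nonsing_inv_mul_cancel_right _ _ hu]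
  · intro h1
    show _ = num γ (symMat t) * (den γ (symMat t))⁻¹
    rw [← h1, Matrix.mul_nonsing_inv_cancel_right _ _ hu]

theorem rel_qf {γ : Matrix (Fin g ⊕ Fin g) (Fin g ⊕ Fin g) ℤ}
    (h : γ ∈ Matrix.symplecticGroup (Fin g) ℤ) {t t' : Sym2 (Fin g) → ℂ} (hr : Rel γ t t')
    (v : Fin g → ℂ) :
    qf ((symMat t').map Complex.im) (den γ (symMat t) *ᵥ v) = qf ((symMat t).map Complex.im) v := by
  have h1 := (spC_of h).key (symMat_transpose t) v
  have h2 := qf_eq (symMat t') (symMat_transpose t') (den γ (symMat t) *ᵥ v)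
  have h3 : (cz γ.toBlocks₁₁ * symMat t + cz γ.toBlocks₁₂) = symMat t' * den γ (symMat t) :=
    hr.symm
  have h4 : (cz γ.toBlocks₂₁ * symMat t + cz γ.toBlocks₂₂) = den γ (symMat t) := rfl
  rw [h3, h4] at h1
  have h5 : star ((symMat t' * den γ (symMat t)) *ᵥ v) ⬝ᵥ (den γ (symMat t) *ᵥ v)
      - star (den γ (symMat t) *ᵥ v) ⬝ᵥ ((symMat t' * den γ (symMat t)) *ᵥ v)
      = star (den γ (symMat t) *ᵥ v) ⬝ᵥ (((symMat t')ᴴ - symMat t') *ᵥ (den γ (symMat t) *ᵥ v)) := by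
    rw [← Matrix.mulVec_mulVec, Matrix.sub_mulVec, dotProduct_sub, Matrix.star_mulVec (symMat t'),
      Matrix.dotProduct_mulVec _ ((symMat t')ᴴ)]
  rw [h5, h2] at h1
  have h6 : (-2 * Complex.I) ≠ 0 := by simp
  exact_mod_cast mul_left_cancel₀ h6 h1

theorem qf_ofReal (Y : Matrix (Fin g) (Fin g) ℝ) (x : Fin g → ℝ) :
    qf Y (fun i => (x i : ℂ)) = x ⬝ᵥ (Y *ᵥ x) := by
  have : (fun _ : Fin g => (0:ℝ)) = 0 := rfl
  simp [qf, this]

theorem mem_siegel_of_qf {t : Sym2 (Fin g) → ℂ}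
    (h : ∀ v : Fin g → ℂ, v ≠ 0 → 0 < qf ((symMat t).map Complex.im) v) : t ∈ siegel g := by
  refine Matrix.PosDef.of_dotProduct_mulVec_pos ?_ fun x hx => ?_
  · ext i j
    have := congrFun (congrFun (symMat_transpose t) i) j
    simp only [Matrix.transpose_apply] at this
    simp [Matrix.conjTranspose_apply, this]
  · have h1 := h (fun i => (x i : ℂ)) (by
      intro h0; apply hx; funext i
      have := congrFun h0 i
      simpa using this)
    rw [qf_ofReal] at h1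
    simpa using h1

theorem rel_mem {γ : Matrix (Fin g ⊕ Fin g) (Fin g ⊕ Fin g) ℤ}
    (h : γ ∈ Matrix.symplecticGroup (Fin g) ℤ) {t t' : Sym2 (Fin g) → ℂ} (ht : t ∈ siegel g)
    (hr : Rel γ t t') : t' ∈ siegel g := by
  apply mem_siegel_of_qf
  intro v hv
  have hd := den_det_ne h ht
  have hu : IsUnit (den γ (symMat t)).det := isUnit_iff_ne_zero.2 hd
  have h1 : den γ (symMat t) *ᵥ ((den γ (symMat t))⁻¹ *ᵥ v) = v := by
    rw [Matrix.mulVec_mulVec, Matrix.mul_nonsing_inv _ hu, Matrix.one_mulVec]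
  rw [← h1, rel_qf h hr]
  apply qf_pos ht
  intro h0
  apply hv
  rw [← h1, h0, Matrix.mulVec_zero]

theorem toBlocks_mul (x y : Matrix (Fin g ⊕ Fin g) (Fin g ⊕ Fin g) ℤ) :
    (x * y).toBlocks₁₁ = x.toBlocks₁₁ * y.toBlocks₁₁ + x.toBlocks₁₂ * y.toBlocks₂₁ ∧
    (x * y).toBlocks₁₂ = x.toBlocks₁₁ * y.toBlocks₁₂ + x.toBlocks₁₂ * y.toBlocks₂₂ ∧
    (x * y).toBlocks₂₁ = x.toBlocks₂₁ * y.toBlocks₁₁ + x.toBlocks₂₂ * y.toBlocks₂₁ ∧
    (x * y).toBlocks₂₂ = x.toBlocks₂₁ * y.toBlocks₁₂ + x.toBlocks₂₂ * y.toBlocks₂₂ := by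
  refine ⟨?_, ?_, ?_, ?_⟩ <;>
  · ext i j
    simp [Matrix.toBlocks₁₁, Matrix.toBlocks₁₂, Matrix.toBlocks₂₁, Matrix.toBlocks₂₂,
      Matrix.mul_apply]

theorem num_mul (x y : Matrix (Fin g ⊕ Fin g) (Fin g ⊕ Fin g) ℤ) (T : Matrix (Fin g) (Fin g) ℂ) :
    num (x * y) T = cz x.toBlocks₁₁ * num y T + cz x.toBlocks₁₂ * den y T := by
  obtain ⟨h1, h2, -, -⟩ := toBlocks_mul x y
  unfold num den
  rw [h1, h2]
  simp only [cz_add, cz_mul]
  noncomm_ring

theorem den_mul (x y : Matrix (Fin g ⊕ Fin g) (Fin g ⊕ Fin g) ℤ) (T : Matrix (Fin g) (Fin g) ℂ) :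
    den (x * y) T = cz x.toBlocks₂₁ * num y T + cz x.toBlocks₂₂ * den y T := by
  obtain ⟨-, -, h1, h2⟩ := toBlocks_mul x y
  unfold num den
  rw [h1, h2]
  simp only [cz_add, cz_mul]
  noncomm_ring

theorem num_one (T : Matrix (Fin g) (Fin g) ℂ) :
    num (1 : Matrix (Fin g ⊕ Fin g) (Fin g ⊕ Fin g) ℤ) T = T := by
  unfold num
  rw [← Matrix.fromBlocks_one]
  simp only [Matrix.toBlocks_fromBlocks₁₁, Matrix.toBlocks_fromBlocks₁₂, cz_one]
  simp

theorem den_one (T : Matrix (Fin g) (Fin g) ℂ) :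
    den (1 : Matrix (Fin g ⊕ Fin g) (Fin g ⊕ Fin g) ℤ) T = 1 := by
  unfold den
  rw [← Matrix.fromBlocks_one]
  simp only [Matrix.toBlocks_fromBlocks₂₁, Matrix.toBlocks_fromBlocks₂₂, cz_one]
  simp

theorem rel_comp {x y : Matrix (Fin g ⊕ Fin g) (Fin g ⊕ Fin g) ℤ} {t t' t'' : Sym2 (Fin g) → ℂ}
    (h1 : Rel y t t') (h2 : Rel x t' t'') : Rel (x * y) t t'' := by
  unfold Rel at *
  rw [num_mul, den_mul, ← h1]
  have e1 : cz x.toBlocks₂₁ * (symMat t' * den y (symMat t)) + cz x.toBlocks₂₂ * den y (symMat t)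
      = den x (symMat t') * den y (symMat t) := by
    unfold den; noncomm_ring
  have e2 : cz x.toBlocks₁₁ * (symMat t' * den y (symMat t)) + cz x.toBlocks₁₂ * den y (symMat t)
      = num x (symMat t') * den y (symMat t) := by
    unfold num; noncomm_ring
  rw [e1, e2, ← Matrix.mul_assoc, h2]

theorem rel_inv {x y : Matrix (Fin g ⊕ Fin g) (Fin g ⊕ Fin g) ℤ} {t t' : Sym2 (Fin g) → ℂ}
    (hxy : x * y = 1) (h1 : Rel y t t') : Rel x t' t := by
  unfold Rel at *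
  have e1 : den x (symMat t') * den y (symMat t) = 1 := by
    have : den (x * y) (symMat t) = den x (symMat t') * den y (symMat t) := by
      rw [den_mul, ← h1]; unfold den; noncomm_ring
    rw [← this, hxy, den_one]
  have e2 : num x (symMat t') * den y (symMat t) = symMat t := by
    have : num (x * y) (symMat t) = num x (symMat t') * den y (symMat t) := by
      rw [num_mul, ← h1]; unfold num; noncomm_ring
    rw [← this, hxy, num_one]
  have e3 : den y (symMat t) * den x (symMat t') = 1 := mul_eq_one_comm.1 e1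
  calc symMat t * den x (symMat t')
      = num x (symMat t') * den y (symMat t) * den x (symMat t') := by rw [e2]
    _ = num x (symMat t') := by rw [Matrix.mul_assoc, e3, Matrix.mul_one]

theorem exists_inv {y : Matrix (Fin g ⊕ Fin g) (Fin g ⊕ Fin g) ℤ}
    (hy : y ∈ Matrix.symplecticGroup (Fin g) ℤ) :
    ∃ x ∈ Matrix.symplecticGroup (Fin g) ℤ, x * y = 1 ∧ y * x = 1 := by
  let Y : Matrix.symplecticGroup (Fin g) ℤ := ⟨y, hy⟩
  refine ⟨(Y⁻¹ : Matrix.symplecticGroup (Fin g) ℤ), (Y⁻¹).2, ?_, ?_⟩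
  · exact congrArg Subtype.val (inv_mul_cancel Y)
  · exact congrArg Subtype.val (mul_inv_cancel Y)

/-- the principal congruence subgroup of level 2 -/
def gamma2 (g : ℕ) : Set (Matrix (Fin g ⊕ Fin g) (Fin g ⊕ Fin g) ℤ) :=
  {γ | γ ∈ Matrix.symplecticGroup (Fin g) ℤ ∧ ∀ i j, (2 : ℤ) ∣ (γ - 1) i j}

theorem gamma24_sub {γ : Matrix (Fin g ⊕ Fin g) (Fin g ⊕ Fin g) ℤ} (h : γ ∈ gamma24 g) :
    γ ∈ gamma2 g := ⟨h.1, h.2.1⟩

theorem gamma2_mul {x y : Matrix (Fin g ⊕ Fin g) (Fin g ⊕ Fin g) ℤ} (hx : x ∈ gamma2 g)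
    (hy : y ∈ gamma2 g) : x * y ∈ gamma2 g := by
  refine ⟨mul_mem hx.1 hy.1, fun i j => ?_⟩
  have e : x * y - 1 = x * (y - 1) + (x - 1) := by noncomm_ring
  rw [e, Matrix.add_apply, Matrix.mul_apply]
  exact dvd_add (Finset.dvd_sum fun k _ => dvd_mul_of_dvd_right (hy.2 k j) _) (hx.2 i j)

theorem gamma2_inv {y : Matrix (Fin g ⊕ Fin g) (Fin g ⊕ Fin g) ℤ} (hy : y ∈ gamma2 g) :
    ∃ x ∈ gamma2 g, x * y = 1 ∧ y * x = 1 := by
  obtain ⟨x, hx, h1, h2⟩ := exists_inv hy.1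
  refine ⟨x, ⟨hx, fun i j => ?_⟩, h1, h2⟩
  have e : x - 1 = -(x * (y - 1)) := by
    rw [Matrix.mul_sub, h1]; noncomm_ring
  rw [e, Matrix.neg_apply, Matrix.mul_apply]
  exact (dvd_neg.2 (Finset.dvd_sum fun k _ => dvd_mul_of_dvd_right (hy.2 k j) _))

end Pool.Agent.Y218
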