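import Pool.Agent.Y218.SiegelAct

namespace Pool.Agent.Y218

open Matrix Topology Filter

variable {g : ℕ}

/-- the action, as a function on the coordinates -/
noncomputable def act (γ : Matrix (Fin g ⊕ Fin g) (Fin g ⊕ Fin g) ℤ) (t : Sym2 (Fin g) → ℂ) :
    Sym2 (Fin g) → ℂ :=
  fun s => (num γ (symMat t) * (den γ (symMat t))⁻¹) (Quot.out s).1 (Quot.out s).2

theorem act_sym {γ : Matrix (Fin g ⊕ Fin g) (Fin g ⊕ Fin g) ℤ}
    (h : γ ∈ Matrix.symplecticGroup (Fin g) ℤ) {t : Sym2 (Fin g) → ℂ}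
    (hd : (den γ (symMat t)).det ≠ 0) :
    (num γ (symMat t) * (den γ (symMat t))⁻¹)ᵀ = num γ (symMat t) * (den γ (symMat t))⁻¹ := by
  have hu : IsUnit (den γ (symMat t)).det := isUnit_iff_ne_zero.2 hd
  have hu' : IsUnit (den γ (symMat t))ᵀ.det := by rwa [Matrix.det_transpose]
  have h1 : (num γ (symMat t))ᵀ * den γ (symMat t) = (den γ (symMat t))ᵀ * num γ (symMat t) :=
    (spC_of h).sym (symMat_transpose t)
  rw [Matrix.transpose_mul, Matrix.transpose_nonsing_inv]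
  calc ((den γ (symMat t))ᵀ)⁻¹ * (num γ (symMat t))ᵀ
      = ((den γ (symMat t))ᵀ)⁻¹ * ((num γ (symMat t))ᵀ * den γ (symMat t))
        * (den γ (symMat t))⁻¹ := by
          rw [Matrix.mul_assoc, Matrix.mul_assoc, Matrix.mul_nonsing_inv _ hu, Matrix.mul_one]
    _ = _ := by
          rw [h1, ← Matrix.mul_assoc, Matrix.nonsing_inv_mul _ hu', Matrix.one_mul]

theorem symMat_act {γ : Matrix (Fin g ⊕ Fin g) (Fin g ⊕ Fin g) ℤ}
    (h : γ ∈ Matrix.symplecticGroup (Fin g) ℤ) {t : Sym2 (Fin g) → ℂ}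
    (hd : (den γ (symMat t)).det ≠ 0) :
    symMat (act γ t) = num γ (symMat t) * (den γ (symMat t))⁻¹ := by
  have hs := act_sym h hd
  ext i j
  rw [symMat_apply]
  unfold act
  have h1 : s((Quot.out s(i, j)).1, (Quot.out s(i, j)).2) = s(i, j) := Quot.out_eq _
  rw [Sym2.eq_iff] at h1
  rcases h1 with ⟨h2, h3⟩ | ⟨h2, h3⟩
  · rw [h2, h3]
  · rw [h2, h3]
    exact congrFun (congrFun hs i) j

theorem rel_act {γ : Matrix (Fin g ⊕ Fin g) (Fin g ⊕ Fin g) ℤ}
    (h : γ ∈ Matrix.symplecticGroup (Fin g) ℤ) {t : Sym2 (Fin g) → ℂ}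
    (hd : (den γ (symMat t)).det ≠ 0) :
    Rel γ t (act γ t) := by
  have hu : IsUnit (den γ (symMat t)).det := isUnit_iff_ne_zero.2 hd
  unfold Rel
  rw [symMat_act h hd, Matrix.nonsing_inv_mul_cancel_right _ _ hu]

theorem rel_unique {γ : Matrix (Fin g ⊕ Fin g) (Fin g ⊕ Fin g) ℤ}
    (h : γ ∈ Matrix.symplecticGroup (Fin g) ℤ) {t t' t'' : Sym2 (Fin g) → ℂ} (ht : t ∈ siegel g)
    (h1 : Rel γ t t') (h2 : Rel γ t t'') : t' = t'' := by
  have h3 := (rel_iff_moves h ht).2 h1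
  have h4 := (rel_iff_moves h ht).2 h2
  unfold Moves at h3 h4
  exact symMat_injective (h3.trans h4.symm)

theorem differentiable_det_of {n : ℕ} {F : (Sym2 (Fin g) → ℂ) → Matrix (Fin n) (Fin n) ℂ}
    (h : ∀ i j, Differentiable ℂ fun t => F t i j) : Differentiable ℂ fun t => (F t).det := by
  simp only [Matrix.det_apply']
  intro t
  refine DifferentiableAt.fun_sum fun σ _ => ?_
  refine DifferentiableAt.const_mul ?_ _
  exact (HasFDerivAt.finsetProd (u := Finset.univ) (g := fun i t => F t (σ i) i)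
    fun i _ => (h _ _ t).hasFDerivAt).differentiableAt

theorem differentiable_symMat (i j : Fin g) : Differentiable ℂ fun t : Sym2 (Fin g) → ℂ =>
    symMat t i j := by
  simp only [symMat_apply]
  fun_prop

theorem differentiable_lin (a b : Matrix (Fin g) (Fin g) ℂ) (i j : Fin g) :
    Differentiable ℂ fun t : Sym2 (Fin g) → ℂ => (a * symMat t + b) i j := by
  simp only [Matrix.add_apply, Matrix.mul_apply, symMat_apply]
  fun_prop

theorem differentiable_det_den (γ : Matrix (Fin g ⊕ Fin g) (Fin g ⊕ Fin g) ℤ) :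
    Differentiable ℂ fun t : Sym2 (Fin g) → ℂ => (den γ (symMat t)).det :=
  differentiable_det_of fun _ _ => differentiable_lin _ _ _ _

theorem differentiableAt_act {γ : Matrix (Fin g ⊕ Fin g) (Fin g ⊕ Fin g) ℤ}
    {t : Sym2 (Fin g) → ℂ} (hd : (den γ (symMat t)).det ≠ 0) :
    DifferentiableAt ℂ (act γ) t := by
  rw [differentiableAt_pi]
  intro s
  have e : (fun t : Sym2 (Fin g) → ℂ => act γ t s) = fun t =>
      ∑ k, (num γ (symMat t)) (Quot.out s).1 k *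
        (((den γ (symMat t)).det)⁻¹ * (den γ (symMat t)).adjugate k (Quot.out s).2) := by
    funext t
    unfold act
    rw [Matrix.mul_apply, Matrix.inv_def]
    simp
  rw [e]
  refine DifferentiableAt.fun_sum fun k _ => ?_
  refine DifferentiableAt.mul (differentiable_lin _ _ _ _ _) (DifferentiableAt.mul ?_ ?_)
  · exact DifferentiableAt.inv (differentiable_det_of (fun i j => differentiable_lin _ _ _ _) t) hd
  · simp only [Matrix.adjugate_apply]
    refine differentiable_det_of (F := fun t => (den γ (symMat t)).updateRow (Quot.out s).2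
      (Pi.single k 1)) (fun i j => ?_) t
    by_cases hi : i = (Quot.out s).2
    · subst hi
      simp only [Matrix.updateRow_self]
      fun_prop
    · simp only [Matrix.updateRow_ne hi]
      exact differentiable_lin _ _ _ _

/-- the saturation of a set under the level two group -/
def sat (B : Set (Sym2 (Fin g) → ℂ)) : Set (Sym2 (Fin g) → ℂ) :=
  {t | ∃ s ∈ B, ∃ γ ∈ gamma2 g, Rel γ s t}

open Classical in
/-- the extension of a function -/
noncomputable def ext (B : Set (Sym2 (Fin g) → ℂ)) (h0 : (Sym2 (Fin g) → ℂ) → ℂ)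
    (t : Sym2 (Fin g) → ℂ) : ℂ :=
  if H : ∃ s ∈ B, ∃ γ ∈ gamma2 g, Rel γ s t then h0 H.choose else 0

theorem ext_eq {B : Set (Sym2 (Fin g) → ℂ)} {h0 : (Sym2 (Fin g) → ℂ) → ℂ}
    (hinv : ∀ γ ∈ gamma2 g, ∀ s ∈ B, ∀ s' ∈ B, Rel γ s s' → h0 s' = h0 s)
    {γ : Matrix (Fin g ⊕ Fin g) (Fin g ⊕ Fin g) ℤ} (hγ : γ ∈ gamma2 g) {s t : Sym2 (Fin g) → ℂ}
    (hs : s ∈ B) (hr : Rel γ s t) : ext B h0 t = h0 s := by
  have H : ∃ s ∈ B, ∃ γ ∈ gamma2 g, Rel γ s t := ⟨s, hs, γ, hγ, hr⟩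
  unfold ext
  rw [dif_pos H]
  obtain ⟨hs', γ', hγ', hr'⟩ := H.choose_spec
  obtain ⟨x, hx, hx1, hx2⟩ := gamma2_inv hγ'
  have h1 : Rel x t H.choose := rel_inv hx1 hr'
  exact hinv _ (gamma2_mul hx hγ) s hs _ hs' (rel_comp hr h1)

theorem isHolomorphicOnQuotient_ext {B : Set (Sym2 (Fin g) → ℂ)} {h0 : (Sym2 (Fin g) → ℂ) → ℂ}
    (hB : B ⊆ siegel g) (hBo : IsOpen B)
    (hd : ∀ s ∈ B, DifferentiableAt ℂ h0 s)
    (hinv : ∀ γ ∈ gamma2 g, ∀ s ∈ B, ∀ s' ∈ B, Rel γ s s' → h0 s' = h0 s) :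
    IsHolomorphicOnQuotient g (sat B) (ext B h0) := by
  -- the key local statement
  have key : ∀ t ∈ sat B, ∃ x ∈ gamma2 g, ∀ᶠ t' in 𝓝 t, act x t' ∈ B ∧
      ∃ y ∈ gamma2 g, Rel y (act x t') t' := by
    rintro t ⟨s, hs, γ, hγ, hr⟩
    obtain ⟨x, hx, hx1, hx2⟩ := gamma2_inv hγ
    have ht : t ∈ siegel g := rel_mem hγ.1 (hB hs) hr
    have h1 : Rel x t s := rel_inv hx1 hr
    have hd := den_det_ne hx.1 ht
    have h2 : act x t = s := rel_unique hx.1 ht (rel_act hx.1 hd) h1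
    refine ⟨x, hx, ?_⟩
    have h3 : ∀ᶠ t' in 𝓝 t, act x t' ∈ B :=
      (differentiableAt_act hd).continuousAt.eventually
        (hBo.mem_nhds (by rw [h2]; exact hs))
    have h4 : ∀ᶠ t' in 𝓝 t, (den x (symMat t')).det ≠ 0 :=
      (differentiable_det_den x t).continuousAt.eventually_ne hd
    filter_upwards [h3, h4] with t' h5 h6
    exact ⟨h5, γ, hγ, rel_inv hx2 (rel_act hx.1 h6)⟩
  have hsub : sat B ⊆ siegel g := by
    rintro t ⟨s, hs, γ, hγ, hr⟩
    exact rel_mem hγ.1 (hB hs) hr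
  refine ⟨?_, hsub, ?_, ?_, ?_⟩
  · rw [isOpen_iff_mem_nhds]
    intro t ht
    obtain ⟨x, hx, h⟩ := key t ht
    filter_upwards [h] with t' ⟨h1, y, hy, h2⟩
    exact ⟨_, h1, y, hy, h2⟩
  · rintro γ hγ t ⟨s, hs, δ, hδ, hr⟩ t' hm
    have ht : t ∈ siegel g := rel_mem hδ.1 (hB hs) hr
    exact ⟨s, hs, γ * δ, gamma2_mul (gamma24_sub hγ) hδ,
      rel_comp hr ((rel_iff_moves hγ.1 ht).1 hm)⟩
  · intro t ht
    obtain ⟨x, hx, h⟩ := key t ht
    have h1 : act x t ∈ B := h.self_of_nhds.1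
    have h2 : DifferentiableAt ℂ (fun t' => h0 (act x t')) t :=
      (hd _ h1).comp t (differentiableAt_act (den_det_ne hx.1 (hsub ht)))
    refine (h2.congr_of_eventuallyEq ?_).differentiableWithinAt
    filter_upwards [h] with t' ⟨h3, y, hy, h4⟩
    exact ext_eq hinv hy h3 h4
  · rintro γ hγ t ⟨s, hs, δ, hδ, hr⟩ t' hm
    have ht : t ∈ siegel g := rel_mem hδ.1 (hB hs) hr
    rw [ext_eq hinv hδ hs hr]
    exact ext_eq hinv (gamma2_mul (gamma24_sub hγ) hδ) hs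
      (rel_comp hr ((rel_iff_moves hγ.1 ht).1 hm))

end Pool.Agent.Y218
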