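import Mathlib

/-!
Definitions for the theta map `Th : A_g(2,4) → P^(2^g-1)`.
-/

namespace Pool.Agent.Y218

open Matrix Topology

/-- The symmetric matrix with entries `t s(i, j)`. -/
def symMat {g : ℕ} (t : Sym2 (Fin g) → ℂ) : Matrix (Fin g) (Fin g) ℂ :=
  Matrix.of fun i j => t s(i, j)

/-- The Siegel upper half-space, as an open subset of the space of complex symmetric matrices. -/
def siegel (g : ℕ) : Set (Sym2 (Fin g) → ℂ) :=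
  {t | ((symMat t).map Complex.im).PosDef}

/-- The group `Γ_g(2,4)`. -/
def gamma24 (g : ℕ) : Set (Matrix (Fin g ⊕ Fin g) (Fin g ⊕ Fin g) ℤ) :=
  {γ | γ ∈ Matrix.symplecticGroup (Fin g) ℤ ∧
    (∀ i j, (2 : ℤ) ∣ (γ - 1) i j) ∧
    (∀ i, (4 : ℤ) ∣ (γ.toBlocks₁₁ * γ.toBlocks₁₂ᵀ) i i) ∧
    (∀ i, (4 : ℤ) ∣ (γ.toBlocks₂₁ * γ.toBlocks₂₂ᵀ) i i)}

/-- `t' = (a t + b) (c t + d)⁻¹`. -/
def Moves {g : ℕ} (γ : Matrix (Fin g ⊕ Fin g) (Fin g ⊕ Fin g) ℤ) (t t' : Sym2 (Fin g) → ℂ) :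
    Prop :=
  symMat t' =
    (γ.toBlocks₁₁.map (Int.cast : ℤ → ℂ) * symMat t + γ.toBlocks₁₂.map (Int.cast : ℤ → ℂ)) *
    (γ.toBlocks₂₁.map (Int.cast : ℤ → ℂ) * symMat t + γ.toBlocks₂₂.map (Int.cast : ℤ → ℂ))⁻¹

/-- The theta function with characteristic. -/
noncomputable def theta {g : ℕ} (ε δ : Fin g → ℂ) (τ : Matrix (Fin g) (Fin g) ℂ)
    (z : Fin g → ℂ) : ℂ :=
  ∑' n : Fin g → ℤ, Complex.exp (Real.pi * Complex.I *
    ((fun i => (n i : ℂ) + ε i) ⬝ᵥ (τ *ᵥ (fun i => (n i : ℂ) + ε i) + (2 : ℂ) • (z + δ))))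

/-- The vector of second order theta constants `θ[e/2; 0](2 t, 0)`. -/
noncomputable def theta2 {g : ℕ} (t : Sym2 (Fin g) → ℂ) : (Fin g → Fin 2) → ℂ :=
  fun e => theta (fun i => ((e i : ℕ) : ℂ) / 2) 0 ((2 : ℂ) • symMat t) 0

/-- `h` is a holomorphic function on the open subset of `A_g(2,4)` with preimage `Ω`. -/
structure IsHolomorphicOnQuotient (g : ℕ) (Ω : Set (Sym2 (Fin g) → ℂ))
    (h : (Sym2 (Fin g) → ℂ) → ℂ) : Prop where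
  isOpen : IsOpen Ω
  subset : Ω ⊆ siegel g
  stable : ∀ γ ∈ gamma24 g, ∀ t ∈ Ω, ∀ t', Moves γ t t' → t' ∈ Ω
  holomorphic : DifferentiableOn ℂ h Ω
  invariant : ∀ γ ∈ gamma24 g, ∀ t ∈ Ω, ∀ t', Moves γ t t' → h t' = h t

/-- Near `t` every holomorphic function on `A_g(2,4)` is a holomorphic function of the second
order theta constants. -/
def IsoOntoImageAt {g : ℕ} (t : Sym2 (Fin g) → ℂ) : Prop :=
  ∀ (Ω : Set (Sym2 (Fin g) → ℂ)) (h : (Sym2 (Fin g) → ℂ) → ℂ), t ∈ Ω →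
    IsHolomorphicOnQuotient g Ω h →
    ∃ F : ((Fin g → Fin 2) → ℂ) → ℂ, AnalyticAt ℂ F (theta2 t) ∧
      ∀ᶠ t' in 𝓝 t, h t' = F (theta2 t')

end Pool.Agent.Y218
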