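import Pool.Agent.Y218.ThetaPoint

namespace Pool.Agent.Y218

open Matrix Topology Filter

variable {g : ℕ}

/-- lower bound of a perturbation of the form `sc * Y1` -/
theorem real_lower (hg : 0 < g) {Y : Matrix (Fin g) (Fin g) ℝ}
    (hY : ∀ i j, |Y i j - sc * (Y1 g i j : ℝ)| ≤ 1 / (2 * g)) (x : Fin g → ℝ) :
    1 / 2 * ∑ i, x i * x i ≤ x ⬝ᵥ (Y *ᵥ x) := by
  have hg' : (0 : ℝ) < g := by exact_mod_cast hg
  have h1 : x ⬝ᵥ (Y *ᵥ x) = sc * (x ⬝ᵥ (((Y1 g).map (Int.cast : ℤ → ℝ)) *ᵥ x))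
      + ∑ i, ∑ j, x i * (Y i j - sc * (Y1 g i j : ℝ)) * x j := by
    simp only [dotProduct, Matrix.mulVec, Finset.mul_sum, Matrix.map_apply]
    rw [← Finset.sum_add_distrib]
    refine Finset.sum_congr rfl fun i _ => ?_
    rw [← Finset.sum_add_distrib]
    refine Finset.sum_congr rfl fun j _ => ?_
    ring
  have h2 : ∑ i, x i * x i ≤ x ⬝ᵥ (((Y1 g).map (Int.cast : ℤ → ℝ)) *ᵥ x) := by
    rw [Y1_real]
    nlinarith [mul_self_nonneg (∑ i, (pI i : ℝ) * x i),
      mul_self_nonneg (∑ i, (1 - (pI i : ℝ)) * x i)]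
  have h3 : -(1 / 2 * ∑ i, x i * x i)
      ≤ ∑ i, ∑ j, x i * (Y i j - sc * (Y1 g i j : ℝ)) * x j := by
    have h4 : ∀ i j : Fin g, -(1 / (4 * g) * (x i * x i + x j * x j))
        ≤ x i * (Y i j - sc * (Y1 g i j : ℝ)) * x j := by
      intro i j
      have h5 : |x i * (Y i j - sc * (Y1 g i j : ℝ)) * x j|
          ≤ 1 / (4 * g) * (x i * x i + x j * x j) := by
        rw [abs_mul, abs_mul]
        have h6 : |x i| * |Y i j - sc * (Y1 g i j : ℝ)| * |x j|
            ≤ 1 / (2 * g) * (|x i| * |x j|) := by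
          have := mul_le_mul_of_nonneg_right (hY i j) (mul_nonneg (abs_nonneg (x i))
            (abs_nonneg (x j)))
          nlinarith
        have h7 : |x i| * |x j| ≤ 1 / 2 * (x i * x i + x j * x j) := by
          nlinarith [sq_nonneg (|x i| - |x j|), abs_mul_abs_self (x i), abs_mul_abs_self (x j)]
        calc _ ≤ 1 / (2 * g) * (|x i| * |x j|) := h6
          _ ≤ 1 / (2 * g) * (1 / 2 * (x i * x i + x j * x j)) := by gcongr
          _ = _ := by ring
      exact (abs_le.1 h5).1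
    calc -(1 / 2 * ∑ i, x i * x i)
        = ∑ i : Fin g, ∑ j : Fin g, -(1 / (4 * g) * (x i * x i + x j * x j)) := by
          have hA : ∑ i : Fin g, ∑ j : Fin g, (x i * x i + x j * x j)
              = 2 * g * ∑ i, x i * x i := by
            simp only [Finset.sum_add_distrib, Finset.sum_const, Finset.card_univ,
              Fintype.card_fin, nsmul_eq_mul, ← Finset.mul_sum]
            ring
          have hB : ∑ i : Fin g, ∑ j : Fin g, -(1 / (4 * g) * (x i * x i + x j * x j))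
              = -(1 / (4 * g)) * ∑ i : Fin g, ∑ j : Fin g, (x i * x i + x j * x j) := by
            simp only [Finset.mul_sum]
            refine Finset.sum_congr rfl fun i _ => Finset.sum_congr rfl fun j _ => ?_
            ring
          rw [hB, hA]
          field_simp
          ring
      _ ≤ _ := Finset.sum_le_sum fun i _ => Finset.sum_le_sum fun j _ => h4 i j
  have h8 : 0 ≤ ∑ i, x i * x i := Finset.sum_nonneg fun i _ => mul_self_nonneg _
  have h9 := sc_ge
  rw [h1]
  nlinarith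

theorem qf_lower (hg : 0 < g) {Y : Matrix (Fin g) (Fin g) ℝ}
    (hY : ∀ i j, |Y i j - sc * (Y1 g i j : ℝ)| ≤ 1 / (2 * g)) (v : Fin g → ℂ) :
    1 / 2 * nsq v ≤ qf Y v := by
  have h1 := real_lower hg hY (fun i => (v i).re)
  have h2 := real_lower hg hY (fun i => (v i).im)
  have h3 : nsq v = ∑ i, (v i).re * (v i).re + ∑ i, (v i).im * (v i).im := by
    unfold nsq
    rw [← Finset.sum_add_distrib]
    refine Finset.sum_congr rfl fun i _ => ?_
    rw [← Complex.normSq_eq_norm_sq, Complex.normSq_apply]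
  unfold qf
  rw [h3]
  linarith

/-- nearness to the base point -/
def Near (t : Sym2 (Fin g) → ℂ) : Prop := ∀ i j : Fin g, ‖t s(i, j) - t0 g s(i, j)‖ ≤ 1 / (2 * g)

theorem near_im (t : Sym2 (Fin g) → ℂ) (ht : Near t) (i j : Fin g) :
    |((symMat t).map Complex.im) i j - sc * (Y1 g i j : ℝ)| ≤ 1 / (2 * g) := by
  have h1 : ((symMat t).map Complex.im) i j - sc * (Y1 g i j : ℝ)
      = (t s(i, j) - t0 g s(i, j)).im := by
    have : t0 g s(i, j) = Complex.I * (sc : ℂ) * ((Y1 g i j : ℤ) : ℂ) := rfl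
    rw [this]
    simp [symMat_apply]
  rw [h1]
  exact (Complex.abs_im_le_norm _).trans (ht i j)

theorem near_mem (hg : 0 < g) {t : Sym2 (Fin g) → ℂ} (ht : Near t) : t ∈ siegel g := by
  apply mem_siegel_of_qf
  intro v hv
  have h1 := qf_lower hg (near_im t ht) v
  have h2 : 0 < nsq v := lt_of_le_of_ne (nsq_nonneg v) (fun h => hv (nsq_eq_zero h.symm))
  linarith

theorem Y1_abs (i j : Fin g) : |(Y1 g i j : ℝ)| ≤ 2 := by
  simp only [Y1, Matrix.of_apply, pI]
  split_ifs <;> norm_num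

theorem near_norm (hg : 0 < g) {t : Sym2 (Fin g) → ℂ} (ht : Near t) (i j : Fin g) :
    ‖symMat t i j‖ ≤ 5 := by
  have h1 : ‖t0 g s(i, j)‖ ≤ 4 := by
    have : t0 g s(i, j) = Complex.I * (sc : ℂ) * ((Y1 g i j : ℤ) : ℂ) := rfl
    rw [this, norm_mul, norm_mul, Complex.norm_I, one_mul, Complex.norm_intCast,
      Complex.norm_real, Real.norm_eq_abs, abs_of_nonneg (by linarith [sc_ge])]
    have := Y1_abs i j
    have h2 := sc_le
    have h3 := sc_ge
    calc sc * |(Y1 g i j : ℝ)| ≤ 2 * 2 := by gcongr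
      _ = 4 := by norm_num
  have h2 := ht i j
  have h3 : (1 : ℝ) / (2 * g) ≤ 1 := by
    have : (1 : ℝ) ≤ g := by exact_mod_cast hg
    rw [div_le_one (by positivity)]
    linarith
  have h4 : symMat t i j = (t s(i, j) - t0 g s(i, j)) + t0 g s(i, j) := by
    rw [symMat_apply]; ring
  rw [h4]
  exact (norm_add_le _ _).trans (by linarith)

theorem bound_cd (hg : 0 < g) {c d : Matrix (Fin g) (Fin g) ℤ} {t : Sym2 (Fin g) → ℂ}
    (ht : Near t) {K : ℝ} (hK : 0 ≤ K)
    (h : ∀ i k, ‖(cz c * symMat t + cz d) i k‖ ≤ K) :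
    (∀ i k, |(c i k : ℝ)| ≤ (2 * g + 4) * K) ∧
    (∀ i k, |(d i k : ℝ)| ≤ K + g * (((2 * g + 4) * K) * 5)) := by
  have hg' : (0 : ℝ) < g := by exact_mod_cast hg
  have hc : ∀ i k, |(c i k : ℝ)| ≤ (2 * g + 4) * K := by
    intro i k
    have h1 := real_lower hg (near_im t ht) (fun k => (c i k : ℝ))
    -- the entries of `Y x`
    have h2 : ∀ k, |(((symMat t).map Complex.im) *ᵥ (fun k => (c i k : ℝ))) k| ≤ K := by
      intro k
      have h3 : (((symMat t).map Complex.im) *ᵥ (fun k => (c i k : ℝ))) k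
          = ((cz c * symMat t + cz d) i k).im := by
        simp only [Matrix.mulVec, dotProduct, Matrix.map_apply, Matrix.add_apply,
          Matrix.mul_apply, Complex.add_im, Complex.intCast_im, add_zero, Complex.im_sum,
          Complex.mul_im, Complex.intCast_re, zero_mul]
        refine Finset.sum_congr rfl fun l _ => ?_
        rw [show symMat t k l = symMat t l k from
          congrFun (congrFun (symMat_transpose t) l) k]
        ring
      rw [h3]
      exact (Complex.abs_im_le_norm _).trans (h i k)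
    have h3 : ∑ k, (1 / 2 * ((c i k : ℝ) * (c i k : ℝ)) - K * |(c i k : ℝ)|) ≤ 0 := by
      have h4 : (fun k => (c i k : ℝ)) ⬝ᵥ (((symMat t).map Complex.im) *ᵥ (fun k => (c i k : ℝ)))
          ≤ ∑ k, K * |(c i k : ℝ)| := by
        refine Finset.sum_le_sum fun k _ => ?_
        calc _ ≤ |(c i k : ℝ) * (((symMat t).map Complex.im) *ᵥ (fun k => (c i k : ℝ))) k| :=
              le_abs_self _
          _ = |(c i k : ℝ)| * |(((symMat t).map Complex.im) *ᵥ (fun k => (c i k : ℝ))) k| :=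
              abs_mul _ _
          _ ≤ |(c i k : ℝ)| * K := by gcongr; exact h2 k
          _ = _ := mul_comm _ _
      rw [Finset.sum_sub_distrib, ← Finset.mul_sum]
      linarith
    have h4 : ∀ k, -(K * K / 2) ≤ 1 / 2 * ((c i k : ℝ) * (c i k : ℝ)) - K * |(c i k : ℝ)| := by
      intro k
      nlinarith [sq_nonneg (|(c i k : ℝ)| - K), abs_mul_abs_self (c i k : ℝ)]
    have h5 : (1 / 2 * ((c i k : ℝ) * (c i k : ℝ)) - K * |(c i k : ℝ)|) - g * (K * K / 2) ≤ 0 := by
      have h6 : (1 / 2 * ((c i k : ℝ) * (c i k : ℝ)) - K * |(c i k : ℝ)|)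
          + ∑ l ∈ Finset.univ.erase k, (1 / 2 * ((c i l : ℝ) * (c i l : ℝ)) - K * |(c i l : ℝ)|)
          = ∑ k, (1 / 2 * ((c i k : ℝ) * (c i k : ℝ)) - K * |(c i k : ℝ)|) :=
        Finset.add_sum_erase Finset.univ
          (fun l => 1 / 2 * ((c i l : ℝ) * (c i l : ℝ)) - K * |(c i l : ℝ)|) (Finset.mem_univ k)
      have h7 : -(g * (K * K / 2)) ≤ ∑ l ∈ Finset.univ.erase k,
          (1 / 2 * ((c i l : ℝ) * (c i l : ℝ)) - K * |(c i l : ℝ)|) := by
        calc -(g * (K * K / 2)) ≤ ∑ l ∈ (Finset.univ.erase k : Finset (Fin g)), -(K * K / 2) := by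
              rw [Finset.sum_const, nsmul_eq_mul]
              have : ((Finset.univ.erase k : Finset (Fin g)).card : ℝ) ≤ g := by
                have := Finset.card_erase_le (s := (Finset.univ : Finset (Fin g))) (a := k)
                simp only [Finset.card_univ, Fintype.card_fin] at this
                exact_mod_cast this
              nlinarith [mul_nonneg hK hK]
          _ ≤ _ := Finset.sum_le_sum fun l _ => h4 l
      linarith
    by_contra hlt
    push Not at hlt
    have h8 : (c i k : ℝ) * (c i k : ℝ) = |(c i k : ℝ)| * |(c i k : ℝ)| :=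
      (abs_mul_abs_self _).symm
    rw [h8] at h5
    set y := |(c i k : ℝ)| with hy
    have hy0 : 0 ≤ y := abs_nonneg _
    have h9 : 4 * K ≤ y := by nlinarith [mul_nonneg hg'.le hK]
    have h10 : 2 * g * K ≤ y := by nlinarith
    have hypos : 0 < y := by
      rcases hK.eq_or_lt with h0 | h0
      · rw [← h0] at hlt; simpa using hlt
      · nlinarith
    -- y²/2 - K y - g K²/2 > 0
    nlinarith [mul_nonneg hK hypos.le, mul_le_mul h9 h9 (by positivity) hy0,
      mul_le_mul_of_nonneg_right h9 hy0, mul_le_mul_of_nonneg_right h10 hy0,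
      mul_le_mul_of_nonneg_right h10 hK, mul_pos hypos hypos]
  refine ⟨hc, fun i k => ?_⟩
  have h1 : (d i k : ℂ) = (cz c * symMat t + cz d) i k - (cz c * symMat t) i k := by
    simp
  have h2 : |(d i k : ℝ)| = ‖(d i k : ℂ)‖ := (Complex.norm_intCast _).symm
  rw [h2, h1]
  refine (norm_sub_le _ _).trans (add_le_add (h i k) ?_)
  rw [Matrix.mul_apply]
  refine (norm_sum_le _ _).trans ?_
  calc ∑ l, ‖cz c i l * symMat t l k‖ ≤ ∑ l : Fin g, ((2 * g + 4) * K) * 5 := by
        refine Finset.sum_le_sum fun l _ => ?_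
        rw [norm_mul]
        have h3 : ‖cz c i l‖ = |(c i l : ℝ)| := by simp
        rw [h3]
        exact mul_le_mul (hc i l) (near_norm hg ht l k) (norm_nonneg _) (by positivity)
    _ = _ := by simp

theorem bound_all (hg : 0 < g) : ∃ N : ℝ, ∀ γ : Matrix (Fin g ⊕ Fin g) (Fin g ⊕ Fin g) ℤ,
    γ ∈ Matrix.symplecticGroup (Fin g) ℤ → ∀ t t' : Sym2 (Fin g) → ℂ, Near t → Near t' →
    Rel γ t t' → ∀ i j, |(γ i j : ℝ)| ≤ N := by
  have hg' : (0 : ℝ) < g := by exact_mod_cast hg
  set K1 : ℝ := 4 with hK1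
  set K2 : ℝ := g * (5 * K1) with hK2
  have hK2' : 0 ≤ K2 := by positivity
  set N1 := (2 * g + 4) * K1 with hN1
  set N2 := K1 + g * (((2 * g + 4) * K1) * 5) with hN2
  set N3 := (2 * g + 4) * K2 with hN3
  set N4 := K2 + g * (((2 * g + 4) * K2) * 5) with hN4
  refine ⟨max (max N1 N2) (max N3 N4), fun γ hγ t t' ht ht' hr i j => ?_⟩
  -- bound on the denominator
  have h1 : ∀ i k, ‖den γ (symMat t) i k‖ ≤ K1 := by
    intro i k
    have h2 := rel_qf hγ hr (Pi.single k 1)
    have h3 := qf_lower hg (near_im t' ht') (den γ (symMat t) *ᵥ (Pi.single k 1))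
    have h4 : qf ((symMat t).map Complex.im) (Pi.single k 1) ≤ 5 := by
      have h5 : qf ((symMat t).map Complex.im) (Pi.single k 1) = (symMat t k k).im := by
        have h6 : (Pi.single k (1 : ℂ) : Fin g → ℂ) = fun i => ((Pi.single k (1 : ℝ) : Fin g → ℝ) i : ℂ) := by
          funext i
          simp only [Pi.single_apply]
          split_ifs <;> simp
        rw [h6, qf_ofReal]
        simp
      rw [h5]
      exact (le_abs_self _).trans ((Complex.abs_im_le_norm _).trans (near_norm hg ht k k))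
    have h5 : nsq (den γ (symMat t) *ᵥ (Pi.single k 1)) ≤ 10 := by linarith
    have h6 : ‖den γ (symMat t) i k‖ ^ 2 ≤ nsq (den γ (symMat t) *ᵥ (Pi.single k 1)) := by
      have h7 : (den γ (symMat t) *ᵥ (Pi.single k 1)) i = den γ (symMat t) i k := by simp
      rw [← h7]
      unfold nsq
      exact Finset.single_le_sum (f := fun i => ‖(den γ (symMat t) *ᵥ (Pi.single k 1)) i‖ ^ 2)
        (fun i _ => by positivity) (Finset.mem_univ i)
    have h8 : ‖den γ (symMat t) i k‖ ^ 2 ≤ 4 ^ 2 := by linarith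
    exact (pow_le_pow_iff_left₀ (norm_nonneg _) (by norm_num) (by norm_num)).1 h8
  have h2 : ∀ i k, ‖num γ (symMat t) i k‖ ≤ K2 := by
    intro i k
    rw [← hr, Matrix.mul_apply]
    refine (norm_sum_le _ _).trans ?_
    calc ∑ l, ‖symMat t' i l * den γ (symMat t) l k‖ ≤ ∑ l : Fin g, 5 * K1 := by
          refine Finset.sum_le_sum fun l _ => ?_
          rw [norm_mul]
          exact mul_le_mul (near_norm hg ht' i l) (h1 l k) (norm_nonneg _) (by norm_num)
      _ = K2 := by simp [hK2]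
  obtain ⟨hc, hd⟩ := bound_cd hg ht (by norm_num) h1
  obtain ⟨ha, hb⟩ := bound_cd hg ht hK2' h2
  rcases i with i | i <;> rcases j with j | j
  · exact (ha i j).trans ((le_max_left _ _).trans (le_max_right _ _))
  · exact (hb i j).trans ((le_max_right _ _).trans (le_max_right _ _))
  · exact (hc i j).trans ((le_max_left _ _).trans (le_max_left _ _))
  · exact (hd i j).trans ((le_max_right _ _).trans (le_max_left _ _))

theorem finite_near (hg : 0 < g) : {γ : Matrix (Fin g ⊕ Fin g) (Fin g ⊕ Fin g) ℤ |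
    γ ∈ Matrix.symplecticGroup (Fin g) ℤ ∧ ∃ t t' : Sym2 (Fin g) → ℂ, Near t ∧ Near t' ∧
      Rel γ t t'}.Finite := by
  obtain ⟨N, hN⟩ := bound_all hg
  have h1 : (Set.pi Set.univ fun _ : Fin g ⊕ Fin g => Set.pi Set.univ fun _ : Fin g ⊕ Fin g =>
      Set.Icc (-⌈N⌉) ⌈N⌉).Finite :=
    Set.Finite.pi fun _ => Set.Finite.pi fun _ => Set.finite_Icc _ _
  refine h1.subset ?_
  rintro γ ⟨hγ, t, t', ht, ht', hr⟩
  intro i _ j _
  have h2 := hN γ hγ t t' ht ht' hr i j
  have h3 : |γ i j| ≤ ⌈N⌉ := by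
    have : ((|γ i j| : ℤ) : ℝ) ≤ ((⌈N⌉ : ℤ) : ℝ) := by
      push_cast
      exact h2.trans (Int.le_ceil N)
    exact_mod_cast this
  exact abs_le.1 h3

theorem continuous_rel (γ : Matrix (Fin g ⊕ Fin g) (Fin g ⊕ Fin g) ℤ) (i j : Fin g) :
    Continuous fun p : (Sym2 (Fin g) → ℂ) × (Sym2 (Fin g) → ℂ) =>
      (symMat p.2 * den γ (symMat p.1) - num γ (symMat p.1)) i j := by
  simp only [den, num, Matrix.sub_apply, Matrix.mul_apply, Matrix.add_apply, symMat_apply]
  fun_prop

theorem exists_ball (hg : 0 < g) : ∃ ε > 0, ε ≤ (1 : ℝ) / (2 * g) ∧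
    ∀ γ ∈ Matrix.symplecticGroup (Fin g) ℤ, ∀ t ∈ Metric.ball (t0 g) ε,
      ∀ t' ∈ Metric.ball (t0 g) ε, Rel γ t t' → Rel γ (t0 g) (t0 g) := by
  set S := {γ : Matrix (Fin g ⊕ Fin g) (Fin g ⊕ Fin g) ℤ |
    γ ∈ Matrix.symplecticGroup (Fin g) ℤ ∧ ∃ t t' : Sym2 (Fin g) → ℂ, Near t ∧ Near t' ∧
      Rel γ t t'} with hS
  have hfin : S.Finite := finite_near hg
  have h1 : ∀ γ ∈ S, ∀ᶠ p in 𝓝 ((t0 g, t0 g) : (Sym2 (Fin g) → ℂ) × (Sym2 (Fin g) → ℂ)),
      Rel γ p.1 p.2 → Rel γ (t0 g) (t0 g) := by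
    intro γ _
    by_cases hr : Rel γ (t0 g) (t0 g)
    · exact Filter.Eventually.of_forall fun _ _ => hr
    · have h2 : ∃ i j, (symMat (t0 g) * den γ (symMat (t0 g)) - num γ (symMat (t0 g))) i j ≠ 0 := by
        by_contra hcon
        push Not at hcon
        apply hr
        unfold Rel
        rw [← sub_eq_zero]
        ext i j
        exact hcon i j
      obtain ⟨i, j, hij⟩ := h2
      have h3 := (continuous_rel γ i j).continuousAt (x := (t0 g, t0 g))
      filter_upwards [h3.eventually_ne hij] with p hp hrp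
      exfalso
      apply hp
      show (symMat p.2 * den γ (symMat p.1) - num γ (symMat p.1)) i j = 0
      have : symMat p.2 * den γ (symMat p.1) - num γ (symMat p.1) = 0 := sub_eq_zero.2 hrp
      rw [this]; rfl
  have h2 := (Filter.eventually_all_finite hfin).2 h1
  obtain ⟨ε, hε, h3⟩ := Metric.eventually_nhds_iff.1 h2
  have hg' : (0 : ℝ) < g := by exact_mod_cast hg
  refine ⟨min ε (1 / (2 * g)), lt_min hε (by positivity), min_le_right _ _, ?_⟩
  intro γ hγ t ht t' ht' hr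
  have hnear : ∀ u ∈ Metric.ball (t0 g) (min ε (1 / (2 * g))), Near u := by
    intro u hu i j
    have h4 : dist (u s(i, j)) (t0 g s(i, j)) ≤ dist u (t0 g) := dist_le_pi_dist _ _ _
    rw [dist_eq_norm] at h4
    have h5 : dist u (t0 g) < min ε (1 / (2 * g)) := hu
    exact h4.trans (h5.le.trans (min_le_right _ _))
  refine h3 (y := (t, t')) ?_ γ ⟨hγ, t, t', hnear t ht, hnear t' ht', hr⟩ hr
  rw [Prod.dist_eq]
  exact max_lt (lt_of_lt_of_le ht (min_le_left _ _)) (lt_of_lt_of_le ht' (min_le_left _ _))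

/-- there is a function on a neighbourhood in the quotient which equals the minor near the base
point -/
theorem exists_quotient_minor (hg : 4 ≤ g) : ∃ (Ω : Set (Sym2 (Fin g) → ℂ))
    (h : (Sym2 (Fin g) → ℂ) → ℂ), t0 g ∈ Ω ∧ IsHolomorphicOnQuotient g Ω h ∧
    ∀ᶠ t in 𝓝 (t0 g), h t = minor hg t := by
  have hg0 : 0 < g := by omega
  obtain ⟨ε, hε, hε', hball⟩ := exists_ball hg0
  set B := Metric.ball (t0 g) ε with hB
  have hBs : B ⊆ siegel g := by
    intro u hu
    apply near_mem hg0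
    intro i j
    have h4 : dist (u s(i, j)) (t0 g s(i, j)) ≤ dist u (t0 g) := dist_le_pi_dist _ _ _
    rw [dist_eq_norm] at h4
    have h5 : dist u (t0 g) < ε := hu
    exact h4.trans (h5.le.trans hε')
  have hinv : ∀ γ ∈ gamma2 g, ∀ s ∈ B, ∀ s' ∈ B, Rel γ s s' → minor hg s' = minor hg s := by
    intro γ hγ s hs s' hs' hr
    exact minor_inv hg hγ (hball γ hγ.1 s hs s' hs' hr) hr
  have hone : (1 : Matrix (Fin g ⊕ Fin g) (Fin g ⊕ Fin g) ℤ) ∈ gamma2 g :=
    ⟨one_mem _, fun i j => by simp⟩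
  have hrel : ∀ s : Sym2 (Fin g) → ℂ, Rel 1 s s := by
    intro s
    unfold Rel
    rw [num_one, den_one, Matrix.mul_one]
  refine ⟨sat B, ext B (minor hg), ⟨t0 g, Metric.mem_ball_self hε, 1, hone, hrel _⟩, ?_, ?_⟩
  · refine isHolomorphicOnQuotient_ext hBs Metric.isOpen_ball (fun s _ => ?_) hinv
    unfold minor
    fun_prop
  · filter_upwards [Metric.ball_mem_nhds (t0 g) hε] with t ht
    exact ext_eq hinv hone ht (hrel t)

end Pool.Agent.Y218
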