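import Pool.Agent.Y218.ThetaPoint

namespace Pool.Agent.Y218

open Matrix Topology Filter

variable {g : ℕ}

theorem summable_pi_prod {ψ : ℤ → ℝ} (h0 : ∀ n, 0 ≤ ψ n) (hs : Summable ψ) (g : ℕ) :
    Summable fun n : Fin g → ℤ => ∏ i, ψ (n i) := by
  induction g with
  | zero => exact Summable.of_finite
  | succ g ih =>
    rw [← (Fin.consEquiv (fun _ : Fin (g + 1) => ℤ)).summable_iff]
    have h1 := Summable.mul_of_nonneg hs ih h0 (fun n => Finset.prod_nonneg fun i _ => h0 _)
    refine h1.congr fun p => ?_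
    simp [Fin.consEquiv, Fin.prod_univ_succ]

/-- the one variable bound -/
noncomputable def psi (n : ℤ) : ℝ :=
  64 * Real.exp (-Real.pi * (2 * (n : ℝ) ^ 2 - 2 * (3 / 2) * |(n : ℝ)|))

theorem psi_nonneg (n : ℤ) : 0 ≤ psi n := by unfold psi; positivity

theorem summable_psi : Summable psi := by
  have h1 := summable_pow_mul_jacobiTheta₂_term_bound (3 / 2) (T := 2) (by norm_num) 0
  unfold psi
  refine (h1.mul_left 64).congr fun n => ?_
  simp

/-- the shifted lattice point -/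
noncomputable def mm (e : Fin g → Fin 2) (n : Fin g → ℤ) (i : Fin g) : ℝ :=
  (n i : ℝ) + ((e i : ℕ) : ℝ) / 2

theorem psi_bound (e : Fin 2) (n : ℤ) :
    Real.exp (-2 * Real.pi * ((n : ℝ) + ((e : ℕ) : ℝ) / 2) ^ 2)
      * (1 + |(n : ℝ) + ((e : ℕ) : ℝ) / 2|) ^ 6 ≤ psi n := by
  have he : 0 ≤ ((e : ℕ) : ℝ) ∧ ((e : ℕ) : ℝ) ≤ 1 := by
    refine ⟨by positivity, ?_⟩
    have : (e : ℕ) ≤ 1 := by omega
    exact_mod_cast this
  set x : ℝ := (n : ℝ)
  set f : ℝ := ((e : ℕ) : ℝ)
  have h1 : x ^ 2 - |x| ≤ (x + f / 2) ^ 2 := by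
    have h2 : -|x| ≤ f * x := by
      have : |f * x| ≤ |x| := by
        rw [abs_mul, abs_of_nonneg he.1]
        nlinarith [abs_nonneg x, he.2]
      linarith [neg_abs_le (f * x)]
    nlinarith
  have h2 : 1 + |x + f / 2| ≤ 2 * Real.exp (|x| / 2) := by
    have h3 : |x + f / 2| ≤ |x| + 1 := by
      refine (abs_add_le _ _).trans ?_
      rw [abs_of_nonneg (by linarith : 0 ≤ f / 2)]
      linarith
    have h4 := Real.add_one_le_exp (|x| / 2)
    linarith
  have h3 : (1 + |x + f / 2|) ^ 6 ≤ 64 * Real.exp (Real.pi * |x|) := by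
    calc (1 + |x + f / 2|) ^ 6 ≤ (2 * Real.exp (|x| / 2)) ^ 6 := by
          gcongr
      _ = 64 * Real.exp (3 * |x|) := by
          rw [mul_pow, ← Real.exp_nat_mul]
          congr 1
          · norm_num
          · congr 1; push_cast; ring
      _ ≤ 64 * Real.exp (Real.pi * |x|) := by
          gcongr
          exact Real.pi_gt_three.le
  have h4 : Real.exp (-2 * Real.pi * (x + f / 2) ^ 2) ≤ Real.exp (-2 * Real.pi * (x ^ 2 - |x|)) := by
    apply Real.exp_le_exp.2
    nlinarith [Real.pi_pos]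
  calc _ ≤ Real.exp (-2 * Real.pi * (x ^ 2 - |x|)) * (64 * Real.exp (Real.pi * |x|)) := by
        gcongr
    _ = psi n := by
        unfold psi
        rw [mul_left_comm, ← Real.exp_add]
        congr 2
        show _ = -Real.pi * (2 * x ^ 2 - 2 * (3 / 2) * |x|)
        ring

/-- the weight -/
noncomputable def ww (e : Fin g → Fin 2) (n : Fin g → ℤ) : ℝ :=
  Real.exp (-2 * Real.pi * sc *
    (mm e n ⬝ᵥ (((Y1 g).map (Int.cast : ℤ → ℝ)) *ᵥ mm e n)))

theorem ww_pos (e : Fin g → Fin 2) (n : Fin g → ℤ) : 0 < ww e n := Real.exp_pos _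

/-- the polynomial majorant -/
noncomputable def pp (e : Fin g → Fin 2) (n : Fin g → ℤ) : ℝ := ∏ i, (1 + |mm e n i|)

theorem one_le_pp (e : Fin g → Fin 2) (n : Fin g → ℤ) : 1 ≤ pp e n := by
  unfold pp
  calc (1 : ℝ) = ∏ _i : Fin g, 1 := by simp
    _ ≤ _ := Finset.prod_le_prod (fun _ _ => zero_le_one) fun i _ => by
      have := abs_nonneg (mm e n i); linarith

theorem mm_le_pp (e : Fin g → Fin 2) (n : Fin g → ℤ) (i : Fin g) : |mm e n i| ≤ pp e n := by
  unfold pp
  rw [← Finset.mul_prod_erase _ _ (Finset.mem_univ i)]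
  have h1 : (1 : ℝ) ≤ ∏ j ∈ Finset.univ.erase i, (1 + |mm e n j|) := by
    calc (1 : ℝ) = ∏ _j ∈ Finset.univ.erase i, 1 := by simp
      _ ≤ _ := Finset.prod_le_prod (fun _ _ => zero_le_one) fun j _ => by
        have := abs_nonneg (mm e n j); linarith
  nlinarith [abs_nonneg (mm e n i)]

theorem summable_wp (e : Fin g → Fin 2) : Summable fun n => ww e n * pp e n ^ 6 := by
  refine Summable.of_nonneg_of_le (fun n => ?_) (fun n => ?_)
    (summable_pi_prod psi_nonneg summable_psi g)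
  · have := ww_pos e n
    have := one_le_pp e n
    positivity
  · have h1 : ww e n ≤ ∏ i, Real.exp (-2 * Real.pi * (mm e n i) ^ 2) := by
      rw [← Real.exp_sum]
      unfold ww
      apply Real.exp_le_exp.2
      rw [← Finset.mul_sum]
      have h2 : ∑ i, (mm e n i) ^ 2 ≤ mm e n ⬝ᵥ (((Y1 g).map (Int.cast : ℤ → ℝ)) *ᵥ mm e n) := by
        rw [Y1_real]
        simp only [pow_two]
        nlinarith [mul_self_nonneg (∑ i, (pI i : ℝ) * mm e n i),
          mul_self_nonneg (∑ i, (1 - (pI i : ℝ)) * mm e n i)]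
      have h3 : 0 ≤ ∑ i, (mm e n i) ^ 2 := Finset.sum_nonneg fun i _ => sq_nonneg _
      have h4 := sc_ge
      have h5 := Real.pi_pos
      have h6 : ∑ i, (mm e n i) ^ 2
          ≤ sc * (mm e n ⬝ᵥ (((Y1 g).map (Int.cast : ℤ → ℝ)) *ᵥ mm e n)) := by nlinarith
      nlinarith
    calc ww e n * pp e n ^ 6
        ≤ (∏ i, Real.exp (-2 * Real.pi * (mm e n i) ^ 2)) * (∏ i, (1 + |mm e n i|)) ^ 6 :=
          mul_le_mul_of_nonneg_right h1 (pow_nonneg (zero_le_one.trans (one_le_pp e n)) 6)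
      _ = ∏ i, (Real.exp (-2 * Real.pi * (mm e n i) ^ 2) * (1 + |mm e n i|) ^ 6) := by
          rw [Finset.prod_mul_distrib, Finset.prod_pow]
      _ ≤ ∏ i, psi (n i) := Finset.prod_le_prod (fun i _ => by positivity)
          fun i _ => psi_bound (e i) (n i)

/-- total mass of the majorant -/
noncomputable def CC (e : Fin g → Fin 2) : ℝ := ∑' n, ww e n * pp e n ^ 6

theorem CC_nonneg (e : Fin g → Fin 2) : 0 ≤ CC e :=
  tsum_nonneg fun n => by
    have := ww_pos e n
    have := one_le_pp e n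
    positivity

/-- general estimate -/
theorem tsum_le_CC (e : Fin g → Fin 2) {f : (Fin g → ℤ) → ℝ} {K : ℝ}
    (hf : ∀ n, |f n| ≤ K * pp e n ^ 6) :
    Summable (fun n => ww e n * f n) ∧ |∑' n, ww e n * f n| ≤ K * CC e := by
  have h1 : ∀ n, ‖ww e n * f n‖ ≤ K * (ww e n * pp e n ^ 6) := by
    intro n
    rw [Real.norm_eq_abs, abs_mul, abs_of_pos (ww_pos e n)]
    have := mul_le_mul_of_nonneg_left (hf n) (ww_pos e n).le
    linarith
  have h2 := (summable_wp e).mul_left K
  have h3 : Summable (fun n => ww e n * f n) := Summable.of_norm_bounded h2 h1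
  refine ⟨h3, ?_⟩
  rw [CC, ← tsum_mul_left]
  exact tsum_of_norm_bounded h2.hasSum h1

theorem abs_sin_sub_le (a : ℝ) : |Real.sin a - a| ≤ 2 * a ^ 2 := by
  by_cases h : |a| ≤ 1
  · have h1 : ‖(a : ℂ) * Complex.I‖ ≤ 1 := by simpa using h
    have h2 := Complex.norm_exp_sub_one_sub_id_le h1
    have h3 : (Complex.exp ((a : ℂ) * Complex.I) - 1 - (a : ℂ) * Complex.I).im
        = Real.sin a - a := by
      rw [Complex.exp_mul_I]
      simp [← Complex.ofReal_cos, ← Complex.ofReal_sin]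
    rw [← h3]
    refine (Complex.abs_im_le_norm _).trans (h2.trans ?_)
    rw [norm_mul, Complex.norm_I, mul_one, Complex.norm_real, Real.norm_eq_abs, sq_abs]
    nlinarith [sq_nonneg a]
  · push Not at h
    have h1 := Real.abs_sin_le_one a
    have h2 : |Real.sin a - a| ≤ |Real.sin a| + |a| := abs_sub _ _
    have h3 : a ^ 2 = |a| ^ 2 := (sq_abs a).symm
    rw [h3]
    nlinarith

theorem abs_sin_mul_sub_le (a b : ℝ) :
    |Real.sin a * Real.sin b - a * b| ≤ 2 * a ^ 2 * |b| + 2 * b ^ 2 * |a| := by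
  have h1 : Real.sin a * Real.sin b - a * b
      = (Real.sin a - a) * Real.sin b + a * (Real.sin b - b) := by ring
  rw [h1]
  refine (abs_add_le _ _).trans ?_
  rw [abs_mul, abs_mul]
  have h2 : |Real.sin b| ≤ |b| := Real.abs_sin_le_abs
  have h3 := abs_sin_sub_le a
  have h4 := abs_sin_sub_le b
  have h5 : |Real.sin a - a| * |Real.sin b| ≤ (2 * a ^ 2) * |b| := by gcongr
  have h6 : |a| * |Real.sin b - b| ≤ |a| * (2 * b ^ 2) := by gcongr
  linarith

/-- direction -/
noncomputable def dir (i j k l : Fin g) (σ : ℝ) : Sym2 (Fin g) → ℂ :=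
  Pi.single s(i, j) 1 + (σ : ℂ) • Pi.single s(k, l) 1

/-- the value of the direction as quadratic form -/
def qd (i j k l : Fin g) (σ : ℝ) (x : Fin g → ℝ) : ℝ := 2 * (x i * x j) + σ * (2 * (x k * x l))

theorem quad_single (i j : Fin g) (hij : i ≠ j) (v : Fin g → ℂ) :
    v ⬝ᵥ (symMat (Pi.single s(i, j) 1) *ᵥ v) = 2 * (v i * v j) := by
  simp only [dotProduct, Matrix.mulVec, symMat_apply, Pi.single_apply, Sym2.eq_iff]
  have h1 : ∀ k l : Fin g, (if k = i ∧ l = j ∨ k = j ∧ l = i then (1 : ℂ) else 0)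
      = (if k = i then (if l = j then 1 else 0) else 0)
        + (if k = j then (if l = i then 1 else 0) else 0) := by
    intro k l
    by_cases h1 : k = i <;> by_cases h2 : l = j <;> by_cases h3 : k = j <;>
      by_cases h4 : l = i <;> simp_all
  simp only [h1, add_mul, Finset.sum_add_distrib, mul_add, ite_mul, one_mul, zero_mul]
  simp
  ring

theorem theta_term (e : Fin g → Fin 2) (n : Fin g → ℤ) (i j k l : Fin g) (hij : i ≠ j)
    (hkl : k ≠ l) (σ u : ℝ) :
    Complex.exp (Real.pi * Complex.I *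
    ((fun i => (n i : ℂ) + ((e i : ℕ) : ℂ) / 2) ⬝ᵥ
      (((2 : ℂ) • symMat (t0 g + (u : ℂ) • dir i j k l σ)) *ᵥ
        (fun i => (n i : ℂ) + ((e i : ℕ) : ℂ) / 2) + (2 : ℂ) • (0 + 0))))
    = (ww e n : ℂ) * Complex.exp ((2 * Real.pi * u * qd i j k l σ (mm e n) : ℝ) * Complex.I) := by
  set v : Fin g → ℂ := fun i => (n i : ℂ) + ((e i : ℕ) : ℂ) / 2 with hv
  have hv' : v = fun i => ((mm e n i : ℝ) : ℂ) := by
    funext i; simp [hv, mm]
  have h1 : v ⬝ᵥ (((2 : ℂ) • symMat (t0 g + (u : ℂ) • dir i j k l σ)) *ᵥ v + (2 : ℂ) • (0 + 0))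
      = 2 * (Complex.I * sc * (mm e n ⬝ᵥ (((Y1 g).map (Int.cast : ℤ → ℝ)) *ᵥ mm e n) : ℝ))
        + 2 * (u * (qd i j k l σ (mm e n) : ℝ)) := by
    have h2 : symMat (t0 g + (u : ℂ) • dir i j k l σ) = symMat (t0 g)
        + (u : ℂ) • (symMat (Pi.single s(i, j) 1) + (σ : ℂ) • symMat (Pi.single s(k, l) 1)) := by
      ext a b
      simp [symMat_apply, dir]
    have h3 : v ⬝ᵥ (symMat (t0 g) *ᵥ v)
        = Complex.I * sc * (mm e n ⬝ᵥ (((Y1 g).map (Int.cast : ℤ → ℝ)) *ᵥ mm e n) : ℝ) := by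
      rw [hv']
      simp only [dotProduct, Matrix.mulVec, symMat_t0, Matrix.map_apply, Finset.mul_sum]
      push_cast
      simp only [Finset.mul_sum]
      refine Finset.sum_congr rfl fun a _ => Finset.sum_congr rfl fun b _ => ?_
      ring
    rw [h2]
    simp only [add_zero, smul_zero, Matrix.add_mulVec, Matrix.smul_mulVec, dotProduct_add,
      dotProduct_smul, smul_eq_mul, h3, quad_single i j hij v, quad_single k l hkl v]
    rw [hv']
    simp only [qd]
    push_cast
    ring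
  rw [h1]
  unfold ww
  rw [Complex.ofReal_exp, ← Complex.exp_add]
  congr 1
  push_cast
  have : Complex.I * Complex.I = -1 := Complex.I_mul_I
  linear_combination (2 * Real.pi * sc *
    (mm e n ⬝ᵥ (((Y1 g).map (Int.cast : ℤ → ℝ)) *ᵥ mm e n) : ℝ) : ℂ) * this

/-- flip the sign of the first block -/
def flip (e : Fin g → Fin 2) (n : Fin g → ℤ) (i : Fin g) : ℤ :=
  if i.val < 2 then - n i - ((e i : ℕ) : ℤ) else n i

theorem flip_flip (e : Fin g → Fin 2) (n : Fin g → ℤ) : flip e (flip e n) = n := by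
  funext i
  unfold flip
  split_ifs <;> ring

/-- the flip as an equivalence -/
def flipEquiv (e : Fin g → Fin 2) : (Fin g → ℤ) ≃ (Fin g → ℤ) :=
  ⟨flip e, flip e, flip_flip e, flip_flip e⟩

theorem mm_flip (e : Fin g → Fin 2) (n : Fin g → ℤ) (i : Fin g) :
    mm e (flip e n) i = if i.val < 2 then - mm e n i else mm e n i := by
  unfold mm flip
  split_ifs
  · push_cast; ring
  · rfl

theorem ww_flip (e : Fin g → Fin 2) (n : Fin g → ℤ) : ww e (flip e n) = ww e n := by
  unfold ww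
  rw [Y1_real, Y1_real]
  have h1 : ∑ i, mm e (flip e n) i * mm e (flip e n) i = ∑ i, mm e n i * mm e n i := by
    refine Finset.sum_congr rfl fun i _ => ?_
    rw [mm_flip]; split_ifs <;> ring
  have h2 : ∑ i, (pI i : ℝ) * mm e (flip e n) i = - ∑ i, (pI i : ℝ) * mm e n i := by
    rw [← Finset.sum_neg_distrib]
    refine Finset.sum_congr rfl fun i _ => ?_
    rw [mm_flip]; unfold pI; split_ifs <;> simp
  have h3 : ∑ i, (1 - (pI i : ℝ)) * mm e (flip e n) i = ∑ i, (1 - (pI i : ℝ)) * mm e n i := by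
    refine Finset.sum_congr rfl fun i _ => ?_
    rw [mm_flip]; unfold pI; split_ifs <;> simp
  rw [h1, h2, h3]
  congr 2
  ring

/-- conditions on the indices -/
structure Off (i j k l : Fin g) : Prop where
  hi : i.val < 2
  hj : ¬ j.val < 2
  hk : k.val < 2
  hl : ¬ l.val < 2

theorem qd_flip {i j k l : Fin g} (h : Off i j k l) (σ : ℝ) (e : Fin g → Fin 2)
    (n : Fin g → ℤ) : qd i j k l σ (mm e (flip e n)) = - qd i j k l σ (mm e n) := by
  unfold qd
  rw [mm_flip, mm_flip, mm_flip, mm_flip, if_pos h.hi, if_neg h.hj, if_pos h.hk, if_neg h.hl]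
  ring

theorem one_le_pp6 (e : Fin g → Fin 2) (n : Fin g → ℤ) : 1 ≤ pp e n ^ 6 :=
  one_le_pow₀ (one_le_pp e n)

theorem theta2_eq {i j k l : Fin g} (h : Off i j k l) (σ u : ℝ) (e : Fin g → Fin 2) :
    theta2 (t0 g + (u : ℂ) • dir i j k l σ) e
      = ((∑' n, ww e n * Real.cos (2 * Real.pi * u * qd i j k l σ (mm e n)) : ℝ) : ℂ) := by
  have hij : i ≠ j := by rintro rfl; exact h.hj h.hi
  have hkl : k ≠ l := by rintro rfl; exact h.hl h.hk
  set θ : (Fin g → ℤ) → ℝ := fun n => 2 * Real.pi * u * qd i j k l σ (mm e n) with hθ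
  have h1 : theta2 (t0 g + (u : ℂ) • dir i j k l σ) e
      = ∑' n, (ww e n : ℂ) * Complex.exp ((θ n : ℝ) * Complex.I) := by
    unfold theta2 theta
    refine tsum_congr fun n => ?_
    exact theta_term e n i j k l hij hkl σ u
  have hc := (tsum_le_CC e (f := fun n => Real.cos (θ n)) (K := 1) (fun n => by
    rw [one_mul]; exact (Real.abs_cos_le_one _).trans (one_le_pp6 e n))).1
  have hs := (tsum_le_CC e (f := fun n => Real.sin (θ n)) (K := 1) (fun n => by
    rw [one_mul]; exact (Real.abs_sin_le_one _).trans (one_le_pp6 e n))).1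
  have h2 : ∑' n, ww e n * Real.sin (θ n) = 0 := by
    have h3 : ∑' n, ww e n * Real.sin (θ n) = - ∑' n, ww e n * Real.sin (θ n) := by
      rw [← tsum_neg]
      nth_rewrite 1 [← (flipEquiv e).tsum_eq]
      refine tsum_congr fun n => ?_
      show ww e (flip e n) * Real.sin (θ (flip e n)) = _
      rw [ww_flip]
      simp only [hθ, qd_flip h]
      rw [mul_neg, Real.sin_neg]
      ring
    linarith
  rw [h1]
  have h3 : ∀ n, (ww e n : ℂ) * Complex.exp ((θ n : ℝ) * Complex.I)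
      = ((ww e n * Real.cos (θ n) : ℝ) : ℂ) + ((ww e n * Real.sin (θ n) : ℝ) : ℂ) * Complex.I := by
    intro n
    rw [Complex.exp_mul_I]
    push_cast
    ring
  simp only [h3]
  have hc' : Summable fun n => ((ww e n * Real.cos (θ n) : ℝ) : ℂ) :=
    Complex.ofRealCLM.summable hc
  have hs' : Summable fun n => ((ww e n * Real.sin (θ n) : ℝ) : ℂ) :=
    Complex.ofRealCLM.summable hs
  rw [hc'.tsum_add (hs'.mul_right _), tsum_mul_right, ← Complex.ofReal_tsum,
    ← Complex.ofReal_tsum, h2]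
  simp [hθ]

theorem qd_abs_le (i j k l : Fin g) {σ : ℝ} (hσ : |σ| ≤ 1) (e : Fin g → Fin 2) (n : Fin g → ℤ) :
    qd i j k l σ (mm e n) ^ 2 ≤ 16 * pp e n ^ 6 := by
  have h1 := one_le_pp e n
  have h2 : |qd i j k l σ (mm e n)| ≤ 4 * pp e n ^ 2 := by
    unfold qd
    refine (abs_add_le _ _).trans ?_
    rw [abs_mul, abs_mul, abs_mul, abs_mul, abs_mul]
    have h3 : |mm e n i| * |mm e n j| ≤ pp e n * pp e n := by
      gcongr <;> exact mm_le_pp _ _ _
    have h4 : |mm e n k| * |mm e n l| ≤ pp e n * pp e n := by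
      gcongr <;> exact mm_le_pp _ _ _
    have h5 : |σ| * (2 * (|mm e n k| * |mm e n l|)) ≤ 1 * (2 * (pp e n * pp e n)) := by
      gcongr
    rw [abs_two]
    nlinarith
  have h3 : qd i j k l σ (mm e n) ^ 2 ≤ (4 * pp e n ^ 2) ^ 2 := by
    rw [← sq_abs]
    gcongr
  have h4 : pp e n ^ 4 ≤ pp e n ^ 6 := pow_le_pow_right₀ h1 (by norm_num)
  calc _ ≤ (4 * pp e n ^ 2) ^ 2 := h3
    _ = 16 * pp e n ^ 4 := by ring
    _ ≤ _ := by gcongr

/-- second order bound -/
theorem theta2_sub_le {i j k l : Fin g} (h : Off i j k l) {σ : ℝ} (hσ : |σ| ≤ 1) (u : ℝ)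
    (e : Fin g → Fin 2) :
    ‖theta2 (t0 g + (u : ℂ) • dir i j k l σ) e - theta2 (t0 g + ((0 : ℝ) : ℂ) • dir i j k l σ) e‖
      ≤ u ^ 2 * (32 * Real.pi ^ 2) * CC e := by
  rw [theta2_eq h, theta2_eq h, ← Complex.ofReal_sub, Complex.norm_real, Real.norm_eq_abs]
  have hc : ∀ u : ℝ, Summable fun n => ww e n *
      Real.cos (2 * Real.pi * u * qd i j k l σ (mm e n)) := fun u =>
    (tsum_le_CC e (K := 1) (fun n => by
      rw [one_mul]; exact (Real.abs_cos_le_one _).trans (one_le_pp6 e n))).1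
  rw [← (hc u).tsum_sub (hc 0)]
  have h1 : ∀ n, |Real.cos (2 * Real.pi * u * qd i j k l σ (mm e n))
      - Real.cos (2 * Real.pi * 0 * qd i j k l σ (mm e n))|
      ≤ u ^ 2 * (32 * Real.pi ^ 2) * pp e n ^ 6 := by
    intro n
    have h2 : 2 * Real.pi * 0 * qd i j k l σ (mm e n) = 0 := by ring
    have h2' := Real.cos_le_one (2 * Real.pi * u * qd i j k l σ (mm e n))
    rw [h2, Real.cos_zero, abs_sub_comm, abs_of_nonneg (by linarith)]
    have h3 := Real.one_sub_sq_div_two_le_cos (x := 2 * Real.pi * u * qd i j k l σ (mm e n))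
    have h4 := qd_abs_le i j k l hσ e n
    have h5 : (2 * Real.pi * u * qd i j k l σ (mm e n)) ^ 2 / 2
        = 2 * Real.pi ^ 2 * u ^ 2 * qd i j k l σ (mm e n) ^ 2 := by ring
    rw [h5] at h3
    have h6 : 2 * Real.pi ^ 2 * u ^ 2 * qd i j k l σ (mm e n) ^ 2
        ≤ 2 * Real.pi ^ 2 * u ^ 2 * (16 * pp e n ^ 6) := by gcongr
    linarith
  have h2 := (tsum_le_CC e h1).2
  simp only [mul_sub] at h2
  exact h2

/-- the combination of four values of the theta vector vanishes to third order -/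
theorem theta2_comb {i j k l : Fin g} (h : Off i j k l) (u : ℝ) (e : Fin g → Fin 2) :
    ‖theta2 (t0 g + (u : ℂ) • dir i j k l 1) e - theta2 (t0 g + (u : ℂ) • dir i j k l (-1)) e
      - theta2 (t0 g + (u : ℂ) • dir i l k j 1) e
      + theta2 (t0 g + (u : ℂ) • dir i l k j (-1)) e‖
      ≤ |u| ^ 3 * (16 * (4 * Real.pi) ^ 3) * CC e := by
  have h' : Off i l k j := ⟨h.hi, h.hl, h.hk, h.hj⟩
  rw [theta2_eq h, theta2_eq h, theta2_eq h', theta2_eq h', ← Complex.ofReal_sub,
    ← Complex.ofReal_sub, ← Complex.ofReal_add, Complex.norm_real, Real.norm_eq_abs]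
  have hc : ∀ (i j k l : Fin g) (σ : ℝ), Summable fun n => ww e n *
      Real.cos (2 * Real.pi * u * qd i j k l σ (mm e n)) := fun i j k l σ =>
    (tsum_le_CC e (K := 1) (fun n => by
      rw [one_mul]; exact (Real.abs_cos_le_one _).trans (one_le_pp6 e n))).1
  rw [← (hc i j k l 1).tsum_sub (hc i j k l (-1)),
    ← ((hc i j k l 1).sub (hc i j k l (-1))).tsum_sub (hc i l k j 1),
    ← (((hc i j k l 1).sub (hc i j k l (-1))).sub (hc i l k j 1)).tsum_add (hc i l k j (-1))]
  have h1 : ∀ n, |Real.cos (2 * Real.pi * u * qd i j k l 1 (mm e n))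
      - Real.cos (2 * Real.pi * u * qd i j k l (-1) (mm e n))
      - Real.cos (2 * Real.pi * u * qd i l k j 1 (mm e n))
      + Real.cos (2 * Real.pi * u * qd i l k j (-1) (mm e n))|
      ≤ |u| ^ 3 * (16 * (4 * Real.pi) ^ 3) * pp e n ^ 6 := by
    intro n
    set a := mm e n i
    set b := mm e n j
    set c := mm e n k
    set d := mm e n l
    set θ : ℝ := 4 * Real.pi * u with hθ
    have e1 : 2 * Real.pi * u * qd i j k l 1 (mm e n) = θ * (a * b) + θ * (c * d) := by
      simp only [qd, hθ]; ring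
    have e2 : 2 * Real.pi * u * qd i j k l (-1) (mm e n) = θ * (a * b) - θ * (c * d) := by
      simp only [qd, hθ]; ring
    have e3 : 2 * Real.pi * u * qd i l k j 1 (mm e n) = θ * (a * d) + θ * (c * b) := by
      simp only [qd, hθ]; ring
    have e4 : 2 * Real.pi * u * qd i l k j (-1) (mm e n) = θ * (a * d) - θ * (c * b) := by
      simp only [qd, hθ]; ring
    rw [e1, e2, e3, e4, Real.cos_add, Real.cos_sub, Real.cos_add, Real.cos_sub]
    have h2 := abs_sin_mul_sub_le (θ * (a * b)) (θ * (c * d))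
    have h3 := abs_sin_mul_sub_le (θ * (a * d)) (θ * (c * b))
    have h4 : Real.cos (θ * (a * b)) * Real.cos (θ * (c * d))
        - Real.sin (θ * (a * b)) * Real.sin (θ * (c * d))
        - (Real.cos (θ * (a * b)) * Real.cos (θ * (c * d))
          + Real.sin (θ * (a * b)) * Real.sin (θ * (c * d)))
        - (Real.cos (θ * (a * d)) * Real.cos (θ * (c * b))
          - Real.sin (θ * (a * d)) * Real.sin (θ * (c * b)))
        + (Real.cos (θ * (a * d)) * Real.cos (θ * (c * b))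
          + Real.sin (θ * (a * d)) * Real.sin (θ * (c * b)))
        = 2 * ((Real.sin (θ * (a * d)) * Real.sin (θ * (c * b))
            - (θ * (a * d)) * (θ * (c * b)))
          - (Real.sin (θ * (a * b)) * Real.sin (θ * (c * d))
            - (θ * (a * b)) * (θ * (c * d)))) := by ring
    rw [h4, abs_mul, abs_two]
    have P := one_le_pp e n
    have P0 : 0 ≤ pp e n := by linarith
    have ha : |a| ≤ pp e n := mm_le_pp e n i
    have hb : |b| ≤ pp e n := mm_le_pp e n j
    have hcc : |c| ≤ pp e n := mm_le_pp e n k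
    have hd : |d| ≤ pp e n := mm_le_pp e n l
    have key : ∀ x y z w : ℝ, |x| ≤ pp e n → |y| ≤ pp e n → |z| ≤ pp e n → |w| ≤ pp e n →
        (θ * (x * y)) ^ 2 * |θ * (z * w)| ≤ |θ| ^ 3 * pp e n ^ 6 := by
      intro x y z w hx hy hz hw
      have : (θ * (x * y)) ^ 2 * |θ * (z * w)|
          = |θ| ^ 3 * ((|x| * |y|) * (|x| * |y|) * (|z| * |w|)) := by
        rw [← sq_abs]
        simp only [abs_mul]
        ring
      rw [this]
      have h5 : |x| * |y| ≤ pp e n * pp e n := by gcongr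
      have h6 : |z| * |w| ≤ pp e n * pp e n := by gcongr
      calc |θ| ^ 3 * ((|x| * |y|) * (|x| * |y|) * (|z| * |w|))
          ≤ |θ| ^ 3 * ((pp e n * pp e n) * (pp e n * pp e n) * (pp e n * pp e n)) := by gcongr
        _ = _ := by ring
    have k1 := key a b c d ha hb hcc hd
    have k2 := key c d a b hcc hd ha hb
    have k3 := key a d c b ha hd hcc hb
    have k4 := key c b a d hcc hb ha hd
    have h5 : |(Real.sin (θ * (a * d)) * Real.sin (θ * (c * b))
            - (θ * (a * d)) * (θ * (c * b)))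
          - (Real.sin (θ * (a * b)) * Real.sin (θ * (c * d))
            - (θ * (a * b)) * (θ * (c * d)))| ≤ 8 * (|θ| ^ 3 * pp e n ^ 6) := by
      refine (abs_sub _ _).trans ?_
      linarith
    have h6 : |θ| ^ 3 = (4 * Real.pi) ^ 3 * |u| ^ 3 := by
      rw [hθ, abs_mul, abs_of_nonneg (by positivity : (0:ℝ) ≤ 4 * Real.pi)]
      ring
    rw [h6] at h5
    linarith
  have h2 := (tsum_le_CC e h1).2
  simp only [mul_sub, mul_add] at h2
  exact h2

end Pool.Agent.Y218
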