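import Pool.Agent.Y218.ThetaExp
import Pool.Agent.Y218.ThetaDisc

/-!
MP_2bf81a_ag: the theta map `Th : A_g(2,4) → P^(2^g-1)` is not an embedding when `g ≥ 4`.
-/

namespace Pool.Agent.Y218

open Matrix Topology Filter Asymptotics

variable {g : ℕ}

theorem theta2_t0_ne (hg : 4 ≤ g) : theta2 (t0 g) ≠ 0 := by
  have hoff : Off (⟨0, by omega⟩ : Fin g) ⟨2, by omega⟩ ⟨1, by omega⟩ ⟨3, by omega⟩ :=
    ⟨by simp, by simp, by simp, by simp⟩
  intro h
  have h1 := theta2_eq hoff 1 0 (0 : Fin g → Fin 2)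
  have h2 : t0 g + ((0 : ℝ) : ℂ) • dir (⟨0, by omega⟩ : Fin g) ⟨2, by omega⟩ ⟨1, by omega⟩
      ⟨3, by omega⟩ 1 = t0 g := by simp
  rw [h2, h] at h1
  have h3 : ∀ n : Fin g → ℤ, ww 0 n * Real.cos (2 * Real.pi * 0 * qd (⟨0, by omega⟩ : Fin g)
      ⟨2, by omega⟩ ⟨1, by omega⟩ ⟨3, by omega⟩ 1 (mm 0 n)) = ww 0 n * 1 := by
    intro n; simp
  simp only [h3] at h1
  have h4 : Summable fun n : Fin g → ℤ => ww 0 n * (1 : ℝ) :=
    (tsum_le_CC 0 (K := 1) (f := fun _ => 1) (fun n => by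
      rw [one_mul, abs_one]; exact one_le_pp6 0 n)).1
  have h5 : 0 < ∑' n : Fin g → ℤ, ww 0 n * (1 : ℝ) :=
    h4.tsum_pos (fun n => by have := ww_pos 0 n; positivity) 0
      (by have := ww_pos (g := g) 0 0; positivity)
  have h6 : ((∑' n : Fin g → ℤ, ww 0 n * (1 : ℝ) : ℝ) : ℂ) = 0 := h1.symm
  exact h5.ne' (by exact_mod_cast h6)

/-- the main estimate: a contradiction from differentiability -/
theorem no_factor {i j k l : Fin g} (h : Off i j k l)
    (F : ((Fin g → Fin 2) → ℂ) → ℂ) (hF : DifferentiableAt ℂ F (theta2 (t0 g)))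
    (m : ℝ → ℂ) (hm : ∀ u, m u = (4 * u ^ 2 : ℝ))
    (heq : ∀ᶠ u : ℝ in 𝓝 0, m u =
      F (theta2 (t0 g + (u : ℂ) • dir i j k l 1)) - F (theta2 (t0 g + (u : ℂ) • dir i j k l (-1)))
      - F (theta2 (t0 g + (u : ℂ) • dir i l k j 1))
      + F (theta2 (t0 g + (u : ℂ) • dir i l k j (-1)))) : False := by
  have h' : Off i l k j := ⟨h.hi, h.hl, h.hk, h.hj⟩
  obtain ⟨L, hL⟩ := hF
  set v0 := theta2 (t0 g) with hv0
  -- a common constant
  set C : ℝ := ∑ e : Fin g → Fin 2, CC e with hC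
  have hCe : ∀ e : Fin g → Fin 2, CC e ≤ C := fun e =>
    Finset.single_le_sum (f := fun e => CC e) (fun e _ => CC_nonneg e) (Finset.mem_univ e)
  have hC0 : 0 ≤ C := Finset.sum_nonneg fun e _ => CC_nonneg e
  -- each of the four curves is `v0 + O(u²)`
  have hO : ∀ {i j k l : Fin g} (_ : Off i j k l) {σ : ℝ} (_ : |σ| ≤ 1),
      (fun u : ℝ => theta2 (t0 g + (u : ℂ) • dir i j k l σ) - v0) =O[𝓝 0]
        fun u : ℝ => u ^ 2 := by
    intro i j k l h σ hσ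
    refine IsBigO.of_bound (32 * Real.pi ^ 2 * C) (Eventually.of_forall fun u => ?_)
    rw [pi_norm_le_iff_of_nonneg (by positivity)]
    intro e
    have h1 := theta2_sub_le h hσ u e
    have h2 : t0 g + ((0 : ℝ) : ℂ) • dir i j k l σ = t0 g := by simp
    rw [h2] at h1
    refine h1.trans ?_
    rw [Real.norm_eq_abs, abs_of_nonneg (sq_nonneg u)]
    have h3 : u ^ 2 * (32 * Real.pi ^ 2) * CC e ≤ u ^ 2 * (32 * Real.pi ^ 2) * C := by
      gcongr; exact hCe e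
    linarith
  have hu2 : Tendsto (fun u : ℝ => u ^ 2) (𝓝 0) (𝓝 0) := by
    have : Continuous fun u : ℝ => u ^ 2 := by fun_prop
    simpa using this.tendsto 0
  have hT : ∀ {i j k l : Fin g} (_ : Off i j k l) {σ : ℝ} (_ : |σ| ≤ 1),
      Tendsto (fun u : ℝ => theta2 (t0 g + (u : ℂ) • dir i j k l σ)) (𝓝 0) (𝓝 v0) := by
    intro i j k l h σ hσ
    have := (hO h hσ).trans_tendsto hu2
    simpa using this.add_const v0
  -- remainders
  have hR : ∀ {i j k l : Fin g} (_ : Off i j k l) {σ : ℝ} (_ : |σ| ≤ 1),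
      (fun u : ℝ => F (theta2 (t0 g + (u : ℂ) • dir i j k l σ)) - F v0
        - L (theta2 (t0 g + (u : ℂ) • dir i j k l σ) - v0)) =o[𝓝 0] fun u : ℝ => u ^ 2 := by
    intro i j k l h σ hσ
    exact (hL.isLittleO.comp_tendsto (hT h hσ)).trans_isBigO (hO h hσ)
  have h1' : |(1 : ℝ)| ≤ 1 := by norm_num
  have h2' : |(-1 : ℝ)| ≤ 1 := by norm_num
  have hsum := (((hR h h1').sub (hR h h2')).sub (hR h' h1')).add (hR h' h2')
  -- the combination
  set D : ℝ → ((Fin g → Fin 2) → ℂ) := fun u =>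
    theta2 (t0 g + (u : ℂ) • dir i j k l 1) - theta2 (t0 g + (u : ℂ) • dir i j k l (-1))
      - theta2 (t0 g + (u : ℂ) • dir i l k j 1)
      + theta2 (t0 g + (u : ℂ) • dir i l k j (-1)) with hD
  have hD3 : D =O[𝓝 0] fun u : ℝ => |u| ^ 3 := by
    refine IsBigO.of_bound (16 * (4 * Real.pi) ^ 3 * C) (Eventually.of_forall fun u => ?_)
    rw [pi_norm_le_iff_of_nonneg (by positivity)]
    intro e
    have h1 := theta2_comb h u e
    refine (h1 : ‖D u e‖ ≤ _).trans ?_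
    rw [norm_pow, Real.norm_eq_abs, abs_abs]
    have h3 : |u| ^ 3 * (16 * (4 * Real.pi) ^ 3) * CC e
        ≤ |u| ^ 3 * (16 * (4 * Real.pi) ^ 3) * C := by
      gcongr; exact hCe e
    linarith
  have h32 : (fun u : ℝ => |u| ^ 3) =o[𝓝 0] fun u : ℝ => u ^ 2 := by
    rw [isLittleO_iff]
    intro c hc
    filter_upwards [Metric.ball_mem_nhds (0 : ℝ) hc] with u hu
    have hu' : |u| < c := by simpa using hu
    rw [norm_pow, Real.norm_eq_abs, abs_abs, norm_pow, Real.norm_eq_abs]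
    have : |u| ^ 3 = |u| * |u| ^ 2 := by ring
    rw [this]
    gcongr
  have hLD : (fun u : ℝ => L (D u)) =o[𝓝 0] fun u : ℝ => u ^ 2 :=
    ((L.isBigO_comp D (𝓝 0)).trans hD3).trans_isLittleO h32
  have htot : m =o[𝓝 0] fun u : ℝ => u ^ 2 := by
    refine (hsum.add hLD).congr' ?_ EventuallyEq.rfl
    filter_upwards [heq] with u hu
    rw [hu]
    simp only [hD, map_add, map_sub]
    ring
  have h4 := htot.def (c := 1) one_pos
  obtain ⟨δ, hδ, h5⟩ := Metric.eventually_nhds_iff.1 h4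
  have h6 := h5 (y := δ / 2) (by
    rw [Real.dist_eq, sub_zero, abs_of_pos (by positivity)]; linarith)
  rw [hm, Complex.norm_real, Real.norm_eq_abs, Real.norm_eq_abs, abs_of_nonneg (by positivity),
    abs_of_nonneg (by positivity)] at h6
  have : 0 < (δ / 2) ^ 2 := by positivity
  linarith

theorem theta_map_final (g : ℕ) (hg : 4 ≤ g) :
    ∃ t ∈ siegel g, theta2 t ≠ 0 ∧ ¬ IsoOntoImageAt t := by
  refine ⟨t0 g, ?_, theta2_t0_ne hg, ?_⟩
  · apply near_mem (by omega)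
    intro i j
    simp
  · intro hiso
    obtain ⟨Ω, h, hΩ, hh, hev⟩ := exists_quotient_minor hg
    obtain ⟨F, hF, hFe⟩ := hiso Ω h hΩ hh
    have hoff : Off (⟨0, by omega⟩ : Fin g) ⟨2, by omega⟩ ⟨1, by omega⟩ ⟨3, by omega⟩ :=
      ⟨by simp, by simp, by simp, by simp⟩
    have hcont : ∀ (A : Sym2 (Fin g) → ℂ),
        Tendsto (fun u : ℝ => t0 g + (u : ℂ) • A) (𝓝 0) (𝓝 (t0 g)) := by
      intro A
      have : Continuous fun u : ℝ => t0 g + (u : ℂ) • A := by fun_prop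
      simpa using this.tendsto 0
    have hboth := hev.and hFe
    have e1 := (hcont (dir (⟨0, by omega⟩ : Fin g) ⟨2, by omega⟩ ⟨1, by omega⟩ ⟨3, by omega⟩
      1)).eventually hboth
    have e2 := (hcont (dir (⟨0, by omega⟩ : Fin g) ⟨2, by omega⟩ ⟨1, by omega⟩ ⟨3, by omega⟩
      (-1))).eventually hboth
    have e3 := (hcont (dir (⟨0, by omega⟩ : Fin g) ⟨3, by omega⟩ ⟨1, by omega⟩ ⟨2, by omega⟩
      1)).eventually hboth
    have e4 := (hcont (dir (⟨0, by omega⟩ : Fin g) ⟨3, by omega⟩ ⟨1, by omega⟩ ⟨2, by omega⟩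
      (-1))).eventually hboth
    refine no_factor hoff F hF.differentiableAt (fun u => ((4 * u ^ 2 : ℝ) : ℂ)) (fun _ => rfl) ?_
    filter_upwards [e1, e2, e3, e4] with u h1 h2 h3 h4
    rw [← h1.2, ← h2.2, ← h3.2, ← h4.2, h1.1, h2.1, h3.1, h4.1]
    have z02 : t0 g s(⟨0, by omega⟩, ⟨2, by omega⟩) = 0 := by
      show Complex.I * (sc : ℂ) * ((Y1 g _ _ : ℤ) : ℂ) = 0
      simp [Y1, pI]
    have z13 : t0 g s(⟨1, by omega⟩, ⟨3, by omega⟩) = 0 := by
      show Complex.I * (sc : ℂ) * ((Y1 g _ _ : ℤ) : ℂ) = 0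
      simp [Y1, pI]
    have z03 : t0 g s(⟨0, by omega⟩, ⟨3, by omega⟩) = 0 := by
      show Complex.I * (sc : ℂ) * ((Y1 g _ _ : ℤ) : ℂ) = 0
      simp [Y1, pI]
    have z12 : t0 g s(⟨1, by omega⟩, ⟨2, by omega⟩) = 0 := by
      show Complex.I * (sc : ℂ) * ((Y1 g _ _ : ℤ) : ℂ) = 0
      simp [Y1, pI]
    simp only [minor, Pi.add_apply, Pi.smul_apply, smul_eq_mul, dir, z02, z13, z03, z12, zero_add,
      Pi.single_apply, Sym2.eq_iff, Fin.mk.injEq]
    push_cast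
    norm_num
    ring

end Pool.Agent.Y218
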