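import Pool.Agent.Y218.SiegelOmega

namespace Pool.Agent.Y218

open Matrix Topology Filter

variable {g : ℕ}

/-- indicator of the first block `{0, 1}` -/
def pI (i : Fin g) : ℤ := if i.val < 2 then 1 else 0

/-- the even integral form `1 + (all ones on each block)` -/
def Y1 (g : ℕ) : Matrix (Fin g) (Fin g) ℤ :=
  Matrix.of fun i j => (if i = j then 1 else 0) + pI i * pI j + (1 - pI i) * (1 - pI j)

theorem Y1_symm (i j : Fin g) : Y1 g i j = Y1 g j i := by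
  simp only [Y1, Matrix.of_apply, eq_comm (a := i) (b := j)]; ring

theorem Y1_transpose : (Y1 g)ᵀ = Y1 g := by
  ext i j; exact Y1_symm j i

theorem Y1_bilin (x y : Fin g → ℤ) : x ⬝ᵥ (Y1 g *ᵥ y) =
    ∑ i, x i * y i + (∑ i, pI i * x i) * (∑ i, pI i * y i)
      + (∑ i, (1 - pI i) * x i) * (∑ i, (1 - pI i) * y i) := by
  rw [Finset.sum_mul_sum, Finset.sum_mul_sum]
  simp only [dotProduct, Matrix.mulVec, Y1, Matrix.of_apply, Finset.mul_sum]
  rw [← Finset.sum_add_distrib, ← Finset.sum_add_distrib]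
  refine Finset.sum_congr rfl fun i _ => ?_
  have : x i * y i = ∑ j, (if i = j then x i * y j else 0) := by simp
  rw [this, ← Finset.sum_add_distrib, ← Finset.sum_add_distrib]
  refine Finset.sum_congr rfl fun j _ => ?_
  split_ifs <;> ring

theorem Y1_real (x y : Fin g → ℝ) : x ⬝ᵥ (((Y1 g).map (Int.cast : ℤ → ℝ)) *ᵥ y) =
    ∑ i, x i * y i + (∑ i, (pI i : ℝ) * x i) * (∑ i, (pI i : ℝ) * y i)
      + (∑ i, (1 - (pI i : ℝ)) * x i) * (∑ i, (1 - (pI i : ℝ)) * y i) := by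
  rw [Finset.sum_mul_sum, Finset.sum_mul_sum]
  simp only [dotProduct, Matrix.mulVec, Y1, Matrix.of_apply, Finset.mul_sum, Matrix.map_apply]
  rw [← Finset.sum_add_distrib, ← Finset.sum_add_distrib]
  refine Finset.sum_congr rfl fun i _ => ?_
  have : x i * y i = ∑ j, (if i = j then x i * y j else 0) := by simp
  rw [this, ← Finset.sum_add_distrib, ← Finset.sum_add_distrib]
  refine Finset.sum_congr rfl fun j _ => ?_
  push_cast
  split_ifs <;> ring

theorem Y1_ge (x : Fin g → ℤ) : ∑ i, x i * x i ≤ x ⬝ᵥ (Y1 g *ᵥ x) := by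
  rw [Y1_bilin]
  nlinarith [mul_self_nonneg (∑ i, pI i * x i), mul_self_nonneg (∑ i, (1 - pI i) * x i)]

theorem Y1_eq_zero {x : Fin g → ℤ} (h : x ⬝ᵥ (Y1 g *ᵥ x) = 0) : x = 0 := by
  have h1 := Y1_ge x
  rw [h] at h1
  have h2 : ∑ i, x i * x i = 0 := le_antisymm h1 (Finset.sum_nonneg fun i _ => mul_self_nonneg _)
  funext i
  have := (Finset.sum_eq_zero_iff_of_nonneg (fun i _ => mul_self_nonneg (x i))).1 h2 i
    (Finset.mem_univ i)
  simpa using this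

theorem Y1_nonneg (x : Fin g → ℤ) : 0 ≤ x ⬝ᵥ (Y1 g *ᵥ x) :=
  le_trans (Finset.sum_nonneg fun _ _ => mul_self_nonneg _) (Y1_ge x)

theorem Y1_even (x : Fin g → ℤ) : Even (x ⬝ᵥ (Y1 g *ᵥ x)) := by
  rw [Y1_bilin]
  have h1 : Even (∑ i, x i * (x i + 1)) :=
    Finset.even_sum _ fun i _ => Int.even_mul_succ_self (x i)
  have h2 := Int.even_mul_pred_self (∑ i, pI i * x i)
  have h3 := Int.even_mul_pred_self (∑ i, (1 - pI i) * x i)
  have h4 : ∑ i, x i * (x i + 1) = ∑ i, x i * x i + (∑ i, pI i * x i + ∑ i, (1 - pI i) * x i) := by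
    rw [← Finset.sum_add_distrib, ← Finset.sum_add_distrib]
    refine Finset.sum_congr rfl fun i _ => ?_
    ring
  have h5 := (h1.add h2).add h3
  rw [h4] at h5
  have h6 : ∑ i, x i * x i + (∑ i, pI i * x i) * (∑ i, pI i * x i)
      + (∑ i, (1 - pI i) * x i) * (∑ i, (1 - pI i) * x i)
      = ∑ i, x i * x i + (∑ i, pI i * x i + ∑ i, (1 - pI i) * x i) +
        (∑ i, pI i * x i) * (∑ i, pI i * x i - 1) +
      (∑ i, (1 - pI i) * x i) * (∑ i, (1 - pI i) * x i - 1) := by ring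
  rw [h6]
  exact h5

theorem Y1_cancel {X : Matrix (Fin g) (Fin g) ℤ} (h : Y1 g * X = 0) : X = 0 := by
  ext i j
  have h1 : (fun k => X k j) = 0 := by
    apply Y1_eq_zero
    have : Y1 g *ᵥ (fun k => X k j) = 0 := by
      funext k
      have := congrFun (congrFun h k) j
      simpa [Matrix.mul_apply, Matrix.mulVec, dotProduct] using this
    rw [this]; simp
  exact congrFun h1 i

theorem Y1_diag (i : Fin g) : Y1 g i i = 2 := by
  simp only [Y1, Matrix.of_apply, pI]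
  split_ifs <;> norm_num

theorem Y1_single (i j : Fin g) : (Pi.single i 1) ⬝ᵥ (Y1 g *ᵥ (Pi.single j 1)) = Y1 g i j := by
  simp

/-- the scale factor, whose square is `√2` -/
noncomputable def sc : ℝ := Real.sqrt (Real.sqrt 2)

theorem sc_sq : sc * sc = Real.sqrt 2 := Real.mul_self_sqrt (Real.sqrt_nonneg _)

theorem sc_ge : 1 ≤ sc := by
  unfold sc
  rw [Real.one_le_sqrt, Real.one_le_sqrt]
  norm_num

theorem sc_le : sc ≤ 2 := by
  unfold sc
  rw [Real.sqrt_le_left (by norm_num), Real.sqrt_le_left (by norm_num)]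
  norm_num

/-- the base point -/
noncomputable def t0 (g : ℕ) : Sym2 (Fin g) → ℂ :=
  Sym2.lift ⟨fun i j => Complex.I * (sc : ℂ) * ((Y1 g i j : ℤ) : ℂ), fun i j =>
    congrArg (fun z : ℤ => Complex.I * (sc : ℂ) * (z : ℂ)) (Y1_symm i j)⟩

theorem symMat_t0 (i j : Fin g) : symMat (t0 g) i j = Complex.I * (sc : ℂ) * ((Y1 g i j : ℤ) : ℂ) :=
  rfl

theorem symMat_t0' : symMat (t0 g) = (Complex.I * (sc : ℂ)) • cz (Y1 g) := by
  ext i j
  simp [symMat_t0]

theorem cz_injective : Function.Injective (cz (g := g)) := by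
  intro a b h
  ext i j
  have := congrFun (congrFun h i) j
  simpa using this

theorem stab_real {γ : Matrix (Fin g ⊕ Fin g) (Fin g ⊕ Fin g) ℤ} (hr : Rel γ (t0 g) (t0 g)) :
    γ.toBlocks₁₂ = 0 ∧ γ.toBlocks₂₁ = 0 ∧ Y1 g * γ.toBlocks₂₂ = γ.toBlocks₁₁ * Y1 g := by
  unfold Rel num den at hr
  rw [symMat_t0'] at hr
  have h1 : ((Complex.I * (sc : ℂ)) * (Complex.I * (sc : ℂ))) • cz (Y1 g * γ.toBlocks₂₁ * Y1 g)
      + (Complex.I * (sc : ℂ)) • cz (Y1 g * γ.toBlocks₂₂)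
      = (Complex.I * (sc : ℂ)) • cz (γ.toBlocks₁₁ * Y1 g) + cz γ.toBlocks₁₂ := by
    rw [cz_mul, cz_mul, cz_mul, cz_mul]
    rw [Matrix.mul_add, Matrix.smul_mul, Matrix.smul_mul, Matrix.mul_smul, Matrix.mul_smul,
      Matrix.mul_smul, smul_smul] at hr
    rw [Matrix.mul_assoc]
    exact hr
  have h2 : ∀ i j, -(Real.sqrt 2) * ((Y1 g * γ.toBlocks₂₁ * Y1 g) i j : ℝ)
      = (γ.toBlocks₁₂ i j : ℝ) ∧
      sc * ((Y1 g * γ.toBlocks₂₂) i j : ℝ) = sc * ((γ.toBlocks₁₁ * Y1 g) i j : ℝ) := by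
    intro i j
    have h3 := congrFun (congrFun h1 i) j
    simp only [Matrix.add_apply, Matrix.smul_apply, smul_eq_mul, Matrix.map_apply] at h3
    have h4 : (Complex.I * (sc : ℂ)) * (Complex.I * (sc : ℂ)) = ((-(Real.sqrt 2) : ℝ) : ℂ) := by
      rw [← sc_sq]; push_cast
      have : Complex.I * Complex.I = -1 := Complex.I_mul_I
      linear_combination ((sc : ℂ) * (sc : ℂ)) * this
    rw [h4] at h3
    have hre := congrArg Complex.re h3
    have him := congrArg Complex.im h3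
    simp only [Complex.add_re, Complex.add_im, Complex.mul_re, Complex.mul_im, Complex.I_re,
      Complex.I_im, Complex.ofReal_re, Complex.ofReal_im, Complex.intCast_re,
      Complex.intCast_im] at hre him
    constructor
    · linarith
    · linarith
  have hc : ∀ i j, (Y1 g * γ.toBlocks₂₁ * Y1 g) i j = 0 := by
    intro i j
    by_contra hne
    have h3 := (h2 i j).1
    have h4 : Real.sqrt 2 = (((-(γ.toBlocks₁₂ i j : ℚ)) / ((Y1 g * γ.toBlocks₂₁ * Y1 g) i j : ℚ) : ℚ) : ℝ) := by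
      push_cast
      have : ((Y1 g * γ.toBlocks₂₁ * Y1 g) i j : ℝ) ≠ 0 := by exact_mod_cast hne
      field_simp
      linarith
    exact irrational_sqrt_two ⟨_, h4.symm⟩
  have hb : γ.toBlocks₁₂ = 0 := by
    ext i j
    have h3 := (h2 i j).1
    rw [hc i j] at h3
    simp only [Int.cast_zero, mul_zero] at h3
    exact_mod_cast h3.symm
  have hc' : γ.toBlocks₂₁ = 0 := by
    have h3 : Y1 g * (γ.toBlocks₂₁ * Y1 g) = 0 := by
      rw [← Matrix.mul_assoc]; ext i j; exact hc i j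
    have h4 := Y1_cancel h3
    have h5 : Y1 g * (γ.toBlocks₂₁)ᵀ = 0 := by
      have := congrArg Matrix.transpose h4
      simpa [Matrix.transpose_mul, Y1_transpose] using this
    have h6 := Y1_cancel h5
    have := congrArg Matrix.transpose h6
    simpa using this
  refine ⟨hb, hc', ?_⟩
  ext i j
  have h3 := (h2 i j).2
  have h4 : sc ≠ 0 := by have := sc_ge; positivity
  exact_mod_cast mul_left_cancel₀ h4 h3

theorem row_eq {x : Fin g → ℤ} {i : Fin g} (hx : ∀ j, (2 : ℤ) ∣ x j - (Pi.single i 1 : Fin g → ℤ) j)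
    (hQ : x ⬝ᵥ (Y1 g *ᵥ x) = 2) : x = Pi.single i 1 ∨ x = - Pi.single i 1 := by
  choose q hq using hx
  set e : Fin g → ℤ := Pi.single i 1 with he
  have hx' : x = e + (2 : ℤ) • q := by
    funext j
    have := hq j
    simp only [Pi.add_apply, Pi.smul_apply, smul_eq_mul]
    linarith
  have hee : e ⬝ᵥ (Y1 g *ᵥ e) = 2 := by rw [he, Y1_single, Y1_diag]
  have hsym : ∀ x y : Fin g → ℤ, x ⬝ᵥ (Y1 g *ᵥ y) = y ⬝ᵥ (Y1 g *ᵥ x) := by
    intro x y
    rw [Y1_bilin, Y1_bilin, mul_comm (∑ i, pI i * x i), mul_comm (∑ i, (1 - pI i) * x i)]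
    congr 2
    exact Finset.sum_congr rfl fun i _ => mul_comm _ _
  have h1 : x ⬝ᵥ (Y1 g *ᵥ x)
      = e ⬝ᵥ (Y1 g *ᵥ e) + 4 * (e ⬝ᵥ (Y1 g *ᵥ q)) + 4 * (q ⬝ᵥ (Y1 g *ᵥ q)) := by
    rw [hx']
    simp only [add_dotProduct, Matrix.mulVec_add, dotProduct_add, Matrix.mulVec_smul,
      smul_dotProduct, dotProduct_smul, smul_eq_mul, hsym q e]
    ring
  have h2 : (e + q) ⬝ᵥ (Y1 g *ᵥ (e + q))
      = e ⬝ᵥ (Y1 g *ᵥ e) + 2 * (e ⬝ᵥ (Y1 g *ᵥ q)) + (q ⬝ᵥ (Y1 g *ᵥ q)) := by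
    simp only [add_dotProduct, Matrix.mulVec_add, dotProduct_add, hsym q e]
    ring
  rw [hQ, hee] at h1
  rw [hee] at h2
  have h3 := Y1_nonneg q
  have h4 := Y1_nonneg (e + q)
  obtain ⟨k, hk⟩ := Y1_even q
  obtain ⟨l, hl⟩ := Y1_even (e + q)
  have h5 : q ⬝ᵥ (Y1 g *ᵥ q) = 0 ∨ (e + q) ⬝ᵥ (Y1 g *ᵥ (e + q)) = 0 := by omega
  rcases h5 with h5 | h5
  · left
    have := Y1_eq_zero h5
    rw [hx', this]; simp
  · right
    have := Y1_eq_zero h5
    have hq' : q = -e := by rw [eq_neg_iff_add_eq_zero, add_comm]; exact this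
    rw [hx', hq']
    funext j; simp only [Pi.add_apply, Pi.smul_apply, Pi.neg_apply, smul_eq_mul]; ring

/-- the `2 × 2` minor of the off-diagonal block -/
def minor (hg : 4 ≤ g) (t : Sym2 (Fin g) → ℂ) : ℂ :=
  t s(⟨0, by omega⟩, ⟨2, by omega⟩) * t s(⟨1, by omega⟩, ⟨3, by omega⟩) -
  t s(⟨0, by omega⟩, ⟨3, by omega⟩) * t s(⟨1, by omega⟩, ⟨2, by omega⟩)

theorem minor_inv (hg : 4 ≤ g) {γ : Matrix (Fin g ⊕ Fin g) (Fin g ⊕ Fin g) ℤ} (hγ : γ ∈ gamma2 g)
    (hr : Rel γ (t0 g) (t0 g)) {s s' : Sym2 (Fin g) → ℂ} (hs : Rel γ s s') :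
    minor hg s' = minor hg s := by
  obtain ⟨hb, hc, hYd⟩ := stab_real hr
  obtain ⟨-, -, h3⟩ := sp_blocks hγ.1
  rw [hc, Matrix.transpose_zero, Matrix.zero_mul, sub_zero] at h3
  have h4 : γ.toBlocks₂₂ * γ.toBlocks₁₁ᵀ = 1 := mul_eq_one_comm.1 h3
  have h5 : γ.toBlocks₁₁ * Y1 g * γ.toBlocks₁₁ᵀ = Y1 g := by
    rw [← hYd, Matrix.mul_assoc, h4, Matrix.mul_one]
  have hQ : ∀ i j, (γ.toBlocks₁₁ i) ⬝ᵥ (Y1 g *ᵥ (γ.toBlocks₁₁ j)) = Y1 g i j := by
    intro i j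
    have h6 := congrFun (congrFun h5 i) j
    rw [Matrix.mul_assoc, Matrix.mul_apply] at h6
    rw [← h6]
    simp only [dotProduct, Matrix.mulVec, Matrix.mul_apply, Matrix.transpose_apply]
  have hrow : ∀ i, γ.toBlocks₁₁ i = Pi.single i 1 ∨ γ.toBlocks₁₁ i = - Pi.single i 1 := by
    intro i
    refine row_eq (fun j => ?_) (by rw [hQ, Y1_diag])
    have := hγ.2 (Sum.inl i) (Sum.inl j)
    simp only [Matrix.sub_apply, Matrix.one_apply, Sum.inl.injEq] at this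
    rw [Pi.single_apply]
    simp only [eq_comm (a := j) (b := i)]
    exact this
  have hsig : ∀ i, ∃ σ : ℤ, σ * σ = 1 ∧ γ.toBlocks₁₁ i = σ • Pi.single i 1 := by
    intro i
    rcases hrow i with h | h
    · exact ⟨1, by norm_num, by rw [h]; simp⟩
    · exact ⟨-1, by norm_num, by rw [h]; simp⟩
  choose σ hσ hσ' using hsig
  have hsame : ∀ i j, Y1 g i j = 1 → σ i * σ j = 1 := by
    intro i j hij
    have h6 := hQ i j
    rw [hσ', hσ', Matrix.mulVec_smul, smul_dotProduct, dotProduct_smul, Y1_single, hij] at h6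
    simpa using h6
  have ha : γ.toBlocks₁₁ = Matrix.diagonal σ := by
    ext i j
    rw [hσ' i, Matrix.diagonal_apply]
    simp only [Pi.smul_apply, Pi.single_apply, smul_eq_mul, eq_comm (a := j) (b := i)]
    split_ifs <;> simp
  have hd : γ.toBlocks₂₂ = Matrix.diagonal σ := by
    have h6 : γ.toBlocks₁₁ * γ.toBlocks₁₁ = 1 := by
      rw [ha, Matrix.diagonal_mul_diagonal]
      ext i j
      rw [Matrix.diagonal_apply, Matrix.one_apply, hσ]
    have h7 : γ.toBlocks₁₁ᵀ = γ.toBlocks₁₁ := by rw [ha, Matrix.diagonal_transpose]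
    rw [h7] at h3
    calc γ.toBlocks₂₂ = (γ.toBlocks₁₁ * γ.toBlocks₁₁) * γ.toBlocks₂₂ := by rw [h6, Matrix.one_mul]
      _ = γ.toBlocks₁₁ := by rw [Matrix.mul_assoc, h3, Matrix.mul_one]
      _ = _ := ha
  have hmv : ∀ i j, s' s(i, j) = (σ i : ℂ) * (σ j : ℂ) * s s(i, j) := by
    intro i j
    unfold Rel num den at hs
    rw [hb, hc, ha, hd] at hs
    have h6 := congrFun (congrFun hs i) j
    have hdc : cz (Matrix.diagonal σ) = Matrix.diagonal (fun i => (σ i : ℂ)) := by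
      ext i j
      simp only [Matrix.map_apply, Matrix.diagonal_apply]
      split_ifs <;> simp
    have hz : cz (0 : Matrix (Fin g) (Fin g) ℤ) = 0 := by ext i j; simp
    rw [hdc, hz, Matrix.zero_mul, zero_add, add_zero, Matrix.mul_diagonal, Matrix.diagonal_mul,
      symMat_apply, symMat_apply] at h6
    have h7 : (σ j : ℂ) * (σ j : ℂ) = 1 := by exact_mod_cast hσ j
    linear_combination (σ j : ℂ) * h6 - s' s(i, j) * h7
  have h01 : (σ ⟨0, by omega⟩ : ℂ) * (σ ⟨1, by omega⟩ : ℂ) = 1 := by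
    exact_mod_cast hsame _ _ (by simp [Y1, pI])
  have h23 : (σ ⟨2, by omega⟩ : ℂ) * (σ ⟨3, by omega⟩ : ℂ) = 1 := by
    exact_mod_cast hsame _ _ (by simp [Y1, pI])
  unfold minor
  rw [hmv, hmv, hmv, hmv]
  linear_combination ((σ ⟨2, by omega⟩ : ℂ) * (σ ⟨3, by omega⟩ : ℂ) *
    (s s(⟨0, by omega⟩, ⟨2, by omega⟩) * s s(⟨1, by omega⟩, ⟨3, by omega⟩) -
  s s(⟨0, by omega⟩, ⟨3, by omega⟩) * s s(⟨1, by omega⟩, ⟨2, by omega⟩))) * h01
    + (s s(⟨0, by omega⟩, ⟨2, by omega⟩) * s s(⟨1, by omega⟩, ⟨3, by omega⟩) -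
  s s(⟨0, by omega⟩, ⟨3, by omega⟩) * s s(⟨1, by omega⟩, ⟨2, by omega⟩)) * h23

end Pool.Agent.Y218
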